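import Pool.Agent.Work.MP_849ab0_ag.G.QBasic
import Pool.Agent.Work.MP_849ab0_ag.G.Goal

-- merged part: Pool.Agent.Work.MP_849ab0_ag.G.H2.TDef
section
/-!
Toric integration and the virtual Euler class: definitions.
-/

noncomputable section

set_option linter.unusedSectionVars false
set_option linter.unusedVariables false

namespace Pool.Agent.Work.MP_849ab0_ag.G

open Set Topology Matrix

/-- the group `T_A × H` -/
abbrev TG (A : Type) [Fintype A] [DecidableEq A] (H : Gp) : Gp := (Gp.tor A).prod H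

/-- the inclusion `H → T_A × H` -/
def inT (A : Type) [Fintype A] [DecidableEq A] (H : Gp) : H.H → (TG A H).H := fun g => (1, g)

instance (A : Type) [Fintype A] [DecidableEq A] (H : Gp) : IsHom (inT A H) := IsHom.inr

/-- the map `T_A × H' → T_A × H` -/
def mapT (A : Type) [Fintype A] [DecidableEq A] {H H' : Gp} (φ : H'.H → H.H) :
    (TG A H').H → (TG A H).H := fun g => (g.1, φ g.2)

instance (A : Type) [Fintype A] [DecidableEq A] {H H' : Gp} (φ : H'.H → H.H) [h : IsHom φ] :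
    IsHom (mapT A φ) := IsHom.prodMk IsHom.fst (IsHom.comp (h := h) (k := IsHom.snd))

section

variable {A R : Type} [Fintype A] [DecidableEq A] [Fintype R] [Nonempty R] {H : Gp} [H.Nice]
  {X Y : Type} [TopologicalSpace X] [TopologicalSpace Y] {J : Type} [Fintype J]

/-- the top exponent -/
def topIx (A R : Type) [Fintype R] [Nonempty R] : A → Fin (Fintype.card R) :=
  fun _ => ⟨Fintype.card R - 1, Nat.sub_lt Fintype.card_pos Nat.one_pos⟩

/-- the standard basis expansion on a product of spheres -/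
def sphSum (χ : A × R → H.H → ℂ) (a : Act H X) (U Z : Set X)
    (z : (A → Fin (Fintype.card R)) → EH a U Z) :
    EH ((sphRep χ).prod (a.res Prod.snd)) (sph A R ×ˢ U) (univ ×ˢ Z) :=
  ∑ m, sm (polx A H (∏ j, MvPolynomial.X j ^ (m j : ℕ))) (gp _ Prod.snd Prod.snd _ _ (z m))

/-- the top coefficient: integration over a product of projective spaces -/
def stop (χ : A × R → H.H → ℂ) (a : Act H X) (U Z : Set X) :
    EH ((sphRep χ).prod (a.res Prod.snd)) (sph A R ×ˢ U) (univ ×ˢ Z) →ₗ[ℂ] EH a U Z :=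
  Classical.epsilon fun L => ∀ z, L (sphSum χ a U Z z) = z (topIx A R)

/-- the graph of `E` over `O` -/
def gph (O : Set Y) (E : Y → A × R → ℂ) : Set ((A × R → ℂ) × Y) := {z | z.2 ∈ O ∧ z.1 = E z.2}

/-- the class of the graph of `E`, extended by zero -/
def kap (χ : A × R → H.H → ℂ) (b : Act (TG A H) Y) (O : Set Y) (E : Y → A × R → ℂ) (V : Set Y) :
    EH ((sphRep χ).prod b) (sph A R ×ˢ V) (gph O E) :=
  linv (gp ((sphRep χ).prod b) id id (sph A R ×ˢ (V ∩ O)) (gph O E))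
    (eul ((sphRep χ).prod b) (sphRep χ) (fun z => z.1 - E z.2) (sph A R ×ˢ (V ∩ O)) (gph O E))

/-- integration over `{y ∈ O | E y ∈ sph} / T_A` -/
def tint (χ : A × R → H.H → ℂ) (a : Act H X) {b : Act (TG A H) Y} (ρ : Act (TG A H) (J → ℂ))
    (p : Y → X) (F : Y → J → ℂ) (O : Set Y) (E : Y → A × R → ℂ) (U Z : Set X) {V W : Set Y} :
    EH b V W →ₗ[ℂ] EH a U Z :=
  stop χ a U Z ∘ₗ
    intg ((sphRep χ).prod (a.res Prod.snd)) ρ (fun z : (A × R → ℂ) × Y => (z.1, p z.2))
      (fun z => F z.2) (sph A R ×ˢ U) (univ ×ˢ Z) ∘ₗ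
    (ecup (sph A R ×ˢ (p ⁻¹' U)) (univ ×ˢ W ∩ gph O E)).flip (kap χ b O E (p ⁻¹' U)) ∘ₗ
    gp ((sphRep χ).prod b) id Prod.snd (sph A R ×ˢ (V ∩ p ⁻¹' U)) (univ ×ˢ W)

/-- admissible data for `tint` -/
structure TAdm (χ : A × R → H.H → ℂ) (a : Act H X) (b : Act (TG A H) Y)
    (ρ : Act (TG A H) (J → ℂ)) (p : Y → X) (F : Y → J → ℂ) (O : Set Y) (E : Y → A × R → ℂ)
    (U Z : Set X) (V W : Set Y) : Prop where
  ch : ∀ z, IsChar (χ z)
  fib : Fib (a.res Prod.snd) b ρ p F U
  tgt : a.Pr U Z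
  src : b.Pr V W
  opn : b.Pr (p ⁻¹' U) Oᶜ
  contE : ContinuousOn E (p ⁻¹' U ∩ O)
  eqvE : ∀ g, ∀ y ∈ p ⁻¹' U ∩ O, E (b.act g y) = (sphRep χ).act g (E y)
  lev : b.Pr (p ⁻¹' U) (O ∩ E ⁻¹' sph A R)
  sub : ∀ y ∈ O, E y ∈ sph A R → p y ∈ U → y ∈ V
  supp : ∀ y ∈ W, y ∈ O → E y ∈ sph A R → p y ∈ U → p y ∈ Z
  bdd : ∃ C : X → ℝ, ContinuousOn C U ∧ (∀ g, ∀ x ∈ U, C (a.act g x) = C x) ∧
    ∀ y ∈ W, y ∈ O → E y ∈ sph A R → p y ∈ U → nsq (F y) ≤ C (p y)

end

/-- Toric data: the coordinate `p` has weight `m p` under `T_A` and character `c p` under `H`;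
the level set is `∑ m p * |y p| ^ 2 = -θ`. -/
structure TD (A J : Type) (H : Gp) where
  m : J → A → ℤ
  c : J → H.H → ℂ
  θ : A → ℝ

namespace TD

variable {A J : Type} [Fintype A] [DecidableEq A] [Fintype J] {H : Gp} [H.Nice] (D : TD A J H)

/-- the shifted moment map -/
def mu (y : J → ℂ) (j : A) : ℝ := ∑ p, D.m p j * ‖y p‖ ^ 2 + D.θ j

/-- the level set -/
def lev : Set (J → ℂ) := {y | ∀ j, D.mu y j = 0}

/-- the representation -/
def rep : Act (TG A H) (J → ℂ) := Act.dg fun p g => chr (D.m p) g.1 * D.c p g.2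

/-- `r` is supported in `S` and has weight `x j` -/
def IsR (j : A) (S : Finset J) (r : J → ℤ) : Prop :=
  (∀ p, p ∉ S → r p = 0) ∧ ∑ p, r p • D.m p = Pi.single j 1

/-- the characters are unitary and `T_A` acts freely on the level set -/
structure Ok : Prop where
  ch : ∀ p, IsChar (D.c p)
  free : ∀ y ∈ D.lev, ∀ j, ∃ r : J → ℤ, (∀ p, y p = 0 → r p = 0) ∧ ∑ p, r p • D.m p = Pi.single j 1

/-- a chosen exponent vector -/
def rr (z : A × Finset J) : J → ℤ :=
  Classical.epsilon (D.IsR z.1 z.2)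

/-- a monomial in `y` and its conjugate, of weight `x j` -/
def psi (y : J → ℂ) (z : A × Finset J) : ℂ :=
  open Classical in
  if ∃ r, D.IsR z.1 z.2 r then
    ∏ p, y p ^ (D.rr z p).toNat * (starRingEnd ℂ (y p)) ^ (-D.rr z p).toNat else 0

/-- the character of `H` on `psi` -/
def chi (z : A × Finset J) (g : H.H) : ℂ := ∏ p, D.c p g ^ D.rr z p

/-- the set where no `psi j` vanishes -/
def opn : Set (J → ℂ) := {y | ∀ j, (fun S => D.psi y (j, S)) ≠ 0}

/-- `exp (mu) psi / |psi|` -/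
def emb (y : J → ℂ) (z : A × Finset J) : ℂ :=
  ((Real.exp (D.mu y z.1) / Real.sqrt (nsq fun S => D.psi y (z.1, S)) : ℝ) : ℂ) * D.psi y z

variable {X Y : Type} [TopologicalSpace X] [TopologicalSpace Y] {Jt : Type} [Fintype Jt]

/-- The toric integral.  `(p, F) : p ⁻¹' U ≃ U × ℂ ^ Jt`, `y` are the toric coordinates; the
integral is over the fibres of `y ⁻¹' lev / T_A → U`. -/
def int (a : Act H X) {b : Act (TG A H) Y} (ρ : Act (TG A H) (Jt → ℂ)) (p : Y → X)
    (F : Y → Jt → ℂ) (y : Y → J → ℂ) (U Z : Set X) {V W : Set Y} : EH b V W →ₗ[ℂ] EH a U Z :=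
  tint D.chi a ρ p F (y ⁻¹' D.opn) (fun z => D.emb (y z)) U Z

/-- admissible data for `int` -/
structure Adm (a : Act H X) (b : Act (TG A H) Y) (ρ : Act (TG A H) (Jt → ℂ)) (p : Y → X)
    (F : Y → Jt → ℂ) (y : Y → J → ℂ) (U Z : Set X) (V W : Set Y) : Prop where
  ok : D.Ok
  fib : Fib (a.res Prod.snd) b ρ p F U
  tgt : a.Pr U Z
  src : b.Pr V W
  conty : ContinuousOn y (p ⁻¹' U)
  eqvy : ∀ g, ∀ z ∈ p ⁻¹' U, y (b.act g z) = D.rep.act g (y z)
  sub : ∀ z, y z ∈ D.lev → p z ∈ U → z ∈ V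
  supp : ∀ z ∈ W, y z ∈ D.lev → p z ∈ U → p z ∈ Z
  bdd : ∃ C : X → ℝ, ContinuousOn C U ∧ (∀ g, ∀ x ∈ U, C (a.act g x) = C x) ∧
    ∀ z ∈ W, y z ∈ D.lev → p z ∈ U → nsq (F z) ≤ C (p z)

end TD

section

variable {G : Gp} [G.Nice] {J J' : Type} [Fintype J] [Fintype J']

/-- `q` is the constant term of the quotient of `e (ρ')` by the monic polynomial `e (ρ)` in the
weight of the scalar circle -/
def IsVq (ρ : Act G (J → ℂ)) (ρ' : Act G (J' → ℂ)) (q : HPt G) : Prop :=
  ∃ (Q : HPt (TG Unit G)) (r : ℕ → HPt G),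
    euc ρ'.scal = euc ρ.scal * Q + ∑ i ∈ Finset.range (Fintype.card J),
      polx Unit G (MvPolynomial.X () ^ i) * gpt Prod.snd (r i) ∧
    q = gpt (inT Unit G) Q

/-- the Euler class of the virtual representation `ρ' - ρ` -/
def vq (ρ : Act G (J → ℂ)) (ρ' : Act G (J' → ℂ)) : HPt G := Classical.epsilon (IsVq ρ ρ')

end

end Pool.Agent.Work.MP_849ab0_ag.G
end
end

-- merged part: Pool.Agent.Work.MP_849ab0_ag.G.H2.Tor
section
/-!
Toric data: the level set, the monomials `psi` and the map `emb`.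

Hints.  `psi_act`: for a unit complex number `u`, `u ^ r.toNat * conj u ^ (-r).toNat = u ^ r`;
`∏ q, chr (m q) g ^ r q = chr (∑ q, r q • m q) g = g j` (`chr_add`, `chr_zsmul`, `chr_single` in
ApiI, `Classical.epsilon_spec`).  `lev_sub_opn`: take `S = univ.filter (y · ≠ 0)`.
`nsq_emb`: `nsq (c • v) = c ^ 2 * nsq v`.  `Adm.tadm`: on `p ⁻¹' U` the set
`y ⁻¹' opn ∩ (emb ∘ y) ⁻¹' sph` is `y ⁻¹' lev`; `Act.Pr.preimage'` (ApiI), and `Act.Pr` only depends
on `U ∩ Z`.  `ok_of_graph`: let `L` be the subgroup of `A → ℤ` spanned by the `m q` with `y q ≠ 0`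
(as the set of `∑ r q • m q`), `C = {j | Pi.single j 1 ∉ L}`.  An arrow `q` with `y q ≠ 0` has both
ends in `some '' C` or none, so `∑ j ∈ C, m q j = 0`; summing `mu y j = 0` over `C` gives
`∑ j ∈ C, θ j = 0`, so `C = ∅`.  `nsq_le_of_pot`: sum `(s (some j) - s none) * mu w j = 0` over `j`.
-/

noncomputable section

set_option linter.unusedSectionVars false
set_option linter.unusedVariables false

namespace Pool.Agent.Work.MP_849ab0_ag.G

open Set Topology Matrix

namespace TD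

variable {A J : Type} [Fintype A] [DecidableEq A] [Fintype J] {H : Gp} [H.Nice] {D : TD A J H}

theorem tor_dmu (j : A) : Differentiable ℝ fun y => D.mu y j :=
  (Differentiable.fun_sum fun p _ =>
    ((differentiable_apply p).norm_sq ℂ).const_mul _).add_const _

theorem tor_dpsi (z : A × Finset J) : Differentiable ℝ fun y => D.psi y z := by
  by_cases h : ∃ r, D.IsR z.1 z.2 r
  · simp only [psi, if_pos h]
    refine (contDiff_prod (n := 1) fun p _ => ?_).differentiable one_ne_zero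
    exact ((contDiff_apply ℝ ℂ p).pow _).mul
      ((Complex.conjCLE.contDiff.comp (contDiff_apply ℝ ℂ p)).pow _)
  · simp only [psi, if_neg h]
    exact differentiable_const _

theorem tor_dnsq (j : A) : Differentiable ℝ fun y => nsq fun S => D.psi y (j, S) :=
  Differentiable.fun_sum fun S _ => (tor_dpsi (j, S)).norm_sq ℂ

theorem tor_pos {K : Type} [Fintype K] {v : K → ℂ} (h : v ≠ 0) : 0 < nsq v := by
  obtain ⟨i, hi⟩ := Function.ne_iff.1 h
  exact Finset.sum_pos' (fun _ _ => sq_nonneg _)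
    ⟨i, Finset.mem_univ _, pow_pos (norm_pos_iff.2 hi) 2⟩

theorem tor_demb {w : J → ℂ} (hw : w ∈ D.opn) : DifferentiableAt ℝ D.emb w := by
  refine differentiableAt_pi.2 fun z => DifferentiableAt.mul ?_ (tor_dpsi z w)
  have h := tor_pos (hw z.1)
  exact Complex.ofRealCLM.differentiableAt.comp w
    ((tor_dmu z.1 w).exp.mul ((((tor_dnsq z.1 w).sqrt h.ne').inv (Real.sqrt_pos.2 h).ne')))

theorem tor_ch (h : D.Ok) (p : J) :
    IsChar (G := TG A H) fun g => chr (D.m p) g.1 * D.c p g.2 :=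
  ((isChar_chr (D.m p)).comp (G' := TG A H) Prod.fst).mul' ((h.ch p).comp (G' := TG A H) Prod.snd)

theorem tor_unit {u : ℂ} (hu : ‖u‖ = 1) (r : ℤ) :
    u ^ r.toNat * starRingEnd ℂ u ^ (-r).toNat = u ^ r := by
  have h0 : u ≠ 0 := fun e => by simp [e] at hu
  rw [← Complex.inv_eq_conj hu, inv_pow, ← zpow_natCast, ← zpow_natCast, ← div_eq_mul_inv,
    ← zpow_sub₀ h0, Int.toNat_sub_toNat_neg]

theorem tor_chr (m : J → A → ℤ) (r : J → ℤ) (g : A → Circle) (s : Finset J) :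
    ∏ p ∈ s, chr (m p) g ^ r p = chr (∑ p ∈ s, r p • m p) g := by
  classical
  induction s using Finset.induction_on with
  | empty => simp [chr]
  | insert a s ha ih => rw [Finset.prod_insert ha, Finset.sum_insert ha, chr_add, chr_zsmul, ih]

theorem continuous_mu (j : A) : Continuous fun y => D.mu y j :=
  (tor_dmu j).continuous

theorem isClosed_lev : IsClosed D.lev := by
  have : D.lev = ⋂ j, {y | D.mu y j = 0} := Set.ext fun _ => by simp [lev]
  rw [this]
  exact isClosed_iInter fun j => isClosed_eq (continuous_mu j) continuous_const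

theorem Ok.rep (h : D.Ok) : D.rep.Rep :=
  Act.rep_dg (tor_ch h)

theorem Ok.mu_act (h : D.Ok) (g : (TG A H).H) (w : J → ℂ) : D.mu (D.rep.act g w) = D.mu w := by
  funext j
  refine congrArg (· + D.θ j) (Finset.sum_congr rfl fun p _ => ?_)
  change _ * ‖chr (D.m p) g.1 * D.c p g.2 * w p‖ ^ 2 = _
  rw [norm_mul, (tor_ch h p).norm g, one_mul]

theorem Ok.act_mem_lev (h : D.Ok) (g : (TG A H).H) {w : J → ℂ} (hw : w ∈ D.lev) :
    D.rep.act g w ∈ D.lev :=
  fun j => by rw [h.mu_act, hw j]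

theorem Ok.isChar_chi (h : D.Ok) (z : A × Finset J) : IsChar (D.chi z) := by
  refine ⟨fun g k => ?_, continuous_finsetProd _ fun p _ =>
    (h.ch p).cont.zpow₀ _ fun g => Or.inl ((h.ch p).ne_zero g), fun g => ?_⟩
  · simp only [chi, (h.ch _).mul, mul_zpow, Finset.prod_mul_distrib]
  · simp [chi, (h.ch _).norm]

theorem continuous_psi : Continuous D.psi :=
  continuous_pi fun z => (tor_dpsi z).continuous

theorem Ok.psi_act (h : D.Ok) (g : (TG A H).H) (w : J → ℂ) :
    D.psi (D.rep.act g w) = (sphRep D.chi).act g (D.psi w) := by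
  funext z
  change _ = (g.1 z.1 : ℂ) * D.chi z g.2 * D.psi w z
  by_cases hz : ∃ r, D.IsR z.1 z.2 r
  · have hr : D.IsR z.1 z.2 (D.rr z) := Classical.epsilon_spec hz
    simp only [psi, if_pos hz]
    rw [← chr_single z.1 g.1, ← hr.2, ← tor_chr, chi, ← Finset.prod_mul_distrib,
      ← Finset.prod_mul_distrib]
    refine Finset.prod_congr rfl fun p _ => ?_
    change (chr (D.m p) g.1 * D.c p g.2 * w p) ^ _ *
      starRingEnd ℂ (chr (D.m p) g.1 * D.c p g.2 * w p) ^ _ = _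
    rw [← mul_zpow, ← tor_unit ((tor_ch h p).norm g), map_mul _ _ (w p), mul_pow _ (w p),
      mul_pow _ (starRingEnd ℂ (w p))]
    ring
  · simp only [psi, if_neg hz, mul_zero]

theorem isOpen_opn : IsOpen D.opn := by
  have : D.opn = ⋂ j, {y | (fun S => D.psi y (j, S)) ≠ 0} := Set.ext fun _ => by simp [opn]
  rw [this]
  exact isOpen_iInter_of_finite fun j =>
    isOpen_ne_fun (continuous_pi fun S => (tor_dpsi (j, S)).continuous) continuous_const

theorem tor_nsq (h : D.Ok) (g : (TG A H).H) (w : J → ℂ) (j : A) :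
    (nsq fun S => D.psi (D.rep.act g w) (j, S)) = nsq fun S => D.psi w (j, S) := by
  refine Finset.sum_congr rfl fun S _ => ?_
  rw [h.psi_act]
  change ‖(g.1 j : ℂ) * D.chi (j, S) g.2 * D.psi w (j, S)‖ ^ 2 = _
  rw [norm_mul, norm_mul, (h.isChar_chi _).norm, Circle.norm_coe, one_mul, one_mul]

theorem tor_opn {w : J → ℂ} : w ∈ D.opn ↔ ∀ j, 0 < nsq fun S => D.psi w (j, S) :=
  forall_congr' fun j => ⟨tor_pos, fun k e => by
    rw [e] at k
    simp [nsq] at k⟩

theorem Ok.act_mem_opn (h : D.Ok) (g : (TG A H).H) {w : J → ℂ} : D.rep.act g w ∈ D.opn ↔ w ∈ D.opn := by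
  simp only [tor_opn, tor_nsq h]

theorem Ok.lev_sub_opn (h : D.Ok) : D.lev ⊆ D.opn := by
  classical
  intro y hy j
  obtain ⟨r, h1, h2⟩ := h.free y hy j
  have hz : ∃ r, D.IsR j (Finset.univ.filter (y · ≠ 0)) r :=
    ⟨r, fun p hp => h1 p (by simpa using hp), h2⟩
  have hr : D.IsR j _ (D.rr (j, Finset.univ.filter (y · ≠ 0))) := Classical.epsilon_spec hz
  refine Function.ne_iff.2 ⟨Finset.univ.filter (y · ≠ 0), ?_⟩
  simp only [psi, if_pos hz]
  refine Finset.prod_ne_zero_iff.2 fun p _ => ?_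
  by_cases hp : y p = 0
  · rw [hr.1 p (by simpa using hp)]
    simp
  · exact mul_ne_zero (pow_ne_zero _ hp) (pow_ne_zero _ ((map_ne_zero _).2 hp))

theorem continuousOn_emb : ContinuousOn D.emb D.opn :=
  fun _ hw => (tor_demb hw).continuousAt.continuousWithinAt

theorem Ok.emb_act (h : D.Ok) (g : (TG A H).H) (w : J → ℂ) :
    D.emb (D.rep.act g w) = (sphRep D.chi).act g (D.emb w) := by
  funext z
  change _ = (g.1 z.1 : ℂ) * D.chi z g.2 * D.emb w z
  rw [emb, emb, h.mu_act, tor_nsq h, h.psi_act]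
  exact mul_left_comm _ _ _

theorem nsq_emb {w : J → ℂ} (hw : w ∈ D.opn) (j : A) :
    (nsq fun S => D.emb w (j, S)) = Real.exp (2 * D.mu w j) := by
  have h := tor_pos (hw j)
  have e : (nsq fun S => D.emb w (j, S)) = (Real.exp (D.mu w j) /
      Real.sqrt (nsq fun S => D.psi w (j, S))) ^ 2 * nsq fun S => D.psi w (j, S) := by
    conv_rhs => rw [nsq.eq_1 fun S => D.psi w (j, S), Finset.mul_sum]
    refine Finset.sum_congr rfl fun S _ => ?_
    simp only [emb]
    rw [norm_mul, mul_pow, Complex.norm_real, Real.norm_eq_abs, sq_abs]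
    rfl
  rw [e, div_pow, Real.sq_sqrt h.le, div_mul_cancel₀ _ h.ne', two_mul, Real.exp_add, sq]

theorem Ok.mem_lev (h : D.Ok) {w : J → ℂ} :
    w ∈ D.lev ↔ w ∈ D.opn ∧ D.emb w ∈ sph A (Finset J) := by
  refine ⟨fun hw => ⟨h.lev_sub_opn hw, fun j => ?_⟩, fun hw j => ?_⟩
  · rw [nsq_emb (h.lev_sub_opn hw), hw j, mul_zero, Real.exp_zero]
  · have := hw.2 j
    rw [nsq_emb hw.1, Real.exp_eq_one_iff] at this
    linarith

theorem differentiableAt_emb {w : J → ℂ} (hw : w ∈ D.opn) : DifferentiableAt ℝ D.emb w :=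
  tor_demb hw

theorem hasDerivAt_mu (w δ : J → ℂ) (j : A) : HasDerivAt (fun t : ℝ => D.mu (w + t • δ) j)
    (2 * ∑ q, D.m q j * (starRingEnd ℂ (w q) * δ q).re) 0 := by
  rw [Finset.mul_sum]
  refine (HasDerivAt.fun_sum fun q _ => ?_).add_const _
  have h : HasDerivAt (fun t : ℝ => (w + t • δ) q) (δ q) 0 := by
    simpa using ((hasDerivAt_id (0 : ℝ)).smul_const (δ q)).const_add (w q)
  refine (h.norm_sq.const_mul (D.m q j : ℝ)).congr_deriv ?_
  rw [Complex.inner, zero_smul, add_zero, mul_comm (δ q)]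
  ring

/-- the maps only depend on the weights and on the level -/
theorem congr_emb {H' : Gp} {D' : TD A J H'} (em : D'.m = D.m) (eθ : D'.θ = D.θ) :
    D'.lev = D.lev ∧ D'.opn = D.opn ∧ D'.emb = D.emb ∧ D'.rr = D.rr := by
  have h1 : D'.IsR = D.IsR := by
    funext j S r
    simp only [IsR, em]
  have h2 : D'.rr = D.rr := by
    funext z
    simp only [rr, h1]
  have h3 : D'.psi = D.psi := by
    funext y z
    unfold psi
    rw [h1, h2]
  have h4 : D'.mu = D.mu := by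
    funext y j
    simp only [mu, em, eθ]
  refine ⟨?_, ?_, ?_, h2⟩
  · simp only [lev, h4]
  · simp only [opn, h3]
  · funext y z
    simp only [emb, h3, h4]

theorem Adm.tadm {X Y Jt : Type} [TopologicalSpace X] [TopologicalSpace Y] [Fintype Jt]
    {a : Act H X} [a.Ok] {b : Act (TG A H) Y} [b.Ok] {ρ : Act (TG A H) (Jt → ℂ)} {p : Y → X}
    {F : Y → Jt → ℂ} {y : Y → J → ℂ} {U Z : Set X} {V W : Set Y}
    (h : D.Adm a b ρ p F y U Z V W) :
    TAdm D.chi a b ρ p F (y ⁻¹' D.opn) (fun z => D.emb (y z)) U Z V W := by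
  have P0 : b.Pr (p ⁻¹' U) univ := (h.tgt.preimage (φ := Prod.snd) h.fib.contp h.fib.eqvp).top
  have e : y ⁻¹' D.opn ∩ (fun z => D.emb (y z)) ⁻¹' sph A (Finset J) = y ⁻¹' D.lev :=
    Set.ext fun z => h.ok.mem_lev.symm
  refine ⟨h.ok.isChar_chi, h.fib, h.tgt, h.src, ?_,
    continuousOn_emb.comp (h.conty.mono inter_subset_left) fun z hz => hz.2,
    fun g z hz => by rw [h.eqvy g z hz.1, h.ok.emb_act], ?_,
    fun z h1 h2 => h.sub z (h.ok.mem_lev.2 ⟨h1, h2⟩),
    fun z hz h1 h2 => h.supp z hz (h.ok.mem_lev.2 ⟨h1, h2⟩), ?_⟩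
  · exact (D.rep.pr_univ isOpen_opn.isClosed_compl fun g x hx k =>
      hx ((h.ok.act_mem_opn g).1 k)).preimage' (φ := id) P0 h.conty (mapsTo_univ _ _) h.eqvy
  · rw [e]
    exact (D.rep.pr_univ isClosed_lev fun g x hx => h.ok.act_mem_lev g hx).preimage' (φ := id) P0
      h.conty (mapsTo_univ _ _) h.eqvy
  · obtain ⟨C, h1, h2, h3⟩ := h.bdd
    exact ⟨C, h1, h2, fun z hz k1 k2 => h3 z hz (h.ok.mem_lev.2 ⟨k1, k2⟩)⟩

theorem tor_sum (src tgt : J → Option A)
    (hm : ∀ q j, D.m q j = (if tgt q = some j then 1 else 0) - if src q = some j then 1 else 0)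
    {w : J → ℂ} (hw : w ∈ D.lev) (s : Option A → ℝ) :
    ∑ q, (s (tgt q) - s (src q)) * ‖w q‖ ^ 2 + ∑ j, (s (some j) - s none) * D.θ j = 0 := by
  have h1 : ∀ o : Option A,
      ∑ j, (s (some j) - s none) * (if o = some j then 1 else 0 : ℝ) = s o - s none := fun o => by
    cases o <;> simp
  have h2 : ∀ q, s (tgt q) - s (src q) = ∑ j, (s (some j) - s none) * (D.m q j : ℝ) := fun q => by
    simp only [hm, Int.cast_sub, Int.cast_ite, Int.cast_one, Int.cast_zero, mul_sub _ (ite _ _ _),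
      Finset.sum_sub_distrib, h1]
    ring
  simp only [h2, Finset.sum_mul]
  rw [Finset.sum_comm, ← Finset.sum_add_distrib]
  refine Finset.sum_eq_zero fun j _ => ?_
  have := hw j
  simp only [mul_assoc]
  rw [← Finset.mul_sum, ← mul_add]
  exact mul_eq_zero_of_right _ this

/-- graphs with a generic character -/
theorem ok_of_graph (src tgt : J → Option A)
    (hm : ∀ q j, D.m q j = (if tgt q = some j then 1 else 0) - if src q = some j then 1 else 0)
    (hc : ∀ q, IsChar (D.c q)) (hθ : ∀ S : Finset A, S.Nonempty → ∑ j ∈ S, D.θ j ≠ 0) : D.Ok := by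
  classical
  refine ⟨hc, fun y hy j => ?_⟩
  let L : AddSubgroup (A → ℤ) :=
    { carrier := {v | ∃ r : J → ℤ, (∀ p, y p = 0 → r p = 0) ∧ ∑ p, r p • D.m p = v}
      add_mem' := by
        rintro _ _ ⟨r, h1, rfl⟩ ⟨r', h2, rfl⟩
        exact ⟨r + r', fun p hp => by simp [h1 p hp, h2 p hp], by
          simp only [Pi.add_apply, add_smul, Finset.sum_add_distrib]⟩
      zero_mem' := ⟨0, fun _ _ => rfl, by simp⟩
      neg_mem' := by
        rintro _ ⟨r, h1, rfl⟩
        exact ⟨-r, fun p hp => by simp [h1 p hp], by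
          simp only [Pi.neg_apply, neg_smul, Finset.sum_neg_distrib]⟩ }
  let e : Option A → A → ℤ := fun o j => if o = some j then 1 else 0
  have e0 : e none = 0 := funext fun j => by simp [e]
  have e1 : e (some j) = Pi.single j 1 := funext fun i => by simp [e, Pi.single_apply, eq_comm]
  have h1 : ∀ q, y q ≠ 0 → e (tgt q) - e (src q) ∈ L := fun q hq =>
    ⟨Pi.single q 1, fun p hp => Pi.single_eq_of_ne (fun k : p = q => hq (k ▸ hp)) _, by
      rw [Finset.sum_eq_single q (fun p _ k => by simp [k]) (by simp), Pi.single_eq_same, one_smul]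
      exact funext (hm q)⟩
  have h2 := tor_sum src tgt hm hy fun o => if e o ∈ L then 0 else 1
  rw [Finset.sum_eq_zero fun q _ => by
    by_cases hq : y q = 0
    · simp [hq]
    · have : e (tgt q) ∈ L ↔ e (src q) ∈ L :=
        ⟨fun k => by simpa using L.sub_mem k (h1 q hq), fun k => by
          simpa using L.add_mem (h1 q hq) k⟩
      simp [this]] at h2
  by_contra hn
  refine hθ (Finset.univ.filter fun i => e (some i) ∉ L) ⟨j, ?_⟩ ?_
  · rw [Finset.mem_filter, e1]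
    exact ⟨Finset.mem_univ _, hn⟩
  · rw [← h2, zero_add, Finset.sum_filter]
    refine Finset.sum_congr rfl fun i _ => ?_
    by_cases hi : e (some i) ∈ L <;> simp [hi, e0]

/-- if a function on the vertices increases strictly along all arrows on which `w` is nonzero,
then `w` is bounded on the level set -/
theorem nsq_le_of_pot (src tgt : J → Option A)
    (hm : ∀ q j, D.m q j = (if tgt q = some j then 1 else 0) - if src q = some j then 1 else 0)
    {w : J → ℂ} (hw : w ∈ D.lev) (s : Option A → ℤ) (hs : ∀ q, w q ≠ 0 → s (src q) < s (tgt q)) :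
    nsq w ≤ ∑ j, |D.θ j| * |(s (some j) : ℝ) - s none| := by
  have h := tor_sum src tgt hm hw fun o => s o
  have h1 : nsq w ≤ ∑ q, ((s (tgt q) : ℝ) - s (src q)) * ‖w q‖ ^ 2 :=
    Finset.sum_le_sum fun q _ => by
      by_cases hq : w q = 0
      · simp [hq]
      · refine le_mul_of_one_le_left (sq_nonneg _) ?_
        have := hs q hq
        exact_mod_cast (by omega : 1 ≤ s (tgt q) - s (src q))
  have h2 : ∑ j, -(((s (some j) : ℝ) - s none) * D.θ j) ≤
      ∑ j, |D.θ j| * |(s (some j) : ℝ) - s none| :=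
    Finset.sum_le_sum fun j _ => by
      rw [← abs_mul, mul_comm (D.θ j)]
      exact neg_le_abs _
  rw [Finset.sum_neg_distrib] at h2
  linarith

end TD

theorem fib_pt {G : Gp} [G.Nice] {J : Type} [Fintype J] (ρ : Act G (J → ℂ)) [ρ.Rep]
    {a : Act G Unit} : Fib a ρ ρ (fun _ => ()) id univ :=
  ⟨continuous_const, fun _ _ => rfl, continuousOn_id, fun _ _ _ => rfl,
    Prod.snd, continuousOn_snd, fun _ _ _ => ⟨rfl, rfl⟩, fun _ _ => rfl⟩

end Pool.Agent.Work.MP_849ab0_ag.G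
end
end

-- merged part: Pool.Agent.Work.MP_849ab0_ag.G.H2.Top
section
/-!
The top coefficient `stop` on a product of spheres.

Hints.  `z ↦ sphSum χ a U Z z` is a linear bijection (`sph_span`, `sph_indep` of ApiG), so the
`epsilon` in `stop` has a witness (`LinearMap.proj` after `LinearEquiv.ofBijective _ _).symm`).
For all other statements write `d = sphSum z` (`exists_sphSum`), push the operation through the sum
(`gp_sm`, `gp_comp`, `gp_ecup`, `ecup_sm_left`, `ecup_sm_right` with `ev_polx`, `sm_mul`) and read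
off the top coefficient with `stop_sphSum`.  Use `haveI := rep_sphRep hχ` to get the instances.
`isDeg_stop`: apply `dpr (m + 2 |A| (|R| - 1))` termwise; `dpr (i + j) (sm c x) = sm c (dpr j x)`
for `c` of degree `i` (by `sum_dpr`, `IsDeg.sm`, `IsDeg.dpr_eq`); or use `isDeg_of_map`-like
arguments.
-/

noncomputable section

set_option linter.unusedSectionVars false
set_option linter.unusedVariables false

namespace Pool.Agent.Work.MP_849ab0_ag.G

open Set Topology Matrix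

variable {A R : Type} [Fintype A] [DecidableEq A] [Fintype R] [Nonempty R] {H H' : Gp} [H.Nice]
  [H'.Nice] {X X' Y Y' : Type}
  [TopologicalSpace X] [T3Space X] [SecondCountableTopology X]
  [TopologicalSpace X'] [T3Space X'] [SecondCountableTopology X']
  [TopologicalSpace Y] [T3Space Y] [SecondCountableTopology Y]
  [TopologicalSpace Y'] [T3Space Y'] [SecondCountableTopology Y']
  {J : Type} [Fintype J] {χ : A × R → H.H → ℂ} {χ' : A × R → H'.H → ℂ}
  {a : Act H X} [a.Ok] {a' : Act H' X'} [a'.Ok]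
  {b : Act (TG A H) Y} [b.Ok] {b' : Act (TG A H') Y'} [b'.Ok]
  {ρ : Act (TG A H) (J → ℂ)} [ρ.Rep] {p : Y → X} {F : Y → J → ℂ} {O : Set Y} {E : Y → A × R → ℂ}
  {U Z U₁ Z₁ Z₂ : Set X} {V W V₁ W₁ W₂ : Set Y} {U' Z' : Set X'} {V' W' O' : Set Y'}
  {φ : H'.H → H.H} [IsHom φ]

theorem rep_sphRep (hχ : ∀ z, IsChar (χ z)) : (sphRep χ).Rep :=
  Act.rep_dg fun z => IsChar.mul' (G := TG A H) (χ := fun g => (g.1 z.1 : ℂ))
    ⟨fun g h => Circle.coe_mul _ _,
      continuous_subtype_val.comp ((continuous_apply z.1).comp continuous_fst),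
      fun g => Circle.norm_coe _⟩ ((hχ z).comp (G' := TG A H) Prod.snd)

theorem isClosed_sph : IsClosed (sph A R) := by
  rw [sph, Set.ofPred_forall]
  exact isClosed_iInter fun j => isClosed_eq (by unfold nsq; fun_prop) continuous_const

theorem isCompact_sph : IsCompact (sph A R) := by
  refine (isCompact_closedBall (0 : A × R → ℂ) 1).of_isClosed_subset isClosed_sph fun w hw => ?_
  rw [mem_closedBall_zero_iff, pi_norm_le_iff_of_nonneg zero_le_one]
  rintro ⟨j, r⟩
  refine (sq_le_one_iff₀ (norm_nonneg _)).1 (le_trans ?_ (hw j).le)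
  exact Finset.single_le_sum (f := fun r => ‖w (j, r)‖ ^ 2) (fun _ _ => by positivity)
    (Finset.mem_univ r)

theorem act_mem_sph (hχ : ∀ z, IsChar (χ z)) (g : (TG A H).H) {w : A × R → ℂ} (hw : w ∈ sph A R) :
    (sphRep χ).act g w ∈ sph A R := fun j => by
  rw [← hw j]
  refine Finset.sum_congr rfl fun r _ => ?_
  change ‖(g.1 j : ℂ) * χ (j, r) g.2 * w (j, r)‖ ^ 2 = _
  rw [norm_mul, norm_mul, Circle.norm_coe, (hχ _).norm, one_mul, one_mul]

theorem pr_sph (hχ : ∀ z, IsChar (χ z)) (h : b.Pr V W) :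
    ((sphRep χ).prod b).Pr (sph A R ×ˢ V) (univ ×ˢ W) :=
  ⟨(isClosed_sph.isLocallyClosed.preimage continuous_fst).inter (h.lc.preimage continuous_snd),
    fun g _ hx => ⟨act_mem_sph hχ g hx.1, h.inv _ _ hx.2⟩,
    fun _ _ hx k => ⟨trivial, h.invz _ _ hx.2 k.2⟩, fun _ k => ⟨trivial, h.cl ⟨k.1.2,
      map_mem_closure continuous_snd k.2 fun _ hy => ⟨hy.1.2, hy.2.2⟩⟩⟩⟩

theorem gadm_sph_snd (hχ : ∀ z, IsChar (χ z)) (h : a.Pr U Z) :
    GAdm ((sphRep χ).prod (a.res Prod.snd)) a Prod.snd Prod.snd (sph A R ×ˢ U) (univ ×ˢ Z) U Z :=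
  ⟨pr_sph hχ (h.res _), h, continuousOn_snd, fun _ _ _ => rfl, fun _ k => k.2,
    fun _ _ k => ⟨trivial, k⟩⟩

theorem ev_polx (f : MvPolynomial A ℂ) : Ev (polx A H f) := (ev_pol f).gp _ _

theorem gpt_mapT_polx (f : MvPolynomial A ℂ) : gpt (mapT A φ) (polx A H f) = polx A H' f := by
  rw [polx, polx, AlgHom.comp_apply, AlgHom.comp_apply]
  exact gpt_comp (G := Gp.tor A) (G' := TG A H) (G'' := TG A H') (φ := Prod.fst) (ψ := mapT A φ)
    (χ := Prod.fst) (fun _ => rfl) (pol A f)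

theorem exists_sphSum (hχ : ∀ z, IsChar (χ z)) (h : a.Pr U Z)
    (d : EH ((sphRep χ).prod (a.res Prod.snd)) (sph A R ×ˢ U) (univ ×ˢ Z)) :
    ∃ z, d = sphSum χ a U Z z := sph_span hχ h d

theorem stop_sphSum (hχ : ∀ z, IsChar (χ z)) (h : a.Pr U Z)
    (z : (A → Fin (Fintype.card R)) → EH a U Z) :
    stop χ a U Z (sphSum χ a U Z z) = z (topIx A R) := by
  let L : ((A → Fin (Fintype.card R)) → EH a U Z) →ₗ[ℂ]
      EH ((sphRep χ).prod (a.res Prod.snd)) (sph A R ×ˢ U) (univ ×ˢ Z) :=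
    ∑ m, sm (polx A H (∏ j, MvPolynomial.X j ^ (m j : ℕ))) ∘ₗ gp _ Prod.snd Prod.snd _ _ ∘ₗ
      LinearMap.proj m
  have e : ∀ z, L z = sphSum χ a U Z z := fun z => LinearMap.sum_apply _ _ _
  have hL : Function.Bijective L :=
    ⟨(injective_iff_map_eq_zero L).2 fun z hz => sph_indep hχ h ((e z).symm.trans hz),
      fun d => (exists_sphSum hχ h d).imp fun z hz => (e z).trans hz.symm⟩
  exact Classical.epsilon_spec (p := fun M : _ →ₗ[ℂ] EH a U Z =>
    ∀ z, M (sphSum χ a U Z z) = z (topIx A R))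
    ⟨LinearMap.proj (topIx A R) ∘ₗ linv L, fun z => by
      rw [← e, LinearMap.comp_apply, linv_apply hL, LinearMap.proj_apply]⟩ z

/-- the top monomial -/
theorem stop_top (hχ : ∀ z, IsChar (χ z)) (h : a.Pr U Z) (x : EH a U Z) :
    stop χ a U Z (sm (polx A H (∏ j, MvPolynomial.X j ^ (Fintype.card R - 1)))
      (gp _ Prod.snd Prod.snd (sph A R ×ˢ U) (univ ×ˢ Z) x)) = x := by
  have := stop_sphSum hχ h (Pi.single (topIx A R) x)
  rw [sphSum, Finset.sum_eq_single (topIx A R)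
    (fun m _ hm => by rw [Pi.single_eq_of_ne hm, map_zero, map_zero])
    (fun k => absurd (Finset.mem_univ _) k), Pi.single_eq_same] at this
  exact this

theorem top_ecup (hχ : ∀ z, IsChar (χ z)) {U₂ : Set X} (h : ECup a U₁ Z₁ U₂ Z₂ U Z) :
    ECup ((sphRep χ).prod (a.res Prod.snd)) (sph A R ×ˢ U₁) (univ ×ˢ Z₁) (sph A R ×ˢ U₂)
      (univ ×ˢ Z₂) (sph A R ×ˢ U) (univ ×ˢ Z) :=
  ⟨pr_sph hχ (h.p1.res _), pr_sph hχ (h.p2.res _), pr_sph hχ (h.p3.res _),
    fun _ k => (h.ok.left k.2).imp (fun m => ⟨⟨k.1, m.1⟩, fun n => m.2 n.2⟩) fun m => ⟨k.1, m⟩,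
    fun _ k => (h.ok.right k.2).imp (fun m => ⟨k.1, m⟩) fun m => ⟨⟨k.1, m.1⟩, fun n => m.2 n.2⟩,
    fun _ k => (h.ok.supp ⟨k.1.2, fun n => k.2 ⟨trivial, n⟩⟩).imp
      (fun m => ⟨⟨k.1.1, m.1⟩, fun n => m.2 n.2⟩) fun m => ⟨⟨k.1.1, m.1⟩, fun n => m.2 n.2⟩⟩

theorem gp_stop (hχ : ∀ z, IsChar (χ z)) (e : ∀ z g, χ' z g = χ z (φ g)) {f : X' → X}
    (k : GAdm a' a φ f U' Z' U Z)
    (d : EH ((sphRep χ).prod (a.res Prod.snd)) (sph A R ×ˢ U) (univ ×ˢ Z)) :
    gp a' φ f U' Z' (stop χ a U Z d) =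
      stop χ' a' U' Z' (gp _ (mapT A φ) (fun z => (z.1, f z.2)) _ _ d) := by
  have hχ' : ∀ z, IsChar (χ' z) := fun z => by
    rw [show χ' z = χ z ∘ φ from funext (e z)]
    exact (hχ z).comp φ
  have := rep_sphRep hχ
  have := rep_sphRep hχ'
  have K : GAdm ((sphRep χ').prod (a'.res Prod.snd)) ((sphRep χ).prod (a.res Prod.snd)) (mapT A φ)
      (fun z => (z.1, f z.2)) (sph A R ×ˢ U') (univ ×ˢ Z') (sph A R ×ˢ U) (univ ×ˢ Z) :=
    ⟨pr_sph hχ' (k.src.res _), pr_sph hχ (k.tgt.res _),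
      continuousOn_fst.prodMk (k.cont.comp continuousOn_snd fun _ m => m.2),
      fun g x hx => Prod.ext (funext fun z => by
        change (g.1 z.1 : ℂ) * χ' z g.2 * x.1 z = (g.1 z.1 : ℂ) * χ z (φ g.2) * x.1 z
        rw [e]) (k.eqv g.2 x.2 hx.2),
      fun _ m => ⟨m.1, k.maps m.2⟩, fun x m n => ⟨trivial, k.supp x.2 m.2 n.2⟩⟩
  obtain ⟨z, rfl⟩ := exists_sphSum hχ k.tgt d
  have key : gp _ (mapT A φ) (fun z => (z.1, f z.2)) _ _ (sphSum χ a U Z z) =
      sphSum χ' a' U' Z' fun m => gp a' φ f U' Z' (z m) := by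
    rw [sphSum, map_sum]
    refine Finset.sum_congr rfl fun m _ => ?_
    rw [gp_sm K, gpt_mapT_polx, gp_comp (gadm_sph_snd hχ k.tgt) K (χ := fun g => φ g.2)
      (fun _ => rfl) (k := fun z => f z.2) (fun _ _ => rfl),
      gp_comp k (gadm_sph_snd hχ' k.src) (χ := fun g => φ g.2) (fun _ => rfl)
        (k := fun z => f z.2) fun _ _ => rfl]
  rw [key, stop_sphSum hχ k.tgt, stop_sphSum hχ' k.src]

theorem stop_ecup (hχ : ∀ z, IsChar (χ z)) (hx : ECup a U₁ Z₁ U Z U Z₂) (e : U₁ ⊆ U)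
    (x : EH a U₁ Z₁) (d : EH ((sphRep χ).prod (a.res Prod.snd)) (sph A R ×ˢ U) (univ ×ˢ Z)) :
    stop χ a U Z₂ (ecup _ _ (gp _ Prod.snd Prod.snd (sph A R ×ˢ U₁) (univ ×ˢ Z₁) x) d) =
      ecup U Z₂ x (stop χ a U Z d) := by
  have := rep_sphRep hχ
  obtain ⟨z, rfl⟩ := exists_sphSum hχ hx.p2 d
  have key : ecup _ _ (gp _ Prod.snd Prod.snd (sph A R ×ˢ U₁) (univ ×ˢ Z₁) x) (sphSum χ a U Z z) =
      sphSum χ a U Z₂ fun m => ecup U Z₂ x (z m) := by
    rw [sphSum, map_sum]
    refine Finset.sum_congr rfl fun m _ => ?_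
    rw [ecup_sm_right (top_ecup hχ hx) (ev_polx _), gp_ecup hx (top_ecup hχ hx)
      (gadm_sph_snd hχ hx.p3) (gadm_sph_snd hχ hx.p1) (gadm_sph_snd hχ hx.p2)
      (prod_mono subset_rfl e) subset_rfl]
  rw [key, stop_sphSum hχ hx.p3, stop_sphSum hχ hx.p2]

theorem stop_ecup' (hχ : ∀ z, IsChar (χ z)) (hx : ECup a U Z U₁ Z₁ U Z₂) (e : U₁ ⊆ U)
    (x : EH a U₁ Z₁) (d : EH ((sphRep χ).prod (a.res Prod.snd)) (sph A R ×ˢ U) (univ ×ˢ Z)) :
    stop χ a U Z₂ (ecup _ _ d (gp _ Prod.snd Prod.snd (sph A R ×ˢ U₁) (univ ×ˢ Z₁) x)) =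
      ecup U Z₂ (stop χ a U Z d) x := by
  have := rep_sphRep hχ
  obtain ⟨z, rfl⟩ := exists_sphSum hχ hx.p1 d
  have key : ecup _ _ (sphSum χ a U Z z) (gp _ Prod.snd Prod.snd (sph A R ×ˢ U₁) (univ ×ˢ Z₁) x) =
      sphSum χ a U Z₂ fun m => ecup U Z₂ (z m) x := by
    rw [sphSum, map_sum, LinearMap.sum_apply]
    refine Finset.sum_congr rfl fun m _ => ?_
    rw [ecup_sm_left (top_ecup hχ hx), gp_ecup hx (top_ecup hχ hx)
      (gadm_sph_snd hχ hx.p3) (gadm_sph_snd hχ hx.p1) (gadm_sph_snd hχ hx.p2)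
      subset_rfl (prod_mono subset_rfl e)]
  rw [key, stop_sphSum hχ hx.p3, stop_sphSum hχ hx.p1]

theorem stop_sm (hχ : ∀ z, IsChar (χ z)) (h : a.Pr U Z) (c : HPt H)
    (d : EH ((sphRep χ).prod (a.res Prod.snd)) (sph A R ×ˢ U) (univ ×ˢ Z)) :
    stop χ a U Z (sm (gpt Prod.snd c) d) = sm c (stop χ a U Z d) := by
  have := rep_sphRep hχ
  obtain ⟨z, rfl⟩ := exists_sphSum hχ h d
  have key : sm (gpt Prod.snd c) (sphSum χ a U Z z) = sphSum χ a U Z fun m => sm c (z m) := by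
    rw [sphSum, map_sum]
    refine Finset.sum_congr rfl fun m _ => ?_
    rw [gp_sm (gadm_sph_snd hχ h), ← sm_mul (pr_sph hχ (h.res _)), ← sm_mul (pr_sph hχ (h.res _)),
      mul_def, mul_def, ecup_comm (ecup_top (Act.pr_pt _)) _ (ev_polx _)]
  rw [key, stop_sphSum hχ h, stop_sphSum hχ h]

theorem isDeg_stop (hχ : ∀ z, IsChar (χ z)) (h : a.Pr U Z) {m : ℤ}
    {d : EH ((sphRep χ).prod (a.res Prod.snd)) (sph A R ×ˢ U) (univ ×ˢ Z)}
    (hd : IsDeg (m + 2 * (Fintype.card A * (Fintype.card R - 1))) d) :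
    IsDeg m (stop χ a U Z d) := by
  obtain ⟨z, rfl⟩ := exists_sphSum hχ h d
  have key : ∀ N : ℤ, prj {N} (sphSum χ a U Z z) =
      sphSum χ a U Z fun μ => prj {N - 2 * (∑ j, (μ j : ℕ) : ℕ)} (z μ) := fun N => by
    rw [sphSum, map_sum]
    refine Finset.sum_congr rfl fun μ _ => ?_
    have k1 : IsDeg (2 * (∑ j, (μ j : ℕ) : ℕ)) (polx A H (∏ j, MvPolynomial.X j ^ (μ j : ℕ))) :=
      (isDeg_pol (MvPolynomial.IsHomogeneous.prod _ _ _
        fun j _ => MvPolynomial.isHomogeneous_X_pow j _)).gp _ _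
    have k2 := prj_map (L := sm (polx A H (∏ j, MvPolynomial.X j ^ (μ j : ℕ))) ∘ₗ
      gp ((sphRep χ).prod (a.res Prod.snd)) Prod.snd Prod.snd (sph A R ×ˢ U) (univ ×ˢ Z))
      (d := 2 * (∑ j, (μ j : ℕ) : ℕ)) (fun p (x : EH a U Z) hx => add_comm p _ ▸ k1.sm (hx.gp _ _))
      (N - 2 * (∑ j, (μ j : ℕ) : ℕ)) (z μ)
    rw [sub_add_cancel] at k2
    exact k2.symm
  rw [← isDeg_iff.1 hd, key, stop_sphSum hχ h]
  convert isDeg_prj _ (z (topIx A R)) using 1
  simp [topIx, Nat.cast_sub (Fintype.card_pos (α := R))]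

end Pool.Agent.Work.MP_849ab0_ag.G
end
end

-- merged part: Pool.Agent.Work.MP_849ab0_ag.G.H2.NormA
section
/-!
An affine slice of the product of spheres, and its calculus.

Hints.  `nsq (ext1 π v (j, ·)) ≥ 1 > 0`.  `slc_tangent`: `t ↦ nsq (slc (v + t δ) (j, ·))` is constant,
its derivative at `0` is twice the sum.  `slc_orbit`: the coordinate `(j, π j)` of `slc (v + t δ)` is
`u j` times a real function, so `conj (u j) *` its derivative is real, while
`conj (u j) * I * ξ j * slc v (j, π j)` is `I * ξ j *` a positive number; so `ξ = 0`, the derivative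
of `slc` along `δ` vanishes, and `ncr ∘ slc = id` (chain rule, `ncr` is differentiable at `slc v`)
gives `δ = 0`.
-/

noncomputable section

set_option linter.unusedSectionVars false
set_option linter.unusedVariables false

namespace Pool.Agent.Work.MP_849ab0_ag.G

open Set Topology Matrix

variable {A R : Type} [Fintype A] [DecidableEq A] [Fintype R] [DecidableEq R]

/-- the affine coordinates -/
abbrev SI (π : A → R) : Type := {z : A × R // z.2 ≠ π z.1}

/-- put `1` at the places `(j, π j)` -/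
def ext1 (π : A → R) (v : SI π → ℂ) : A × R → ℂ := fun z => if h : z.2 = π z.1 then 1 else v ⟨z, h⟩

/-- the slice -/
def slc (u : A → ℂ) (π : A → R) (v : SI π → ℂ) : A × R → ℂ := fun z =>
  u z.1 * ((Real.sqrt (nsq fun r => ext1 π v (z.1, r)))⁻¹ : ℝ) * ext1 π v z

/-- the chart -/
def ncr (π : A → R) (w : A × R → ℂ) : SI π → ℂ := fun z => w z.1 / w (z.1.1, π z.1.1)

/-- the domain of the chart -/
def chd (π : A → R) : Set (A × R → ℂ) := {w | ∀ j, w (j, π j) ≠ 0}

variable {u : A → ℂ} {π : A → R} {v : SI π → ℂ} {w : A × R → ℂ}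

/-- the normalising factor -/
def norma_c (π : A → R) (v : SI π → ℂ) (j : A) : ℝ := (Real.sqrt (nsq fun r => ext1 π v (j, r)))⁻¹

theorem norma_slc (u : A → ℂ) (v : SI π → ℂ) (j : A) (r : R) :
    slc u π v (j, r) = u j * norma_c π v j * ext1 π v (j, r) := rfl

theorem norma_one (v : SI π → ℂ) (j : A) : ext1 π v (j, π j) = 1 := dif_pos rfl

theorem norma_pos (v : SI π → ℂ) (j : A) : 0 < nsq fun r => ext1 π v (j, r) :=
  Finset.sum_pos' (fun _ _ => by positivity) ⟨π j, Finset.mem_univ _, by simp [norma_one]⟩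

theorem norma_cpos (v : SI π → ℂ) (j : A) : 0 < norma_c π v j :=
  inv_pos.2 (Real.sqrt_pos.2 (norma_pos v j))

theorem norma_mul (a : ℂ) (f : R → ℂ) : (nsq fun r => a * f r) = ‖a‖ ^ 2 * nsq f := by
  simp [nsq, mul_pow, Finset.mul_sum]

theorem norma_ne (hu : ∀ j, ‖u j‖ = 1) (j : A) : u j ≠ 0 := fun h => by
  simpa [h] using hu j

theorem norma_ncr (u : A → ℂ) (hw : w ∈ sph A R) (h : w ∈ chd π) (j : A) (r : R) :
    slc u π (ncr π w) (j, r) = u j * (‖w (j, π j)‖ : ℝ) * ((w (j, π j))⁻¹ * w (j, r)) := by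
  have e : ∀ r, ext1 π (ncr π w) (j, r) = (w (j, π j))⁻¹ * w (j, r) := fun r => by
    by_cases c : r = π j
    · rw [c, norma_one, inv_mul_cancel₀ (h j)]
    · exact (dif_neg c).trans (div_eq_inv_mul _ _)
  rw [norma_slc, norma_c, funext e, norma_mul, hw j, mul_one, Real.sqrt_sq (norm_nonneg _),
    norm_inv, inv_inv, e]

theorem card_SI (π : A → R) :
    Fintype.card (SI π) + Fintype.card A = Fintype.card A * Fintype.card R := by
  have e : {z : A × R // z.2 = π z.1} ≃ A :=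
    ⟨fun z => z.1.1, fun j => ⟨(j, π j), rfl⟩, fun z => Subtype.ext (Prod.ext rfl z.2.symm),
      fun _ => rfl⟩
  have h1 := Fintype.card_subtype_compl fun z : A × R => z.2 = π z.1
  have h2 := Fintype.card_subtype_le fun z : A × R => z.2 = π z.1
  rw [Fintype.card_congr e, Fintype.card_prod] at h1 h2
  have h3 : Fintype.card (SI π) = _ := h1
  omega

theorem prod_SI {M : Type} [CommMonoid M] (π : A → R) (f : A → M) :
    ∏ z : SI π, f z.1.1 = ∏ j, f j ^ (Fintype.card R - 1) := by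
  rw [← Finset.prod_subtype (Finset.univ.filter fun z : A × R => z.2 ≠ π z.1) (by simp)
    fun z => f z.1, Finset.prod_filter, Fintype.prod_prod_type]
  refine Finset.prod_congr rfl fun j _ => ?_
  dsimp only
  rw [← Finset.prod_filter, Finset.filter_ne', Finset.prod_const,
    Finset.card_erase_of_mem (Finset.mem_univ _), Finset.card_univ]

theorem slc_mem (hu : ∀ j, ‖u j‖ = 1) (v : SI π → ℂ) : slc u π v ∈ sph A R := fun j => by
  have h := norma_pos v j
  simp only [norma_slc, norma_mul]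
  rw [norm_mul, hu, one_mul, Complex.norm_real, Real.norm_eq_abs, sq_abs, norma_c, inv_pow,
    Real.sq_sqrt h.le, inv_mul_cancel₀ h.ne']

theorem slc_chd (hu : ∀ j, ‖u j‖ = 1) (v : SI π → ℂ) : slc u π v ∈ chd π := fun j => by
  rw [norma_slc, norma_one, mul_one]
  exact mul_ne_zero (norma_ne hu j) (Complex.ofReal_ne_zero.2 (norma_cpos v j).ne')

theorem ncr_slc (hu : ∀ j, ‖u j‖ = 1) (v : SI π → ℂ) : ncr π (slc u π v) = v := by
  funext ⟨⟨j, r⟩, hz⟩
  have h := slc_chd hu v j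
  change slc u π v (j, r) / slc u π v (j, π j) = _
  rw [div_eq_iff h, norma_slc, norma_slc, norma_one, mul_one, mul_comm]
  exact congrArg (· * _) (dif_neg hz)

theorem ncr_mul {g : A → ℂ} (hg : ∀ j, g j ≠ 0) (w : A × R → ℂ) :
    ncr π (fun z => g z.1 * w z) = ncr π w :=
  funext fun z => mul_div_mul_left _ _ (hg z.1.1)

theorem isOpen_chd (π : A → R) : IsOpen (chd π) := by
  rw [chd, setOf_forall]
  exact isOpen_iInter_of_finite fun j => isOpen_ne_fun (continuous_apply _) continuous_const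

theorem norma_diff (u : A → ℂ) (π : A → R) : Differentiable ℝ (slc u π) := by
  have h1 : ∀ z, Differentiable ℝ fun v : SI π → ℂ => ext1 π v z := fun z => by
    by_cases c : z.2 = π z.1
    · simp only [ext1, dif_pos c]
      exact differentiable_const _
    · simp only [ext1, dif_neg c]
      exact differentiable_apply _
  have h2 : ∀ j, Differentiable ℝ fun v : SI π → ℂ => nsq fun r => ext1 π v (j, r) := fun j =>
    Differentiable.fun_sum fun r _ => (h1 (j, r)).norm_sq ℂ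
  refine differentiable_pi.2 fun z => ((differentiable_const _).mul ?_).mul (h1 z)
  exact Complex.ofRealCLM.differentiable.comp (((h2 z.1).sqrt fun v => (norma_pos v _).ne').inv
    fun v => (Real.sqrt_pos.2 (norma_pos v _)).ne')

theorem continuous_slc (u : A → ℂ) (π : A → R) : Continuous (slc u π) :=
  (norma_diff u π).continuous

theorem continuousOn_ncr (π : A → R) : ContinuousOn (ncr π) (chd π) :=
  continuousOn_pi.2 fun z => (continuous_apply _).continuousOn.div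
    (continuous_apply _).continuousOn fun _ h => h z.1.1

theorem differentiable_slc (u : A → ℂ) (π : A → R) : Differentiable ℝ (slc u π) :=
  norma_diff u π

/-- every point of the chart is in the orbit of a point of the slice -/
theorem exists_slc (hu : ∀ j, ‖u j‖ = 1) (hw : w ∈ sph A R) (h : w ∈ chd π) :
    ∃ g : A → Circle, w = fun z => g z.1 * slc u π (ncr π w) z := by
  have h1 : ∀ j, ((‖w (j, π j)‖ : ℝ) : ℂ) ≠ 0 := fun j =>
    Complex.ofReal_ne_zero.2 (norm_ne_zero_iff.2 (h j))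
  refine ⟨fun j => ⟨w (j, π j) / (u j * (‖w (j, π j)‖ : ℝ)), mem_sphere_zero_iff_norm.2 ?_⟩, ?_⟩
  · rw [norm_div, norm_mul, hu, one_mul, Complex.norm_real, norm_norm,
      div_self (norm_ne_zero_iff.2 (h j))]
  · funext ⟨j, r⟩
    change _ = w (j, π j) / (u j * (‖w (j, π j)‖ : ℝ)) * _
    have h2 := h1 j
    have h3 := h j
    have h4 := norma_ne hu j
    rw [norma_ncr u hw h]
    field_simp

/-- an orbit meets the slice once -/
theorem slc_unique (hu : ∀ j, ‖u j‖ = 1) {g : A → Circle} {v v' : SI π → ℂ}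
    (h : (fun z => g z.1 * slc u π v z) = slc u π v') : g = 1 ∧ v = v' := by
  have e : v = v' := by
    rw [← ncr_slc hu v', ← h, ncr_mul (g := fun j => g j) (fun j => (g j).coe_ne_zero), ncr_slc hu]
  subst e
  refine ⟨funext fun j => Circle.ext ?_, rfl⟩
  exact mul_right_cancel₀ (slc_chd hu v j) ((congrFun h (j, π j)).trans (one_mul _).symm)

/-- there is a slice through every point -/
theorem exists_slice (hw : w ∈ sph A R) :
    ∃ (π : A → R) (u : A → ℂ) (v : SI π → ℂ), (∀ j, ‖u j‖ = 1) ∧ slc u π v = w := by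
  have h1 : ∀ j, ∃ r, w (j, r) ≠ 0 := fun j => by
    by_contra c
    push Not at c
    have := hw j
    simp [nsq, c] at this
  choose π h using h1
  refine ⟨π, fun j => w (j, π j) / (‖w (j, π j)‖ : ℝ), ncr π w, fun j => ?_, ?_⟩
  · rw [norm_div, Complex.norm_real, norm_norm, div_self (norm_ne_zero_iff.2 (h j))]
  · funext ⟨j, r⟩
    have h2 : ((‖w (j, π j)‖ : ℝ) : ℂ) ≠ 0 := Complex.ofReal_ne_zero.2 (norm_ne_zero_iff.2 (h j))
    have h3 := h j
    rw [norma_ncr _ hw h]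
    field_simp

theorem isCompact_slc_preimage (hu : ∀ j, ‖u j‖ = 1) {K : Set (A × R → ℂ)} (hK : IsCompact K)
    (h : K ⊆ chd π) : IsCompact (slc u π ⁻¹' K) :=
  (hK.image_of_continuousOn ((continuousOn_ncr π).mono h)).of_isClosed_subset
    (hK.isClosed.preimage (continuous_slc u π)) fun v hv => ⟨_, hv, ncr_slc hu v⟩

theorem slc_tangent (hu : ∀ j, ‖u j‖ = 1) {S : (SI π → ℂ) →L[ℝ] A × R → ℂ}
    (hS : HasFDerivAt (slc u π) S v) (δ : SI π → ℂ) (j : A) :
    ∑ r, (starRingEnd ℂ (slc u π v (j, r)) * S δ (j, r)).re = 0 := by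
  have h1 := HasFDerivAt.fun_sum fun r (_ : r ∈ Finset.univ) =>
    (hasFDerivAt_pi'.1 hS (j, r)).norm_sq
  have h2 : (fun x => ∑ r, ‖slc u π x (j, r)‖ ^ 2) = fun _ => (1 : ℝ) :=
    funext fun x => slc_mem hu x j
  rw [h2] at h1
  have h3 := congrArg (fun L : (SI π → ℂ) →L[ℝ] ℝ => L δ) (h1.unique (hasFDerivAt_const _ _))
  simp only [ContinuousLinearMap.sum_apply, ContinuousLinearMap.smul_apply,
    ContinuousLinearMap.comp_apply, innerSL_apply_apply, ContinuousLinearMap.proj_apply,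
    Complex.inner, ← Finset.smul_sum, ContinuousLinearMap.zero_apply, smul_eq_zero,
    OfNat.ofNat_ne_zero, false_or] at h3
  simpa only [mul_comm] using h3

theorem slc_orbit (hu : ∀ j, ‖u j‖ = 1) {S : (SI π → ℂ) →L[ℝ] A × R → ℂ}
    (hS : HasFDerivAt (slc u π) S v) {δ : SI π → ℂ} {ξ : A → ℝ}
    (h : S δ = fun z => Complex.I * ξ z.1 * slc u π v z) : ξ = 0 ∧ δ = 0 := by
  have hc : ∀ j, starRingEnd ℂ (u j) * u j = 1 := fun j => by
    rw [Complex.conj_mul', hu]
    simp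
  have h1 : ξ = 0 := funext fun j => by
    have h2 := Complex.imCLM.hasFDerivAt.comp v
      ((hasFDerivAt_pi'.1 hS (j, π j)).const_mul (starRingEnd ℂ (u j)))
    have h3 : (Complex.imCLM ∘ fun x => starRingEnd ℂ (u j) * slc u π x (j, π j)) =
        fun _ => (0 : ℝ) := funext fun x => by
      simp only [Function.comp_apply, norma_slc, norma_one, ← mul_assoc, hc]
      simp
    rw [h3] at h2
    have h4 := congrArg (fun L : (SI π → ℂ) →L[ℝ] ℝ => L δ) (h2.unique (hasFDerivAt_const _ _))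
    simp only [ContinuousLinearMap.comp_apply, ContinuousLinearMap.smul_apply,
      ContinuousLinearMap.proj_apply, h, norma_slc, norma_one, smul_eq_mul,
      ContinuousLinearMap.zero_apply] at h4
    have e : starRingEnd ℂ (u j) * (Complex.I * ξ j * (u j * norma_c π v j * 1)) =
        ((ξ j * norma_c π v j : ℝ) : ℂ) * Complex.I := by
      push_cast
      linear_combination (Complex.I * ξ j * norma_c π v j) * hc j
    rw [e, Complex.imCLM_apply, Complex.mul_I_im, Complex.ofReal_re] at h4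
    exact (mul_eq_zero.1 h4).resolve_right (norma_cpos v j).ne'
  refine ⟨h1, ?_⟩
  have h2 : S δ = 0 := by
    rw [h, h1]
    funext z
    simp
  have h3 : DifferentiableAt ℝ (ncr π) (slc u π v) := differentiableAt_pi.2 fun z => by
    simp only [ncr, div_eq_mul_inv]
    exact (differentiableAt_apply _ _).mul
      ((differentiableAt_apply (z.1.1, π z.1.1) _).inv (slc_chd hu v z.1.1))
  have h4 := h3.hasFDerivAt.comp v hS
  have h5 : ncr π ∘ slc u π = id := funext (ncr_slc hu)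
  rw [h5] at h4
  have h6 := congrArg (fun L : (SI π → ℂ) →L[ℝ] SI π → ℂ => L δ) (h4.unique (hasFDerivAt_id v))
  simpa [h2] using h6.symm

end Pool.Agent.Work.MP_849ab0_ag.G
end
end

-- merged part: Pool.Agent.Work.MP_849ab0_ag.G.H2.NormB
section
/-!
A nonzero class supported on one orbit has a nonzero top coefficient.

Hints.  The group `Gp.one.H` is a subsingleton, so `χ z g = 1` (`IsChar.one`) and
`(sphRep χ).act g w z = g.1 z.1 * w z`.  `hpt_one`: `pol_bij` for `κ = Empty`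
(`MvPolynomial.isEmptyAlgEquiv` or `eq_C_of_isEmpty`).  `loc_rank`: `excision` to pass to `univ`,
`thom_bij` over the point with `J = J₁ ⊕ J₂`, `p = fun _ => ()`,
`F z = Sum.elim (z.1 - w.1) (z.2 - w.2)`, then `gp_id_bij` to adjust the support.  `slice_bij`:
`excision` for `(sph ∩ chd π) ×ˢ U`, then `stackIso` (NormA), `gp_comp`.
`stop_ne_zero`: take a slice through `w₀` (`exists_slice`), `τ = eul (x - x₀) ≠ 0` on `U`
(`loc_deg`), `ℓ w z = w z - v₀ z * w (z.1.1, π z.1.1)` for `z : SI π`, equivariant for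
`Act.dg fun z g => g.1 z.1.1`; its zeros on `sph` are the orbit (if `w (j, π j) = 0` then
`w (j, ·) = 0`).  Let `e = ecup (eul ℓ) (gp snd snd τ)` with support `orbS ×ˢ {x₀}`.  Its image is
`sm (polx (∏ X j ^ (|R| - 1))) (gp snd snd τ)` (`gp_id_ecup`, `ecup_gp_left`, `gp_eul`, `eul_univ`,
`euc_res`, `euc_dg`, `prod_SI`, `ecup_sm_left`, `eone_ecup`), so `stop` of it is `τ` (`stop_top`).
Hence `e ≠ 0`, and `d = λ • e` by `slice_bij` and `loc_rank`.
-/

noncomputable section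

set_option linter.unusedSectionVars false
set_option linter.unusedVariables false

namespace Pool.Agent.Work.MP_849ab0_ag.G

open Set Topology Matrix

variable {A R : Type} [Fintype A] [DecidableEq A] [Fintype R] [DecidableEq R] [Nonempty R]
  {χ : A × R → Gp.one.H → ℂ} {J' : Type} [Fintype J']

theorem hpt_one (c : HPt Gp.one) : ∃ z : ℂ, c = z • (1 : HPt Gp.one) := by
  obtain ⟨f, rfl⟩ := (pol_bij (κ := Empty)).2 c
  refine ⟨f.coeff 0, ?_⟩
  rw [← Algebra.algebraMap_eq_smul_one, ← (pol Empty).commutes]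
  exact congrArg _ (MvPolynomial.eq_C_of_isEmpty f)

theorem normb_exc {L : Type} [TopologicalSpace L] [T3Space L] [SecondCountableTopology L]
    {O V W : Set L} (hO : IsOpen O) {w : L} (hw : w ∈ O) (hV : V = univ) (hW : W = {w}) :
    Function.Bijective (gp (Act.triv Gp.one L) id id O {w} : EH (Act.triv Gp.one L) V W → _) := by
  subst hV hW
  exact excision (Act.pr_univ _ isClosed_singleton fun _ _ h => h)
    (Act.pr_univ _ (isClosed_univ.sdiff hO) fun _ _ h => h) (subset_univ _)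
    fun x hx => (show x = w from hx.2).symm ▸ hw

/-- the local cohomology of a point is one dimensional -/
theorem loc_rank {J₁ J₂ : Type} [Fintype J₁] [Fintype J₂] {O : Set ((J₁ → ℂ) × (J₂ → ℂ))}
    (hO : IsOpen O) {w : (J₁ → ℂ) × (J₂ → ℂ)} (hw : w ∈ O) (x : EH (Act.triv Gp.one _) O {w})
    {y : EH (Act.triv Gp.one _) O {w}} (hy : y ≠ 0) : ∃ z : ℂ, x = z • y := by
  let F : (J₁ → ℂ) × (J₂ → ℂ) → J₁ ⊕ J₂ → ℂ := fun z => Sum.elim (z.1 - w.1) (z.2 - w.2)
  have hF : Fib (Act.pt Gp.one) (Act.triv Gp.one ((J₁ → ℂ) × (J₂ → ℂ)))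
      (Act.triv Gp.one (J₁ ⊕ J₂ → ℂ)) (fun _ => ()) F univ := by
    refine ⟨continuous_const, fun _ _ => rfl, Continuous.continuousOn ?_, fun _ _ _ => rfl,
      fun z => (z.2 ∘ Sum.inl + w.1, z.2 ∘ Sum.inr + w.2), Continuous.continuousOn ?_,
      fun _ _ v => ⟨rfl, ?_⟩, fun y _ => ?_⟩
    · refine continuous_pi fun j => ?_
      cases j <;> simp only [F, Sum.elim_inl, Sum.elim_inr, Pi.sub_apply] <;> fun_prop
    · unfold Function.comp
      fun_prop
    · funext j
      cases j <;> simp [F]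
    · ext j <;> simp [F]
  have h1 := thom_bij hF (Act.pr_pt Gp.one)
  have h2 := normb_exc (V := (fun _ => ()) ⁻¹' univ) (W := (fun _ => ()) ⁻¹' univ ∩ F ⁻¹' {0})
    hO hw rfl (by
      ext z
      simp only [preimage_univ, univ_inter, mem_preimage, mem_singleton_iff]
      constructor
      · intro h
        ext j
        · exact sub_eq_zero.1 (congrFun h (Sum.inl j))
        · exact sub_eq_zero.1 (congrFun h (Sum.inr j))
      · rintro rfl
        funext j
        cases j <;> simp [F])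
  have h3 : ∃ t : EH (Act.triv Gp.one _) O {w}, ∀ x, ∃ z : ℂ, x = z • t := by
    refine ⟨?_, fun x => ?_⟩
    swap
    · obtain ⟨c, rfl⟩ := (h2.comp h1).2 x
      obtain ⟨z, rfl⟩ := hpt_one c
      exact ⟨z, by simp only [Function.comp, map_smul, LinearMap.smul_apply]; rfl⟩
  obtain ⟨t, ht⟩ := h3
  obtain ⟨a, rfl⟩ := ht x
  obtain ⟨b, rfl⟩ := ht y
  have hb : b ≠ 0 := fun h => hy (by rw [h, zero_smul])
  exact ⟨a / b, by rw [smul_smul, div_mul_cancel₀ _ hb]⟩

/-- the orbit of `w₀` -/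
def orbS (w₀ : A × R → ℂ) : Set (A × R → ℂ) := {w | ∃ g : A → Circle, w = fun z => g z.1 * w₀ z}

theorem isClosed_orbS (w₀ : A × R → ℂ) : IsClosed (orbS w₀) := by
  have h : Continuous fun (g : A → Circle) (z : A × R) => (g z.1 : ℂ) * w₀ z :=
    continuous_pi fun z =>
      (continuous_subtype_val.comp (continuous_apply z.1)).mul continuous_const
  convert (isCompact_range h).isClosed using 1
  exact Set.ext fun w => exists_congr fun g => eq_comm

theorem normb_act (hχ : ∀ z, IsChar (χ z)) (g : (TG A Gp.one).H) (w : A × R → ℂ) :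
    (sphRep χ).act g w = fun z => (g.1 z.1 : ℂ) * w z := by
  funext z
  change (g.1 z.1 * χ z g.2) * w z = _
  rw [Subsingleton.elim g.2 1, (hχ z).one, mul_one]

theorem normb_orb (hχ : ∀ z, IsChar (χ z)) (g : (TG A Gp.one).H) {w₀ w : A × R → ℂ}
    (h : w ∈ orbS w₀) : (sphRep χ).act g w ∈ orbS w₀ := by
  obtain ⟨k, rfl⟩ := h
  refine ⟨g.1 * k, ?_⟩
  rw [normb_act hχ]
  funext z
  rw [Pi.mul_apply, Circle.coe_mul, mul_assoc]

/-- the action on `W × ℂ ^ J'` -/
abbrev aS (χ : A × R → Gp.one.H → ℂ) (J' : Type) :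
    Act (TG A Gp.one) ((A × R → ℂ) × (J' → ℂ)) :=
  (sphRep χ).prod ((Act.triv Gp.one (J' → ℂ)).res Prod.snd)

variable {U : Set (J' → ℂ)} {x₀ : J' → ℂ} {π : A → R} {u : A → ℂ} {v₀ : SI π → ℂ}

theorem normb_pr (hχ : ∀ z, IsChar (χ z)) (hU : IsOpen U) {S : Set (A × R → ℂ)} (hS : IsClosed S)
    (h : ∀ g, ∀ w ∈ S, (sphRep χ).act g w ∈ S) {T : Set (J' → ℂ)} (hT : IsClosed T) :
    (aS χ J').Pr (sph A R ×ˢ U) (S ×ˢ T) :=
  Act.pr_of _ ⟨univ ×ˢ U, sph A R ×ˢ univ, isOpen_univ.prod hU, isClosed_sph.prod isClosed_univ,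
      by simp [prod_inter_prod]⟩
    (fun g _ k => ⟨act_mem_sph hχ g k.1, k.2⟩) (hS.prod hT) fun g _ k => ⟨h g _ k.1, k.2⟩

theorem pr_orbS (hχ : ∀ z, IsChar (χ z)) (hU : IsOpen U) (w₀ : A × R → ℂ) (x₀ : J' → ℂ) :
    (aS χ J').Pr (sph A R ×ˢ U) (orbS w₀ ×ˢ {x₀}) :=
  normb_pr hχ hU (isClosed_orbS w₀) (fun g _ => normb_orb hχ g) isClosed_singleton

theorem gadm_slice (hχ : ∀ z, IsChar (χ z)) (hU : IsOpen U) (hu : ∀ j, ‖u j‖ = 1) :
    GAdm (Act.triv Gp.one ((SI π → ℂ) × (J' → ℂ))) (aS χ J') (fun _ => 1)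
      (fun z => (slc u π z.1, z.2)) (univ ×ˢ U) {(v₀, x₀)} (sph A R ×ˢ U)
      (orbS (slc u π v₀) ×ˢ {x₀}) := by
  have := rep_sphRep hχ
  refine ⟨Act.pr_of _ (isOpen_univ.prod hU).isLocallyClosed (fun _ _ h => h) isClosed_singleton
    fun _ _ h => h, pr_orbS hχ hU _ _, Continuous.continuousOn ?_,
    fun _ _ _ => (Act.act_one _ _).symm, fun z h => ⟨slc_mem hu _, h.2⟩, ?_⟩
  · exact ((continuous_slc u π).comp continuous_fst).prodMk continuous_snd
  · rintro z - ⟨⟨g, h1⟩, h2⟩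
    exact Prod.ext (slc_unique hu h1.symm).2.symm h2

theorem slice_bij (hχ : ∀ z, IsChar (χ z)) (hU : IsOpen U) (hu : ∀ j, ‖u j‖ = 1) :
    Function.Bijective (gp (Act.triv Gp.one ((SI π → ℂ) × (J' → ℂ))) (fun _ => 1)
      (fun z => (slc u π z.1, z.2)) (univ ×ˢ U) {(v₀, x₀)} :
        EH (aS χ J') (sph A R ×ˢ U) (orbS (slc u π v₀) ×ˢ {x₀}) → _) := by
  have := rep_sphRep hχ
  have k0 := gadm_slice (x₀ := x₀) (v₀ := v₀) hχ hU hu
  have h1 : (aS χ J').Pr (sph A R ×ˢ U) (sph A R ×ˢ U \ (sph A R ∩ chd π) ×ˢ U) := by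
    refine (normb_pr hχ hU (isOpen_chd π).isClosed_compl (fun g w hw h => hw fun j h0 => ?_)
      isClosed_univ).congr_mem fun x hx => ?_
    · refine h j ?_
      rw [normb_act hχ]
      exact mul_eq_zero_of_right _ h0
    · exact ⟨fun k => ⟨hx, fun m => k.1 m.1.2⟩, fun k => ⟨fun m => k.2 ⟨⟨hx.1, m⟩, hx.2⟩, trivial⟩⟩
  have h2 : (sph A R ∩ chd π) ×ˢ U ⊆ sph A R ×ˢ U := prod_mono inter_subset_left subset_rfl
  have h3 := excision k0.tgt h1 h2 (by
    rintro x ⟨k1, ⟨g, k2⟩, -⟩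
    refine ⟨⟨k1.1, fun j => ?_⟩, k1.2⟩
    rw [k2]
    exact mul_ne_zero (g j).coe_ne_zero (slc_chd hu v₀ j))
  have h4 := k0.tgt.of_op h1 h2
  have k1 : GAdm (Act.triv Gp.one ((SI π → ℂ) × (J' → ℂ))) (aS χ J') (fun _ => 1)
      (fun z => (slc u π z.1, z.2)) (univ ×ˢ U) {(v₀, x₀)} ((sph A R ∩ chd π) ×ˢ U)
      (orbS (slc u π v₀) ×ˢ {x₀}) :=
    ⟨k0.src, h4, k0.cont, k0.eqv, fun z h => ⟨⟨slc_mem hu _, slc_chd hu _⟩, h.2⟩, k0.supp⟩
  have h5 := stackIso k1 (by
    rintro _ - rfl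
    exact ⟨⟨1, by simp⟩, rfl⟩) (by
    rintro y ⟨⟨y1, y2⟩, y3⟩
    obtain ⟨g, hg⟩ := exists_slc hu y1 y2
    exact ⟨(g, 1), (ncr π y.1, y.2), ⟨trivial, y3⟩,
      Prod.ext ((normb_act hχ _ _).trans hg.symm) rfl⟩) (by
    intro x _ x' _ g e
    have e1 := slc_unique hu ((normb_act hχ _ _).symm.trans (congrArg Prod.fst e))
    have e2 := congrArg Prod.snd e
    exact ⟨1, ⟨Prod.ext e1.1.symm (Subsingleton.elim _ _), Prod.ext e1.2 e2⟩,
      fun _ _ => Subsingleton.elim _ _⟩) (by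
    intro K hK cK
    have c1 := isCompact_slc_preimage hu (cK.image continuous_fst) (by
      rintro _ ⟨y, hy, rfl⟩
      exact (hK hy).1.2)
    rw [inter_eq_right.2 (by exact fun z hz => ⟨trivial, (hK hz).2⟩)]
    exact (c1.prod (cK.image continuous_snd)).of_isClosed_subset
      (cK.isClosed.preimage (((continuous_slc u π).comp continuous_fst).prodMk continuous_snd))
      fun z hz => ⟨⟨_, hz, rfl⟩, ⟨_, hz, rfl⟩⟩)
  convert h5.comp h3 using 1
  funext c
  exact (gp_comp (gadm_id k0.tgt h4 h2 inter_subset_right) k1 (fun _ => rfl) (fun _ _ => rfl) c).symm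

/-- the representation on the affine coordinates -/
def normb_rho (π : A → R) : Act (TG A Gp.one) (SI π → ℂ) := Act.dg fun z g => (g.1 z.1.1 : ℂ)

instance normb_rep : (normb_rho π).Rep := Act.rep_dg fun z =>
  ⟨fun _ _ => rfl, continuous_subtype_val.comp ((continuous_apply z.1.1).comp continuous_fst),
    fun g => (g.1 z.1.1).norm_coe⟩

theorem normb_euc (π : A → R) :
    euc (normb_rho π) = polx A Gp.one (∏ j, MvPolynomial.X j ^ (Fintype.card R - 1)) := by
  have := Act.rep_dg fun z : SI π => isChar_chr (Pi.single z.1.1 1)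
  have h1 := euc_dg fun z : SI π => (Pi.single z.1.1 1 : A → ℤ)
  have h2 : ∀ j : A, lf ℂ (Pi.single j 1 : A → ℤ) = MvPolynomial.X j := fun j => by
    simp [lf, Pi.single_apply]
  simp only [h2] at h1
  rw [prod_SI π MvPolynomial.X] at h1
  rw [polx, AlgHom.comp_apply, ← h1, euc_res]
  refine euc_congr fun g w => funext fun z => ?_
  exact congrArg (· * w z) (chr_single z.1.1 g.1).symm

/-- the equations of the orbit -/
def normb_l (v₀ : SI π → ℂ) (y : (A × R → ℂ) × (J' → ℂ)) : SI π → ℂ :=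
  fun z => y.1 z.1 - v₀ z * y.1 (z.1.1, π z.1.1)

theorem normb_eadm (hχ : ∀ z, IsChar (χ z)) (hU : IsOpen U) (hu : ∀ j, ‖u j‖ = 1) :
    EAdm (aS χ J') (normb_rho π) (normb_l v₀) (sph A R ×ˢ U) (orbS (slc u π v₀) ×ˢ univ) := by
  refine ⟨normb_pr hχ hU (isClosed_orbS _) (fun g _ => normb_orb hχ g) isClosed_univ,
    Act.Rep.pr _, Continuous.continuousOn ?_, fun g y _ => funext fun z => ?_,
    fun _ _ => trivial, fun y hy h0 => ⟨?_, trivial⟩⟩
  · unfold normb_l
    fun_prop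
  · change (sphRep χ).act g y.1 z.1 - v₀ z * (sphRep χ).act g y.1 (z.1.1, π z.1.1) =
      g.1 z.1.1 * (y.1 z.1 - v₀ z * y.1 (z.1.1, π z.1.1))
    rw [normb_act hχ]
    ring
  have h1 : ∀ z : SI π, y.1 z.1 = v₀ z * y.1 (z.1.1, π z.1.1) := fun z =>
    sub_eq_zero.1 (congrFun (show normb_l v₀ y = 0 from h0) z)
  have h2 : y.1 ∈ chd π := fun j hj => by
    have h3 := hy.1 j
    rw [nsq, Finset.sum_eq_zero fun r _ => ?_] at h3
    · exact zero_ne_one h3
    · by_cases hr : r = π j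
      · simp [hr, hj]
      · simp [h1 ⟨(j, r), hr⟩, hj]
  have h3 : ncr π y.1 = v₀ := funext fun z => by
    rw [ncr, h1, mul_div_cancel_right₀ _ (h2 _)]
  exact h3 ▸ exists_slc hu hy.1 h2

theorem stop_ne_zero (hχ : ∀ z, IsChar (χ z)) (hU : IsOpen U) (hx : x₀ ∈ U) {w₀ : A × R → ℂ}
    (hw : w₀ ∈ sph A R) {d : EH (aS χ J') (sph A R ×ˢ U) (orbS w₀ ×ˢ {x₀})} (hd : d ≠ 0) :
    stop χ (Act.triv Gp.one (J' → ℂ)) U {x₀} (gp _ id id _ _ d) ≠ 0 := by
  have := rep_sphRep hχ
  obtain ⟨π, u, v₀, hu, rfl⟩ := exists_slice hw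
  have hτ := loc_deg (L := J' → ℂ) (J := J') (by
    rw [Module.finrank_pi_fintype]
    simp [mul_comm]) hU hx (Γ := fun x => x - x₀) (by fun_prop) (fun _ _ => sub_eq_zero)
    ((hasFDerivAt_id x₀).sub_const x₀) fun _ _ h => h
  generalize eul (Act.triv Gp.one (J' → ℂ)) (Act.triv Gp.one _) (fun x => x - x₀) U {x₀} = τ at hτ
  have p0 : (Act.triv Gp.one (J' → ℂ)).Pr U {x₀} :=
    Act.pr_of _ hU.isLocallyClosed (fun _ _ h => h) isClosed_singleton fun _ _ h => h
  have k := normb_eadm (J' := J') (v₀ := v₀) hχ hU hu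
  have p1 := k.src
  have p2 : (aS χ J').Pr (sph A R ×ˢ U) (univ ×ˢ {x₀}) :=
    normb_pr hχ hU isClosed_univ (fun _ _ _ => trivial) isClosed_singleton
  have p3 := pr_orbS hχ hU (slc u π v₀) x₀
  have k1 := gadm_id p1 p1.top subset_rfl (subset_univ _)
  let e : EH (aS χ J') (sph A R ×ˢ U) (orbS (slc u π v₀) ×ˢ {x₀}) :=
    ecup _ _ (eul (aS χ J') (normb_rho π) (normb_l v₀) (sph A R ×ˢ U) (orbS (slc u π v₀) ×ˢ univ))
      (gp (aS χ J') Prod.snd Prod.snd (sph A R ×ˢ U) (univ ×ˢ {x₀}) τ)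
  have h1 : stop χ (Act.triv Gp.one (J' → ℂ)) U {x₀} (gp _ id id _ _ e) = τ := by
    rw [gp_id_ecup (ecup_of p1 p2 p3 fun _ h => ⟨h.1.2.1, h.2.2⟩)
        (gadm_id p3 p2 subset_rfl fun _ h => ⟨trivial, h.2.2⟩),
      ← ecup_gp_left (ecup_top p2) k1,
      gp_eul k k1 (fun _ _ => rfl) (F' := normb_l v₀) (fun _ _ => rfl),
      eul_univ ⟨p1.top, k.tgt, k.cont, k.eqv, k.maps, fun _ _ _ => trivial⟩,
      ecup_sm_left (ecup_top p2), eone_ecup (ecup_top p2)
        (gadm_id p2 p2 subset_rfl inter_subset_right), gp_id p2, normb_euc, stop_top hχ p0]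
  have hb := slice_bij (x₀ := x₀) (v₀ := v₀) hχ hU hu
  obtain ⟨z, hz⟩ := loc_rank (isOpen_univ.prod hU) (w := (v₀, x₀)) ⟨trivial, hx⟩ (gp _ _ _ _ _ e)
    ((map_ne_zero_iff _ hb.1).2 hd)
  rw [← map_smul] at hz
  intro h0
  rw [hb.1 hz, map_smul, map_smul, h0, smul_zero] at h1
  exact hτ h1.symm

end Pool.Agent.Work.MP_849ab0_ag.G
end
end

-- merged part: Pool.Agent.Work.MP_849ab0_ag.G.H1.Bi
section
/-!
Spaces of maps between two modules as representations: a group acts on the target through `l`, on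
the source through `r`, and rescales the arrows through `χ`.

Hints.  `mat_bi`: `Sup.mul`.  `rep_bi`: `mat_ext`, `nsq_fsq`, `KU.fsq_mul`, `KU.mul_fsq`.
`lpm`: the entry `(some b, some a)` of `lpm φ` is `φ ⟨(col a, some a, some b), _⟩` if
`col a = col b` and `0` otherwise.
-/

noncomputable section

set_option linter.unusedSectionVars false
set_option linter.unusedVariables false

namespace Pool.Agent.Work.MP_849ab0_ag.G

open Set Matrix

/-- continuous homomorphisms to the graded unitary matrices -/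
structure IsUH {G : Gp} {J C : Type} [Fintype J] [DecidableEq J] (c : J → C)
    (l : G.H → Matrix J J ℂ) : Prop where
  ku : ∀ g, KU c (l g)
  mul : ∀ g h, l (g * h) = l g * l h
  cont : Continuous l

section

variable {G G' : Gp} [G.Nice] [G'.Nice] {J C : Type} [Fintype J] [DecidableEq J] {c : J → C}
  {l : G.H → Matrix J J ℂ}

theorem IsUH.one (h : IsUH c l) : l 1 = 1 := by
  have e := congrArg ((l 1)ᴴ * ·) (h.mul 1 1)
  simp only [one_mul, ← Matrix.mul_assoc, (h.ku 1).uni] at e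
  exact e.symm

theorem IsUH.comp (h : IsUH c l) (φ : G'.H → G.H) [IsHom φ] : IsUH c fun g => l (φ g) :=
  ⟨fun _ => h.ku _, fun a b => by rw [IsHom.mul (φ := φ), h.mul], h.cont.comp IsHom.cont⟩

theorem isUH_one : IsUH (G := G) c fun _ => (1 : Matrix J J ℂ) :=
  ⟨fun _ => KU.one, fun _ _ => (one_mul _).symm, continuous_const⟩

theorem isUH_diag {χ : J → G.H → ℂ} (h : ∀ j, IsChar (χ j)) :
    IsUH c fun g => diagonal fun j => χ j g :=
  ⟨fun g => KU.diag fun j => (h j).norm g,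
    fun a b => by simp only [diagonal_mul_diagonal, (h _).mul],
    (continuous_pi fun j => (h j).cont).matrix_diagonal⟩

theorem isUH_hat {C' : Type} {c' : J → C'} (e : ∀ a b, c' a = c' b → c a = c b) :
    IsUH (G := Gp.blk c') (Option.map c) fun g => hat 1 g.1.1 :=
  ⟨fun g => ku_hat.2 ⟨(ku_Ub g).grd.mono e, (ku_Ub g).uni⟩,
    fun a b => by rw [hat_mulH, one_mul]; rfl,
    cont_hat.comp (continuous_const.prodMk (continuous_subtype_val.comp continuous_subtype_val))⟩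

end

namespace Qv

variable {I P E κ : Type} [Fintype I] [DecidableEq I] [Fintype P] [DecidableEq P] [Fintype E]
  [Fintype κ] [DecidableEq κ] (D : Qv I P E κ) {G : Gp}

/-- `y ↦ χ l y rᴴ` -/
def bi (l r : G.H → Mt P) (χ : E → G.H → ℂ) : Act G D.Rep :=
  ⟨fun g y => D.unmat fun e => χ e g • (l g * D.mat y e * (r g)ᴴ)⟩

/-- one loop at every vertex: its representations are the graded endomorphisms of `V` -/
abbrev lp : Qv I P I κ := ⟨D.col, some, some, fun _ => 0, 0⟩

/-- the endomorphism of `V ⊕ ℂ` given by a representation of `lp` -/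
def lpm (φ : D.lp.Rep) : Mt P := ∑ i, D.lp.mat φ i

/-- the block on `V` of a graded matrix -/
def unl (m : Mt P) : D.lp.Rep := D.lp.unmat fun _ => m

/-- the matrix unit at the framing vertex -/
def fr (_D : Qv I P E κ) (s : ℂ) : Mt P := hat s 0

variable {D} [G.Nice] {l r : G.H → Mt P} {χ : E → G.H → ℂ} {m : Mt P}

theorem mat_bi (hl : IsUH D.cl l) (hr : IsUH D.cl r) (g : G.H) (y : D.Rep) (e : E) :
    D.mat ((D.bi l r χ).act g y) e = χ e g • (l g * D.mat y e * (r g)ᴴ) := by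
  refine congrFun (mat_unmat (m := fun e => χ e g • (l g * D.mat y e * (r g)ᴴ)) ?_) e
  intro e b a h
  exact (congrArg (χ e g * ·) ((sup_mat y).mul (hl.ku g).grd (hr.ku g).grd.adj e b a h)).trans
    (mul_zero _)

theorem rep_bi (hl : IsUH D.cl l) (hr : IsUH D.cl r) (hχ : ∀ e, IsChar (χ e)) :
    (D.bi l r χ).Rep := by
  refine
    { one := fun y => mat_ext fun e => ?_
      mul := fun g h y => mat_ext fun e => ?_
      cont := (continuous_unmat (D := D)).comp (f := fun (z : G.H × D.Rep) e =>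
        χ e z.1 • (l z.1 * D.mat z.2 e * (r z.1)ᴴ)) (continuous_pi fun e => ?_)
      lin := fun g => ⟨fun x y => mat_ext fun e => ?_, fun c y => mat_ext fun e => ?_⟩
      nsq := fun g y => ?_ }
  · rw [mat_bi hl hr, hl.one, hr.one, (hχ e).one, one_smul, conjTranspose_one, one_mul, mul_one]
  · simp only [mat_bi hl hr, hl.mul, hr.mul, (hχ e).mul, conjTranspose_mul, Matrix.mul_smul,
      Matrix.smul_mul, smul_smul, mul_assoc]
  · exact ((hχ e).cont.comp continuous_fst).smul (((hl.cont.comp continuous_fst).matrix_mul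
      ((cont_mat e).comp continuous_snd)).matrix_mul
        (hr.cont.comp continuous_fst).matrix_conjTranspose)
  · simp only [mat_addH, mat_bi hl hr, mul_add, add_mul, smul_add]
  · simp only [mat_smulH, mat_bi hl hr, Matrix.mul_smul, Matrix.smul_mul]
    rw [smul_comm]
  · rw [nsq_fsq, nsq_fsq]
    refine Finset.sum_congr rfl fun e _ => ?_
    rw [mat_bi hl hr, ← (hl.ku g).fsq_mul (D.mat y e), ← (hr.ku g).adj.mul_fsq (l g * D.mat y e)]
    simp only [fsq, Matrix.smul_apply, smul_eq_mul, norm_mul, (hχ e).norm, one_mul]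

theorem bi_diag (d d' : Option P → G.H → ℂ) (g : G.H) (y : D.Rep) (p : D.Wt) :
    (D.bi (fun g => diagonal fun j => d j g) (fun g => diagonal fun j => d' j g) χ).act g y p =
      χ p.1.1 g * d p.1.2.2 g * star (d' p.1.2.1 g) * y p := by
  simp only [bi, unmat, Matrix.smul_apply, diagonal_conjTranspose, mul_diagonal, diagonal_mul,
    mat_app, Pi.star_apply, smul_eq_mul]
  ring

theorem bi_diag_one (d : Option P → G.H → ℂ) (g : G.H) (y : D.Rep) (p : D.Wt) :
    (D.bi (fun g => diagonal fun j => d j g) (fun _ => 1) χ).act g y p =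
      χ p.1.1 g * d p.1.2.2 g * y p := by
  simp only [bi, unmat, Matrix.smul_apply, conjTranspose_one, mul_one, diagonal_mul,
    mat_app, smul_eq_mul, mul_assoc]

theorem aN_eq_bi (g : (KT D.col κ).H) (y : D.Rep) : D.aN.act g y =
    (D.bi (G := KT D.col κ) (fun g => hat 1 g.1.1.1) (fun g => hat 1 g.1.1.1)
      fun e g => chr (D.t e) g.2).act g y := by
  funext p
  change _ * (hat 1 g.1.1.1 * D.mat y p.1.1 * (hat 1 g.1.1.1)⁻¹) p.1.2.2 p.1.2.1 = _
  rw [(ku_hat.2 (ku_Ub g.1)).inv_eq]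
  rfl

theorem bi_lpm0 (φ : D.lp.Rep) {b a : Option P}
    (h : ∀ i, ¬(a.map D.col = some i ∧ b.map D.col = some i)) : D.lpm φ b a = 0 := by
  rw [lpm, Matrix.sum_apply]
  exact Finset.sum_eq_zero fun i _ => sup_mat φ i b a (h i)

theorem bi_lpm (φ : D.lp.Rep) {b a : Option P} {i : I}
    (h : a.map D.col = some i ∧ b.map D.col = some i) : D.lpm φ b a = D.lp.mat φ i b a := by
  rw [lpm, Matrix.sum_apply]
  exact Finset.sum_eq_single_of_mem i (Finset.mem_univ i) fun j _ e =>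
    sup_mat φ j b a fun c => e (Option.some.inj (c.1.symm.trans h.1))

theorem bi_fr {u v : Mt P} (hu : Grd D.cl u) (hv : Grd D.cl v) (s : ℂ) :
    u * D.fr s * v = D.fr (u none none * s * v none none) := by
  conv_lhs => rw [← hat_unhat hu, ← hat_unhat hv, fr, hat_mulH, hat_mulH, mul_zero, zero_mul]
  rfl

theorem grd_lpm (φ : D.lp.Rep) : Grd D.cl (D.lpm φ) := fun _ _ h =>
  bi_lpm0 φ fun _ e => h (e.2.trans e.1.symm)

theorem lpm_none_left (φ : D.lp.Rep) (o : Option P) : D.lpm φ none o = 0 :=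
  bi_lpm0 φ fun _ e => by simpa using e.2

theorem lpm_none_right (φ : D.lp.Rep) (o : Option P) : D.lpm φ o none = 0 :=
  bi_lpm0 φ fun _ e => by simpa using e.1

theorem lpm_app (φ : D.lp.Rep) (p : D.lp.Wt) : D.lpm φ p.1.2.2 p.1.2.1 = φ p :=
  (bi_lpm φ p.2).trans (mat_app φ p)

theorem unl_lpm (φ : D.lp.Rep) : D.unl (D.lpm φ) = φ := funext fun p => lpm_app φ p

theorem lpm_unl (h : Grd D.cl m) : D.lpm (D.unl m) + D.fr (m none none) = m := by
  ext (_ | b) (_ | a) <;> rw [Matrix.add_apply]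
  · rw [lpm_none_left, zero_add]; rfl
  · rw [lpm_none_left, zero_add, h none (some a) (by simp)]; rfl
  · rw [lpm_none_right, zero_add, h (some b) none (by simp)]; rfl
  · refine (add_zero _).trans ?_
    by_cases e : D.col b = D.col a
    · exact lpm_app (D.unl m) ⟨(D.col a, some a, some b), rfl, congrArg some e⟩
    · rw [grd_lpm _ _ _ (by simpa using e), h _ _ (by simpa using e)]

theorem unl_eq_zero (h : Grd D.cl m) : D.unl m = 0 ↔ ∀ a b, m (some a) (some b) = 0 := by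
  refine ⟨fun h0 b a => ?_, fun h0 => funext ?_⟩
  · by_cases e : D.col b = D.col a
    · exact congrFun h0 ⟨(D.col a, some a, some b), rfl, congrArg some e⟩
    · exact h _ _ (by simpa using e)
  · rintro ⟨⟨i, _ | a, _ | b⟩, h1, h2⟩
    · simp at h1
    · simp at h1
    · simp at h2
    · exact h0 b a

theorem lpm_add (φ ψ : D.lp.Rep) : D.lpm (φ + ψ) = D.lpm φ + D.lpm ψ := by
  simp only [lpm, mat_addH, Finset.sum_add_distrib]

theorem lpm_smul (z : ℂ) (φ : D.lp.Rep) : D.lpm (z • φ) = z • D.lpm φ := by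
  simp only [lpm, mat_smulH, Finset.smul_sum]

theorem lpm_zero : D.lpm 0 = 0 := by
  simp only [lpm, mat_zeroH, Finset.sum_const_zero]

theorem lpm_eq_zero {φ : D.lp.Rep} (h : D.lpm φ = 0) : φ = 0 := by
  rw [← unl_lpm φ, h]
  rfl

theorem cont_lpm : Continuous D.lpm := continuous_finsetSum _ fun i _ => cont_mat i

theorem cont_unl : Continuous D.unl :=
  continuous_unmat.comp (continuous_pi fun _ => continuous_id)

theorem lpm_bi (hl : IsUH D.cl l) (hr : IsUH D.cl r) (ψ : G.H → ℂ) (g : G.H) (φ : D.lp.Rep) :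
    D.lpm ((D.lp.bi l r fun _ => ψ).act g φ) = ψ g • (l g * D.lpm φ * (r g)ᴴ) := by
  simp only [lpm, mat_bi (D := D.lp) hl hr, Finset.smul_sum, Finset.mul_sum, Finset.sum_mul]

theorem unl_bi (hl : IsUH D.cl l) (hr : IsUH D.cl r) (ψ : G.H → ℂ) (g : G.H) (h : Grd D.cl m) :
    D.unl (ψ g • (l g * m * (r g)ᴴ)) = (D.lp.bi l r fun _ => ψ).act g (D.unl m) := by
  rw [← unl_lpm ((D.lp.bi l r fun _ => ψ).act g (D.unl m)), lpm_bi hl hr]
  conv_lhs => rw [← lpm_unl h, mul_add, add_mul, bi_fr (hl.ku g).grd (hr.ku g).grd.adj]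
  funext ⟨⟨i, a, b⟩, h1, h2⟩
  rcases a with _ | a
  · simp at h1
  rcases b with _ | b
  · simp at h2
  simp [unl, unmat, fr, hat]

theorem grd_fr (s : ℂ) : Grd D.cl (D.fr s) := grd_hat.2 Grd.zero

theorem fr_none (s : ℂ) : D.fr s none none = s := rfl

theorem fr_conj {u v : Mt P} (hu : Grd D.cl u) (hv : Grd D.cl v) (s : ℂ) :
    u * D.fr s * v = D.fr (u none none * s * v none none) := bi_fr hu hv s

theorem cont_fr : Continuous D.fr := cont_hat.comp (continuous_id.prodMk continuous_const)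

end Qv

end Pool.Agent.Work.MP_849ab0_ag.G
end
end

-- merged part: Pool.Agent.Work.MP_849ab0_ag.G.H2.Cs
section
/-!
Coordinate subspaces of representations.
-/

noncomputable section

set_option linter.unusedSectionVars false
set_option linter.unusedVariables false

namespace Pool.Agent.Work.MP_849ab0_ag.G

open Set Topology Matrix

/-- a set of coordinates -/
def Cs {J : Type} (pr : J → Prop) : Type := {j // pr j}

instance {J : Type} [Fintype J] (pr : J → Prop) : Fintype (Cs pr) :=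
  @Fintype.ofFinite _ Subtype.finite

variable {J : Type} {pr : J → Prop}

/-- extension by zero -/
def exz (pr : J → Prop) (w : Cs pr → ℂ) : J → ℂ :=
  open Classical in fun j => if h : pr j then w ⟨j, h⟩ else 0

/-- restriction -/
def rs0 (pr : J → Prop) (w : J → ℂ) : Cs pr → ℂ := fun j => w j.1

theorem exz_pos (w : Cs pr → ℂ) (j : Cs pr) : exz pr w j.1 = w j := dif_pos j.2

theorem exz_neg (w : Cs pr → ℂ) {j : J} (h : ¬pr j) : exz pr w j = 0 := dif_neg h

theorem rs0_exz (w : Cs pr → ℂ) : rs0 pr (exz pr w) = w := funext (exz_pos w)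

theorem exz_rs0 {w : J → ℂ} (h : ∀ j, ¬pr j → w j = 0) : exz pr (rs0 pr w) = w := funext fun j => by
  by_cases k : pr j
  · exact exz_pos _ ⟨j, k⟩
  · rw [exz_neg _ k, h j k]

theorem exz_add (v w : Cs pr → ℂ) : exz pr (v + w) = exz pr v + exz pr w := funext fun j => by
  by_cases k : pr j <;> simp [exz, k]

theorem exz_smul (z : ℂ) (w : Cs pr → ℂ) : exz pr (z • w) = z • exz pr w := funext fun j => by
  by_cases k : pr j <;> simp [exz, k]

theorem exz_zero : exz pr 0 = 0 := exz_rs0 (w := 0) fun _ _ => rfl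

theorem continuous_exz : Continuous (exz pr) := continuous_pi fun j => by
  by_cases k : pr j
  · simp only [exz, dif_pos k]
    exact continuous_apply _
  · simp only [exz, dif_neg k]
    exact continuous_const

theorem continuous_rs0 : Continuous (rs0 pr) := continuous_pi fun j => continuous_apply j.1

/-- extension by zero as a real linear map -/
def exzL (pr : J → Prop) : (Cs pr → ℂ) →L[ℝ] J → ℂ :=
  ⟨⟨⟨exz pr, exz_add⟩, fun z w => exz_smul (z : ℂ) w⟩, continuous_exz⟩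

/-- restriction as a real linear map -/
def rsL (pr : J → Prop) : (J → ℂ) →L[ℝ] Cs pr → ℂ :=
  ⟨⟨⟨rs0 pr, fun _ _ => rfl⟩, fun _ _ => rfl⟩, continuous_rs0⟩

theorem sum_exz [Fintype J] {M : Type} [AddCommMonoid M] (f : J → ℂ → M) (hf : ∀ j, f j 0 = 0)
    (w : Cs pr → ℂ) : ∑ j, f j (exz pr w j) = ∑ j : Cs pr, f j.1 (w j) := by
  classical
  rw [← Finset.sum_filter_add_sum_filter_not Finset.univ pr,
    Finset.sum_eq_zero (s := Finset.univ.filter fun j => ¬pr j)
      (fun j hj => by rw [exz_neg _ (Finset.mem_filter.1 hj).2, hf]), add_zero,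
    Finset.sum_subtype (p := pr) _ (by simp)]
  exact Finset.sum_congr (by congr) fun j _ => by rw [exz_pos w j]

theorem nsq_exz [Fintype J] (w : Cs pr → ℂ) : nsq (exz pr w) = nsq w :=
  sum_exz (fun _ z => ‖z‖ ^ 2) (fun _ => by simp) w

variable {G : Gp}

/-- the action on a coordinate subspace -/
def Act.cs (ρ : Act G (J → ℂ)) (pr : J → Prop) : Act G (Cs pr → ℂ) :=
  ⟨fun g w => rs0 pr (ρ.act g (exz pr w))⟩

/-- the coordinate subspace and its complement are invariant -/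
structure Act.Spl (ρ : Act G (J → ℂ)) (pr : J → Prop) : Prop where
  pos : ∀ g w, (∀ j, ¬pr j → w j = 0) → ∀ j, ¬pr j → ρ.act g w j = 0
  neg : ∀ g w, (∀ j, pr j → w j = 0) → ∀ j, pr j → ρ.act g w j = 0

variable [Fintype J] {ρ : Act G (J → ℂ)} [ρ.Rep]

theorem Act.Spl.exz_act (h : ρ.Spl pr) (g : G.H) (w : Cs pr → ℂ) :
    exz pr ((ρ.cs pr).act g w) = ρ.act g (exz pr w) :=
  exz_rs0 (h.pos g _ fun _ => exz_neg w)

theorem Act.Spl.rs0_act (h : ρ.Spl pr) (g : G.H) (w : J → ℂ) :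
    rs0 pr (ρ.act g w) = (ρ.cs pr).act g (rs0 pr w) := funext fun j => by
  have h1 := h.neg g (w - exz pr (rs0 pr w)) (fun i hi => sub_eq_zero.2 (exz_pos (rs0 pr w) ⟨i, hi⟩).symm)
    j.1 j.2
  rw [(Act.Rep.lin (ρ := ρ) g).map_sub] at h1
  exact sub_eq_zero.1 h1

theorem Act.Spl.rep (h : ρ.Spl pr) : (ρ.cs pr).Rep where
  one w := by
    change rs0 pr (ρ.act 1 _) = w
    rw [Act.act_one, rs0_exz]
  mul g k w := by
    change rs0 pr (ρ.act (g * k) _) = rs0 pr (ρ.act g _)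
    rw [h.exz_act, Act.act_mul]
  cont := continuous_rs0.comp (ρ.cont_act continuous_fst (continuous_exz.comp continuous_snd))
  lin g := ⟨fun v w => by
      change rs0 pr (ρ.act g _) = rs0 pr (ρ.act g _) + rs0 pr (ρ.act g _)
      rw [exz_add, (Act.Rep.lin (ρ := ρ) g).map_add]; rfl,
    fun z w => by
      change rs0 pr (ρ.act g _) = z • rs0 pr (ρ.act g _)
      rw [exz_smul, (Act.Rep.lin (ρ := ρ) g).map_smul]; rfl⟩
  nsq g w := by rw [← nsq_exz, h.exz_act, Act.Rep.nsq, nsq_exz]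

end Pool.Agent.Work.MP_849ab0_ag.G
end
end
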