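import Pool.Agent.Work.MP_849ab0_ag.Uni2

-- merged part: Pool.Agent.Work.MP_849ab0_ag.G.H2.UDef
section
/-!
Weighted graphs on the points and the framing point: cuts, flows, residue functionals.
-/

noncomputable section

set_option linter.unusedSectionVars false
set_option linter.unusedVariables false

namespace Pool.Agent.Work.MP_849ab0_ag

open MvPolynomial Finset

/-- a graph on the points and the framing point, with constants on the edges -/
structure GW (n : ℕ) (J R : Type) where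
  src : J → Option (Fin n)
  tgt : J → Option (Fin n)
  c : J → R

namespace GW

variable {n : ℕ} {J R : Type} [Fintype J] [CommRing R] (G : GW n J R)

/-- the incidence vector of an edge -/
def m (p : J) (a : Fin n) : ℤ :=
  (if G.tgt p = some a then 1 else 0) - if G.src p = some a then 1 else 0

/-- the weight of an edge -/
def w (p : J) : Pol n R := xv (G.tgt p) - xv (G.src p) + C (G.c p)

/-- the product of the weights outside `B` -/
def M (B : Finset J) : Pol n R := open Classical in ∏ p with p ∉ B, G.w p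

/-- a cut separates `ν` from the edges in `B` -/
def Cut (ν : Fin n → ℤ) (B : Finset J) : Prop :=
  ∃ (S : Finset (Fin n)) (ε : ℤ), ((ε = 1 ∧ 0 < ∑ a ∈ S, ν a) ∨ (ε = -1 ∧ ∑ a ∈ S, ν a < 0)) ∧
    ∀ p ∈ B, 0 ≤ ε * (ov (ind S) (G.tgt p) - ov (ind S) (G.src p))

/-- a flow on `B` with divergence `-ν` -/
def Flow (ν : Fin n → ℤ) (B : Finset J) (y : J → ℚ) : Prop :=
  (∀ p, 0 ≤ y p) ∧ (∀ p ∉ B, y p = 0) ∧ ∀ a, ∑ p, G.m p a * y p + ν a = 0

/-- functionals that kill the cuts and the low degrees -/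
structure Kil (ν : Fin n → ℤ) (ψ : Pol n R →ₗ[R] R) : Prop where
  cut : ∀ B, G.Cut ν B → ∀ g, ψ (g * G.M B) = 0
  low : ∀ B, n < B.card → ψ (G.M B) = 0

/-- all edges increase `s` -/
def Up (s : Option (Fin n) → ℤ) : Prop := ∀ p, s (G.src p) < s (G.tgt p)

/-- the edges in `H` generate a cone that contains all edges -/
def Ham (H : Finset J) : Prop :=
  H.card ≤ n ∧ ∀ φ : Option (Fin n) → ℚ, (∀ p ∈ H, φ (G.tgt p) ≤ φ (G.src p)) →
    ∀ p, φ (G.tgt p) ≤ φ (G.src p)

/-- the ideal of the cuts -/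
def SR (ν : Fin n → ℤ) : Ideal (Pol n R) := Ideal.span {x | ∃ B, G.Cut ν B ∧ x = G.M B}

/-- the residue of `g / ∏ w` -/
def JJ (ν : Fin n → ℤ) (s : Option (Fin n) → ℤ) : Pol n R →ₗ[R] R where
  toFun g := ∑ π : Equiv.Perm (Fin n), jk ν s π • (expand (RingHom.id R) π g *
    Ring.inverse (expand (RingHom.id R) π (∏ p, G.w p))).coeff (toLex fun _ => 1)
  map_add' f g := by
    simp only [add_mul, map_add, HahnSeries.coeff_add, smul_add, sum_add_distrib]
  map_smul' r f := by
    rw [RingHom.id_apply, smul_eq_mul, mul_sum]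
    refine sum_congr rfl fun π _ => ?_
    rw [smul_eq_C_mul, map_mul, expand_C, mul_assoc, coeff_C_mul', mul_smul_comm]; rfl

theorem JJ_apply (ν : Fin n → ℤ) (s : Option (Fin n) → ℤ) (g : Pol n R) :
    G.JJ ν s g = ∑ π : Equiv.Perm (Fin n), jk ν s π • (expand (RingHom.id R) π g *
      Ring.inverse (expand (RingHom.id R) π (∏ p, G.w p))).coeff (toLex fun _ => 1) := rfl

theorem M_univ : G.M univ = 1 := by simp [M]

theorem M_mul (B : Finset J) : G.M B * ∏ p ∈ B, G.w p = ∏ p, G.w p := by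
  classical
  rw [M, mul_comm, ← prod_filter_mul_prod_filter_not univ (· ∈ B)]
  congr
  simp

theorem M_erase [DecidableEq J] {B : Finset J} {p : J} (h : p ∈ B) :
    G.M (B.erase p) = G.w p * G.M B := by
  unfold M
  rw [← prod_insert (by simpa using h)]
  refine prod_congr ?_ fun _ _ => rfl
  ext q
  by_cases e : q = p <;> simp [e]

theorem sum_m {A : Type} [CommRing A] (φ : Option (Fin n) → A) (p : J) :
    ∑ a, (G.m p a : A) * φ (some a) = (φ (G.tgt p) - φ (G.src p)) -
      ((if G.tgt p = none then 1 else 0) - if G.src p = none then 1 else 0) * φ none := by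
  unfold m
  rcases G.tgt p with _ | b <;> rcases G.src p with _ | a <;>
    simp [sub_mul, sum_sub_distrib]

theorem w_eq (p : J) : G.w p = ∑ a, (G.m p a : Pol n R) * X a + C (G.c p) := by
  have := G.sum_m (xv (R := R)) p
  simp only [xv, Option.elim, mul_zero, sub_zero] at this
  rw [w, this]
  rfl

end GW

namespace QD

variable {k n : ℕ} {E R : Type} [Fintype E] [CommRing R] (D : QD k n E R)

/-- the weights of `N ⊕ N^*` on which `μ` is negative, up to sign -/
def CM (μ : Fin n → ℤ) : Pol n R :=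
  (∏ p ∈ D.Wt with ov μ p.2.2 < ov μ p.2.1, D.chi p) *
    ∏ p ∈ D.Wt with ov μ p.2.1 < ov μ p.2.2, (D.chi p - C D.h)

/-- the ideal of the cuts of the doubled quiver -/
def SQ (ν : Fin k → ℤ) : Ideal (Pol n R) :=
  Ideal.span {x | ∃ (S : Finset (Fin n)) (ε : ℤ), ((ε = 1 ∧ 0 < ∑ a ∈ S, ν (D.col a)) ∨
    (ε = -1 ∧ ∑ a ∈ S, ν (D.col a) < 0)) ∧ x = D.CM (ε • ind S)}

/-- all shifted roots and the positive roots -/
def EE : Pol n R :=
  (∏ q ∈ D.Rt with q.1 ≠ q.2, (X q.1 - X q.2 + C D.h)) * ∏ q ∈ D.Rt with q.1 < q.2, (X q.1 - X q.2)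

end QD

end Pool.Agent.Work.MP_849ab0_ag
end
end

-- merged part: Pool.Agent.Work.MP_849ab0_ag.G.H2.UA
section
/-!
Cuts, bases and flows; the path in the order `s`.

Hints.  `cut_of_pot`: clear denominators (`l a = d * φ (some a)`, `d > 0`), `level_sum` (JK.lean); if
no level set `{j ≤ l}` (sign `1`) or `{j ≤ -l}` (sign `-1`) is a cut then by `Gen` every summand is
`≤ 0` and the one for `j = 1` is `< 0`.  Let `a p : Fin n → ℚ := fun j => G.m p j`.
`cut_or_span`: a nonzero functional `f` that kills the span, `φ o = o.elim 0 fun j => ± f (single j 1)`,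
`sum_m`.  `cut_or_dual`: a spanning family of at most `n` vectors is a basis, `f p` = coordinates; if
`0 ≤ f p ν` for some `p ∈ B` use `cut_of_pot` with `f p`.
`exists_path`: `e : Fin (n + 1) ≃ Option (Fin n)` with `s ∘ e` strictly monotone (`Tuple.sort`),
`u i = e i.castSucc`, `v i = e i.succ`; the vectors `δ (e i) - δ (e 0)` are sums of edges (`Fin.induction`).
-/

noncomputable section

set_option linter.unusedSectionVars false
set_option linter.unusedVariables false

namespace Pool.Agent.Work.MP_849ab0_ag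

open MvPolynomial Finset

namespace GW

variable {n : ℕ} {J R : Type} [Fintype J] [CommRing R] {G : GW n J R} {ν : Fin n → ℤ}
  {B H : Finset J} {s : Option (Fin n) → ℤ} {ψ : Pol n R →ₗ[R] R}

theorem ua_ind {l : Fin n → ℤ} {j : ℤ} (hj : 1 ≤ j) (o : Option (Fin n)) :
    ov (ind {a | j ≤ l a}) o = if j ≤ ov l o then 1 else 0 := by
  rcases o with _ | a
  · rw [ov_none, ov_none, if_neg (by omega)]
  · by_cases h : j ≤ l a <;> simp [ind, h]

theorem ua_cut (hν : Gen ν) {l : Fin n → ℤ} (hl : l ≠ 0)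
    (h2 : ∀ p ∈ B, ov l (G.src p) ≤ ov l (G.tgt p)) (h3 : 0 ≤ ∑ a, ν a * l a) : G.Cut ν B := by
  by_contra h
  have h4 : ∀ j, 1 ≤ j → ∑ a with j ≤ l a, ν a ≤ 0 := fun j hj => not_lt.1 fun h5 =>
    h ⟨_, 1, Or.inl ⟨rfl, h5⟩, fun p hp => by
      have := h2 p hp
      rw [ua_ind hj, ua_ind hj]
      split_ifs <;> omega⟩
  have h5 : ∀ j, 1 ≤ j → 0 ≤ ∑ a with j ≤ (-l) a, ν a := fun j hj => not_lt.1 fun h5 =>
    h ⟨_, -1, Or.inr ⟨rfl, h5⟩, fun p hp => by
      have := h2 p hp
      rw [ua_ind hj, ua_ind hj, ov_neg, ov_neg]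
      split_ifs <;> omega⟩
  have h6 : ∑ a, ν a * l a ≤ 0 := by
    rw [level_sum ν l _ (JK_abs_le l)]
    refine sum_nonpos fun j hj => ?_
    have h7 := h4 j (mem_Icc.1 hj).1
    have h8 : 0 ≤ ∑ a with j ≤ -l a, ν a := h5 j (mem_Icc.1 hj).1
    omega
  obtain ⟨j, hj, h7⟩ := level_exists (l := -l) hν (neg_ne_zero.2 hl) (by
    simp only [Pi.neg_apply, mul_neg, sum_neg_distrib]
    omega)
  have h8 := h4 j hj
  have h9 := h5 j hj
  simp only [Pi.neg_apply, neg_neg] at h7 h9
  omega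

theorem cut_of_pot (hν : Gen ν) {φ : Option (Fin n) → ℚ} (h0 : φ none = 0) (h1 : φ ≠ 0)
    (h2 : ∀ p ∈ B, φ (G.src p) ≤ φ (G.tgt p)) (h3 : 0 ≤ ∑ a, φ (some a) * ν a) : G.Cut ν B := by
  have hd : 0 < ∏ b, (φ (some b)).den := prod_pos fun b _ => (φ (some b)).den_pos
  have h4 : ∀ a, ∃ z : ℤ, (z : ℚ) = (∏ b, (φ (some b)).den : ℕ) * φ (some a) := by
    intro a
    obtain ⟨e, he⟩ := dvd_prod_of_mem (fun b => (φ (some b)).den) (mem_univ a)
    refine ⟨e * (φ (some a)).num, ?_⟩
    rw [he]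
    push_cast
    rw [← Rat.mul_den_eq_num]
    ring
  choose l hl using h4
  generalize (∏ b, (φ (some b)).den : ℕ) = d at hd hl
  have hd' : (0 : ℚ) < d := by exact_mod_cast hd
  have h5 : ∀ o, (ov l o : ℚ) = d * φ o := by
    rintro (_ | a)
    · simp [h0]
    · exact hl a
  refine ua_cut hν (l := l) (fun e => h1 (funext fun o => ?_)) (fun p hp => ?_) ?_
  · have h6 := h5 o
    have h7 : ov l o = 0 := by
      rw [e]
      cases o <;> rfl
    rw [h7, Int.cast_zero] at h6
    exact (mul_eq_zero.1 h6.symm).resolve_left hd'.ne'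
  · have h6 := mul_le_mul_of_nonneg_left (h2 p hp) hd'.le
    rw [← h5, ← h5] at h6
    exact_mod_cast h6
  · have h6 := mul_nonneg hd'.le h3
    rw [mul_sum, sum_congr rfl (g := fun a => ((ν a * l a : ℤ) : ℚ)) fun a _ => by
      rw [Int.cast_mul, hl]
      ring] at h6
    exact_mod_cast h6

theorem ua_fun (hν : Gen ν) {f : (Fin n → ℚ) →ₗ[ℚ] ℚ} (hf : f ≠ 0)
    (h2 : ∀ p ∈ B, 0 ≤ f fun a => G.m p a) (h3 : 0 ≤ f fun a => ν a) : G.Cut ν B := by
  have h1 : ∀ v, f v = ∑ a, v a * f (Pi.single a 1) := fun v => by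
    conv_lhs => rw [← univ_sum_single v, map_sum]
    refine sum_congr rfl fun a _ => ?_
    rw [← smul_eq_mul, ← map_smul, ← Pi.single_smul', smul_eq_mul, mul_one]
  refine cut_of_pot hν (φ := fun o => o.elim 0 fun a => f (Pi.single a 1)) rfl
    (fun e => hf (LinearMap.ext fun v => ?_)) (fun p hp => ?_) ?_
  · rw [h1]
    refine sum_eq_zero fun a _ => mul_eq_zero_of_right _ (congrFun e (some a))
  · have h4 := G.sum_m (fun o => o.elim 0 fun a => f (Pi.single a 1)) p
    have h5 := h2 p hp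
    rw [h1] at h5
    simp only [Option.elim_some, Option.elim_none, mul_zero, sub_zero] at h4
    rw [h4] at h5
    exact sub_nonneg.1 h5
  · rw [h1] at h3
    simpa only [Option.elim_some, mul_comm] using h3

theorem cut_or_span (hν : Gen ν) (B : Finset J) : G.Cut ν B ∨
    ∀ v : Fin n → ℚ, ∃ y : J → ℚ, ∀ a, ∑ p ∈ B, y p * G.m p a = v a := by
  by_cases h : Submodule.span ℚ ((fun p a => (G.m p a : ℚ)) '' (B : Set J)) = ⊤
  · refine Or.inr fun v => ?_
    obtain ⟨y, hy⟩ := (Submodule.mem_span_image_finset_iff_exists_fun' ℚ).1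
      (h.symm ▸ Submodule.mem_top (x := v))
    exact ⟨y, fun a => by simpa using congrFun hy a⟩
  · obtain ⟨f, hf, hk⟩ := Submodule.exists_le_ker_of_lt_top _ (lt_top_iff_ne_top.2 h)
    have h1 : ∀ p ∈ B, f (fun a => G.m p a) = 0 := fun p hp =>
      hk (Submodule.subset_span ⟨p, hp, rfl⟩)
    left
    rcases le_total 0 (f fun a => ν a) with h2 | h2
    · exact ua_fun hν hf (fun p hp => (h1 p hp).ge) h2
    · refine ua_fun hν (neg_ne_zero.2 hf) (fun p hp => ?_) (by simpa using h2)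
      simp [h1 p hp]

theorem cut_or_dual (hν : Gen ν) (hB : B.card ≤ n) : G.Cut ν B ∨ (B.card = n ∧
    ∃ f : J → (Fin n → ℚ) →ₗ[ℚ] ℚ, (∀ p ∈ B, f p (fun a => G.m p a) = 1) ∧
      (∀ p ∈ B, ∀ q ∈ B, p ≠ q → f p (fun a => G.m q a) = 0) ∧
      (∀ v a, ∑ p ∈ B, f p v * G.m p a = v a) ∧ ∀ p ∈ B, f p (fun a => ν a) < 0) := by
  classical
  rcases cut_or_span (G := G) hν B with h | h
  · exact Or.inl h
  have h1 : ⊤ ≤ Submodule.span ℚ (Set.range fun (p : B) a => (G.m p a : ℚ)) := by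
    intro v _
    obtain ⟨y, hy⟩ := h v
    refine (Submodule.mem_span_range_iff_exists_fun ℚ).2 ⟨fun p => y p, funext fun a => ?_⟩
    rw [← hy a, ← sum_coe_sort B]
    simp
  have h2 : B.card = n := by
    have h3 := finrank_le_of_span_eq_top (top_le_iff.1 h1)
    rw [Module.finrank_fin_fun, Fintype.card_coe] at h3
    omega
  obtain ⟨b, hb⟩ : ∃ b : Module.Basis B ℚ (Fin n → ℚ), ∀ p, b p = fun a => (G.m p a : ℚ) :=
    ⟨basisOfTopLeSpanOfCardEqFinrank _ h1 (by rw [Module.finrank_fin_fun, Fintype.card_coe, h2]),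
      fun p => by rw [coe_basisOfTopLeSpanOfCardEqFinrank]⟩
  obtain ⟨f, hf⟩ : ∃ f : J → (Fin n → ℚ) →ₗ[ℚ] ℚ, ∀ p : B, f p = b.coord p :=
    ⟨fun p => if h : p ∈ B then b.coord ⟨p, h⟩ else 0, fun p => dif_pos p.2⟩
  have h3 : ∀ p ∈ B, f p (fun a => G.m p a) = 1 := fun p hp => by
    rw [hf ⟨p, hp⟩, ← hb ⟨p, hp⟩]
    simp
  have h4 : ∀ p ∈ B, ∀ q ∈ B, p ≠ q → f p (fun a => G.m q a) = 0 := fun p hp q hq e => by
    rw [hf ⟨p, hp⟩, ← hb ⟨q, hq⟩, Module.Basis.coord_apply, b.repr_self_apply, if_neg]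
    exact fun e' => e (congrArg Subtype.val e').symm
  by_cases h5 : ∀ p ∈ B, f p (fun a => ν a) < 0
  · refine Or.inr ⟨h2, f, h3, h4, fun v a => ?_, h5⟩
    rw [← sum_coe_sort B]
    have h6 := congrFun (b.sum_repr v) a
    rw [Finset.sum_apply] at h6
    rw [← h6]
    refine sum_congr rfl fun p _ => ?_
    rw [hf, hb]
    rfl
  · push Not at h5
    obtain ⟨p, hp, h6⟩ := h5
    refine Or.inl (ua_fun hν (f := f p) (fun e => ?_) (fun q hq => ?_) h6)
    · have h7 := h3 p hp
      rw [e] at h7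
      exact zero_ne_one h7
    · by_cases e : p = q
      · rw [← e, h3 p hp]
        exact zero_le_one
      · exact (h4 p hp q hq e).ge

theorem cut_or_flow (hν : Gen ν) (hB : B.card ≤ n) :
    G.Cut ν B ∨ (B.card = n ∧ ∃ y, G.Flow ν B y) := by
  classical
  refine (cut_or_dual hν hB).imp_right ?_
  rintro ⟨h1, f, -, -, h2, h3⟩
  refine ⟨h1, fun p => if p ∈ B then -f p (fun a => ν a) else 0, fun p => ?_, fun p hp => if_neg hp,
    fun a => ?_⟩
  · dsimp only
    split_ifs with hp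
    · exact neg_nonneg.2 (h3 p hp).le
    · exact le_rfl
  · have h4 := h2 (fun a => ν a) a
    simp only [mul_ite, mul_zero, sum_ite_mem, univ_inter]
    rw [← h4, ← sum_add_distrib]
    exact sum_eq_zero fun p _ => by ring

end GW

/-- the path through all points in the order `s` -/
theorem exists_path {n : ℕ} {s : Option (Fin n) → ℤ} (hs : Function.Injective s) :
    ∃ u v : Fin n → Option (Fin n), (∀ i, s (u i) < s (v i)) ∧
      (∀ φ : Option (Fin n) → ℚ, (∀ i, φ (v i) ≤ φ (u i)) → ∀ o o', s o < s o' → φ o' ≤ φ o) ∧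
      ∀ j, ∃ r : Fin n → ℤ, ∀ a, ∑ i, r i * ((if v i = some a then 1 else 0) -
        if u i = some a then 1 else 0) = if j = a then 1 else 0 := by
  obtain ⟨e, he⟩ : ∃ e : Fin (n + 1) ≃ Option (Fin n), StrictMono (s ∘ e) :=
    ⟨(Tuple.sort (s ∘ finSuccEquiv n)).trans (finSuccEquiv n),
      (Tuple.monotone_sort (s ∘ finSuccEquiv n)).strictMono_of_injective
        (hs.comp ((Tuple.sort (s ∘ finSuccEquiv n)).trans (finSuccEquiv n)).injective)⟩
  refine ⟨fun i => e i.castSucc, fun i => e i.succ, fun i => he Fin.castSucc_lt_succ,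
    fun φ h o o' ho => ?_, fun j => ?_⟩
  · have h1 : Antitone (φ ∘ e) := Fin.antitone_iff_succ_le.2 h
    have h2 : e.symm o < e.symm o' := he.lt_iff_lt.1 (by simpa using ho)
    simpa using h1 h2.le
  · have key : ∀ k : Fin (n + 1), ∃ r : Fin n → ℤ, ∀ a,
        ∑ i, r i * ((if e i.succ = some a then 1 else 0) - if e i.castSucc = some a then 1 else 0) =
          (if e k = some a then 1 else 0) - if e 0 = some a then 1 else 0 := by
      intro k
      induction k using Fin.induction with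
      | zero => exact ⟨0, fun a => by simp⟩
      | succ k ih =>
        obtain ⟨r, hr⟩ := ih
        refine ⟨r + Pi.single k 1, fun a => ?_⟩
        simp only [Pi.add_apply, add_mul, sum_add_distrib, hr, Pi.single_apply, ite_mul, one_mul,
          zero_mul, sum_ite_eq', mem_univ, if_true]
        ring
    obtain ⟨r1, h1⟩ := key (e.symm (some j))
    obtain ⟨r2, h2⟩ := key (e.symm none)
    refine ⟨r1 - r2, fun a => ?_⟩
    simp only [Pi.sub_apply, sub_mul, sum_sub_distrib, h1, h2, Equiv.apply_symm_apply]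
    simp

end Pool.Agent.Work.MP_849ab0_ag
end
end

-- merged part: Pool.Agent.Work.MP_849ab0_ag.G.H2.UN
section
/-!
Uniqueness of the functional that kills the cuts and the low degrees.

Hints.  Let `a p : Fin n → ℚ := fun j => G.m p j`; `f` comes from `cut_or_dual`.
`Kil.tree`: well founded induction on `B` (`Finite.wellFounded_of_trans_of_irrefl`) for
`cost B = ∑ p ∉ H, y B p`, `y B = Classical.epsilon (G.Flow ν B)`.  If `B` is not a cut take `f`,
`π = ∑ p ∈ B \ H, f p`; every flow on `B` has cost `π (-ν)`.  If `π (a h) ≤ 0` for all `h ∈ H` then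
`B ⊆ H` (`Ham`), so `B = H`.  Otherwise `0 < π (a h)`, `h ∈ H \ B`, and
`w h = ∑ p ∈ B, C (γ p) * w p + C c` (`w_eq`, `γ p = f p (a h)`); multiply by `M (insert h B)`
(`M_erase`, `low`).  Each `B' = (insert h B).erase p` is a cut or has a flow `y'`; `y' h ≠ 0` since
`f p ν ≠ 0`, and `π (-ν) = cost B' + y' h * π (a h)`.
`uni`: `∀ B g, ψ (g * M B) = 0` by strong induction on `B`, then `MvPolynomial.induction_on` with
`X j = ∑ p ∈ B, C _ * w p + C _`; finish with `M_univ`.
-/

noncomputable section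

set_option linter.unusedSectionVars false
set_option linter.unusedVariables false

namespace Pool.Agent.Work.MP_849ab0_ag

open MvPolynomial Finset

namespace GW

variable {n : ℕ} {J R : Type} [Fintype J] [CommRing R] {G : GW n J R} {ν : Fin n → ℤ}
  {B H : Finset J} {s : Option (Fin n) → ℤ} {ψ : Pol n R →ₗ[R] R}

variable [Algebra ℚ R]

theorem un_lin {y : J → ℚ} {v : Fin n → ℚ} (h : ∀ a, ∑ p ∈ B, y p * G.m p a = v a) :
    ∃ c : R, ∑ a, C (algebraMap ℚ R (v a)) * (X a : Pol n R) =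
      ∑ p ∈ B, C (algebraMap ℚ R (y p)) * G.w p + C c := by
  refine ⟨-∑ p ∈ B, algebraMap ℚ R (y p) * G.c p, ?_⟩
  simp only [← h, w_eq, map_sum, map_mul, map_neg, map_intCast, sum_mul, mul_add, mul_sum,
    sum_add_distrib, mul_assoc, add_neg_cancel_right]
  exact sum_comm

theorem un_step [DecidableEq J] {T : Finset J} (hT : B ⊆ T) (γ : J → R) (c : R) {g : Pol n R}
    (h1 : ∀ p ∈ B, ψ (g * G.M (T.erase p)) = 0) (h2 : ψ (g * G.M T) = 0) :
    ψ (g * (∑ p ∈ B, C (γ p) * G.w p + C c) * G.M T) = 0 := by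
  have e : g * (∑ p ∈ B, C (γ p) * G.w p + C c) * G.M T =
      ∑ p ∈ B, γ p • (g * G.M (T.erase p)) + c • (g * G.M T) := by
    rw [mul_add, add_mul, mul_sum, sum_mul, smul_eq_C_mul]
    congr 1
    · exact sum_congr rfl fun p hp => by rw [smul_eq_C_mul, G.M_erase (hT hp)]; ring
    · ring
  rw [e, map_add, map_sum, map_smul, h2, smul_zero, add_zero]
  exact sum_eq_zero fun p hp => by rw [map_smul, h1 p hp, smul_zero]

theorem un_flow {y : J → ℚ} (h : G.Flow ν B y) (f : (Fin n → ℚ) →ₗ[ℚ] ℚ) :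
    -f (fun a => ν a) = ∑ p, y p * f fun a => G.m p a := by
  have e : -(fun a => (ν a : ℚ)) = ∑ p, y p • fun a => (G.m p a : ℚ) := funext fun a => by
    rw [Finset.sum_apply, Pi.neg_apply, neg_eq_iff_add_eq_zero, add_comm, ← h.2.2 a]
    exact congrArg (· + _) (sum_congr rfl fun p _ => mul_comm _ _)
  rw [← map_neg, e, map_sum]
  exact sum_congr rfl fun p _ => map_smul _ _ _

theorem un_ham (hH : G.Ham H) (f : (Fin n → ℚ) →ₗ[ℚ] ℚ) (h : ∀ p ∈ H, f (fun a => G.m p a) ≤ 0)
    (p : J) : f (fun a => G.m p a) ≤ 0 := by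
  let φ : Option (Fin n) → ℚ := fun o => o.elim 0 fun j => f fun a => if j = a then 1 else 0
  have e : ∀ p, f (fun a => G.m p a) = φ (G.tgt p) - φ (G.src p) := fun p => by
    rw [LinearMap.pi_apply_eq_sum_univ]
    exact (G.sum_m φ p).trans (by rw [show φ none = 0 from rfl, mul_zero, sub_zero])
  rw [e, sub_nonpos]
  exact hH.2 φ (fun q hq => sub_nonpos.1 (e q ▸ h q hq)) p

theorem Kil.tree (hν : Gen ν) (hH : G.Ham H) (hψ : G.Kil ν ψ) (h0 : ψ (G.M H) = 0)
    (hB : B.card ≤ n) : ψ (G.M B) = 0 := by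
  classical
  by_contra k
  let y : Finset J → J → ℚ := fun B => Classical.epsilon (G.Flow ν B)
  obtain ⟨B, ⟨hB, k⟩, hm⟩ := Set.exists_min_image {B : Finset J | B.card ≤ n ∧ ψ (G.M B) ≠ 0}
    (fun B => ∑ p, if p ∈ H then 0 else y B p) (Set.toFinite _) ⟨B, hB, k⟩
  have nc : ∀ B, ψ (G.M B) ≠ 0 → ¬ G.Cut ν B := fun B k c => k (one_mul (G.M B) ▸ hψ.cut B c 1)
  have fl : ∀ B, B.card ≤ n → ψ (G.M B) ≠ 0 → G.Flow ν B (y B) := fun B h1 h2 =>
    Classical.epsilon_spec ((cut_or_flow hν h1).resolve_left (nc B h2)).2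
  obtain ⟨hn, f, f1, f2, f3, f4⟩ := (cut_or_dual hν hB).resolve_left (nc B k)
  let π := ∑ p ∈ B \ H, f p
  have hπ : ∀ p ∈ B, π (fun a => G.m p a) = if p ∈ H then 0 else 1 := fun p hp => by
    rw [LinearMap.sum_apply]
    split_ifs with e
    · exact sum_eq_zero fun q hq => f2 q (mem_sdiff.1 hq).1 p hp fun e' =>
        (mem_sdiff.1 hq).2 (e' ▸ e)
    · rw [sum_eq_single_of_mem p (mem_sdiff.2 ⟨hp, e⟩) fun q hq e' =>
        f2 q (mem_sdiff.1 hq).1 p hp e', f1 p hp]
  by_cases hp : ∀ p ∈ H, π (fun a => G.m p a) ≤ 0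
  · have sub : B ⊆ H := fun p e => by
      by_contra e'
      have := un_ham hH π hp p
      rw [hπ p e, if_neg e'] at this
      exact absurd this (by norm_num)
    exact k (eq_of_subset_of_card_le sub (hH.1.trans hn.ge) ▸ h0)
  simp only [not_forall, not_le] at hp
  obtain ⟨h, h1, h2⟩ := hp
  have h3 : h ∉ B := fun e => by simp [hπ h e, h1] at h2
  have co : ∀ B' ⊆ insert h B, ∀ y', G.Flow ν B' y' → -π (fun a => ν a) =
      (∑ p, if p ∈ H then 0 else y' p) + y' h * π fun a => G.m h a := fun B' s y' e => by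
    rw [un_flow e π, ← Fintype.sum_ite_eq' h fun _ => y' h * π fun a => G.m h a,
      ← sum_add_distrib]
    refine sum_congr rfl fun p _ => ?_
    by_cases e1 : p = h
    · rw [e1, if_pos h1, if_pos rfl, zero_add]
    rw [if_neg e1, add_zero]
    by_cases e2 : p ∈ B
    · rw [hπ p e2, mul_ite, mul_zero, mul_one]
    · rw [e.2.1 p fun e3 => (mem_insert.1 (s e3)).elim e1 e2, zero_mul, ite_self]
  obtain ⟨c, hc⟩ := un_lin (R := R) (f3 fun a => G.m h a)
  simp only [map_intCast] at hc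
  have key := un_step (G := G) (ψ := ψ) (subset_insert h B)
    (fun p => algebraMap ℚ R (f p fun a => G.m h a)) (c + G.c h) (g := 1) (fun q hq => ?_)
    (by rw [one_mul]; exact hψ.low _ (by rw [card_insert_of_notMem h3]; omega))
  · rw [one_mul, map_add, ← add_assoc, ← hc, ← w_eq, ← G.M_erase (mem_insert_self h B),
      erase_insert h3] at key
    exact k key
  rw [one_mul]
  by_contra k'
  have c1 : ((insert h B).erase q).card ≤ n := by
    rw [card_erase_of_mem (mem_insert_of_mem hq), card_insert_of_notMem h3]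
    omega
  have g1 := fl _ c1 k'
  have g2 := co _ (erase_subset _ _) _ g1
  have g3 := co _ (subset_insert _ _) _ (fl B hB k)
  rw [(fl B hB k).2.1 h h3, zero_mul, add_zero] at g3
  have g4 : y ((insert h B).erase q) h ≠ 0 := fun e => by
    have := un_flow g1 (f q)
    rw [sum_eq_zero fun p _ => ?_] at this
    · exact (f4 q hq).ne (neg_eq_zero.1 this)
    by_cases e1 : p ∈ (insert h B).erase q
    · rcases mem_insert.1 (mem_of_mem_erase e1) with rfl | e2
      · rw [e, zero_mul]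
      · rw [f2 q hq p e2 (ne_of_mem_erase e1).symm, mul_zero]
    · rw [g1.2.1 p e1, zero_mul]
  have g5 := mul_pos ((g1.1 h).lt_of_ne' g4) h2
  have g6 := hm _ ⟨c1, k'⟩
  linarith

theorem uni (hν : Gen ν) (hH : G.Ham H) (hψ : G.Kil ν ψ) (h0 : ψ (G.M H) = 0) : ψ = 0 := by
  classical
  have key : ∀ B g, ψ (g * G.M B) = 0 := fun B => by
    induction B using Finset.strongInduction with | H B ih => ?_
    rcases cut_or_span (G := G) hν B with k | k
    · exact hψ.cut B k
    intro g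
    induction g using MvPolynomial.induction_on with
    | C r =>
      rw [← smul_eq_C_mul, map_smul, (le_or_gt B.card n).elim (hψ.tree hν hH h0) (hψ.low B),
        smul_zero]
    | add p q h1 h2 => rw [add_mul, map_add, h1, h2, add_zero]
    | mul_X g j h =>
      obtain ⟨y, hy⟩ := k fun a => if a = j then 1 else 0
      obtain ⟨c, hc⟩ := un_lin (R := R) hy
      simp only [apply_ite, map_one, map_zero, ite_mul, one_mul, zero_mul, sum_ite_eq', mem_univ,
        if_true] at hc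
      rw [hc]
      exact un_step Subset.rfl _ c (fun p hp => ih _ (erase_ssubset hp) g) h
  exact LinearMap.ext fun g => by simpa [M_univ] using key univ g

end GW

end Pool.Agent.Work.MP_849ab0_ag
end
end

-- merged part: Pool.Agent.Work.MP_849ab0_ag.G.H2.UB
section
/-!
The residue functional kills the cuts and the low degrees.

Hints.  `expand (M B) * inverse (expand (∏ w)) = ∏ p ∈ B, inverse (expand (w p))` (`M_mul`,
`isUnit_form`).  `cut`: as in `ji2` (JI2.lean): `ji2_kill` with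
`z = al g * ∏ p ∈ B, inverse (al (w p))` in `O2`, `ji2_al`, `ji2_inv`, `exF_al`, `map_inverse`,
`isUnit_O2`.  `low`: the series with support in `{γ | d ≤ ∑ i, γ i}` multiply like a filtration; the
inverse of a form has `d = 1` (`FP_fm`, `Hahn_supp` with the submonoid `{γ | 0 ≤ ∑ i, γ i}`).
-/

noncomputable section

set_option linter.unusedSectionVars false
set_option linter.unusedVariables false

namespace Pool.Agent.Work.MP_849ab0_ag

open MvPolynomial Finset

theorem ub_cancel {A : Type} [CommRing A] {m : A} (hm : IsUnit m) (g b : A) :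
    g * m * Ring.inverse (m * b) = g * Ring.inverse b := by
  rw [Ring.mul_inverse_rev]
  linear_combination g * Ring.inverse b * Ring.mul_inverse_cancel m hm

theorem ub_fm {n : ℕ} {R : Type} [CommRing R] {π : Equiv.Perm (Fin n)} {a : Fin n} {l : Pol n R}
    (h : Fm π a l) {γ : Gam n} (hγ : (Ring.inverse (expand (RingHom.id R) π l)).coeff γ ≠ 0) :
    1 ≤ ∑ i, ofLex γ i := by
  obtain ⟨o, r, ho, h⟩ := h
  have key : (Ring.inverse (expand (RingHom.id R) π (X a - xv o + C r))).coeff γ ≠ 0 := by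
    rcases h with rfl | rfl
    · exact hγ
    · rwa [map_neg, inverse_neg', HahnSeries.coeff_neg, neg_ne_zero] at hγ
  have := Hahn_supp _ ho r (M :=
    { carrier := {γ | 0 ≤ ∑ i, ofLex γ i}
      add_mem' := fun {x y} hx hy => by
        show 0 ≤ ∑ i, (ofLex x i + ofLex y i)
        rw [sum_add_distrib]
        exact add_nonneg hx hy
      zero_mem' := show 0 ≤ ∑ _i : Fin n, (0 : ℤ) by simp })
    (show 0 ≤ ∑ i, (Pi.single (π a) 1 : Fin n → ℤ) i by simp) (fun c _ => by
      show 0 ≤ ∑ i, ((Pi.single (π a) 1 : Fin n → ℤ) i - (Pi.single (π c) 1 : Fin n → ℤ) i)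
      simp) key
  have h2 : 0 ≤ ∑ i, (ofLex γ i - (Pi.single (π a) 1 : Fin n → ℤ) i) := this
  simpa using h2

theorem ub_prod {n : ℕ} {J R : Type} [CommRing R] (B : Finset J) {x : J → HahnSeries (Gam n) R}
    (h : ∀ p γ, (x p).coeff γ ≠ 0 → 1 ≤ ∑ i, ofLex γ i) {γ : Gam n}
    (hγ : (∏ p ∈ B, x p).coeff γ ≠ 0) : (B.card : ℤ) ≤ ∑ i, ofLex γ i := by
  induction B using Finset.cons_induction generalizing γ with
  | empty =>
    rw [prod_empty, ← HahnSeries.single_zero_one] at hγ
    rw [Laur_single hγ]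
    exact (show ((∅ : Finset J).card : ℤ) ≤ ∑ _i : Fin n, (0 : ℤ) by simp)
  | cons p B hp ih =>
    rw [prod_cons] at hγ
    obtain ⟨a, b, h1, h2, rfl⟩ := Laur_mul hγ
    have e : ∑ i, ofLex (a + b) i = ∑ i, ofLex a i + ∑ i, ofLex b i := sum_add_distrib
    have h3 := h p a h1
    have h4 := ih h2
    rw [e, card_cons]
    push_cast
    omega

namespace GW

variable {n : ℕ} {J R : Type} [Fintype J] [CommRing R] {G : GW n J R} {ν : Fin n → ℤ}
  {B H : Finset J} {s : Option (Fin n) → ℤ} {ψ : Pol n R →ₗ[R] R}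

theorem ub_ne (h : G.Up s) (p : J) : G.tgt p ≠ G.src p := fun e => (h p).ne (by rw [e])

theorem ub_unit (h : G.Up s) (π : Equiv.Perm (Fin n)) (T : Finset J) :
    IsUnit (expand (RingHom.id R) π (∏ p ∈ T, G.w p)) := by
  rw [map_prod]
  exact prod_induction _ IsUnit (fun _ _ => IsUnit.mul) isUnit_one fun p _ =>
    isUnit_form _ π (ub_ne h p) _

theorem ub_frac (h : G.Up s) (π : Equiv.Perm (Fin n)) (B : Finset J) (g : Pol n R) :
    expand (RingHom.id R) π (g * G.M B) * Ring.inverse (expand (RingHom.id R) π (∏ p, G.w p)) =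
      expand (RingHom.id R) π g * ∏ p ∈ B, Ring.inverse (expand (RingHom.id R) π (G.w p)) := by
  have hu := ub_unit h π univ
  rw [← G.M_mul B, map_mul] at hu
  rw [← G.M_mul B, map_mul, map_mul, ub_cancel (isUnit_of_mul_isUnit_left hu), map_prod,
    inverse_prod]

theorem kil_JJ (hs : Function.Injective s) (h : G.Up s) : G.Kil ν (G.JJ ν s) := by
  refine ⟨fun B ⟨S, ε, hε, hB⟩ g => ?_, fun B hB => ?_⟩
  · have hz : algebraMap _ (O2 n R) g * ∏ p ∈ B, Ring.inverse (algebraMap _ (O2 n R) (G.w p)) ∈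
        AF R (FrS ε s S) :=
      mul_mem (ji2_al g) (prod_mem fun p hp => by
        refine ji2_inv (Fr := FrS ε s S) (ub_ne h p) (fun k => ?_) (G.c p)
        rw [FrS, mul_right_comm] at k
        exact k.not_ge (mul_nonneg (hB p hp) (sub_nonneg.2 (h p).le)))
    rw [JJ_apply, ← ji2_kill (ν := ν) hs hε hz]
    refine sum_congr rfl fun π _ => ?_
    rw [ub_frac h, map_mul, exF_al, map_prod]
    congr 3
    refine prod_congr rfl fun p _ => ?_
    rw [← exF_al]
    exact (map_inverse _ (isUnit_O2 (ub_ne h p) _)).symm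
  · rw [JJ_apply]
    refine sum_eq_zero fun π _ => ?_
    rw [← one_mul (G.M B), ub_frac h, map_one, one_mul]
    refine smul_eq_zero_of_right _ (not_not.1 fun k => ?_)
    have := ub_prod B (fun p γ hγ => by
      obtain ⟨a, -, -, hf⟩ | ⟨a, -, -, hf⟩ := FP_fm π (ub_ne h p) (G.c p) <;>
        exact ub_fm hf hγ) k
    simp only [ofLex_toLex, sum_const, card_univ, Fintype.card_fin, nsmul_eq_mul, mul_one] at this
    omega

end GW

namespace QD

variable {k n : ℕ} {E R : Type} [Fintype E] [CommRing R] (D : QD k n E R)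

theorem res2_eq_JJ {J K : Type} [Fintype J] [Fintype K] {G : GW n (J ⊕ K) R}
    {s : Option (Fin n) → ℤ} (h : G.Up s) {ε : Pol n R} (hε : ε * ε = 1)
    (e : ∏ q, G.w (.inl q) = ε * ∏ p ∈ D.W2, D.den2 s p) (ν : Fin k → ℤ) (f : Pol n R) :
    D.res2 ν s f = G.JJ (ν ∘ D.col) s (ε * (f * D.num2 s * ∏ i, G.w (.inr i))) := by
  rw [GW.JJ_apply, res2]
  refine sum_congr rfl fun π _ => ?_
  have hu := GW.ub_unit h π univ
  rw [Fintype.prod_sum_type G.w, e, mul_right_comm, map_mul] at hu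
  rw [Fintype.prod_sum_type G.w, e, mul_right_comm ε, mul_left_comm ε, map_mul _ (f * _) (ε * _),
    map_mul _ (ε * _), ub_cancel (isUnit_of_mul_isUnit_left hu)]

theorem map_SQ {R' : Type} [CommRing R'] (φ : R →+* R') (ν : Fin k → ℤ) {f : Pol n R}
    (h : f * D.EE ∈ D.SQ ν) : MvPolynomial.map φ f * (D.map φ).EE ∈ (D.map φ).SQ ν := by
  have e1 : MvPolynomial.map φ D.EE = (D.map φ).EE := by
    simp only [EE, map_prod, map_mul, map_add, map_sub, map_X, map_C]; rfl
  have e2 : ∀ μ, MvPolynomial.map φ (D.CM μ) = (D.map φ).CM μ := fun μ => by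
    simp only [CM, map_prod, map_mul, map_sub, map_chi, map_C]; rfl
  have : D.SQ ν ≤ ((D.map φ).SQ ν).comap (MvPolynomial.map φ) := by
    refine Ideal.span_le.2 ?_
    rintro _ ⟨S, ε, h1, rfl⟩
    exact Ideal.subset_span ⟨S, ε, h1, e2 _⟩
  rw [← e1, ← map_mul]
  exact this h

theorem map_IT {R' : Type} [CommRing R'] (φ : R ≃+* R') (ν : Fin k → ℤ) {f : Pol n R}
    (h : f ∈ D.IT ν) : MvPolynomial.map φ.toRingHom f ∈ (D.map φ.toRingHom).IT ν := by
  refine ⟨map_mem_Inv _ h.1, fun s hs g => ?_⟩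
  obtain ⟨g, rfl⟩ := MvPolynomial.map_surjective φ.toRingHom φ.surjective g
  rw [← map_mul, res2_map, h.2 s hs, map_zero]

end QD

end Pool.Agent.Work.MP_849ab0_ag
end
end
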