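import Pool.Agent.Work.MP_849ab0_ag.G.C.Comb
import Pool.Agent.Work.MP_849ab0_ag.G.H2.Cs
import Pool.Agent.Work.MP_849ab0_ag.G.H2.UB

-- merged part: Pool.Agent.Work.MP_849ab0_ag.G.F.TmDef
section
/-!
General flavour torus: definitions.  An endomorphism of `N` that commutes with `G` is given by a
matrix on the arrows, up to its action on the invariants `N ^ G` (the scalar loops).
-/

noncomputable section

set_option linter.unusedSectionVars false
set_option linter.unusedVariables false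

namespace Pool.Agent.Work.MP_849ab0_ag.G

open Set Topology Matrix

namespace Qv

variable {I P E κ : Type} [Fintype I] [DecidableEq I] [Fintype P] [DecidableEq P] [Fintype E]
  [DecidableEq E] [Fintype κ] [DecidableEq κ] (D : Qv I P E κ)

/-- the projection on the space over a vertex -/
def vtx (o : Option I) : Matrix (Option P) (Option P) ℂ :=
  diagonal fun a => if a.map D.col = o then 1 else 0

/-- scalar representations -/
def Scal (y : D.Rep) : Prop := ∀ e, ∃ c : ℂ, D.mat y e = c • D.vtx (D.src e)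

/-- matrices on the arrows that respect source and target -/
def Ty (c : Matrix E E ℂ) : Prop :=
  ∀ e e', c e e' ≠ 0 → D.src e = D.src e' ∧ D.tgt e = D.tgt e'

/-- the endomorphism of `N` given by a matrix on the arrows -/
def cm (c : Matrix E E ℂ) : D.Rep →ₗ[ℂ] D.Rep where
  toFun y p := (∑ e, c p.1.1 e • D.mat y e) p.1.2.2 p.1.2.1
  map_add' y z := funext fun p => by
    simp only [mat_add, smul_add, Finset.sum_add_distrib, Matrix.add_apply, Pi.add_apply]
  map_smul' a y := funext fun p => by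
    simp only [mat_smul, smul_comm _ a, ← Finset.smul_sum, Matrix.smul_apply, Pi.smul_apply,
      RingHom.id_apply]

/-- the projection on the scalar representations -/
def sp : D.Rep →ₗ[ℂ] D.Rep where
  toFun y p := ((trace (D.mat y p.1.1) / trace (D.vtx (D.src p.1.1))) • D.vtx (D.src p.1.1))
    p.1.2.2 p.1.2.1
  map_add' y z := funext fun p => by
    simp only [mat_add, trace_add, add_div, add_smul, Matrix.add_apply, Pi.add_apply]
  map_smul' a y := funext fun p => by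
    simp only [mat_smul, trace_smul, smul_eq_mul, mul_div_assoc, mul_assoc, Matrix.smul_apply,
      Pi.smul_apply, RingHom.id_apply]

/-- `f` is given by the matrix `c` up to scalars -/
structure Tm (f : Module.End ℂ D.Rep) (c : Matrix E E ℂ) : Prop where
  ty : D.Ty c
  scal : ∀ y, D.Scal y → D.Scal (f y)
  eq : ∀ y, D.sp y = 0 → f y = D.cm c y

/-- `c` has a left inverse -/
def Li (c : Matrix E E ℂ) : Prop := ∃ c', D.Ty c' ∧ c' * c = 1

open Classical in
/-- the matrix of an endomorphism -/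
def co (f : Module.End ℂ D.Rep) : Matrix E E ℂ := Matrix.of fun e e' =>
  if h : ∃ p : D.Wt, p.1.1 = e' ∧ p.1.2.1 ≠ p.1.2.2 then
    D.mat (f (Pi.single h.choose 1)) e h.choose.1.2.2 h.choose.1.2.1
  else if e = e' then 1 else 0

/-- the action on `N ⊕ N^*` -/
def gdb (g : Matrix P P ℂ) (y : D.Rep × D.Rep) : D.Rep × D.Rep := (D.gact g y.1, D.gact g⁻¹ᵀ y.2)

/-- stability -/
def Stable2 (ν : I → ℤ) (y : D.Rep × D.Rep) : Prop :=
  ∀ Q, IsPr (Option.map D.col) Q → (∀ e, Pres Q (D.mat y.1 e) ∧ Pres Q (D.mat y.2 e)ᵀ) →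
    Q ≠ 0 → Q ≠ 1 → (∑ a, (ν (D.col a) : ℂ) * (Q (some a) (some a) - Q none none)).re < 0

/-- the moment map -/
def mu2 (y : D.Rep × D.Rep) : Matrix (Option P) (Option P) ℂ :=
  ∑ e, (D.mat y.1 e * (D.mat y.2 e)ᵀ - (D.mat y.2 e)ᵀ * D.mat y.1 e)

/-- the stable part of the zero level -/
def Xs2 (ν : I → ℤ) : Set (D.Rep × D.Rep) :=
  {y | (∀ a b, D.mu2 y (some a) (some b) = 0) ∧ D.Stable2 ν y}

/-- the orbits -/
def orb2 (ν : I → ℤ) (x y : D.Xs2 ν) : Prop :=
  ∃ g ∈ {g : Matrix P P ℂ | IsUnit g ∧ ∀ a b, D.col a ≠ D.col b → g a b = 0},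
    y.1 = D.gdb g x.1

/-- the identification of `N ⊕ N^*` with the representations of the double -/
def jd (y : D.Rep × D.Rep) : D.dbl.Rep := fun p =>
  Sum.elim (D.mat y.1) (fun e => (D.mat y.2 e)ᵀ) p.1.1 p.1.2.2 p.1.2.1

/-- its inverse -/
def jd' (y : D.dbl.Rep) : D.Rep × D.Rep :=
  (fun p => D.dbl.mat y (.inl p.1.1) p.1.2.2 p.1.2.1,
    fun p => D.dbl.mat y (.inr p.1.1) p.1.2.1 p.1.2.2)

/-- a torus action on `N` that is diagonal with weights `D.t` in the basis `B`, up to scalars -/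
structure Fv where
  M : (κ → Circle) → Matrix D.Wt D.Wt ℂ
  cont : Continuous M
  one : ∀ y, M 1 *ᵥ y = y
  mul : ∀ σ τ, M (σ * τ) = M σ * M τ
  B : Matrix E E ℂ
  B' : Matrix E E ℂ
  ty : D.Ty B
  ty' : D.Ty B'
  inv : B * B' = 1
  inv' : B' * B = 1
  tm : ∀ τ, D.Tm (M τ).mulVecLin (B' * diagonal (fun e => chr (D.t e) τ) * B)

namespace Fv

variable {D} (F : D.Fv)

/-- the action on `N` -/
def aN : Act (KT D.col κ) D.Rep := ⟨fun g y => F.M g.2 *ᵥ D.gact g.1.1.1 y⟩

/-- the action on `N ⊕ N^*` -/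
def aD : Act (KT D.col κ) (D.Rep × D.Rep) :=
  ⟨fun g y => (F.M g.2 *ᵥ (D.gdb g.1.1.1 y).1, chr D.h g.2 • (D.gdb g.1.1.1 y).2 ᵥ* F.M g.2⁻¹)⟩

/-- the action on `N[[t]]` -/
def aO : Act (KT D.col κ) D.NO := ⟨fun g s m => chr D.h g.2 ^ m • F.aN.act g (s m)⟩

/-- the action on the quiver variety -/
def aM (ν : I → ℤ) : Act (Gp.tor κ) (Quot (D.orb2 ν)) :=
  ((F.aD.res (G' := Gp.tor κ) fun τ => (1, τ)).sub (D.Xs2 ν)).quot _

/-- the comparison map -/
def f : Module.End ℂ D.Rep := D.cm F.B * (1 - D.sp)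

/-- the comparison map in the other direction -/
def f' : Module.End ℂ D.Rep := D.cm F.B' * (1 - D.sp)

/-- the comparison map on the dual -/
def d : Module.End ℂ D.Rep := D.cm F.B'ᵀ * (1 - D.sp)

/-- the comparison map on the dual in the other direction -/
def d' : Module.End ℂ D.Rep := D.cm F.Bᵀ * (1 - D.sp)

end Fv

/-- the homotopy from `1 - sp` to the identity -/
def hs (u : ℝ) : Module.End ℂ D.Rep := 1 - ((1 - u : ℝ) : ℂ) • D.sp

end Qv

end Pool.Agent.Work.MP_849ab0_ag.G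
end
end

-- merged part: Pool.Agent.Work.MP_849ab0_ag.G.F.TmA
section
/-!
Task F-TmA. The algebra of `cm`, `sp`, `Tm`.
Hints: compare representations with `mat_inj`; `cmat_of` computes `mat` of a family of matrices with the right colours (for `mat_sp`: if src e ≠ tgt e the
diagonal of mat y e vanishes, so the trace is 0). `scal_iff`: if trace (vtx o) = 0 then vtx o = 0 (the trace is a cardinality). `Scal.gact`: hat 1 g commutes with vtx o
(qbasic_hat), mat_gact. `sp_gact`: trace_mul_comm. Everything about `Tm` follows from y = (y - sp y) + sp y.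
-/

noncomputable section

set_option linter.unusedSectionVars false
set_option linter.unusedVariables false

namespace Pool.Agent.Work.MP_849ab0_ag.G

open Set Topology Matrix

namespace Qv

variable {I P E κ : Type} [Fintype I] [DecidableEq I] [Fintype P] [DecidableEq P] [Fintype E]
  [DecidableEq E] [Fintype κ] [DecidableEq κ] {D : Qv I P E κ} {c c' : Matrix E E ℂ}
  {f f' : Module.End ℂ D.Rep} {x y z : D.Rep} {g : Matrix P P ℂ} {ν : I → ℤ}

theorem TmA_diag (χ : E → ℂ) : D.Ty (diagonal χ) := fun e e' h => by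
  obtain rfl : e = e' := by_contra fun k => h (diagonal_apply_ne _ k)
  exact ⟨rfl, rfl⟩

theorem Ty.one : D.Ty 1 := TmA_diag _

theorem Ty.zero : D.Ty 0 := fun _ _ h => absurd rfl h

theorem Ty.diag (χ : E → ℂ) : D.Ty (diagonal χ) := TmA_diag χ

theorem Ty.mul (h : D.Ty c) (h' : D.Ty c') : D.Ty (c * c') := fun e e' k => by
  obtain ⟨d, -, hd⟩ := Finset.exists_ne_zero_of_sum_ne_zero k
  have h1 := h _ _ (left_ne_zero_of_mul hd)
  have h2 := h' _ _ (right_ne_zero_of_mul hd)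
  exact ⟨h1.1.trans h2.1, h1.2.trans h2.2⟩

theorem Ty.add (h : D.Ty c) (h' : D.Ty c') : D.Ty (c + c') := fun e e' k =>
  (em (c e e' = 0)).elim (fun q => h' e e' fun r => k (by simp [q, r])) (h e e')

theorem Ty.sub (h : D.Ty c) (h' : D.Ty c') : D.Ty (c - c') := fun e e' k =>
  (em (c e e' = 0)).elim (fun q => h' e e' fun r => k (by simp [q, r])) (h e e')

theorem Ty.smul (h : D.Ty c) (a : ℂ) : D.Ty (a • c) := fun e e' k =>
  h e e' (right_ne_zero_of_mul k)

theorem Ty.transpose (h : D.Ty c) : D.Ty cᵀ := fun e e' k =>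
  ⟨(h e' e k).1.symm, (h e' e k).2.symm⟩

theorem TmA_sup {e : E} {b a : Option P} (h : D.mat y e b a ≠ 0) :
    a.map D.col = D.src e ∧ b.map D.col = D.tgt e := by_contra fun k => h (dif_neg k)

theorem mat_cm (h : D.Ty c) (y : D.Rep) (e : E) :
    D.mat (D.cm c y) e = ∑ e', c e e' • D.mat y e' := by
  refine D.cmat_of (M := fun e => ∑ e', c e e' • D.mat y e') (fun e b a k => ?_) e
  rw [Matrix.sum_apply] at k
  obtain ⟨d, -, hd⟩ := Finset.exists_ne_zero_of_sum_ne_zero k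
  have h1 := h e d (left_ne_zero_of_mul hd)
  have h2 := TmA_sup (right_ne_zero_of_mul hd)
  exact ⟨h2.1.trans h1.1.symm, h2.2.trans h1.2.symm⟩

theorem mat_sp (y : D.Rep) (e : E) : D.mat (D.sp y) e =
    (trace (D.mat y e) / trace (D.vtx (D.src e))) • D.vtx (D.src e) := by
  refine D.cmat_of (M := fun e => (trace (D.mat y e) / trace (D.vtx (D.src e))) • D.vtx (D.src e))
    (fun e b a k => ?_) e
  have h1 := right_ne_zero_of_mul k
  obtain rfl : b = a := by_contra fun q => h1 (diagonal_apply_ne _ q)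
  have h2 : b.map D.col = D.src e := by_contra fun q => h1 (by simp [vtx, q])
  obtain ⟨d, -, hd⟩ := Finset.exists_ne_zero_of_sum_ne_zero
    (div_ne_zero_iff.1 (left_ne_zero_of_mul k)).1
  exact ⟨h2, h2.trans ((TmA_sup hd).1.symm.trans (TmA_sup hd).2)⟩

theorem mat_sub' (y z : D.Rep) (e : E) : D.mat (y - z) e = D.mat y e - D.mat z e := by
  rw [sub_eq_add_neg, ← neg_one_smul ℂ z, mat_add, mat_smul, neg_one_smul, sub_eq_add_neg]

theorem TmA_cd (χ : E → ℂ) (y : D.Rep) (p : D.Wt) : D.cm (diagonal χ) y p = χ p.1.1 * y p := by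
  change (∑ e, diagonal χ p.1.1 e • D.mat y e) p.1.2.2 p.1.2.1 = _
  rw [Finset.sum_eq_single p.1.1 (fun e _ k => by rw [diagonal_apply_ne' _ k, zero_smul])
    (by simp), diagonal_apply_eq, Matrix.smul_apply, mat_apply, smul_eq_mul]

theorem cm_one (y : D.Rep) : D.cm 1 y = y :=
  funext fun p => (TmA_cd (fun _ => 1) y p).trans (one_mul _)

theorem cm_mul (h : D.Ty c') (y : D.Rep) : D.cm (c * c') y = D.cm c (D.cm c' y) := by
  funext p
  change (∑ e, (c * c') p.1.1 e • D.mat y e) _ _ = (∑ e, c p.1.1 e • D.mat (D.cm c' y) e) _ _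
  simp only [mat_cm h, Matrix.mul_apply, Finset.sum_smul, Finset.smul_sum, smul_smul]
  rw [Finset.sum_comm]

theorem cm_diag (χ : E → ℂ) (y : D.Rep) (p : D.Wt) : D.cm (diagonal χ) y p = χ p.1.1 * y p :=
  TmA_cd χ y p

theorem aN_cm (g : (KT D.col κ).H) (y : D.Rep) :
    D.aN.act g y = D.cm (diagonal fun e => chr (D.t e) g.2) (D.gact g.1.1.1 y) :=
  funext fun p => (cm_diag (fun e => chr (D.t e) g.2) _ p).symm

theorem scal_sp (y : D.Rep) : D.Scal (D.sp y) := fun e => ⟨_, mat_sp y e⟩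

theorem TmA_vtx {o : Option I} (h : trace (D.vtx o) = 0) : D.vtx o = 0 := by
  have k : ∀ a : Option P, ¬a.map D.col = o := by simpa [vtx] using h
  simp [vtx, k]

theorem scal_iff : D.Scal y ↔ D.sp y = y := by
  refine ⟨fun h => D.mat_inj fun e => ?_, fun h => h ▸ scal_sp y⟩
  obtain ⟨a, ha⟩ := h e
  rw [mat_sp, ha, trace_smul, smul_eq_mul]
  by_cases k : trace (D.vtx (D.src e)) = 0
  · rw [TmA_vtx k, smul_zero, smul_zero]
  · rw [mul_div_cancel_right₀ _ k]

theorem sp_sp (y : D.Rep) : D.sp (D.sp y) = D.sp y := scal_iff.1 (scal_sp y)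

theorem sp_r (y : D.Rep) : D.sp (y - D.sp y) = 0 := by rw [map_sub, sp_sp, sub_self]

theorem Scal.add (h : D.Scal y) (h' : D.Scal z) : D.Scal (y + z) :=
  scal_iff.2 (by rw [map_add, scal_iff.1 h, scal_iff.1 h'])

theorem Scal.sub (h : D.Scal y) (h' : D.Scal z) : D.Scal (y - z) :=
  scal_iff.2 (by rw [map_sub, scal_iff.1 h, scal_iff.1 h'])

theorem Scal.smul (h : D.Scal y) (a : ℂ) : D.Scal (a • y) :=
  scal_iff.2 (by rw [map_smul, scal_iff.1 h])

theorem sp_cm (h : D.Ty c) (y : D.Rep) : D.sp (D.cm c y) = D.cm c (D.sp y) := by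
  refine D.mat_inj fun e => ?_
  simp only [mat_sp, mat_cm h, trace_sum, trace_smul, Finset.sum_div, Finset.sum_smul, smul_smul]
  refine Finset.sum_congr rfl fun e' _ => ?_
  by_cases k : c e e' = 0
  · simp [k]
  · rw [(h e e' k).1, smul_eq_mul, mul_div_assoc]

theorem gact_add' (g : Matrix P P ℂ) (y z : D.Rep) :
    D.gact g (y + z) = D.gact g y + D.gact g z :=
  funext fun p => by simp only [gact, mat_add, mul_add, add_mul, Matrix.add_apply, Pi.add_apply]

theorem gact_sub' (g : Matrix P P ℂ) (y z : D.Rep) :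
    D.gact g (y - z) = D.gact g y - D.gact g z :=
  funext fun p => by simp only [gact, mat_sub', mul_sub, sub_mul, Matrix.sub_apply, Pi.sub_apply]

theorem gact_smul' (g : Matrix P P ℂ) (a : ℂ) (y : D.Rep) :
    D.gact g (a • y) = a • D.gact g y :=
  funext fun p => by
    simp only [gact, mat_smul, Matrix.mul_smul, Matrix.smul_mul, Matrix.smul_apply, Pi.smul_apply]

theorem TmA_comm (hg : D.Blk g) (o : Option I) : hat 1 g * D.vtx o = D.vtx o * hat 1 g := by
  ext b a
  simp only [vtx, mul_diagonal, diagonal_mul]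
  by_cases k : b.map D.col = a.map D.col
  · rw [k, mul_comm]
  · rw [D.qbasic_hat hg 1 k, zero_mul, mul_zero]

theorem Scal.gact (h : D.Scal y) (hg : D.Blk g) (hu : IsUnit g) : D.gact g y = y := by
  refine D.mat_inj fun e => ?_
  obtain ⟨a, ha⟩ := h e
  rw [D.mat_gact hg hu, ha, Matrix.mul_smul, Matrix.smul_mul, TmA_comm hg, mul_assoc,
    mul_nonsing_inv _ ((isUnit_iff_isUnit_det _).1 (isUnit_hat hu)), mul_one]

theorem sp_gact (hg : D.Blk g) (hu : IsUnit g) (y : D.Rep) : D.sp (D.gact g y) = D.sp y :=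
  D.mat_inj fun e => by
    rw [mat_sp, mat_sp, D.mat_gact hg hu, trace_mul_comm, ← mul_assoc,
      nonsing_inv_mul _ ((isUnit_iff_isUnit_det _).1 (isUnit_hat hu)), one_mul]

theorem cm_gact (h : D.Ty c) (hg : D.Blk g) (hu : IsUnit g) (y : D.Rep) :
    D.cm c (D.gact g y) = D.gact g (D.cm c y) :=
  D.mat_inj fun e => by
    simp only [mat_cm h, D.mat_gact hg hu, Finset.mul_sum, Finset.sum_mul, Matrix.mul_smul,
      Matrix.smul_mul]

theorem Tm.one : D.Tm 1 1 := ⟨Ty.one, fun _ h => h, fun y _ => (cm_one y).symm⟩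

theorem Tm.of_ty (h : D.Ty c) : D.Tm (D.cm c) c :=
  ⟨h, fun y k => scal_iff.2 (by rw [sp_cm h, scal_iff.1 k]), fun _ _ => rfl⟩

theorem tm_sp : D.Tm D.sp 0 :=
  ⟨Ty.zero, fun y _ => scal_sp y, fun y k => k.trans (funext fun p => by simp [cm])⟩

theorem TmA_add (c c' : Matrix E E ℂ) (y : D.Rep) : D.cm (c + c') y = D.cm c y + D.cm c' y :=
  funext fun p => by simp [cm, add_smul, Finset.sum_add_distrib]

theorem TmA_sub (c c' : Matrix E E ℂ) (y : D.Rep) : D.cm (c - c') y = D.cm c y - D.cm c' y :=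
  funext fun p => by simp [cm, sub_smul, Finset.sum_sub_distrib]

theorem TmA_smul (a : ℂ) (c : Matrix E E ℂ) (y : D.Rep) : D.cm (a • c) y = a • D.cm c y :=
  funext fun p => by simp [cm, mul_smul, ← Finset.smul_sum]

theorem TmA_dec (h : D.Tm f c) (y : D.Rep) : f y = D.cm c (y - D.sp y) + f (D.sp y) := by
  rw [← h.eq _ (sp_r y), ← map_add, sub_add_cancel]

theorem Tm.add (h : D.Tm f c) (h' : D.Tm f' c') : D.Tm (f + f') (c + c') :=
  ⟨h.ty.add h'.ty, fun y k => (h.scal y k).add (h'.scal y k),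
    fun y k => by rw [LinearMap.add_apply, h.eq y k, h'.eq y k, TmA_add]⟩

theorem Tm.sub (h : D.Tm f c) (h' : D.Tm f' c') : D.Tm (f - f') (c - c') :=
  ⟨h.ty.sub h'.ty, fun y k => (h.scal y k).sub (h'.scal y k),
    fun y k => by rw [LinearMap.sub_apply, h.eq y k, h'.eq y k, TmA_sub]⟩

theorem Tm.smul (h : D.Tm f c) (a : ℂ) : D.Tm (a • f) (a • c) :=
  ⟨h.ty.smul a, fun y k => (h.scal y k).smul a,
    fun y k => by rw [LinearMap.smul_apply, h.eq y k, TmA_smul]⟩

theorem Tm.sp_comm (h : D.Tm f c) (y : D.Rep) : D.sp (f y) = f (D.sp y) := by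
  rw [TmA_dec h y, map_add, sp_cm h.ty, sp_r, map_zero, zero_add,
    scal_iff.1 (h.scal _ (scal_sp y))]

theorem Tm.mul (h : D.Tm f c) (h' : D.Tm f' c') : D.Tm (f * f') (c * c') :=
  ⟨h.ty.mul h'.ty, fun y k => h.scal _ (h'.scal y k), fun y k => by
    rw [Module.End.mul_apply, h.eq _ (by rw [h'.sp_comm, k, map_zero]), h'.eq y k, cm_mul h'.ty]⟩

theorem Tm.diff (h : D.Tm f c) (y : D.Rep) : D.Scal (f y - D.cm c y) := by
  rw [TmA_dec h y, map_sub, sub_add_eq_add_sub, sub_right_comm, add_sub_cancel_left]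
  exact (h.scal _ (scal_sp y)).sub ((Tm.of_ty h.ty).scal _ (scal_sp y))

theorem Tm.gact (h : D.Tm f c) (hg : D.Blk g) (hu : IsUnit g) (y : D.Rep) :
    f (D.gact g y) = D.gact g (f y) := by
  rw [TmA_dec h (D.gact g y), TmA_dec h y, sp_gact hg hu, gact_add',
    (h.scal _ (scal_sp y)).gact hg hu, ← cm_gact h.ty hg hu, gact_sub', (scal_sp y).gact hg hu]

/-- two maps with the same matrix that kill the scalars agree -/
theorem Tm.ext (h : D.Tm f c) (h' : D.Tm f' c) (e : f (D.sp y) = f' (D.sp y)) : f y = f' y := by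
  rw [TmA_dec h y, TmA_dec h' y, e]

theorem tm_r : D.Tm (1 - D.sp) 1 := by
  have := Tm.one.sub (tm_sp (D := D))
  rwa [sub_zero] at this

theorem tm_hs (u : ℝ) : D.Tm (D.hs u) 1 := by
  have := Tm.one.sub ((tm_sp (D := D)).smul ((1 - u : ℝ) : ℂ))
  rwa [smul_zero, sub_zero] at this

theorem hs_zero (y : D.Rep) : D.hs 0 y = y - D.sp y := by simp [hs]

theorem hs_one (y : D.Rep) : D.hs 1 y = y := by simp [hs]

theorem continuous_hs : Continuous fun z : ℝ × D.Rep => D.hs z.1 z.2 := by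
  have := D.sp.continuous_of_finiteDimensional
  change Continuous fun z : ℝ × D.Rep => z.2 - ((1 - z.1 : ℝ) : ℂ) • D.sp z.2
  fun_prop

theorem Tm.hs (h : D.Tm f c) (u : ℝ) (y : D.Rep) : f (D.hs u y) = D.hs u (f y) := by
  change f (y - (_ : ℂ) • D.sp y) = f y - (_ : ℂ) • D.sp (f y)
  rw [map_sub, map_smul, h.sp_comm]

theorem li_one : D.Li 1 := ⟨1, Ty.one, one_mul 1⟩

/-- `y` is recovered from `f y` up to scalars -/
theorem Tm.inv (h : D.Tm f c) (h' : D.Li c) :
    ∃ c', D.Ty c' ∧ ∀ y, D.Scal (y - D.cm c' (f y)) := by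
  obtain ⟨c', h1, h2⟩ := h'
  refine ⟨c', h1, fun y => ?_⟩
  have := ((Tm.of_ty h1).scal _ (h.diff y)).smul (-1)
  rwa [map_sub, ← cm_mul h.ty, h2, cm_one, neg_one_smul, neg_sub] at this

end Qv

end Pool.Agent.Work.MP_849ab0_ag.G
end
end

-- merged part: Pool.Agent.Work.MP_849ab0_ag.G.H2.UL
section
-- merged part: Pool.Agent.Work.MP_849ab0_ag.G.QUni
section
/-!
The quiver with universal weights.
-/

noncomputable section

set_option linter.unusedSectionVars false
set_option linter.unusedVariables false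

namespace Pool.Agent.Work.MP_849ab0_ag.G

open Set Topology Matrix

theorem lf_single {κ : Type} [Fintype κ] [DecidableEq κ] (R : Type) [CommRing R] (j : κ) :
    lf R (Pi.single j 1) = MvPolynomial.X j := by
  rw [lf, Finset.sum_eq_single j (fun i _ h => by simp [h]) (by simp)]
  simp

theorem chr_sub {κ : Type} [Fintype κ] (m m' : κ → ℤ) (g : κ → Circle) :
    chr (m - m') g = chr m g / chr m' g := by
  simp [chr, zpow_sub₀, Finset.prod_div_distrib]

/-- the identification of the universal coefficient rings -/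
def eta (E κ : Type) : MvPolynomial (Option (E ⊕ κ)) ℂ ≃+*
    Polynomial (MvPolynomial E (MvPolynomial κ ℂ)) :=
  (MvPolynomial.optionEquivLeft ℂ (E ⊕ κ)).toRingEquiv.trans
    (Polynomial.mapEquiv (MvPolynomial.sumAlgEquiv ℂ E κ).toRingEquiv)

section

variable {E κ : Type}

theorem eta_none : eta E κ (MvPolynomial.X none) = Polynomial.X := by
  simp [eta]

theorem eta_inl (e : E) :
    eta E κ (MvPolynomial.X (some (.inl e))) = Polynomial.C (MvPolynomial.X e) := by
  simp [eta]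

theorem eta_inr (j : κ) : eta E κ (MvPolynomial.X (some (.inr j))) =
    Polynomial.C (MvPolynomial.C (MvPolynomial.X j)) := by
  simp [eta]

theorem eta_C (z : ℂ) : eta E κ (MvPolynomial.C z) =
    Polynomial.C (MvPolynomial.C (MvPolynomial.C z)) := by
  simp [eta]

end

namespace Qv

/-- universal weights -/
abbrev un {I P E κ : Type} [DecidableEq E] [DecidableEq κ] (D : Qv I P E κ) :
    Qv I P E (Option (E ⊕ κ)) :=
  D.chg (fun e => Pi.single (some (.inl e)) 1) (Pi.single none 1)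

variable {k n : ℕ} {E κ : Type} [Fintype E] [DecidableEq E] [Fintype κ] [DecidableEq κ]
  (D : Qv (Fin k) (Fin n) E κ)

theorem un_map : D.un.toQD.map (eta E κ).toRingHom = D.toQD.uni := by
  simp only [QD.map, QD.uni, lf_single, RingEquiv.toRingHom_eq_coe, RingEquiv.coe_toRingHom,
    eta_none, eta_inl]

end Qv

end Pool.Agent.Work.MP_849ab0_ag.G
end
end

-- merged part: Pool.Agent.Work.MP_849ab0_ag.G.H2.AlgD
section
/-!
The algebraic half of `huni`: definitions.
-/

noncomputable section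

set_option linter.unusedSectionVars false
set_option linter.unusedVariables false

namespace Pool.Agent.Work.MP_849ab0_ag.G

open Set Topology Matrix

section

variable {P κ J : Type} [Fintype P] [DecidableEq P] [Fintype κ] [Fintype J]

/-- the weight of an edge `o → o'` -/
def em (o o' : Option P) : P → ℤ := fun a =>
  (if o' = some a then 1 else 0) - if o = some a then 1 else 0

/-- the linear form of a pair of weights -/
def wf (m : P → ℤ) (t : κ → ℤ) : MvPolynomial P (MvPolynomial κ ℂ) :=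
  lf _ m + MvPolynomial.C (lf ℂ t)

/-- `K` contains the monomials that vanish on the level set `∑ m q |y q| ^ 2 = -θ` -/
def Cut (m : J → P → ℤ) (t : J → κ → ℤ) (θ : P → ℤ)
    (K : MvPolynomial P (MvPolynomial κ ℂ) → Prop) : Prop :=
  ∀ (v : P → ℤ) (Q : Finset J), 0 < ∑ a, v a * θ a → (∀ q ∉ Q, 0 ≤ ∑ a, v a * m q a) →
    K (∏ q ∈ Q, wf (m q) (t q))

/-- a functional with the properties of a toric integral -/
structure TI (m : J → P → ℤ) (t : J → κ → ℤ) (θ : P → ℤ)
    (ψ : MvPolynomial P (MvPolynomial κ ℂ) →ₗ[MvPolynomial κ ℂ] MvPolynomial κ ℂ) : Prop where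
  cut : Cut m t θ fun f => ∀ g, ψ (g * f) = 0
  deg : ∀ Q : Finset J, Q.card + Fintype.card P < Fintype.card J → ψ (∏ q ∈ Q, wf (m q) (t q)) = 0

/-- the edges `hs i → ht i` increase `s`, span the lattice, and carry a vertex of the polytope -/
structure Vtx (s : Option P → ℤ) (θ : P → ℤ) (hs ht : P → Option P) : Prop where
  lt : ∀ i, s (hs i) < s (ht i)
  span : ∀ j, ∃ r : P → ℤ, ∑ i, r i • em (hs i) (ht i) = Pi.single j 1
  feas : ∃ r : P → ℤ, (∀ i, 0 < r i) ∧ ∀ a, ∑ i, em (hs i) (ht i) a * r i + θ a = 0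

end

namespace Qv

section

variable {I P E κ : Type} [Fintype I] [DecidableEq I] [Fintype P] [DecidableEq P] [Fintype E]
  [Fintype κ] [DecidableEq κ] (D : Qv I P E κ)

/-- `T_K`-weights of the relations (entries of the complex and of the real moment map) -/
def rm (p q : D.lp.Wt → Prop) : Cs p ⊕ Cs q → P → ℤ :=
  Sum.elim (fun z => D.lp.wt z.1) fun z => D.lp.wt z.1

/-- `T`-weights of the relations -/
def rc (p q : D.lp.Wt → Prop) : Cs p ⊕ Cs q → κ → ℤ := Sum.elim (fun _ => D.h) fun _ => 0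

/-- the Euler class of the relations -/
def eR (p q : D.lp.Wt → Prop) : MvPolynomial P (MvPolynomial κ ℂ) :=
  ∏ z, wf (D.rm p q z) (D.rc p q z)

/-- coordinates along which `s` increases -/
def ups (s : Option P → ℤ) (q : D.Wt) : Prop := s q.1.2.1 < s q.1.2.2

/-- `T_K`-weights of the increasing coordinates and of the extra edges -/
def mA (s : Option P → ℤ) (hs ht : P → Option P) : Cs (D.dbl.ups s) ⊕ P → P → ℤ :=
  Sum.elim (fun q => D.dbl.wt q.1) fun i => em (hs i) (ht i)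

/-- their `T`-weights -/
def tA (s : Option P → ℤ) : Cs (D.dbl.ups s) ⊕ P → κ → ℤ :=
  Sum.elim (fun q => D.dbl.t q.1.1.1) fun _ => 0

end

end Qv

end Pool.Agent.Work.MP_849ab0_ag.G
end
end

-- merged part: Pool.Agent.Work.MP_849ab0_ag.G.H2.UL
section
/-!
Products of weights over coordinates and over the finite sets of the algebraic library.

Hints.  `D.wt q = em q.1.2.1 q.1.2.2` by `rfl`; `wf_em` from `GW.w_eq`.  `prod_lp`, `prod_dbl`:
`Finset.prod_bij` or `Finset.prod_nbij'`; split `dbl.Wt` by the first coordinate; the coordinate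
`(inr e, a, b)` corresponds to `(e, b, a) ∈ Wt`; `pm_lf_add`-like linearity of `lf`.  The signs `ε` are
powers of `-1` (`Finset.prod_neg`).
-/

noncomputable section

set_option linter.unusedSectionVars false
set_option linter.unusedVariables false

namespace Pool.Agent.Work.MP_849ab0_ag.G

open Set Topology Matrix

theorem prod_cs {J M : Type} [Fintype J] [CommMonoid M] (p : J → Prop) [DecidablePred p]
    (F : J → M) : ∏ q : Cs p, F q.1 = ∏ q with p q, F q :=
  (Finset.prod_subtype (p := p) _ (by simp) F).symm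

theorem wf_em {n : ℕ} {κ : Type} [Fintype κ] (o o' : Option (Fin n)) (t : κ → ℤ) :
    wf (em o o') t = xv o' - xv o + MvPolynomial.C (lf ℂ t) :=
  (GW.w_eq ⟨fun _ : Unit => o, fun _ => o', fun _ => lf ℂ t⟩ ()).symm

theorem ul_zero {κ : Type} [Fintype κ] : lf ℂ (0 : κ → ℤ) = 0 := by simp [lf]

theorem ul_sub {κ : Type} [Fintype κ] (a b : κ → ℤ) : lf ℂ (a - b) = lf ℂ a - lf ℂ b := by
  simp [lf, sub_mul, Finset.sum_sub_distrib]

theorem ul_pair {n : ℕ} (v : Fin n → ℤ) (o o' : Option (Fin n)) :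
    ∑ a, v a * em o o' a = ov v o' - ov v o := by
  rcases o with _ | a <;> rcases o' with _ | b <;> simp [em, ov, mul_sub, Finset.sum_sub_distrib]

theorem ul_sq {A : Type} [CommRing A] (m : ℕ) : (-1 : A) ^ m * (-1) ^ m = 1 := by
  rw [← mul_pow, neg_mul_neg, one_mul, one_pow]

theorem ul_neg {J A : Type} [CommRing A] (S : Finset J) (f : J → A) :
    ∏ x ∈ S, -f x = (-1) ^ S.card * ∏ x ∈ S, f x := Finset.prod_neg f

namespace Qv

variable {k n : ℕ} {E κ : Type} [Fintype E] [DecidableEq E] [Fintype κ] [DecidableEq κ]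
  (D : Qv (Fin k) (Fin n) E κ) {ν : Fin k → ℤ}

theorem prod_lp {M : Type} [CommMonoid M] (p : D.lp.Wt → Prop)
    (pr : Option (Fin n) → Option (Fin n) → Prop) [DecidableRel pr]
    (h : ∀ z, p z ↔ pr z.1.2.1 z.1.2.2) (F : Option (Fin n) → Option (Fin n) → M) :
    ∏ z : Cs p, F z.1.1.2.1 z.1.1.2.2 =
      ∏ q ∈ D.toQD.Rt with pr (some q.1) (some q.2), F (some q.1) (some q.2) := by
  symm
  refine Finset.prod_bij (fun q hq => ⟨⟨(D.col q.1, some q.1, some q.2), rfl,
    congrArg some (Finset.mem_filter.1 (Finset.mem_filter.1 hq).1).2.symm⟩,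
      (h _).2 (Finset.mem_filter.1 hq).2⟩) (fun _ _ => Finset.mem_univ _) ?_ ?_ fun _ _ => rfl
  · intro q _ q' _ e
    have e' := congrArg (fun z : Cs p => z.1.1.2) e
    exact Prod.ext (Option.some.inj (congrArg Prod.fst e')) (Option.some.inj (congrArg Prod.snd e'))
  · rintro ⟨⟨⟨i, _ | a, _ | b⟩, h1, h2⟩, hp⟩ -
    · cases h1
    · cases h1
    · cases h2
    · obtain rfl : D.col a = i := Option.some.inj h1
      exact ⟨(a, b), Finset.mem_filter.2 ⟨Finset.mem_filter.2 ⟨Finset.mem_univ _,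
        (Option.some.inj h2).symm⟩, (h _).1 hp⟩, rfl⟩

theorem ul_wt (p : E × Option (Fin n) × Option (Fin n)) : p ∈ D.toQD.Wt ↔
    p.2.1.map D.col = D.src p.1 ∧ p.2.2.map D.col = D.tgt p.1 := by
  simp [QD.Wt]

theorem prod_dbl (pr : Option (Fin n) → Option (Fin n) → Prop) [DecidableRel pr] :
    ∏ q : D.dbl.Wt with pr q.1.2.1 q.1.2.2, wf (D.dbl.wt q) (D.dbl.t q.1.1) =
      (∏ p ∈ D.toQD.Wt with pr p.2.1 p.2.2, D.toQD.chi p) *
        ∏ p ∈ D.toQD.Wt with pr p.2.2 p.2.1, -(D.toQD.chi p - MvPolynomial.C D.toQD.h) := by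
  rw [← Finset.prod_sumElim]
  refine Finset.prod_bij (fun q _ => q.1.1.map (fun e => (e, q.1.2.1, q.1.2.2))
    fun e => (e, q.1.2.2, q.1.2.1)) ?_ ?_ ?_ ?_
  · rintro ⟨⟨e | e, a, b⟩, h1, h2⟩ hq
    · exact Finset.inl_mem_disjSum.2 (Finset.mem_filter.2
        ⟨(D.ul_wt _).2 ⟨h1, h2⟩, (Finset.mem_filter.1 hq).2⟩)
    · exact Finset.inr_mem_disjSum.2 (Finset.mem_filter.2
        ⟨(D.ul_wt _).2 ⟨h2, h1⟩, (Finset.mem_filter.1 hq).2⟩)
  · rintro ⟨⟨e | e, a, b⟩, h1⟩ - ⟨⟨e' | e', a', b'⟩, h2⟩ - k <;> cases k <;> rfl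
  · rintro (⟨e, a, b⟩ | ⟨e, a, b⟩) hq
    · obtain ⟨h1, h2⟩ := Finset.mem_filter.1 (Finset.inl_mem_disjSum.1 hq)
      exact ⟨⟨(.inl e, a, b), (D.ul_wt _).1 h1⟩, Finset.mem_filter.2 ⟨Finset.mem_univ _, h2⟩, rfl⟩
    · obtain ⟨h1, h2⟩ := Finset.mem_filter.1 (Finset.inr_mem_disjSum.1 hq)
      exact ⟨⟨(.inr e, b, a), ((D.ul_wt _).1 h1).symm⟩,
        Finset.mem_filter.2 ⟨Finset.mem_univ _, h2⟩, rfl⟩
  · rintro ⟨⟨e | e, a, b⟩, h1⟩ -
    · exact wf_em a b (D.t e)
    · refine (wf_em a b (D.h - D.t e)).trans ?_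
      change _ = -(xv a - xv b + MvPolynomial.C (lf ℂ (D.t e)) - MvPolynomial.C (lf ℂ D.h))
      rw [ul_sub, map_sub]
      ring

theorem ul_eR {p q : D.lp.Wt → Prop} (pr pr' : Option (Fin n) → Option (Fin n) → Prop)
    [DecidableRel pr] [DecidableRel pr'] (hp : ∀ z, p z ↔ pr z.1.2.1 z.1.2.2)
    (hq : ∀ z, q z ↔ pr' z.1.2.1 z.1.2.2) :
    D.eR p q = (∏ x ∈ D.toQD.Rt with pr (some x.1) (some x.2),
      (MvPolynomial.X x.2 - MvPolynomial.X x.1 + MvPolynomial.C D.toQD.h)) *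
        ∏ x ∈ D.toQD.Rt with pr' (some x.1) (some x.2),
          (MvPolynomial.X x.2 - MvPolynomial.X x.1) := by
  rw [eR, Fintype.prod_sum_type]
  congr 1
  · exact (Finset.prod_congr rfl fun z _ => wf_em _ _ _).trans
      (D.prod_lp p pr hp fun o o' => xv o' - xv o + MvPolynomial.C (lf ℂ D.h))
  · refine (Finset.prod_congr rfl fun z _ => (wf_em _ _ _).trans ?_).trans
      (D.prod_lp q pr' hq fun o o' => xv o' - xv o)
    exact (congrArg (fun y => _ + MvPolynomial.C y) ul_zero).trans (by rw [map_zero, add_zero])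

theorem eR_up (s : Option (Fin n) → ℤ) :
    ∃ ε, ε * ε = 1 ∧ D.toQD.num2 s = ε * D.eR (D.lp.ups s) (D.lp.ups s) := by
  refine ⟨_, ul_sq (D.toQD.Rt.filter fun x => s (some x.1) < s (some x.2)).card, ?_⟩
  rw [D.ul_eR (p := D.lp.ups s) (q := D.lp.ups s) (fun o o' => s o < s o') (fun o o' => s o < s o')
    (fun _ => Iff.rfl) fun _ => Iff.rfl,
    mul_left_comm, ← ul_neg, ← Finset.prod_mul_distrib]
  exact Finset.prod_congr rfl fun x _ => by ring

theorem den_up {s : Option (Fin n) → ℤ} (hs : Function.Injective s) : ∃ ε, ε * ε = 1 ∧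
    ∏ q : Cs (D.dbl.ups s), wf (D.dbl.wt q.1) (D.dbl.t q.1.1.1) =
      ε * ∏ p ∈ D.toQD.W2, D.toQD.den2 s p := by
  classical
  refine ⟨_, ul_sq (D.toQD.Wt.filter fun x => s x.2.2 < s x.2.1).card, ?_⟩
  have e1 : (D.toQD.W2.filter fun x => s x.2.1 < s x.2.2) =
      D.toQD.Wt.filter fun x => s x.2.1 < s x.2.2 := by
    rw [QD.W2, Finset.filter_filter]
    exact Finset.filter_congr fun x _ => ⟨fun k => k.2, fun k => ⟨fun e => k.ne (congrArg s e), k⟩⟩
  have e2 : (D.toQD.W2.filter fun x => ¬ s x.2.1 < s x.2.2) =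
      D.toQD.Wt.filter fun x => s x.2.2 < s x.2.1 := by
    rw [QD.W2, Finset.filter_filter]
    exact Finset.filter_congr fun x _ => ⟨fun k => (not_lt.1 k.2).lt_of_ne fun e => k.1 (hs e).symm,
      fun k => ⟨fun e => k.ne (congrArg s e).symm, k.not_gt⟩⟩
  have e3 := D.prod_dbl fun o o' => s o < s o'
  rw [ul_neg, mul_left_comm, ← e2] at e3
  rw [prod_cs (D.dbl.ups s) fun q => wf (D.dbl.wt q) (D.dbl.t q.1.1), ← e2]
  refine Eq.trans ?_ (e3.trans ?_)
  · exact Finset.prod_congr (Finset.filter_congr fun _ _ => Iff.rfl) fun _ _ => rfl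
  · rw [← e1, ← Finset.prod_ite]
    rfl

theorem EE_dvd {p q : D.lp.Wt → Prop} (hp : ∀ z, p z) {r : Option (Fin n) → ℤ}
    (hr : Function.Injective (r ∘ some)) (hq : ∀ z, q z ↔ r z.1.2.2 < r z.1.2.1) :
    D.toQD.EE ∣ D.eR p q := by
  rw [D.ul_eR (fun _ _ => True) (fun o o' => r o' < r o) (fun z => iff_true_intro (hp z)) hq]
  refine mul_dvd_mul ?_ ?_
  · refine (Finset.prod_dvd_prod_of_subset _ _ _ (Finset.filter_subset _ _)).trans (dvd_of_eq ?_)
    refine Finset.prod_equiv (Equiv.prodComm _ _) (fun x => ?_) fun _ _ => rfl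
    simp [QD.Rt, eq_comm]
  · let σ : Fin n × Fin n → Fin n × Fin n := fun x =>
      if r (some x.2) < r (some x.1) then x else x.swap
    have h1 : ∀ x, σ x = x ∨ σ x = x.swap := fun x => ite_eq_or_eq _ _ _
    refine (Finset.prod_dvd_prod_of_dvd _ (fun x => MvPolynomial.X (σ x).2 - MvPolynomial.X (σ x).1)
      fun x _ => ?_).trans ?_
    · rcases h1 x with e | e <;> rw [e]
      · exact dvd_sub_comm.1 dvd_rfl
      · rfl
    rw [← Finset.prod_image (g := σ)
      (f := fun x => (MvPolynomial.X x.2 - MvPolynomial.X x.1 : Pol n (MvPolynomial κ ℂ)))]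
    · refine Finset.prod_dvd_prod_of_subset _ _ _ (Finset.image_subset_iff.2 fun x hx => ?_)
      obtain ⟨k1, k2⟩ := Finset.mem_filter.1 hx
      by_cases e : r (some x.2) < r (some x.1)
      · rw [show σ x = x from if_pos e]
        exact Finset.mem_filter.2 ⟨k1, e⟩
      · rw [show σ x = x.swap from if_neg e]
        exact Finset.mem_filter.2 ⟨Finset.mem_filter.2 ⟨Finset.mem_univ _,
          (Finset.mem_filter.1 k1).2.symm⟩, (not_lt.1 e).lt_of_ne fun k => k2.ne (hr k)⟩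
    · intro x hx y hy e
      have k1 : x.1 < x.2 := (Finset.mem_filter.1 hx).2
      have k2 : y.1 < y.2 := (Finset.mem_filter.1 hy).2
      rcases h1 x with a | a <;> rcases h1 y with b | b <;> rw [a, b] at e
      · exact e
      · rw [e] at k1
        exact absurd k1 k2.not_gt
      · rw [← e] at k2
        exact absurd k2 k1.not_gt
      · exact Prod.swap_injective e

theorem ul_cm {pE : D.dbl.Wt → Prop} (hE : ∀ q, pE q) (v : Fin n → ℤ) : ∃ ε, ε * ε = 1 ∧
    ∏ q ∈ Finset.univ.filter fun x : Cs pE => ov v x.1.1.2.2 < ov v x.1.1.2.1,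
      wf (D.dbl.wt q.1) (D.dbl.t q.1.1.1) = ε * D.toQD.CM v := by
  classical
  refine ⟨_, ul_sq (D.toQD.Wt.filter fun p => ov v p.2.1 < ov v p.2.2).card, ?_⟩
  rw [Finset.prod_filter, prod_cs pE fun q => if ov v q.1.2.2 < ov v q.1.2.1
    then wf (D.dbl.wt q) (D.dbl.t q.1.1) else 1, Finset.filter_true_of_mem fun q _ => hE q,
    ← Finset.prod_filter, D.prod_dbl fun o o' => ov v o' < ov v o, ul_neg, mul_left_comm]
  rfl

theorem SQ_le {pE : D.dbl.Wt → Prop} (hE : ∀ q, pE q) {K : Ideal _}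
    (hK : Cut (fun x : Cs pE => D.dbl.wt x.1) (fun x => D.dbl.t x.1.1.1) (ν ∘ D.col) (· ∈ K)) :
    D.toQD.SQ ν ≤ K := by
  classical
  refine Ideal.span_le.2 ?_
  rintro _ ⟨S, ε, h1, rfl⟩
  have h2 : 0 < ∑ a, (ε • MP_849ab0_ag.ind S) a * (ν ∘ D.col) a := by
    have : ∑ a, (ε • MP_849ab0_ag.ind S) a * (ν ∘ D.col) a = ε * ∑ a ∈ S, ν (D.col a) := by
      simp [MP_849ab0_ag.ind, Finset.mul_sum]
    rw [this]
    rcases h1 with ⟨rfl, h⟩ | ⟨rfl, h⟩
    · rwa [one_mul]
    · rwa [neg_one_mul, neg_pos]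
  generalize ε • MP_849ab0_ag.ind S = v at h2 ⊢
  have h3 : ∏ q ∈ Finset.univ.filter fun x : Cs pE => ov v x.1.1.2.2 < ov v x.1.1.2.1,
      wf (D.dbl.wt q.1) (D.dbl.t q.1.1.1) ∈ K := hK v _ h2 fun q hq => by
    refine (sub_nonneg.2 (not_lt.1 fun k => hq ?_)).trans_eq (ul_pair v q.1.1.2.1 q.1.1.2.2).symm
    exact Finset.mem_filter.2 ⟨Finset.mem_univ _, k⟩
  obtain ⟨δ, e1, e2⟩ := D.ul_cm hE v
  have h4 := K.mul_mem_left δ h3
  rw [e2, ← mul_assoc, e1, one_mul] at h4
  exact h4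

end Qv

end Pool.Agent.Work.MP_849ab0_ag.G
end
end
end
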