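import Pool.Agent.Work.MP_849ab0_ag.G.H2.UB
import Pool.Agent.Work.MP_849ab0_ag.Uni2
import Pool.Agent.Work.MP_849ab0_ag.G.H2.UL
import Pool.Agent.Work.MP_849ab0_ag.G.H1.MnF
import Pool.Agent.Work.MP_849ab0_ag.G.H1.MnA
import Pool.Agent.Work.MP_849ab0_ag.G.Goal

-- merged part: Pool.Agent.Work.MP_849ab0_ag.G.H2.DirA
section
-- merged part: Pool.Agent.Work.MP_849ab0_ag.G.H2.UC
section
/-!
The kernel of the residues lies in the colon ideal of the cuts.

Hints.  Follow `ji2_term` and `ji2` (JI2.lean), but in `D.Om`.  `uc_term`: with `T = S`, `M = 1` or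
`T = Sᶜ`, `M = 0`; `ji2_pole` gives `co x μ * al (∏ jiQ T) = al (mm μ * p)`; apply `act (-μ)`;
`sh (-μ) (∏ jiQ T)` divides the first factor of `EE` (pairs `(b, c)`, `b ∈ T`, `c ∉ T` give
`-(X c - X b + C h)`, pairs outside `T` give `X b - X c + C h`), `ee (-μ)` divides the second
factor (one of `(c, b)`, `(b, c)` is increasing), and `mm (-μ) * sh (-μ) (mm μ) = CM μ`.
`uc_UJ`: `AddSubgroup.closure_induction` for `∃ q ∈ SQ ν, co x 0 * al EE = al q`; `mon_om`,
`co_sg_mul`, `ji_ind`, `dg_perm`, `dg_ind`, `good_of_mem`; `al` is injective.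
-/

noncomputable section

set_option linter.unusedSectionVars false
set_option linter.unusedVariables false

namespace Pool.Agent.Work.MP_849ab0_ag

open MvPolynomial Finset

namespace QD

variable {k n : ℕ} {E R : Type} [Fintype E] [CommRing R] [IsDomain R] [Algebra ℚ R]
  (D : QD k n E R)

theorem uc_mm {μ : Fin n → ℤ} (hd : ∀ o o', ov μ o - ov μ o' ≤ 1) :
    D.mm (-μ) * D.sh (-μ) (D.mm μ) = D.CM μ := by
  rw [mm, mm, CM, map_prod, prod_filter, prod_filter, ← prod_mul_distrib, ← prod_mul_distrib]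
  refine prod_congr rfl fun p _ => ?_
  have h1 := hd p.2.2 p.2.1
  have h2 := hd p.2.1 p.2.2
  have h3 : ov (-μ) p.2.2 - ov (-μ) p.2.1 = -(ov μ p.2.2 - ov μ p.2.1) := by
    rw [ov_neg, ov_neg]; ring
  obtain e | e | e : ov μ p.2.2 - ov μ p.2.1 = 1 ∨ ov μ p.2.2 - ov μ p.2.1 = 0 ∨
    ov μ p.2.2 - ov μ p.2.1 = -1 := by omega
  all_goals rw [e] at h3
  · rw [h3, e, if_neg (by omega), if_pos (by omega), show Ico (-1 : ℤ) 0 = {-1} from rfl,
      show Ico (1 : ℤ) 0 = ∅ from rfl, prod_empty, prod_singleton, map_one]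
    simp [sub_eq_add_neg]
  · rw [h3, e, if_neg (by omega), if_neg (by omega)]
    simp
  · rw [h3, e, if_pos (by omega), if_neg (by omega), show Ico (-1 : ℤ) 0 = {-1} from rfl,
      show Ico (- -1 : ℤ) 0 = ∅ from rfl, prod_empty, prod_singleton, map_add, sh_chi, h3, map_mul,
      sh_C, map_intCast]
    simp

theorem uc_dvd {f g1 g2 g : Fin n × Fin n → Pol n R} (h1 : ∀ q, f q ∣ g1 q.swap * g2 q)
    (h2 : ∀ q, g1 q * g2 q ∣ g q) : ∏ q ∈ D.Rt, f q ∣ ∏ q ∈ D.Rt, g q := by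
  have e : ∏ q ∈ D.Rt, g1 q.swap = ∏ q ∈ D.Rt, g1 q :=
    prod_equiv (Equiv.prodComm _ _) (fun q => by rw [mem_Rt, mem_Rt]; exact eq_comm) fun _ _ => rfl
  refine (prod_dvd_prod_of_dvd _ _ fun q _ => h1 q).trans ?_
  rw [prod_mul_distrib, e, ← prod_mul_distrib]
  exact prod_dvd_prod_of_dvd _ _ fun q _ => h2 q

variable {μ : Fin n → ℤ} {T : Finset (Fin n)} {M : ℤ}

theorem uc_d1 (hμ : ∀ a, μ a = ind T a + (M - 1)) : D.sh (-μ) (∏ q ∈ D.Rt, D.jiQ T q) ∣
    ∏ q ∈ D.Rt with q.1 ≠ q.2, (X q.1 - X q.2 + C D.h) := by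
  rw [map_prod, prod_filter]
  refine D.uc_dvd (g1 := fun q => if q.1 ∉ T ∧ q.2 ∈ T then X q.1 - X q.2 + C D.h else 1)
    (g2 := fun q => if q.1 ∉ T ∧ q.2 ∉ T ∧ q.1 ≠ q.2 then X q.1 - X q.2 + C D.h else 1) ?_ ?_
  · rintro ⟨b, c⟩
    unfold jiQ
    by_cases h : c ∈ T ∨ b = c
    · rw [if_pos h, map_one]
      exact one_dvd _
    rw [if_neg h, sh_rt]
    obtain ⟨hc, hbc⟩ := not_or.1 h
    by_cases hb : b ∈ T
    · have e : 1 - ind T b + ((-μ) b - (-μ) c) = -1 := by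
        simp only [Pi.neg_apply, hμ, ind, if_pos hb, if_neg hc]
        omega
      rw [e, rt_swap, neg_dvd]
      exact Dvd.dvd.mul_right (dvd_of_eq (by simp [rt, hb, hc])) _
    · have e : 1 - ind T b + ((-μ) b - (-μ) c) = 1 := by simp [hμ, ind, hb, hc]
      rw [e]
      exact Dvd.dvd.mul_left (dvd_of_eq (by simp [rt, hb, hc, hbc])) _
  · rintro ⟨b, c⟩
    by_cases hb : b ∈ T
    · simp [hb]
    by_cases hc : c ∈ T
    · have : b ≠ c := fun e => hb (e ▸ hc)
      simp [hb, hc, this]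
    · simp [hb, hc]

theorem uc_d2 (hμ : ∀ a, μ a = ind T a + (M - 1)) :
    D.ee (-μ) ∣ ∏ q ∈ D.Rt with q.1 < q.2, (X q.1 - X q.2) := by
  rw [ee_eq, prod_filter]
  refine D.uc_dvd (g1 := fun q => if q.1 ∈ T ∧ q.2 ∉ T ∧ q.1 < q.2 then X q.1 - X q.2 else 1)
    (g2 := fun q => if q.1 ∉ T ∧ q.2 ∈ T ∧ q.1 < q.2 then X q.1 - X q.2 else 1) ?_ ?_
  · rintro ⟨b, c⟩
    by_cases h : b ∉ T ∧ c ∈ T
    · have e : (-μ) b - (-μ) c = 1 := by simp [hμ, ind, h.1, h.2]
      rw [e, show Ico (0 : ℤ) 1 = {0} from rfl, prod_singleton]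
      rcases lt_or_gt_of_ne (show b ≠ c from fun e => h.1 (e ▸ h.2)) with k | k
      · exact Dvd.dvd.mul_left (dvd_of_eq (by simp [rt, h.1, h.2, k])) _
      · exact Dvd.dvd.mul_right (neg_dvd.1 (dvd_of_eq (by simp [rt, h.1, h.2, k]))) _
    · rw [Ico_eq_empty, prod_empty]
      · exact one_dvd _
      · simp only [Pi.neg_apply, hμ, ind]
        split_ifs with k1 k2 k2
        · omega
        · omega
        · exact (h ⟨k1, k2⟩).elim
        · omega
  · rintro ⟨b, c⟩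
    by_cases hb : b ∈ T <;> by_cases hc : c ∈ T <;> simp [hb, hc]

theorem uc_gen (hl : D.GN) (hh : D.h ≠ 0) (hμ : ∀ a, μ a = ind T a + (M - 1))
    (hd : ∀ o o', ov μ o - ov μ o' ≤ 1) {x : D.Op D.Om} (hx : D.Good x) (hle : D.Le M x) :
    ∃ p, D.cc (-μ) * D.act _ (-μ) (D.co x μ) * D.al D.EE = D.al (D.CM μ * p) := by
  have : CharZero R := algebraRat.charZero R
  obtain ⟨p, hp⟩ := D.ji2_pole hl hh hμ hx hle
  obtain ⟨A, hA⟩ := D.uc_d1 hμ
  obtain ⟨B, hB⟩ := D.uc_d2 hμ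
  have h1 := congrArg (D.act _ (-μ)) hp
  rw [map_mul, act_alg, act_alg, map_mul (D.sh _), map_mul D.al] at h1
  have h2 := Ring.inverse_mul_cancel _ (D.isUnit_ee (-μ))
  refine ⟨D.sh (-μ) p * (A * B), ?_⟩
  rw [← D.uc_mm hd, EE, hA, hB, cc]
  simp only [map_mul]
  linear_combination (D.al (D.mm (-μ)) * D.al A * D.al B) * h1 +
    (D.al (D.mm (-μ)) * D.al A * D.al B * D.act _ (-μ) (D.co x μ) *
      D.al (D.sh (-μ) (∏ q ∈ D.Rt, D.jiQ T q))) * h2

theorem uc_term (hl : D.GN) (hh : D.h ≠ 0) (S : Finset (Fin n)) {ε : ℤ} {x : D.Op D.Om}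
    (hx : D.Good x) (hle : (ε = 1 ∧ D.Le 1 x) ∨ (ε = -1 ∧ D.Le 0 x)) :
    ∃ p, D.cc (-(ε • ind S)) * D.act _ (-(ε • ind S)) (D.co x (ε • ind S)) * D.al D.EE =
      D.al (D.CM (ε • ind S) * p) := by
  have hd : ∀ o o', ov (ε • ind S) o - ov (ε • ind S) o' ≤ 1 := fun o o' => by
    have h1 := (ji2_ov S o).imp And.left And.left
    have h2 := (ji2_ov S o').imp And.left And.left
    rw [ji2_smul, ji2_smul]
    rcases hle with ⟨rfl, -⟩ | ⟨rfl, -⟩ <;> omega
  rcases hle with ⟨rfl, hle⟩ | ⟨rfl, hle⟩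
  · exact D.uc_gen hl hh (T := S) (fun a => by simp) hd hx hle
  · exact D.uc_gen hl hh (T := Sᶜ) (fun a => by by_cases h : a ∈ S <;> simp [ind, h]) hd hx hle

theorem uc_UJ (hl : D.GN) (hh : D.h ≠ 0) {ν : Fin k → ℤ} {f : Pol n R} (hf : f ∈ D.UJ ν) :
    f * D.EE ∈ D.SQ ν := by
  have : CharZero R := algebraRat.charZero R
  have gen : ∀ (ε : ℤ) (S : Finset (Fin n)) (g' : Pol n R), ∀ y ∈ D.Alg D.Om,
      (ε = 1 ∧ 0 < D.dg ν (ind S) ∧ D.Le 1 y) ∨ (ε = -1 ∧ D.dg ν (ind S) < 0 ∧ D.Le 0 y) →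
      D.co (D.mon D.Om (-(ε • ind S)) g' * y) 0 * D.al D.EE ∈
        (D.SQ ν).toAddSubgroup.map D.al.toAddMonoidHom := by
    intro ε S g' y hy h
    rw [mon_om, sum_mul, co_sum, sum_mul]
    refine sum_mem fun w _ => ?_
    have e0 : ind S ∘ w.1.symm = ind (S.map w.1.toEmbedding) := neg_injective (ji_ind S w.1)
    have e1 : (-(ε • ind S)) ∘ w.1.symm = -(ε • ind (S.map w.1.toEmbedding)) := by
      rw [← e0]; rfl
    rw [← D.dg_perm ν _ w, e0, dg_ind] at h
    obtain ⟨p, hp⟩ := D.uc_term hl hh (S.map w.1.toEmbedding) (D.good_of_mem hh hy)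
      (h.imp (And.imp_right And.right) (And.imp_right And.right))
    refine ⟨rename w.1 g' * (D.CM (ε • ind (S.map w.1.toEmbedding)) * p),
      Ideal.mul_mem_left _ _ (Ideal.mul_mem_right _ _ (Ideal.subset_span
        ⟨_, ε, h.imp (And.imp_right And.left) (And.imp_right And.left), rfl⟩)), ?_⟩
    rw [co_sg_mul, e1, zero_sub, neg_neg, mul_assoc (D.al _), mul_assoc (D.al _), hp, ← map_mul]
    rfl
  have key : ∀ x ∈ D.JM2 D.Om ν,
      D.co x 0 * D.al D.EE ∈ (D.SQ ν).toAddSubgroup.map D.al.toAddMonoidHom := by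
    intro x hx
    induction hx using AddSubgroup.closure_induction with
    | mem x hx =>
      obtain ⟨S, g', y, hy, -, -, ⟨h1, h2, rfl⟩ | ⟨h1, h2, rfl⟩⟩ := hx
      · simpa only [one_smul] using gen 1 S g' y hy (Or.inl ⟨rfl, h1, h2⟩)
      · simpa only [neg_smul, one_smul, neg_neg] using gen (-1) S g' y hy (Or.inr ⟨rfl, h1, h2⟩)
    | zero => rw [co_zero, zero_mul]; exact zero_mem _
    | add x y _ _ hx hy => rw [co_add, add_mul]; exact add_mem hx hy
    | neg x _ hx =>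
      rw [co_neg, show ∀ a b : D.Om, -a * b = -(a * b) from fun a b => by ring]
      exact neg_mem hx
  obtain ⟨q, hq, e⟩ := key _ (D.mem_UJ.1 hf)
  rw [cst_eq, co_sg, if_pos rfl, ← map_mul] at e
  exact D.al_injective e ▸ hq

theorem uc_IT {ν : Fin k → ℤ} (hν : Gen (ν ∘ D.col)) {f : Pol n (Polynomial (MvPolynomial E R))}
    (hf : f ∈ D.uni.IT ν) : f * D.uni.EE ∈ D.uni.SQ ν := by
  have : CharZero (MvPolynomial E R) := algebraRat.charZero _
  obtain ⟨G, h1, h2⟩ := exists_grd2 E R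
  exact D.uni.uc_UJ (D.uni0.up_GN fun e _ => X_ne_zero e) Polynomial.X_ne_zero
    (D.uni0.IT_UJ (fun e _ => X_ne_zero e) rfl hν G h1 h2 hf)

end QD

end Pool.Agent.Work.MP_849ab0_ag
end
end

-- merged part: Pool.Agent.Work.MP_849ab0_ag.G.H2.Alg
section
/-!
The algebraic half of `huni`.
-/

noncomputable section

set_option linter.unusedSectionVars false
set_option linter.unusedVariables false

namespace Pool.Agent.Work.MP_849ab0_ag.G

open Set Topology Matrix

namespace Qv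

variable {k n : ℕ} {E κ : Type} [Fintype E] [DecidableEq E] [Fintype κ] [DecidableEq κ]
  (D : Qv (Fin k) (Fin n) E κ) {ν : Fin k → ℤ}

/-- the graph of the increasing coordinates and of the extra edges -/
def gw (s : Option (Fin n) → ℤ) (u v : Fin n → Option (Fin n)) :
    GW n (Cs (D.dbl.ups s) ⊕ Fin n) (MvPolynomial κ ℂ) :=
  ⟨Sum.elim (fun q => q.1.1.2.1) u, Sum.elim (fun q => q.1.1.2.2) v, fun q => lf ℂ (D.tA s q)⟩

variable {s : Option (Fin n) → ℤ} {u v : Fin n → Option (Fin n)}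

theorem gw_m (q) : (D.gw s u v).m q = D.mA s u v q := by
  rcases q with q | q <;> rfl

theorem gw_w (q) : (D.gw s u v).w q = wf (D.mA s u v q) (D.tA s q) := by
  rcases q with q | q <;> exact (wf_em _ _ _).symm

theorem gw_kil {θ : Fin n → ℤ} {ψ} (h : TI (D.mA s u v) (D.tA s) θ ψ) : (D.gw s u v).Kil θ ψ := by
  classical
  have e : ∀ B, (D.gw s u v).M B = ∏ q ∈ Bᶜ, wf (D.mA s u v q) (D.tA s q) := fun B =>
    Finset.prod_congr (by ext; simp) fun q _ => D.gw_w q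
  refine ⟨?_, fun B hB => e B ▸ h.deg _ ?_⟩
  · rintro B ⟨S, ε, h1, h2⟩ g
    rw [e]
    refine h.cut (ε • MP_849ab0_ag.ind S) _ ?_ (fun q hq => ?_) g
    · have : ∑ a, (ε • MP_849ab0_ag.ind S) a * θ a = ε * ∑ a ∈ S, θ a := by
        simp [MP_849ab0_ag.ind, Finset.mul_sum]
      rw [this]
      rcases h1 with ⟨rfl, h1⟩ | ⟨rfl, h1⟩ <;> omega
    · have h3 := (D.gw s u v).sum_m (ov (MP_849ab0_ag.ind S)) q
      simp only [ov, Option.elim, mul_zero, sub_zero, Int.cast_id, gw_m] at h3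
      refine (h2 q (by simpa using hq)).trans_eq ?_
      simp only [ov, Option.elim, ← h3, Finset.mul_sum, Pi.smul_apply, smul_eq_mul]
      exact Finset.sum_congr rfl fun a _ => by ring
  · have := Finset.card_le_univ B
    rw [Finset.card_compl, Fintype.card_fin]
    omega

theorem gw_M : (D.gw s u v).M (Finset.univ.map ⟨Sum.inr, Sum.inr_injective⟩) =
    ∏ q, wf (D.mA s u v (.inl q)) (D.tA s (.inl q)) := by
  classical
  rw [GW.M, Finset.prod_filter, Fintype.prod_sum_type]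
  simp [gw_w]

theorem gw_cut (hν : D.Gen ν) (h1 : ∀ i, s (u i) < s (v i))
    (h3 : ∀ j, ∃ r : Fin n → ℤ, ∀ a, ∑ i, r i * em (u i) (v i) a = if j = a then 1 else 0) :
    (D.gw s u v).Cut (ν ∘ D.col) (Finset.univ.map ⟨Sum.inr, Sum.inr_injective⟩) ∨
      Vtx s (ν ∘ D.col) u v := by
  choose r hr using h3
  have e1 : Matrix.of r * Matrix.of (fun i => em (u i) (v i)) = 1 := by
    ext j a
    simpa [Matrix.mul_apply, Matrix.one_apply] using hr j a
  have e2 := mul_eq_one_comm.1 e1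
  by_cases h : ∀ i, ∑ j, r j i * ν (D.col j) < 0
  · refine Or.inr ⟨h1, fun j => ⟨r j, funext fun a => ?_⟩, fun i => -∑ j, r j i * ν (D.col j),
      fun i => neg_pos.2 (h i), fun a => ?_⟩
    · simpa [Pi.single_apply, eq_comm] using hr j a
    · simp only [mul_neg, Finset.mul_sum, Finset.sum_neg_distrib, Function.comp]
      rw [Finset.sum_comm]
      have : ∀ j, ∑ i, em (u i) (v i) a * (r j i * ν (D.col j)) =
          if j = a then ν (D.col j) else 0 := fun j => by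
        rw [← boole_mul, ← hr j a, Finset.sum_mul]
        exact Finset.sum_congr rfl fun i _ => by ring
      simp [this]
  · obtain ⟨i, hi⟩ := not_forall.1 h
    have key : ∀ l, (fun o : Option (Fin n) => o.elim (0 : ℚ) fun j => r j i) (v l) -
        (fun o : Option (Fin n) => o.elim (0 : ℚ) fun j => r j i) (u l) =
          if l = i then 1 else 0 := fun l => by
      have h3 := (D.gw s u v).sum_m (fun o => o.elim (0 : ℚ) fun j => r j i) (.inr l)
      have h4 := congrFun (congrFun e2 l) i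
      simp only [Matrix.mul_apply, Matrix.of_apply, Matrix.one_apply] at h4
      simp only [Option.elim, mul_zero, sub_zero] at h3
      refine h3.symm.trans ?_
      have h5 := congrArg (Int.cast : ℤ → ℚ) h4
      push_cast at h5
      exact h5
    refine Or.inl (GW.cut_of_pot hν (φ := fun o => o.elim 0 fun j => r j i) rfl (fun e => ?_)
      (fun p hp => ?_) ?_)
    · have := key i
      rw [e] at this
      simp at this
    · obtain ⟨l, -, rfl⟩ := Finset.mem_map.1 hp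
      have := key l
      refine sub_nonneg.1 (le_of_le_of_eq ?_ this.symm)
      split_ifs <;> norm_num
    · have := (Int.cast_le (R := ℚ)).2 (not_lt.1 hi)
      push_cast at this
      exact this

/-- toric integrals compute the residues -/
theorem IT_of_TI (hν : D.Gen ν) {f : MvPolynomial (Fin n) (MvPolynomial κ ℂ)}
    (hf : f ∈ Inv (MvPolynomial κ ℂ) D.col)
    (h : ∀ s hs ht, Function.Injective s → Vtx s (ν ∘ D.col) hs ht →
      ∃ ψ, TI (D.mA s hs ht) (D.tA s) (ν ∘ D.col) ψ ∧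
        ψ (∏ q, wf (D.mA s hs ht (.inl q)) (D.tA s (.inl q))) ≠ 0 ∧
        ∀ g, ψ (g * (f * (D.eR (D.lp.ups s) (D.lp.ups s) *
          ∏ i, wf (D.mA s hs ht (.inr i)) (D.tA s (.inr i))))) = 0) :
    f ∈ D.toQD.IT ν := by
  refine ⟨hf, fun s hs g => ?_⟩
  obtain ⟨u, v, h1, h2, h3⟩ := exists_path hs
  have hU : (D.gw s u v).Up s := by
    rintro (q | q)
    exacts [q.2, h1 q]
  have hH : (D.gw s u v).Ham (Finset.univ.map ⟨Sum.inr, Sum.inr_injective⟩) :=
    ⟨by simp, fun φ k p => h2 φ (fun i => k (.inr i) (by simp)) _ _ (hU p)⟩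
  have hJ := GW.kil_JJ (ν := ν ∘ D.col) hs hU
  obtain ⟨ε, hε, e⟩ := D.den_up hs
  obtain ⟨δ, hδ, e'⟩ := D.eR_up s
  rw [D.toQD.res2_eq_JJ hU hε (e ▸ Finset.prod_congr rfl fun q _ => D.gw_w _)]
  rcases D.gw_cut hν h1 h3 with hc | hc
  · rw [GW.uni hν hH hJ (by simpa using hJ.cut _ hc 1), LinearMap.zero_apply]
  obtain ⟨ψ, k1, k2, k3⟩ := h s u v hs hc
  have hI := D.gw_kil k1
  rw [← gw_M] at k2
  generalize (Finset.univ : Finset (Fin n)).map _ = H at hH k2
  have k4 := GW.uni (ψ := ψ ((D.gw s u v).M H) • (D.gw s u v).JJ (ν ∘ D.col) s -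
    (D.gw s u v).JJ (ν ∘ D.col) s ((D.gw s u v).M H) • ψ) hν hH
    ⟨fun B hB g => by simp [hJ.cut B hB, hI.cut B hB], fun B hB => by
      simp [hJ.low B hB, hI.low B hB]⟩ (by simp [mul_comm])
  have k5 := LinearMap.congr_fun k4
    (ε * (f * g * D.toQD.num2 s * ∏ i, (D.gw s u v).w (.inr i)))
  have k6 : ψ (ε * (f * g * D.toQD.num2 s * ∏ i, (D.gw s u v).w (.inr i))) = 0 := by
    simp only [e', gw_w]
    exact (congrArg ψ (by ring)).trans (k3 (ε * g * δ))
  simpa [k6, k2] using k5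

theorem IT_un {f : MvPolynomial (Fin n) (MvPolynomial (Option (E ⊕ κ)) ℂ)}
    (hf : f ∈ D.un.toQD.IT ν) : MvPolynomial.map (eta E κ).toRingHom f ∈ D.toQD.uni.IT ν := by
  have := D.un.toQD.map_IT (R' := Polynomial (MvPolynomial E (MvPolynomial κ ℂ))) (eta E κ) ν hf
  rwa [D.un_map] at this

/-- the kernel of the residues dies on the toric quotient after multiplication by the relations -/
theorem IT_span (hν : D.Gen ν) {f : MvPolynomial (Fin n) (MvPolynomial (Option (E ⊕ κ)) ℂ)}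
    (hf : MvPolynomial.map (eta E κ).toRingHom f ∈ D.toQD.uni.IT ν)
    {pE : D.un.dbl.Wt → Prop} (hE : ∀ q, pE q) {p q : D.un.lp.Wt → Prop} (hp : ∀ z, p z)
    {r : Option (Fin n) → ℤ} (hr : Function.Injective (r ∘ some))
    (hq : ∀ z, q z ↔ r z.1.2.2 < r z.1.2.1) (K : Ideal _)
    (hK : Cut (fun x : Cs pE => D.un.dbl.wt x.1) (fun x => D.un.dbl.t x.1.1.1) (ν ∘ D.col)
      (· ∈ K)) : f * D.un.eR p q ∈ K := by
  have h1 := D.toQD.uni.map_SQ (eta E κ).symm.toRingHom ν (D.toQD.uc_IT hν hf)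
  have e : D.toQD.uni.map (eta E κ).symm.toRingHom = D.un.toQD := by
    rw [← D.un_map]
    simp only [QD.map, RingEquiv.toRingHom_eq_coe, RingEquiv.coe_toRingHom,
      RingEquiv.symm_apply_apply]
  rw [e, MvPolynomial.map_map, RingEquiv.symm_toRingHom_comp_toRingHom, MvPolynomial.map_id] at h1
  obtain ⟨c, hc⟩ := D.un.EE_dvd hp hr hq
  rw [hc, ← mul_assoc]
  exact K.mul_mem_right _ (D.un.SQ_le hE hK h1)

end Qv

end Pool.Agent.Work.MP_849ab0_ag.G
end
end

-- merged part: Pool.Agent.Work.MP_849ab0_ag.G.H2.TorB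
section
/-!
The kernel of the toric Kirwan map.

Hints.  `germ_kill`: `kpt V (c * euc σ) = sm c (sm (euc σ) 1)` (`kpt_mul`, `sm_eone`) is the image of
`sm c (eul σ F V Z)` (`eul_univ`, `gp_eul`, `gp_sm`), and `sm c x = ecup (kpt (V ∩ Z) c) x` for `x`
supported in `Z` (`sm_def`, `ecup_gp_left`, `gp_id_kpt`; `CupOK` is in FCo / Coh).
`cut`: `germ_kill` is not needed: with `σ = Act.dg` on the index type `Q`, `F y = fun q => y q`, the
class `eul σ F lev ∅` is `0` (`eq_zero_of_disjoint`) and maps to `kpt (euc σ)`; `euc_dg2`;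
`F y ≠ 0` on `lev` since `∑ a, v a * mu y a = 0` would be a sum of a nonnegative and a positive term.
-/

noncomputable section

set_option linter.unusedSectionVars false
set_option linter.unusedVariables false

namespace Pool.Agent.Work.MP_849ab0_ag.G

open Set Topology Matrix

theorem germ_kill {G : Gp} [G.Nice] {Y J : Type} [TopologicalSpace Y] [T3Space Y]
    [SecondCountableTopology Y] [Fintype J] {b : Act G Y} [b.Ok] {σ : Act G (J → ℂ)} [σ.Rep]
    {F : Y → J → ℂ} {V Z : Set Y} (h : EAdm b σ F V Z) {c : HPt G} (hc : kpt b (V ∩ Z) c = 0) :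
    kpt b V (c * euc σ) = 0 := by
  have P := h.src
  have e : V ∩ Z = V ∩ closure (V ∩ Z) := Set.ext fun x =>
    ⟨fun k => ⟨k.1, subset_closure k⟩, fun k => ⟨k.1, P.cl k⟩⟩
  have P' : b.Pr (V ∩ Z) univ :=
    ⟨e ▸ P.lc.inter isClosed_closure.isLocallyClosed,
      fun g x hx => ⟨P.inv g x hx.1, P.invz g x hx.1 hx.2⟩, fun _ _ _ _ => trivial,
      fun _ _ => trivial⟩
  have k : GAdm b b id id V univ V Z := gadm_id P P.top subset_rfl (subset_univ _)
  have k' : GAdm b b id id (V ∩ Z) univ V univ :=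
    gadm_id P.top P' inter_subset_left (subset_univ _)
  have h' : EAdm b σ F V univ :=
    ⟨P.top, h.tgt, h.cont, h.eqv, h.maps, fun _ _ _ => trivial⟩
  have hE : ECup b (V ∩ Z) univ V Z V Z :=
    ⟨P', P, P, subset_union_right, fun x hx => by
      by_cases hz : x ∈ Z
      · exact Or.inl ⟨hx, hz⟩
      · exact Or.inr ⟨hx, hz⟩, subset_union_right⟩
  have h0 : sm c (eul b σ F V Z) = 0 := by
    rw [sm_def, ← ecup_gp_left hE k', gp_id_kpt k', hc, map_zero, LinearMap.zero_apply]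
  have h1 : kpt b V (euc σ) = gp b id id V univ (eul b σ F V Z) := by
    rw [gp_eul h k (σ := σ) (fun _ _ => rfl) (F' := F) (fun _ _ => rfl), eul_univ h',
      sm_eone P.top]
  have h2 := gp_sm k c (eul b σ F V Z)
  rw [h0, map_zero, gpt_id] at h2
  rw [kpt_mul P.top, h1, ← h2]

variable {A J κ : Type} [Fintype A] [DecidableEq A] [Fintype J] [Fintype κ] [DecidableEq κ]

/-- toric data given by integer weights -/
abbrev tdw (m : J → A → ℤ) (t : J → κ → ℤ) (θ : A → ℤ) : TD A J (Gp.tor κ) :=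
  ⟨m, fun q => chr (t q), fun a => θ a⟩

variable {m : J → A → ℤ} {t : J → κ → ℤ} {θ : A → ℤ}

theorem tdw_rep : (tdw m t θ).rep.Rep :=
  Act.rep_dg fun q => ((isChar_chr (m q)).comp (G' := TG A (Gp.tor κ)) Prod.fst).mul'
    ((isChar_chr (t q)).comp (G' := TG A (Gp.tor κ)) Prod.snd)

theorem torb_act (g : (TG A (Gp.tor κ)).H) {w : J → ℂ} (hw : w ∈ (tdw m t θ).lev) :
    (tdw m t θ).rep.act g w ∈ (tdw m t θ).lev := by
  intro j
  rw [← hw j]
  refine congrArg (· + (tdw m t θ).θ j) (Finset.sum_congr rfl fun p _ => ?_)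
  change _ * ‖chr (m p) g.1 * chr (t p) g.2 * w p‖ ^ 2 = _
  rw [norm_mul, norm_mul, (isChar_chr (m p)).norm, (isChar_chr (t p)).norm, one_mul, one_mul]

theorem torb_pr {Z : Set (J → ℂ)} (hZ : IsClosed Z)
    (h : ∀ g, ∀ x ∈ Z, (tdw m t θ).rep.act g x ∈ Z) : (tdw m t θ).rep.Pr (tdw m t θ).lev Z :=
  Act.pr_of _ TD.isClosed_lev.isLocallyClosed (fun g _ hx => torb_act g hx) hZ h

theorem tdw_pr : (tdw m t θ).rep.Pr (tdw m t θ).lev univ :=
  torb_pr isClosed_univ fun _ _ _ => trivial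

theorem tdw_ok (src tgt : J → Option A) (hm : ∀ q, m q = em (src q) (tgt q))
    (hθ : ∀ S : Finset A, S.Nonempty → ∑ a ∈ S, θ a ≠ 0) : (tdw m t θ).Ok :=
  TD.ok_of_graph src tgt (fun q j => congrFun (hm q) j) (fun q => isChar_chr _) fun S hS k =>
    hθ S hS (Int.cast_injective (α := ℝ) (by rw [Int.cast_sum, Int.cast_zero]; exact k))

/-- the kernel of the Kirwan map -/
def kerT (m : J → A → ℤ) (t : J → κ → ℤ) (θ : A → ℤ) : Ideal (MvPolynomial A (MvPolynomial κ ℂ)) where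
  carrier := {f | kpt (tdw m t θ).rep (tdw m t θ).lev (pol2 A κ f) = 0}
  add_mem' {f g} hf hg := by
    rw [mem_setOf, map_add, map_add, hf, hg, add_zero]
  zero_mem' := by rw [mem_setOf, map_zero, map_zero]
  smul_mem' f g hg := by
    have := tdw_rep (m := m) (t := t) (θ := θ)
    rw [mem_setOf, smul_eq_mul, map_mul, kpt_mul tdw_pr, hg, map_zero]

theorem mem_kerT {f : MvPolynomial A (MvPolynomial κ ℂ)} :
    f ∈ kerT m t θ ↔ kpt (tdw m t θ).rep (tdw m t θ).lev (pol2 A κ f) = 0 := Iff.rfl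

theorem cut_kerT : Cut m t θ (· ∈ kerT m t θ) := by
  intro v Q hv hQ
  have := tdw_rep (m := m) (t := t) (θ := θ)
  let σ : Act (TG A (Gp.tor κ)) (Q → ℂ) := Act.dg fun q g => chr (m q) g.1 * chr (t q) g.2
  have hσ : σ.Rep := tdw_rep (m := fun q : Q => m q) (t := fun q : Q => t q) (θ := θ)
  have hE : EAdm (tdw m t θ).rep σ (fun y q => y q) (tdw m t θ).lev ∅ := by
    refine ⟨torb_pr isClosed_empty fun _ _ k => k, Act.Rep.pr σ, by fun_prop, fun _ _ _ => rfl,
      mapsTo_univ _ _, fun y hy k => ?_⟩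
    have k0 : ∀ q ∈ Q, y q = 0 := fun q hq => congrFun k ⟨q, hq⟩
    have h1 : ∑ a, (v a : ℝ) * (tdw m t θ).mu y a = 0 :=
      Finset.sum_eq_zero fun a _ => by rw [hy a, mul_zero]
    have h2 : ∑ a, (v a : ℝ) * (tdw m t θ).mu y a =
        ∑ q, ((∑ a, v a * m q a : ℤ) : ℝ) * ‖y q‖ ^ 2 + ((∑ a, v a * θ a : ℤ) : ℝ) := by
      simp only [TD.mu, mul_add, Finset.sum_add_distrib, Finset.mul_sum, Int.cast_sum,
        Int.cast_mul, Finset.sum_mul, mul_assoc]
      rw [Finset.sum_comm]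
    have h3 : 0 ≤ ∑ q, ((∑ a, v a * m q a : ℤ) : ℝ) * ‖y q‖ ^ 2 :=
      Finset.sum_nonneg fun q _ => by
        by_cases hq : q ∈ Q
        · simp [k0 q hq]
        · exact mul_nonneg (Int.cast_nonneg (hQ q hq)) (sq_nonneg _)
    have h4 : (0 : ℝ) < ((∑ a, v a * θ a : ℤ) : ℝ) := Int.cast_pos.2 hv
    exact absurd (h1.symm.trans h2) (add_pos_of_nonneg_of_pos h3 h4).ne
  have h := germ_kill hE (c := 1) (eq_zero_of_disjoint
    (by rw [inter_empty]; exact Act.pr_empty _ _) (by simp) _)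
  rw [one_mul, euc_dg2 (fun q : Q => m q) (fun q : Q => t q)] at h
  rw [mem_kerT, ← Finset.prod_coe_sort]
  exact h

end Pool.Agent.Work.MP_849ab0_ag.G
end
end

-- merged part: Pool.Agent.Work.MP_849ab0_ag.G.H2.Rel
section
/-!
The relations that cut the level set of the nonabelian moment maps out of the toric level set, and
matrices of a fixed degree modulo `m`.

Hints.  `rel2_act`: `aN_act`, `mu_sc`, `mu_cj`, `muR_sc`, `muR_cj`; `hat 1 (diagonal d)` is a diagonal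
matrix; compare with `D.lp.aN_inc` applied to `D.unl _` (`unl_bi`, `aN_eq_bi`; `D.lp.t = 0`).
`exz_act`: `aN_inc`.  `muR_exz`: `muR_diag`, `sum_exz`.  `mem_of_rel`: `mem_lev_of` with `r ∘ some`,
`lev_stable`; an entry `(some b, some a)` with `col a = col b` is the coordinate
`⟨(col a, some a, some b), _⟩` of `unl`, the other ones vanish by `grd_mu`.
-/

noncomputable section

set_option linter.unusedSectionVars false
set_option linter.unusedVariables false

namespace Pool.Agent.Work.MP_849ab0_ag.G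

open Set Topology Matrix

/-- integers congruent to `d` modulo `m` -/
def sd (m d : ℤ) : Set ℤ := {k | m ∣ k - d}

/-- matrices of degree `d` modulo `m` -/
def Dm {J : Type} (ρ : J → ℤ) (m d : ℤ) (g : Matrix J J ℂ) : Prop :=
  ∀ b a, ρ b - ρ a ∉ sd m d → g b a = 0

section

variable {J : Type} [Fintype J] [DecidableEq J] {ρ : J → ℤ} {m d d' : ℤ} {g h : Matrix J J ℂ}

theorem Dm.add (h1 : Dm ρ m d g) (h2 : Dm ρ m d h) : Dm ρ m d (g + h) := fun b a k => by
  rw [Matrix.add_apply, h1 b a k, h2 b a k, add_zero]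

theorem Dm.sub (h1 : Dm ρ m d g) (h2 : Dm ρ m d h) : Dm ρ m d (g - h) := fun b a k => by
  rw [Matrix.sub_apply, h1 b a k, h2 b a k, sub_zero]

theorem Dm.sum {ι : Type} [Fintype ι] {f : ι → Matrix J J ℂ} (h1 : ∀ i, Dm ρ m d (f i)) :
    Dm ρ m d (∑ i, f i) := fun b a k => by
  rw [Matrix.sum_apply]
  exact Finset.sum_eq_zero fun i _ => h1 i b a k

theorem Dm.mul {d'' : ℤ} (h1 : Dm ρ m d g) (h2 : Dm ρ m d' h) (e : d + d' = d'') :
    Dm ρ m d'' (g * h) := fun b a k => by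
  rw [Matrix.mul_apply]
  refine Finset.sum_eq_zero fun c _ => ?_
  by_cases k1 : ρ b - ρ c ∈ sd m d
  · refine mul_eq_zero_of_right _ (h2 c a fun k2 => k ?_)
    have := dvd_add k1 k2
    rwa [show ρ b - ρ c - d + (ρ c - ρ a - d') = ρ b - ρ a - d'' by omega] at this
  · exact mul_eq_zero_of_left (h1 b c k1) _

theorem Dm.adj (h1 : Dm ρ m d g) : Dm ρ m (-d) gᴴ := fun b a k => by
  rw [conjTranspose_apply, h1 a b fun k' => k ?_, star_zero]
  have := dvd_neg.2 k'
  rwa [show -(ρ a - ρ b - d) = ρ b - ρ a - -d by omega] at this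

theorem Dm.diag (f : J → ℂ) : Dm ρ m 0 (diagonal f) := fun b a k =>
  diagonal_apply_ne _ fun e => k (by simp [e, sd])

theorem Dm.one : Dm ρ m 0 (1 : Matrix J J ℂ) := Dm.diag _

end

namespace Qv

variable {I P E κ : Type} [Fintype I] [DecidableEq I] [Fintype P] [DecidableEq P] [Fintype E]
  [Fintype κ] [DecidableEq κ] (D : Qv I P E κ)

/-- entries of the complex and of the real moment map -/
def rel2 (p q : D.lp.Wt → Prop) (y : D.dbl.Rep) : Cs p ⊕ Cs q → ℂ :=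
  Sum.elim (rs0 p (D.unl (D.mu y))) (rs0 q (D.unl (D.dbl.muR y)))

/-- the representation in which they take values -/
def sigR (p q : D.lp.Wt → Prop) : Act (TG P (Gp.tor κ)) (Cs p ⊕ Cs q → ℂ) :=
  Act.dg fun z g => chr (D.rm p q z) g.1 * chr (D.rc p q z) g.2

/-- the toric data of a set of coordinates -/
abbrev tdc (ν : I → ℤ) (pE : D.Wt → Prop) : TD P (Cs pE) (Gp.tor κ) :=
  tdw (fun x : Cs pE => D.wt x.1) (fun x => D.t x.1.1.1) (ν ∘ D.col)

variable {D} {p q : D.lp.Wt → Prop} {ν : I → ℤ} {ρ : Option P → ℤ} {m d : ℤ}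

theorem rep_sigR : (D.sigR p q).Rep := tdw_rep (θ := 0)

theorem euc_sigR : euc (D.sigR p q) = pol2 P κ (D.eR p q) := euc_dg2 _ _

theorem tdc_ok (hν : D.Gen ν) (pE : D.Wt → Prop) : (D.tdc ν pE).Ok :=
  tdw_ok (fun x => x.1.1.2.1) (fun x => x.1.1.2.2) (fun _ => rfl) hν

theorem rel_key (g : (TG P (Gp.tor κ)).H) {M : Mt P} (h : Grd D.cl M) (z : D.lp.Wt) :
    D.unl (hat 1 (inc D.col _ g).1.1.1 * M * (hat 1 (inc D.col _ g).1.1.1)ᴴ) z =
      chr (D.lp.wt z) g.1 * D.unl M z := by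
  have hl : IsUH (G := KT D.col κ) D.cl fun u => hat 1 u.1.1.1 :=
    (isUH_hat (c := D.col) (c' := D.col) fun _ _ e => e).comp (G' := KT D.col κ) Prod.fst
  have k := congrFun (unl_bi hl hl (fun u => chr 0 u.2) (inc D.col _ g) h) z
  have k2 := D.lp.aN_inc g (D.unl M) z
  rw [aN_eq_bi] at k2
  have k3 : ∀ u : κ → Circle, chr 0 u = 1 := fun u => by simp [chr]
  rw [k3, one_smul] at k
  rw [k]
  refine k2.trans ?_
  rw [show D.lp.t z.1.1 = 0 from rfl, k3, mul_one]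

/-- the coordinate of an entry -/
def rel_z {a b : P} (e : D.col a = D.col b) : D.lp.Wt :=
  ⟨(D.col a, some b, some a), congrArg some e.symm, rfl⟩

theorem cont_rel2 : Continuous (D.rel2 p q) := by
  refine continuous_pi ?_
  rintro (z | z)
  · exact (continuous_apply z).comp (continuous_rs0.comp (cont_unl.comp continuous_mu))
  · exact (continuous_apply z).comp (continuous_rs0.comp (cont_unl.comp continuous_muR))

theorem rel2_act (g : (TG P (Gp.tor κ)).H) (y : D.dbl.Rep) :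
    D.rel2 p q (D.dbl.aN.act (inc D.col _ g) y) = (D.sigR p q).act g (D.rel2 p q y) := by
  have hk : KU D.cl (hat 1 (inc D.col _ g).1.1.1) := ku_hat.2 (ku_Ub _)
  funext z
  rcases z with z | z
  · change D.unl (D.mu (D.dbl.aN.act (inc D.col _ g) y)) z.1 =
      chr (D.lp.wt z.1) g.1 * chr D.h g.2 * D.unl (D.mu y) z.1
    rw [aN_act, mu_sc (z := chr D.h g.2) fun e =>
      (chr_add _ _ g.2).symm.trans (congrArg (chr · g.2) (add_sub_cancel _ _)), mu_cj hk.gu,
      hk.inv_eq, mul_right_comm, ← rel_key g (grd_mu y), mul_comm]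
    rfl
  · change D.unl (D.dbl.muR (D.dbl.aN.act (inc D.col _ g) y)) z.1 =
      chr (D.lp.wt z.1) g.1 * chr 0 g.2 * D.unl (D.dbl.muR y) z.1
    rw [aN_act, muR_sc fun e => (isChar_chr _).norm _, muR_cj (D := D.dbl) hk,
      rel_key (D := D) g (grd_muR (D := D.dbl) y)]
    simp [chr]

theorem exz_act {pE : D.Wt → Prop} (g : (TG P (Gp.tor κ)).H) (y : Cs pE → ℂ) :
    exz pE ((D.tdc ν pE).rep.act g y) = D.aN.act (inc D.col _ g) (exz pE y) := by
  funext x
  rw [aN_inc]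
  by_cases h : pE x
  · rw [exz_pos _ ⟨x, h⟩, exz_pos _ ⟨x, h⟩]
    rfl
  · rw [exz_neg _ h, exz_neg _ h, mul_zero]

theorem muR_exz {pE : D.Wt → Prop} (y : Cs pE → ℂ) (a : P) :
    D.muR (exz pE y) (some a) (some a) = ((∑ x : Cs pE, D.wt x.1 a * ‖y x‖ ^ 2 : ℝ) : ℂ) := by
  rw [muR_diag, sum_exz (fun (x : D.Wt) (w : ℂ) => ((if x.1.2.2 = some a then (1 : ℝ) else 0) -
    if x.1.2.1 = some a then 1 else 0) * ‖w‖ ^ 2) fun _ => by simp]
  simp [wt]

theorem mem_tdc {pE : D.Wt → Prop} {y : Cs pE → ℂ} : y ∈ (D.tdc ν pE).lev ↔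
    ∀ a, D.muR (exz pE y) (some a) (some a) = -(ν (D.col a) : ℂ) := by
  refine forall_congr' fun a => ?_
  rw [muR_exz, ← add_eq_zero_iff_eq_neg, ← Complex.ofReal_intCast, ← Complex.ofReal_add,
    Complex.ofReal_eq_zero]
  rfl

theorem mem_of_rel (hν : D.Gen ν) {r : Option P → ℤ} (hr : Function.Injective (r ∘ some))
    {y : D.dbl.Rep} (h1 : ∀ a, D.dbl.muR y (some a) (some a) = -(ν (D.col a) : ℂ))
    (hp : ∀ z : D.lp.Wt, ¬p z → D.mu y z.1.2.2 z.1.2.1 = 0)
    (hq : ∀ z : D.lp.Wt, ¬q z → r z.1.2.2 < r z.1.2.1 → D.dbl.muR y z.1.2.2 z.1.2.1 = 0)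
    (h : D.rel2 p q y = 0) : y ∈ D.Xs ν ∧ y ∈ D.dbl.Lev ν := by
  have h2 : y ∈ D.dbl.Lev ν := by
    refine mem_lev_of (D := D.dbl) hr h1 fun a b e l => ?_
    by_cases k : q (rel_z e)
    · exact congrFun h (.inr ⟨_, k⟩)
    · exact hq _ k l
  refine ⟨⟨fun a b => ?_, lev_stable (D := D.dbl) hν h2⟩, h2⟩
  by_cases e : D.col a = D.col b
  · by_cases k : p (rel_z e)
    · exact congrFun h (.inl ⟨_, k⟩)
    · exact hp _ k
  · exact grd_mu y _ _ fun k => e (Option.some.inj k)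

theorem rel2_eq_zero {y : D.dbl.Rep} (h1 : y ∈ D.Xs ν) (h2 : y ∈ D.dbl.Lev ν)
    (hq : ∀ z : D.lp.Wt, q z → z.1.2.2 ≠ z.1.2.1) : D.rel2 p q y = 0 := by
  funext z
  rcases z with z | z
  · change D.mu y _ _ = 0
    rw [mem_M0.1 h1.1]
    rfl
  · change D.dbl.muR y _ _ = 0
    rw [show D.dbl.muR y = _ from h2, Matrix.neg_apply, dg, diagonal_apply_ne _ (hq _ z.2),
      neg_zero]

theorem dm_mat {y : D.Rep} (hy : y ∈ D.Ed ρ (sd m d)) (e : E) : Dm ρ m d (D.mat y e) :=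
  mem_Ed_mat.1 hy e

theorem exz_mem {s : Set ℤ} (y : Cs (fun x : D.Wt => D.dgr ρ x ∈ s) → ℂ) : exz _ y ∈ D.Ed ρ s :=
  fun _ k => exz_neg y k

theorem dm_lpm {φ : D.lp.Rep} (h : φ ∈ D.lp.Ed ρ (sd m d)) : Dm ρ m d (D.lpm φ) :=
  Dm.sum fun i => dm_mat h i

theorem dm_fr (s : ℂ) : Dm ρ m 0 (D.fr s) := by
  rintro (_ | b) (_ | a) k
  · exact absurd (by simp [sd]) k
  all_goals rfl

/-- a family of matrices of degree `d` vanishes if its coordinates of degree `d` vanish -/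
theorem eq_zero_of_rs0 {ψ : E → Mt P} (h1 : D.Sup ψ) (h2 : ∀ e, Dm ρ m d (ψ e))
    (h : rs0 (fun x : D.Wt => D.dgr ρ x ∈ sd m d) (D.unmat ψ) = 0) (e : E) : ψ e = 0 := by
  ext b a
  by_cases k : a.map D.col = D.src e ∧ b.map D.col = D.tgt e
  · by_cases k2 : ρ b - ρ a ∈ sd m d
    · exact congrFun h ⟨⟨(e, a, b), k⟩, k2⟩
    · exact h2 e b a k2
  · exact h1 e b a k

end Qv

end Pool.Agent.Work.MP_849ab0_ag.G
end
end

-- merged part: Pool.Agent.Work.MP_849ab0_ag.G.H2.EsI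
section
/-!
The diagonal argument for quiver varieties graded modulo `m`: data, and the zeros of `Φ`.

Hints.  `isUH_*`: `isUH_diag` (`hat 1 (diagonal d)` is diagonal) or `isUH_hat` composed with
`diagU`; `IsUH.comp`.  `dm_rG`: `h.hc`.  `spl`: the matrices of `bi l r χ` applied to `y` are
`χ • l * mat y * rᴴ` (`mat_bi`, `mat_app`); a matrix of degree `0` preserves both the coordinates of
degree `d` and the other ones (expand `Matrix.mul_apply`; degrees add).
`cpx_zero`: `eq_zero_of_rs0` with `sup_cx0`, `sup_cxs` and the `Dm` lemmas.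
`sol`: `cpx_zero`, `pair_split`, `lev_hom` (the entry `(none, none)` of `ph l` is `1`),
`hat_unhat`, `ku_hat`, `KU.exists_Ub` for the colouring `c'` (`ph l` is graded and of degree `0`).
-/

noncomputable section

set_option linter.unusedSectionVars false
set_option linter.unusedVariables false

namespace Pool.Agent.Work.MP_849ab0_ag.G

open Set Topology Matrix

namespace Qv

variable {I P E κ C : Type} [Fintype I] [DecidableEq I] [Fintype P] [DecidableEq P] [Fintype E]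
  [Fintype κ] [DecidableEq κ] (D : Qv I P E κ) (ν : I → ℤ) (ρ : Option P → ℤ) (m : ℤ)
  (r : Option P → ℤ) (c' : P → C)

/-- coordinates of degree `d` -/
abbrev pD (d : ℤ) (x : D.Wt) : Prop := D.dgr ρ x ∈ sd m d

/-- strictly triangular coordinates of degree `0` -/
def pS (z : D.lp.Wt) : Prop := D.lp.pD ρ m 0 z ∧ r z.1.2.2 < r z.1.2.1

/-- coordinates of the parameter -/
abbrev JE : Type := Cs (D.dbl.pD ρ m 1)

/-- coordinates of the pairs `(φ, η)` -/
abbrev JL : Type := Cs (D.lp.pD ρ m 0) ⊕ Cs (D.lp.pD ρ m 2)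

/-- the action on the target module -/
def lG (κ : Type) [Fintype κ] [DecidableEq κ] (g : (TG P (KT c' κ)).H) : Mt P :=
  hat 1 (diagonal fun a => (g.1 a : ℂ))

/-- the action on the source module -/
def rG (κ : Type) [Fintype κ] [DecidableEq κ] (g : (TG P (KT c' κ)).H) : Mt P := hat 1 g.2.1.1.1

/-- endomorphisms twisted by the weight `w` -/
abbrev bL (w : κ → ℤ) : Act (TG P (KT c' κ)) D.lp.Rep :=
  D.lp.bi (lG c' κ) (rG c' κ) fun _ g => chr w g.2.2

/-- the middle term of the complex -/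
abbrev bE : Act (TG P (KT c' κ)) D.dbl.Rep :=
  D.dbl.bi (lG c' κ) (rG c' κ) fun e g => chr (D.dbl.t e) g.2.2

/-- the framed homomorphism -/
def ph (l : D.JL ρ m → ℂ) : Mt P := D.lpm (exz _ (l ∘ Sum.inl)) + D.fr 1

/-- the obstruction coordinate -/
def et (l : D.JL ρ m → ℂ) : Mt P := D.lpm (exz _ (l ∘ Sum.inr))

/-- the rolled up complex of the pair `(x, y)` -/
def cpx (x y : D.dbl.Rep) (φ η : Mt P) (e : E ⊕ E) : Mt P :=
  cx0 (D.dbl.mat y) 1 (D.dbl.mat x) φ e + cxs (D.dbl.mat y) 1 (D.dbl.mat x) η e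

/-- the data -/
def esd (Lv : Set D.dbl.Rep) : ESD c' κ D.dbl.Rep (D.JE ρ m)
    (Cs (D.lp.pD ρ m 2) ⊕ Cs (D.pS ρ m r)) (D.JL ρ m) (D.JE ρ m) (Cs (D.pS ρ m r)) where
  D0 := D.dbl.tdc ν _
  Lv := Lv
  j := exz _
  σ := D.sigR _ _
  rel y := D.rel2 _ _ (exz _ y)
  L := ((D.bL c' 0).cs _).sum ((D.bL c' D.h).cs _)
  E := (D.bE c').cs _
  Φ z := rs0 _ (D.dbl.unmat (D.cpx z.2.2 (exz _ z.2.1) (D.ph ρ m z.1) (D.et ρ m z.1)))
  k l := Classical.epsilon fun u => hat 1 u.1.1 = D.ph ρ m l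
  mL := Sum.elim (fun z => em none z.1.1.2.2) fun z => em none z.1.1.2.2
  si z := .inl ⟨z.1, z.2.1⟩

/-- the hypotheses -/
structure Hy (a : Act (KT c' κ) D.dbl.Rep) (Lv : Set D.dbl.Rep) : Prop where
  gen : D.Gen ν
  hr : Function.Injective r
  hc : ∀ a b, c' a = c' b ↔ D.col a = D.col b ∧ m ∣ ρ (some a) - ρ (some b)
  act : ∀ g y, a.act g y =
    D.dbl.sc (fun e => chr (D.dbl.t e) g.2) (D.dbl.cnj (hat 1 g.1.1.1) y)
  lv : ∀ y, y ∈ Lv ↔ y ∈ D.Xs ν ∧ y ∈ D.dbl.Ed ρ (sd m 1) ∧ y ∈ D.dbl.Lev ν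
  pr : a.Pr Lv univ

variable {D ν ρ m r c'} {a : Act (KT c' κ) D.dbl.Rep} [a.Ok] {Lv : Set D.dbl.Rep}

theorem isUH_lG : IsUH D.cl (lG c' κ) :=
  have := IsHom.comp (h := IsHom.fst) (k := IsHom.inc D.col (KT c' κ))
  (isUH_hat (c := D.col) fun _ _ e => e).comp (G' := TG P (KT c' κ))
    (Prod.fst ∘ inc D.col (KT c' κ))

theorem esi_hat {g : Matrix P P ℂ} (h : ∀ b a, ¬m ∣ ρ (some b) - ρ (some a) → g b a = 0) :
    Dm ρ m 0 (hat 1 g) := by
  rintro (_ | b) (_ | a) k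
  · exact absurd (by simp [sd]) k
  · rfl
  · rfl
  · exact h b a fun e => k (by simpa [sd] using e)

theorem dm_lG (g : (TG P (KT c' κ)).H) : Dm ρ m 0 (lG c' κ g) :=
  esi_hat fun b a k => diagonal_apply_ne _ fun e => k (by simp [e])

theorem Hy.isUH_rG (h : D.Hy ν ρ m r c' a Lv) : IsUH D.cl (rG c' κ) :=
  have := IsHom.comp (h := IsHom.fst (G := Gp.blk c') (G' := Gp.tor κ))
    (k := IsHom.snd (G := Gp.tor P))
  (isUH_hat (c := D.col) fun a b e => ((h.hc a b).1 e).1).comp (G' := TG P (KT c' κ))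
    (Prod.fst ∘ Prod.snd)

theorem Hy.dm_rG (h : D.Hy ν ρ m r c' a Lv) (g : (TG P (KT c' κ)).H) : Dm ρ m 0 (rG c' κ g) :=
  esi_hat fun b a k => g.2.1.2 b a fun e => k ((h.hc b a).1 e).2

theorem esi_mul {s : Set ℤ} {g h M : Mt P} (hs : ∀ k ∈ s, ∀ j, m ∣ j → k + j ∈ s)
    (hg : Dm ρ m 0 g) (hh : Dm ρ m 0 h) (hM : ∀ b a, ρ b - ρ a ∉ s → M b a = 0) (b a : Option P)
    (k : ρ b - ρ a ∉ s) : (g * M * h) b a = 0 := by
  simp only [Matrix.mul_apply, Finset.sum_mul]
  refine Finset.sum_eq_zero fun c _ => Finset.sum_eq_zero fun e _ => ?_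
  by_contra n
  have k1 : m ∣ ρ b - ρ e - 0 :=
    not_not.1 (mt (hg b e) (left_ne_zero_of_mul (left_ne_zero_of_mul n)))
  have k2 : ρ e - ρ c ∈ s :=
    not_not.1 (mt (hM e c) (right_ne_zero_of_mul (left_ne_zero_of_mul n)))
  have k3 : m ∣ ρ c - ρ a - 0 := not_not.1 (mt (hh c a) (right_ne_zero_of_mul n))
  have := hs _ k2 _ (dvd_add k1 k3)
  exact k (by convert this using 1; ring)

theorem spl {G : Gp} [G.Nice] {l r : G.H → Mt P} (hl : IsUH D.cl l) (hr : IsUH D.cl r)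
    (dl : ∀ g, Dm ρ m 0 (l g)) (dr : ∀ g, Dm ρ m 0 (r g)) (χ : E → G.H → ℂ) (d : ℤ) :
    (D.bi l r χ).Spl (D.pD ρ m d) := by
  have key : ∀ s : Set ℤ, (∀ k ∈ s, ∀ j, m ∣ j → k + j ∈ s) → ∀ g, ∀ w ∈ D.Ed ρ s, ∀ j,
      D.dgr ρ j ∉ s → (D.bi l r χ).act g w j = 0 := fun s hs g w hw j hj =>
    (congrArg (χ j.1.1 g * ·) (esi_mul hs (dl g) (dr g).adj (mem_Ed_mat.1 hw _) _ _ hj)).trans
      (mul_zero _)
  refine ⟨key (sd m d) fun k hk j hj => ?_, fun g w hw j hj =>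
    key (sd m d)ᶜ (fun k hk j hj q => hk ?_) g w (fun p hp => hw p (not_not.1 hp)) j (not_not.2 hj)⟩
  · have := dvd_add hk hj
    rwa [sub_add_eq_add_sub] at this
  · have := dvd_sub q hj
    rwa [show k + j - d - j = k - d by ring] at this

theorem grd_ph (l : D.JL ρ m → ℂ) : Grd D.cl (D.ph ρ m l) := (grd_lpm _).add (grd_fr 1)

theorem dm_ph (l : D.JL ρ m → ℂ) : Dm ρ m 0 (D.ph ρ m l) := (dm_lpm (exz_mem _)).add (dm_fr 1)

theorem ph_none (l : D.JL ρ m → ℂ) : D.ph ρ m l none none = 1 := by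
  rw [ph, Matrix.add_apply, lpm_none_left, fr_none, zero_add]

theorem grd_et (l : D.JL ρ m → ℂ) : Grd D.cl (D.et ρ m l) := grd_lpm _

theorem dm_et (l : D.JL ρ m → ℂ) : Dm ρ m 2 (D.et ρ m l) := dm_lpm (exz_mem _)

theorem et_none (l : D.JL ρ m → ℂ) : D.et ρ m l none none = 0 := lpm_none_left _ _

theorem sup_cpx (x y : D.dbl.Rep) {φ η : Mt P} (h1 : Grd D.cl φ) (h2 : Grd D.cl η) :
    D.dbl.Sup (D.cpx x y φ η) :=
  (sup_cx0 (sup_mat y) (sup_mat x) Grd.one h1).add (sup_cxs (sup_mat y) (sup_mat x) Grd.one h2)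

theorem dm_cpx {x y : D.dbl.Rep} (hx : x ∈ D.dbl.Ed ρ (sd m 1)) (hy : y ∈ D.dbl.Ed ρ (sd m 1))
    {φ η : Mt P} (h1 : Dm ρ m 0 φ) (h2 : Dm ρ m 2 η) (e : E ⊕ E) : Dm ρ m 1 (D.cpx x y φ η e) := by
  have a := dm_mat hx
  have b := dm_mat hy
  refine Dm.add (((b e).mul h1 rfl).sub ((Dm.one.mul h1 rfl).mul (a e) rfl)) ?_
  rcases e with e | e
  · exact ((Dm.one.adj.mul h2 rfl).mul (a _).adj rfl).sub ((b _).adj.mul h2 rfl)
  · exact ((b _).adj.mul h2 rfl).sub ((Dm.one.adj.mul h2 rfl).mul (a _).adj rfl)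

theorem Hy.memj (h : D.Hy ν ρ m r c' a Lv) :
    ∀ y ∈ (D.esd ν ρ m r c' Lv).D0.lev, (D.esd ν ρ m r c' Lv).rel y = 0 → exz _ y ∈ Lv := by
  intro y hy h0
  have a := dm_mat (exz_mem (D := D.dbl) (ρ := ρ) (s := sd m 1) y)
  have k1 : Dm ρ m 2 (D.mu (exz _ y)) :=
    Dm.sum fun e => ((a _).mul (a _) rfl).sub ((a _).mul (a _) rfl)
  have k2 : Dm ρ m 0 (D.dbl.muR (exz _ y)) :=
    Dm.sum fun e => ((a e).mul (a e).adj rfl).sub ((a e).adj.mul (a e) rfl)
  obtain ⟨b1, b2⟩ := mem_of_rel h.gen (r := r) (h.hr.comp (Option.some_injective _))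
    (mem_tdc.1 hy) (fun z hz => k1 _ _ hz) (fun z hz e => k2 _ _ fun q => hz ⟨q, e⟩) h0
  exact (h.lv _).2 ⟨b1, exz_mem y, b2⟩

/-- the zeros of `Φ` -/
theorem Hy.sol (h : D.Hy ν ρ m r c' a Lv) {l : D.JL ρ m → ℂ} {y : D.JE ρ m → ℂ} {x : D.dbl.Rep}
    (hz : (l, y, x) ∈ (D.esd ν ρ m r c' Lv).Vt ∩
      (D.esd ν ρ m r c' Lv).Zd (D.esd ν ρ m r c' Lv).R0) :
    KU D.cl (D.ph ρ m l) ∧ exz _ y = D.dbl.cnj (D.ph ρ m l) x ∧ l ∘ Sum.inr = 0 ∧
      hat 1 ((D.esd ν ρ m r c' Lv).k l).1.1 = D.ph ρ m l := by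
  have hy := (h.lv _).1 (h.memj y hz.1.1 hz.2.1)
  have hx := (h.lv _).1 hz.1.2
  have h0 := eq_zero_of_rs0 (sup_cpx x (exz _ y) (grd_ph l) (grd_et l))
    (dm_cpx hx.2.1 hy.2.1 (dm_ph l) (dm_et l)) hz.2.2
  obtain ⟨a1, a2⟩ := pair_split hx.1 hy.1 (grd_ph l) (grd_et l) (et_none l) h0
  obtain ⟨b1, b2⟩ := lev_hom hx.1.2 hy.1.2 hx.2.2 hy.2.2 a1 (by rw [ph_none, norm_one])
  have e : hat 1 (unhat (D.ph ρ m l)) = D.ph ρ m l := by
    have := hat_unhat (grd_ph l)
    rwa [ph_none] at this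
  have k : KU c' (unhat (D.ph ρ m l)) := by
    refine ⟨fun b a n => ?_, (ku_hat.1 (e.symm ▸ b1)).uni⟩
    by_cases q : D.col b = D.col a
    · exact dm_ph l _ _ fun q' => n ((h.hc b a).2 ⟨q, by simpa [sd] using q'⟩)
    · exact grd_ph l _ _ fun q' => q (Option.some.inj q')
  obtain ⟨u, hu⟩ := k.exists_Ub
  exact ⟨b1, b2, (rs0_exz _).symm.trans (congrArg (rs0 _) (lpm_eq_zero a2)),
    Classical.epsilon_spec (p := fun u : Ub c' => hat 1 u.1.1 = D.ph ρ m l) ⟨u, hu ▸ e⟩⟩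

end Qv

end Pool.Agent.Work.MP_849ab0_ag.G
end
end

-- merged part: Pool.Agent.Work.MP_849ab0_ag.G.H2.EsI1
section
/-!
Continuity and equivariance of the data.

Hints.  `repL`, `repE`: `Act.Spl.rep` with `spl`, `rep_bi`, instance for `Act.sum`.  `eqvj`: `exz_act`,
`aN_act`, `h.act` (both sides are the same expression).  `ph_act`, `et_act`: `Spl.exz_act`, `lpm_bi`,
`fr_conj`; `chr 0 = 1`.  `eqvPhi`: `Spl.rs0_act`; the matrices of `exz y` become `χ e • l * A e * lᴴ`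
(`exz_act`, `mat_aN`), those of `x` become `χ e • r * B e * rᴴ` (`h.act`, `mat_sc`, `mat_cj_ku`);
`lᴴ * l = 1`, `rᴴ * r = 1`, `chr D.h * star (chr (t (inr e))) = chr (t (inl e))`; `mat_ext`, `mat_bi`,
`mat_unmat` with `sup_cpx`.  `contk`: on the set `(k l).1.1 = unhat (ph l)` by `Hy.sol`; the topology
of `Ub c'` is induced (`Topology.IsInducing.subtypeVal.continuousOn_iff` twice).  `eqvk`: by `Hy.sol`
at `z`, `ph_act`, `hat_mulH` the right side `u` has `hat 1 u = ph (g • l)`; `Classical.epsilon_spec`,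
`unhat_hat`.  `wL`: `bi_diag_one` after rewriting `lG`, `rG`.
-/

noncomputable section

set_option linter.unusedSectionVars false
set_option linter.unusedVariables false

namespace Pool.Agent.Work.MP_849ab0_ag.G

open Set Topology Matrix

namespace Qv

variable {I P E κ C : Type} [Fintype I] [DecidableEq I] [Fintype P] [DecidableEq P] [Fintype E]
  [Fintype κ] [DecidableEq κ] {D : Qv I P E κ} {ν : I → ℤ} {ρ : Option P → ℤ} {m : ℤ}
  {r : Option P → ℤ} {c' : P → C} {a : Act (KT c' κ) D.dbl.Rep} [a.Ok] {Lv : Set D.dbl.Rep}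

theorem esi1_ch (w : κ → ℤ) : IsChar (G := TG P (KT c' κ)) fun g => chr w g.2.2 :=
  ((isChar_chr w).comp (G' := KT c' κ) Prod.snd).comp (G' := TG P (KT c' κ)) Prod.snd

theorem Hy.esi1_repL (h : D.Hy ν ρ m r c' a Lv) (w : κ → ℤ) : (D.bL c' w).Rep :=
  rep_bi (D := D.lp) (isUH_lG (D := D)) h.isUH_rG fun _ => esi1_ch w

theorem Hy.esi1_repE (h : D.Hy ν ρ m r c' a Lv) : (D.bE c').Rep :=
  rep_bi (D := D.dbl) (isUH_lG (D := D)) h.isUH_rG fun _ => esi1_ch _

theorem Hy.esi1_splL (h : D.Hy ν ρ m r c' a Lv) (w : κ → ℤ) (d : ℤ) :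
    (D.bL c' w).Spl (D.lp.pD ρ m d) :=
  spl (D := D.lp) (isUH_lG (D := D)) h.isUH_rG dm_lG h.dm_rG _ d

theorem Hy.esi1_splE (h : D.Hy ν ρ m r c' a Lv) (d : ℤ) : (D.bE c').Spl (D.dbl.pD ρ m d) :=
  spl (D := D.dbl) (isUH_lG (D := D)) h.isUH_rG dm_lG h.dm_rG _ d

theorem esi1_star (w w' : κ → ℤ) (g : κ → Circle) :
    chr (w + w') g * star (chr w g) = chr w' g := by
  have h1 : chr w g * star (chr w g) = 1 := by
    rw [Complex.star_def, Complex.mul_conj', (isChar_chr w).norm g]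
    simp
  rw [chr_add, mul_right_comm, h1, one_mul]

theorem esi1_alg {l r : Mt P} (hl : lᴴ * l = 1) (hr : rᴴ * r = 1) {χ : E ⊕ E → ℂ} {c : ℂ}
    (h1 : ∀ e, c * star (χ (.inr e)) = χ (.inl e)) (h2 : ∀ e, c * star (χ (.inl e)) = χ (.inr e))
    {A B A' B' : E ⊕ E → Mt P} (hA : ∀ e, A' e = χ e • (l * A e * lᴴ))
    (hB : ∀ e, B' e = χ e • (r * B e * rᴴ)) (φ η : Mt P) (e : E ⊕ E) :
    cx0 A' 1 B' (l * φ * rᴴ) e + cxs A' 1 B' (c • (l * η * rᴴ)) e =
      χ e • (l * (cx0 A 1 B φ e + cxs A 1 B η e) * rᴴ) := by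
  have kl : ∀ x : Mt P, lᴴ * (l * x) = x := fun x => by rw [← Matrix.mul_assoc, hl, Matrix.one_mul]
  have kr : ∀ x : Mt P, rᴴ * (r * x) = x := fun x => by rw [← Matrix.mul_assoc, hr, Matrix.one_mul]
  rcases e with e | e
  · simp only [cx0, cxs, Sum.elim_inl, hA, hB, conjTranspose_one, Matrix.one_mul,
      conjTranspose_smul, conjTranspose_mul, conjTranspose_conjTranspose, Matrix.smul_mul,
      Matrix.mul_smul, Matrix.mul_assoc, kl, kr, smul_smul, Matrix.mul_add, Matrix.add_mul,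
      Matrix.mul_sub, Matrix.sub_mul, smul_add, smul_sub, h1, mul_comm _ c]
  · simp only [cx0, cxs, Sum.elim_inr, hA, hB, conjTranspose_one, Matrix.one_mul,
      conjTranspose_smul, conjTranspose_mul, conjTranspose_conjTranspose, Matrix.smul_mul,
      Matrix.mul_smul, Matrix.mul_assoc, kl, kr, smul_smul, Matrix.mul_add, Matrix.add_mul,
      Matrix.mul_sub, Matrix.sub_mul, smul_add, smul_sub, h2, mul_comm _ c]

theorem esi1_em (o : Option P) (g : P → Circle) :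
    chr (em none o) g = ((o.elim 1 g : Circle) : ℂ) := by
  rcases o with _ | b
  · simp [chr, em]
  · rw [Option.elim_some, ← chr_single b]
    congr 1
    ext a
    simp [em, Pi.single_apply, eq_comm]

theorem esi1_w (w : κ → ℤ) (g : P → Circle) (y : D.lp.Rep) (p : D.lp.Wt) :
    (D.bL c' w).act (g, 1) y p = chr (em none p.1.2.2) g * y p := by
  have h1 : lG c' κ (g, 1) = diagonal fun o : Option P => ((o.elim 1 g : Circle) : ℂ) := by
    ext (_ | a) (_ | b) <;> simp [lG, hat, diagonal_apply]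
  have h2 : rG c' κ (g, 1) = 1 := hat_oneH
  have h3 : chr w (1 : κ → Circle) = 1 := by simp [chr]
  change chr w (1 : κ → Circle) *
    (lG c' κ (g, 1) * D.lp.mat y p.1.1 * (rG c' κ (g, 1))ᴴ) p.1.2.2 p.1.2.1 = _
  rw [h1, h2, h3, conjTranspose_one, Matrix.mul_one, diagonal_mul, mat_app, one_mul, esi1_em]

theorem Hy.repL (h : D.Hy ν ρ m r c' a Lv) : (D.esd ν ρ m r c' Lv).L.Rep := by
  have := h.esi1_repL 0
  have := h.esi1_repL D.h
  have := (h.esi1_splL 0 0).rep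
  have := (h.esi1_splL D.h 2).rep
  exact inferInstanceAs (((D.bL c' 0).cs (D.lp.pD ρ m 0)).sum
    ((D.bL c' D.h).cs (D.lp.pD ρ m 2))).Rep

theorem Hy.repE (h : D.Hy ν ρ m r c' a Lv) : (D.esd ν ρ m r c' Lv).E.Rep :=
  have := h.esi1_repE
  (h.esi1_splE 1).rep

theorem Hy.eqvj (h : D.Hy ν ρ m r c' a Lv) (g : (TG P (Gp.tor κ)).H) (y : D.JE ρ m → ℂ) :
    (D.esd ν ρ m r c' Lv).j ((D.esd ν ρ m r c' Lv).D0.rep.act g y) =
      a.act (inc c' _ g) ((D.esd ν ρ m r c' Lv).j y) :=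
  (exz_act (D := D.dbl) g y).trans ((aN_act _ _).trans (h.act (inc c' _ g) _).symm)

theorem Hy.eqvr (h : D.Hy ν ρ m r c' a Lv) (g : (TG P (Gp.tor κ)).H) (y : D.JE ρ m → ℂ) :
    (D.esd ν ρ m r c' Lv).rel ((D.esd ν ρ m r c' Lv).D0.rep.act g y) =
      (D.esd ν ρ m r c' Lv).σ.act g ((D.esd ν ρ m r c' Lv).rel y) :=
  (congrArg (D.rel2 _ _) (exz_act (D := D.dbl) g y)).trans (rel2_act g _)

theorem cont_ph : Continuous (D.ph ρ m) := by
  have h1 : Continuous fun l : D.JL ρ m → ℂ => l ∘ Sum.inl :=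
    continuous_pi fun _ => continuous_apply _
  exact (cont_lpm.comp (continuous_exz.comp h1)).add continuous_const

theorem cont_et : Continuous (D.et ρ m) := by
  have h1 : Continuous fun l : D.JL ρ m → ℂ => l ∘ Sum.inr :=
    continuous_pi fun _ => continuous_apply _
  exact cont_lpm.comp (continuous_exz.comp h1)

theorem contPhi : Continuous (D.esd ν ρ m r c' Lv).Φ := by
  suffices k : Continuous fun z : (D.JL ρ m → ℂ) × (D.JE ρ m → ℂ) × D.dbl.Rep =>
      D.cpx z.2.2 (exz _ z.2.1) (D.ph ρ m z.1) (D.et ρ m z.1) from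
    continuous_rs0.comp ((continuous_unmat (D := D.dbl)).comp k)
  refine continuous_pi fun e => ?_
  have hA : ∀ e, Continuous fun z : (D.JL ρ m → ℂ) × (D.JE ρ m → ℂ) × D.dbl.Rep =>
      D.dbl.mat (exz _ z.2.1) e := fun e =>
    (cont_mat e).comp (continuous_exz.comp continuous_snd.fst)
  have hB : ∀ e, Continuous fun z : (D.JL ρ m → ℂ) × (D.JE ρ m → ℂ) × D.dbl.Rep =>
      D.dbl.mat z.2.2 e := fun e => (cont_mat e).comp continuous_snd.snd
  have h1 : Continuous fun z : (D.JL ρ m → ℂ) × (D.JE ρ m → ℂ) × D.dbl.Rep => D.ph ρ m z.1 :=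
    cont_ph.comp continuous_fst
  have h2 : Continuous fun z : (D.JL ρ m → ℂ) × (D.JE ρ m → ℂ) × D.dbl.Rep => D.et ρ m z.1 :=
    cont_et.comp continuous_fst
  refine (((hA e).matrix_mul h1).sub ((continuous_const.matrix_mul h1).matrix_mul (hB e))).add ?_
  rcases e with e | e
  · exact ((continuous_const.matrix_mul h2).matrix_mul (hB _).matrix_conjTranspose).sub
      ((hA _).matrix_conjTranspose.matrix_mul h2)
  · exact ((hA _).matrix_conjTranspose.matrix_mul h2).sub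
      ((continuous_const.matrix_mul h2).matrix_mul (hB _).matrix_conjTranspose)

theorem Hy.ph_act (h : D.Hy ν ρ m r c' a Lv) (g : (TG P (KT c' κ)).H) (l : D.JL ρ m → ℂ) :
    D.ph ρ m ((D.esd ν ρ m r c' Lv).L.act g l) = lG c' κ g * D.ph ρ m l * (rG c' κ g)ᴴ := by
  have := h.esi1_repL 0
  have h1 := (h.esi1_splL 0 0).exz_act g (l ∘ Sum.inl)
  have h2 := fr_conj (D := D) ((isUH_lG (D := D)).ku g).grd (h.isUH_rG.ku g).grd.adj 1
  have h3 : lG c' κ g none none * 1 * (rG c' κ g)ᴴ none none = 1 := by simp [lG, rG, hat]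
  change D.lpm (exz _ (((D.bL c' 0).cs _).act g (l ∘ Sum.inl))) + _ = _
  rw [h1, lpm_bi isUH_lG h.isUH_rG, ph, Matrix.mul_add, Matrix.add_mul, h2, h3]
  simp [chr]

theorem Hy.et_act (h : D.Hy ν ρ m r c' a Lv) (g : (TG P (KT c' κ)).H) (l : D.JL ρ m → ℂ) :
    D.et ρ m ((D.esd ν ρ m r c' Lv).L.act g l) =
      chr D.h g.2.2 • (lG c' κ g * D.et ρ m l * (rG c' κ g)ᴴ) := by
  have := h.esi1_repL D.h
  have h1 := (h.esi1_splL D.h 2).exz_act g (l ∘ Sum.inr)
  change D.lpm (exz _ (((D.bL c' D.h).cs _).act g (l ∘ Sum.inr))) = _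
  rw [h1, lpm_bi isUH_lG h.isUH_rG, et]

theorem Hy.eqvPhi (h : D.Hy ν ρ m r c' a Lv) (g : (TG P (KT c' κ)).H)
    (z : (D.JL ρ m → ℂ) × (D.JE ρ m → ℂ) × D.dbl.Rep) :
    (D.esd ν ρ m r c' Lv).Φ (((D.esd ν ρ m r c' Lv).bt a).act g z) =
      (D.esd ν ρ m r c' Lv).E.act g ((D.esd ν ρ m r c' Lv).Φ z) := by
  have := h.esi1_repE
  change rs0 (D.dbl.pD ρ m 1) (D.dbl.unmat (D.cpx (a.act g.2 z.2.2)
    (exz _ ((D.dbl.tdc ν (D.dbl.pD ρ m 1)).rep.act (ESD.om c' κ g) z.2.1))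
    (D.ph ρ m ((D.esd ν ρ m r c' Lv).L.act g z.1))
    (D.et ρ m ((D.esd ν ρ m r c' Lv).L.act g z.1)))) =
    ((D.bE c').cs (D.dbl.pD ρ m 1)).act g (rs0 (D.dbl.pD ρ m 1)
      (D.dbl.unmat (D.cpx z.2.2 (exz _ z.2.1) (D.ph ρ m z.1) (D.et ρ m z.1))))
  rw [← (h.esi1_splE 1).rs0_act]
  refine congrArg _ (mat_ext fun e => ?_)
  rw [mat_bi (D := D.dbl) (isUH_lG (D := D)) h.isUH_rG,
    mat_unmat (sup_cpx _ _ (grd_ph _) (grd_et _)), mat_unmat (sup_cpx _ _ (grd_ph _) (grd_et _))]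
  rw [h.ph_act, h.et_act, exz_act]
  have k1 : ∀ e, chr D.h g.2.2 * star (chr (D.dbl.t (.inr e)) g.2.2) =
      chr (D.dbl.t (.inl e)) g.2.2 := fun e => by
    simpa using esi1_star (D.h - D.t e) (D.t e) g.2.2
  have k2 : ∀ e, chr D.h g.2.2 * star (chr (D.dbl.t (.inl e)) g.2.2) =
      chr (D.dbl.t (.inr e)) g.2.2 := fun e => by
    simpa using esi1_star (D.t e) (D.h - D.t e) g.2.2
  have k3 : ∀ (y : D.dbl.Rep) e, D.dbl.mat (D.dbl.aN.act (inc D.col _ (ESD.om c' κ g)) y) e =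
      chr (D.dbl.t e) g.2.2 • (lG c' κ g * D.dbl.mat y e * (lG c' κ g)ᴴ) := fun y e =>
    mat_aN D.dbl _ y e
  have k4 : ∀ (y : D.dbl.Rep) e, D.dbl.mat (a.act g.2 y) e =
      chr (D.dbl.t e) g.2.2 • (rG c' κ g * D.dbl.mat y e * (rG c' κ g)ᴴ) := fun y e => by
    rw [h.act, mat_sc]
    exact congrArg _ (mat_cj_ku (D := D.dbl) (h.isUH_rG.ku g) _ e)
  exact esi1_alg (χ := fun e => chr (D.dbl.t e) g.2.2) ((isUH_lG (D := D)).ku g).uni
    (h.isUH_rG.ku g).uni k1 k2 (k3 _) (k4 _) _ _ e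

theorem Hy.contk (h : D.Hy ν ρ m r c' a Lv) :
    ContinuousOn (fun z : (D.JL ρ m → ℂ) × (D.JE ρ m → ℂ) × D.dbl.Rep => (D.esd ν ρ m r c' Lv).k z.1)
      ((D.esd ν ρ m r c' Lv).Vt ∩ (D.esd ν ρ m r c' Lv).Zd (D.esd ν ρ m r c' Lv).R0) := by
  rw [Topology.IsInducing.subtypeVal.continuousOn_iff,
    Topology.IsInducing.subtypeVal.continuousOn_iff]
  have h1 : Continuous fun z : (D.JL ρ m → ℂ) × (D.JE ρ m → ℂ) × D.dbl.Rep => D.ph ρ m z.1 :=
    cont_ph.comp continuous_fst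
  refine (h1.matrix_submatrix some some).continuousOn.congr fun z hz => ?_
  have h2 := congrArg unhat (h.sol hz).2.2.2
  rw [unhat_hat] at h2
  exact h2

theorem Hy.eqvk (h : D.Hy ν ρ m r c' a Lv) (g : (TG P (KT c' κ)).H) :
    ∀ z ∈ (D.esd ν ρ m r c' Lv).Vt ∩ (D.esd ν ρ m r c' Lv).Zd (D.esd ν ρ m r c' Lv).R0,
      (D.esd ν ρ m r c' Lv).k ((D.esd ν ρ m r c' Lv).L.act g z.1) =
        diagU c' g.1 * (D.esd ν ρ m r c' Lv).k z.1 * g.2.1⁻¹ := by
  intro z hz
  have h1 : hat 1 (diagU c' g.1 * (D.esd ν ρ m r c' Lv).k z.1 * g.2.1⁻¹).1.1 =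
      D.ph ρ m ((D.esd ν ρ m r c' Lv).L.act g z.1) := by
    rw [h.ph_act, ← (h.sol hz).2.2.2, lG, rG, hat_adj, hat_mulH, hat_mulH, star_one, one_mul,
      one_mul]
    rfl
  have h2 := Classical.epsilon_spec (p := fun u : Ub c' =>
    hat 1 u.1.1 = D.ph ρ m ((D.esd ν ρ m r c' Lv).L.act g z.1)) ⟨_, h1⟩
  have h3 := congrArg unhat (h2.trans h1.symm)
  rw [unhat_hat, unhat_hat] at h3
  exact Subtype.ext (Subtype.ext h3)

theorem wL (g : P → Circle) (l : D.JL ρ m → ℂ) (q : D.JL ρ m) :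
    (D.esd ν ρ m r c' Lv).L.act (g, 1) l q = chr ((D.esd ν ρ m r c' Lv).mL q) g * l q := by
  rcases q with q | q
  · exact (esi1_w 0 g _ q.1).trans (congrArg _ (exz_pos _ q))
  · exact (esi1_w D.h g _ q.1).trans (congrArg _ (exz_pos _ q))

end Qv

end Pool.Agent.Work.MP_849ab0_ag.G
end
end

-- merged part: Pool.Agent.Work.MP_849ab0_ag.G.H2.EsI2
section
/-!
The equation `Φ = 0` is affine in `l` with injective linear part; bounds and dimensions.

Hints.  `aff`: `M l = rs0 (unmat (cpx x (exz y) (lpm (exz (l ∘ inl))) (et l)))`,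
`r = rs0 (unmat (cpx x (exz y) (fr 1) 0))`; `cx0`, `cxs` are linear in the last argument; injective by
`eq_zero_of_rs0`, `pair_inj`, `lpm_eq_zero`, `rs0_exz`; `Hy.memj` gives `exz y ∈ Lv`.
`zero`: `Hy.sol`, `h.act`, `chr _ 1 = 1`.  `bdd`: `R x = card (Option P) + nsq x`; `nsq l` is the sum
over `inl` and `inr`; `nsq (l ∘ inl) = nsq (exz _)` is bounded by `fsq (ph l) = card` (every coordinate
is an entry of `ph l`: `lpm_app`, the map `p ↦ (p.1.2.2, p.1.2.1)` is injective on `D.lp.Wt`;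
`KU.fsq_mul`), `nsq_cj`, `nsq_sc`, `nsq_exz`.  `dim`: the coordinates of degree `0` split in
`r tgt < r src`, `r src < r tgt` (in bijection by transposition) and the diagonal (`≃ P`).
-/

noncomputable section

set_option linter.unusedSectionVars false
set_option linter.unusedVariables false

namespace Pool.Agent.Work.MP_849ab0_ag.G

open Set Topology Matrix

namespace Qv

variable {I P E κ C : Type} [Fintype I] [DecidableEq I] [Fintype P] [DecidableEq P] [Fintype E]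
  [Fintype κ] [DecidableEq κ] {D : Qv I P E κ} {ν : I → ℤ} {ρ : Option P → ℤ} {m : ℤ}
  {r : Option P → ℤ} {c' : P → C} {a : Act (KT c' κ) D.dbl.Rep} [a.Ok] {Lv : Set D.dbl.Rep}

theorem esi2_add (x y : D.dbl.Rep) (φ φ' η η' : Mt P) :
    D.cpx x y (φ + φ') (η + η') = D.cpx x y φ η + D.cpx x y φ' η' := by
  funext e
  cases e <;> simp only [cpx, cx0, cxs, Pi.add_apply, Sum.elim_inl, Sum.elim_inr, mul_add,
    add_mul] <;> abel

theorem esi2_smul (x y : D.dbl.Rep) (z : ℂ) (φ η : Mt P) :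
    D.cpx x y (z • φ) (z • η) = z • D.cpx x y φ η := by
  funext e
  cases e <;> simp only [cpx, cx0, cxs, Pi.smul_apply, Sum.elim_inl, Sum.elim_inr, smul_add,
    smul_sub, Matrix.mul_smul, Matrix.smul_mul]

theorem esi2_zero {J : Type} {p : J → Prop} {w : Cs p → ℂ} (h : exz p w = 0) : w = 0 :=
  (rs0_exz w).symm.trans (congrArg (rs0 p) h)

theorem esi2_some (z : D.lp.Wt) : ∃ a b, z.1.2.1 = some a ∧ z.1.2.2 = some b ∧ z.1.1 = D.col a :=
  let ⟨a, h1, h2⟩ := Option.map_eq_some_iff.1 z.2.1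
  let ⟨b, h3, _⟩ := Option.map_eq_some_iff.1 z.2.2
  ⟨a, b, h1, h3, h2.symm⟩

theorem esi2_nsq (φ : D.lp.Rep) : nsq φ ≤ fsq (D.lpm φ + D.fr 1) := by
  have inj : Function.Injective fun z : D.lp.Wt => (z.1.2.2, z.1.2.1) := fun z z' e =>
    Subtype.ext (Prod.ext (Option.some.inj (z.2.1.symm.trans
      ((congrArg (fun q => q.2.map D.col) e).trans z'.2.1)))
      (Prod.ext (congrArg Prod.snd e) (congrArg Prod.fst e)))
  rw [fsq, ← Fintype.sum_prod_type']
  refine le_trans (le_of_eq ?_) (Finset.sum_le_univ_sum_of_nonneg (s := Finset.univ.map ⟨_, inj⟩)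
    fun _ => by positivity)
  rw [Finset.sum_map]
  refine Finset.sum_congr rfl fun z _ => ?_
  obtain ⟨a, b, h1, h2, -⟩ := esi2_some z
  have k : D.fr 1 z.1.2.2 z.1.2.1 = 0 := by rw [h1, h2]; rfl
  change _ = ‖D.lpm φ z.1.2.2 z.1.2.1 + D.fr 1 z.1.2.2 z.1.2.1‖ ^ 2
  rw [k, add_zero, lpm_app]

theorem Hy.aff (h : D.Hy ν ρ m r c' a Lv) :
    ∀ y ∈ (D.esd ν ρ m r c' Lv).D0.lev, (D.esd ν ρ m r c' Lv).rel y = 0 → ∀ x ∈ Lv,
      ∃ (M : (D.JL ρ m → ℂ) →ₗ[ℂ] D.JE ρ m → ℂ) (v : D.JE ρ m → ℂ),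
        Function.Injective M ∧ ∀ l, (D.esd ν ρ m r c' Lv).Φ (l, y, x) = M l + v := by
  intro y hy hr x hx
  obtain ⟨x1, x2, -⟩ := (h.lv x).1 hx
  obtain ⟨y1, y2, -⟩ := (h.lv _).1 (h.memj y hy hr)
  refine ⟨⟨⟨fun l => rs0 _ (D.dbl.unmat (D.cpx x (exz _ y) (D.lpm (exz _ (l ∘ Sum.inl)))
    (D.et ρ m l))), fun l l' => ?_⟩, fun z l => ?_⟩,
    rs0 _ (D.dbl.unmat (D.cpx x (exz _ y) (D.fr 1) 0)),
    (injective_iff_map_eq_zero _).2 fun l hl => ?_, fun l => ?_⟩
  · rw [et, show (l + l') ∘ Sum.inl = l ∘ Sum.inl + l' ∘ Sum.inl from rfl,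
      show (l + l') ∘ Sum.inr = l ∘ Sum.inr + l' ∘ Sum.inr from rfl, exz_add, exz_add, lpm_add,
      lpm_add, esi2_add]
    rfl
  · dsimp only
    rw [et, show (z • l) ∘ Sum.inl = z • l ∘ Sum.inl from rfl,
      show (z • l) ∘ Sum.inr = z • l ∘ Sum.inr from rfl, exz_smul, exz_smul, lpm_smul,
      lpm_smul, esi2_smul]
    rfl
  · obtain ⟨k1, k2⟩ := pair_inj x1 y1 (grd_lpm _) (grd_et l) (et_none l) (lpm_none_left _ _)
      (eq_zero_of_rs0 (sup_cpx x _ (grd_lpm _) (grd_et l))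
        (dm_cpx x2 y2 (dm_lpm (exz_mem _)) (dm_et l)) hl)
    funext q
    cases q
    exacts [congrFun (esi2_zero (lpm_eq_zero k1)) _, congrFun (esi2_zero (lpm_eq_zero k2)) _]
  · change rs0 _ (D.dbl.unmat (D.cpx x (exz _ y) (_ + _) (D.et ρ m l))) = _
    rw [← add_zero (D.et ρ m l), esi2_add]
    rfl

theorem Hy.zero (h : D.Hy ν ρ m r c' a Lv) :
    ∀ z ∈ (D.esd ν ρ m r c' Lv).Vt ∩ (D.esd ν ρ m r c' Lv).Zd (D.esd ν ρ m r c' Lv).R0,
      (D.esd ν ρ m r c' Lv).j z.2.1 = a.act ((D.esd ν ρ m r c' Lv).k z.1, 1) z.2.2 := by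
  rintro ⟨l, y, x⟩ hz
  obtain ⟨-, h1, -, h2⟩ := h.sol hz
  rw [h.act]
  change exz _ y = D.dbl.sc (fun e => chr (D.dbl.t e) (1 : κ → Circle))
    (D.dbl.cnj (hat 1 ((D.esd ν ρ m r c' Lv).k l).1.1) x)
  rw [h1, h2]
  funext p
  simp [sc, chr]

theorem Hy.bdd (h : D.Hy ν ρ m r c' a Lv) : ∃ R : D.dbl.Rep → ℝ, ContinuousOn R Lv ∧
    (∀ g, ∀ x ∈ Lv, R (a.act g x) = R x) ∧
    ∀ z ∈ (D.esd ν ρ m r c' Lv).Vt ∩ (D.esd ν ρ m r c' Lv).Zd (D.esd ν ρ m r c' Lv).R0,
      nsq z.1 + nsq z.2.1 ≤ R z.2.2 := by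
  refine ⟨fun x => fsq (1 : Mt P) + nsq x, (continuous_const.add cont_nsq).continuousOn,
    fun g x _ => ?_, ?_⟩
  · dsimp only
    rw [h.act, nsq_sc fun e => (isChar_chr _).norm _, nsq_cj (D := D.dbl) (ku_hat.2
      ⟨(ku_Ub g.1).grd.mono fun a b e => ((h.hc a b).1 e).1, (ku_Ub g.1).uni⟩)]
  rintro ⟨l, y, x⟩ hz
  obtain ⟨h0, h1, h2, -⟩ := h.sol hz
  refine add_le_add ?_ (le_of_eq ?_)
  · have k : nsq l = nsq (l ∘ Sum.inl) + nsq (l ∘ Sum.inr) := nsq_splitT (Equiv.refl _) l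
    rw [k, h2, ← nsq_exz, ← h0.fsq_mul, mul_one]
    simpa [nsq, ph] using esi2_nsq (exz _ (l ∘ Sum.inl))
  · rw [← nsq_exz, h1, nsq_cj (D := D.dbl) h0]

theorem card_pS (hr : Function.Injective r) :
    2 * Fintype.card (Cs (D.pS ρ m r)) + Fintype.card P = Fintype.card (Cs (D.lp.pD ρ m 0)) := by
  classical
  have cd : ∀ p : D.lp.Wt → Prop, Fintype.card (Cs p) = ∑ z, if p z then 1 else 0 := fun p =>
    (@Fintype.card_of_subtype _ p (Finset.univ.filter p) (by simp) (instFintypeCs p)).trans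
      (Finset.card_filter _ _)
  let τ : D.lp.Wt → D.lp.Wt := fun z => ⟨(z.1.1, z.1.2.2, z.1.2.1), z.2.2, z.2.1⟩
  have hτ : Function.Involutive τ := fun _ => rfl
  let δ : P ↪ D.lp.Wt := ⟨fun a => ⟨(D.col a, some a, some a), rfl, rfl⟩, fun a b e =>
    Option.some.inj (congrArg (fun z : D.lp.Wt => z.1.2.1) e)⟩
  have dg : Fintype.card P = ∑ z : D.lp.Wt, if z.1.2.1 = z.1.2.2 then 1 else 0 := by
    rw [← Finset.card_filter, ← Finset.card_univ, ← Finset.card_map δ]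
    refine congrArg _ (Finset.ext fun z => ?_)
    simp only [Finset.mem_map, Finset.mem_univ, true_and, Finset.mem_filter]
    refine ⟨fun ⟨a, e⟩ => e ▸ rfl, fun e => ?_⟩
    obtain ⟨a, b, h1, -, h3⟩ := esi2_some z
    exact ⟨a, Subtype.ext (Prod.ext h3.symm (Prod.ext h1.symm (h1.symm.trans e)))⟩
  rw [two_mul, dg, cd, cd]
  nth_rw 2 [← Equiv.sum_comp (hτ.toPerm τ)]
  rw [← Finset.sum_add_distrib, ← Finset.sum_add_distrib]
  refine Finset.sum_congr rfl fun z _ => ?_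
  have e1 : D.pS ρ m r z ↔ m ∣ ρ z.1.2.2 - ρ z.1.2.1 - 0 ∧ r z.1.2.2 < r z.1.2.1 := Iff.rfl
  have e2 : D.pS ρ m r (hτ.toPerm τ z) ↔
      m ∣ ρ z.1.2.1 - ρ z.1.2.2 - 0 ∧ r z.1.2.1 < r z.1.2.2 := Iff.rfl
  have e3 : D.lp.pD ρ m 0 z ↔ m ∣ ρ z.1.2.2 - ρ z.1.2.1 - 0 := Iff.rfl
  simp only [e1, e2, e3, sub_zero, dvd_sub_comm (a := m) (b := ρ z.1.2.1), ← hr.eq_iff]
  by_cases k : m ∣ ρ z.1.2.2 - ρ z.1.2.1
  · simp only [k, true_and, if_true]
    split_ifs <;> omega
  · simp only [k, false_and, if_false]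
    rw [if_neg fun e => k (by rw [hr e, sub_self]; exact dvd_zero m)]

end Qv

end Pool.Agent.Work.MP_849ab0_ag.G
end
end

-- merged part: Pool.Agent.Work.MP_849ab0_ag.G.H2.EsI3
section
/-!
Transversality at the diagonal.

Hints.  `l1 = Sum.elim (rs0 _ (D.unl 1)) 0` has `ph l1 = 1`, `et l1 = 0` (`lpm_unl`, `exz_rs0`);
`y₀ = rs0 _ x`, `exz y₀ = x`.  `mem`: `mem_tdc`, `rel2_eq_zero`.  `orbit`: `Hy.sol`; the entries
`(b, a)` of `ph l` with `r b < r a` vanish (degree `0`: `si`; other degrees: `dm_ph`; other colours: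
`grd_ph`), so `MFil (-r) (-r) 0 (ph l)` and `KU.grd_of_mfil` show that `ph l` is diagonal, with
entries of norm `1`; `cj_diag`, `exz_act`, `aN_inc`; on `L` use `bi_diag_one`.
`tangent`: put `δφ = lpm (exz (δ ∘ inl))`, `δη = et δ`, `w = exz ε`.  `dmuR x w = 0`
(`dmuR_eq_zero`, `dmuR_diag`, degrees), `dmu x w` vanishes on `V` (degrees).  `eq_zero_of_rs0` gives
`mat w e + cx0 x 1 x δφ e + cxs x 1 x δη e = 0`; `cx1 x 1 x (mat w) = dmu x w`, `cx1_cx0`,
`trace_frame` (with `φ = 1`), `cx_split`; so `w = ad δφ x` and `δη = 0` (`cxs_eq_zero`,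
`Stable.hom_zero`).  `lev_tangent`: `δφᴴ = -δφ`; it is triangular, hence diagonal and imaginary,
`ξ a = (δφ a a).im`.  `deriv_rel`, `deriv_Phi`: `hasFDerivAt_pi`; the entries are polynomials in the
coordinates and their conjugates (`hasFDerivAt_muR`; or write
`f (z₀ + δ) - f z₀ - f' δ = B δ δ` with `B` continuous bilinear).
-/

noncomputable section

set_option linter.unusedSectionVars false
set_option linter.unusedVariables false

namespace Pool.Agent.Work.MP_849ab0_ag.G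

open Set Topology Matrix

namespace Qv

variable {I P E κ C : Type} [Fintype I] [DecidableEq I] [Fintype P] [DecidableEq P] [Fintype E]
  [Fintype κ] [DecidableEq κ] {D : Qv I P E κ} {ν : I → ℤ} {ρ : Option P → ℤ} {m : ℤ}
  {r : Option P → ℤ} {c' : P → C} {a : Act (KT c' κ) D.dbl.Rep} [a.Ok] {Lv : Set D.dbl.Rep}

/-- the identity homomorphism -/
def l1 (D : Qv I P E κ) (ρ : Option P → ℤ) (m : ℤ) : D.JL ρ m → ℂ := Sum.elim (rs0 _ (D.unl 1)) 0

/-- the coordinate of an entry on `V` -/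
def esi3_z {a b : P} (hc : D.col a = D.col b) : D.lp.Wt :=
  ⟨(D.col a, some b, some a), congrArg some hc.symm, rfl⟩

theorem esi3_chr (w : κ → ℤ) : chr w 1 = 1 := by simp [chr]

theorem esi3_fr (s : ℂ) (z : D.lp.Wt) : D.fr s z.1.2.2 z.1.2.1 = 0 := by
  obtain ⟨⟨i, _ | a, _ | b⟩, h1, h2⟩ := z
  · cases h1
  all_goals rfl

theorem esi3_app {p : D.lp.Wt → Prop} (l : Cs p → ℂ) (z : Cs p) :
    D.lpm (exz p l) z.1.1.2.2 z.1.1.2.1 = l z := (lpm_app _ z.1).trans (exz_pos l z)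

theorem esi3_tri {l : D.JL ρ m → ℂ} (h0 : l ∘ (D.esd ν ρ m r c' Lv).si = 0) {b a : Option P}
    (h : r b < r a) : D.lpm (exz _ (l ∘ Sum.inl)) b a = 0 := by
  rcases b with _ | b
  · exact lpm_none_left _ _
  rcases a with _ | a
  · exact lpm_none_right _ _
  by_cases hc : D.col b = D.col a
  · refine (lpm_app _ (esi3_z hc)).trans ?_
    by_cases k : D.lp.pD ρ m 0 (esi3_z hc)
    · exact (exz_pos _ ⟨_, k⟩).trans (congrFun h0 ⟨esi3_z hc, k, h⟩)
    · exact exz_neg _ k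
  · exact grd_lpm _ _ _ fun e => hc (Option.some.inj e)

theorem esi3_em (o o' : Option P) (ξ : Option P → ℝ) (h : ξ none = 0) :
    ∑ i, (em o o' i : ℝ) * ξ (some i) = ξ o' - ξ o := by
  have k : ∀ o : Option P, ∑ i, ((if o = some i then 1 else 0 : ℤ) : ℝ) * ξ (some i) = ξ o := by
    rintro (_ | a) <;> simp [h]
  simp only [em, Int.cast_sub, sub_mul, Finset.sum_sub_distrib, k]

theorem ph_l1 : D.ph ρ m (D.l1 ρ m) = 1 := by
  have e : exz (D.lp.pD ρ m 0) (D.l1 ρ m ∘ Sum.inl) = D.unl 1 :=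
    exz_rs0 fun z k => Dm.one (ρ := ρ) (m := m) _ _ k
  have k := lpm_unl (D := D) (m := 1) Grd.one
  rw [one_apply_eq] at k
  rw [ph, e, k]

theorem et_l1 : D.et ρ m (D.l1 ρ m) = 0 := by
  have e : exz (D.lp.pD ρ m 2) (D.l1 ρ m ∘ Sum.inr) = 0 := exz_zero
  rw [et, e, lpm_zero]

theorem l1_si : D.l1 ρ m ∘ (D.esd ν ρ m r c' Lv).si = 0 :=
  funext fun z => one_apply_ne fun e => z.2.2.ne (congrArg r e)

theorem Hy.mem_diag (h : D.Hy ν ρ m r c' a Lv) {x : D.dbl.Rep} (hx : x ∈ Lv) :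
    (D.l1 ρ m, rs0 _ x, x) ∈ (D.esd ν ρ m r c' Lv).Vt ∩
      (D.esd ν ρ m r c' Lv).Zd (D.esd ν ρ m r c' Lv).R0 := by
  obtain ⟨x1, x2, x3⟩ := (h.lv x).1 hx
  have e : exz (D.dbl.pD ρ m 1) (rs0 _ x) = x := exz_rs0 x2
  refine ⟨⟨mem_tdc.2 fun b => ?_, hx⟩, ?_, ?_⟩
  · rw [e, x3]
    simp [dg, th, thZ]
  · change D.rel2 _ _ (exz _ (rs0 _ x)) = 0
    rw [e]
    exact rel2_eq_zero x1 x3 fun z k e => k.2.ne (congrArg r e)
  · change rs0 _ (D.dbl.unmat (D.cpx x (exz _ (rs0 _ x)) (D.ph ρ m (D.l1 ρ m))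
      (D.et ρ m (D.l1 ρ m)))) = 0
    have k : D.cpx x x 1 0 = fun _ => 0 := funext fun e => by
      rcases e with e | e <;> simp [cpx, cx0, cxs]
    rw [e, ph_l1, et_l1, k]
    rfl

theorem Hy.orbit (h : D.Hy ν ρ m r c' a Lv) {x : D.dbl.Rep} (hx : x ∈ Lv) (l : D.JL ρ m → ℂ)
    (y : D.JE ρ m → ℂ) (hz : (l, y, x) ∈ (D.esd ν ρ m r c' Lv).Vt ∩
      (D.esd ν ρ m r c' Lv).Zd (D.esd ν ρ m r c' Lv).R0) (h0 : l ∘ (D.esd ν ρ m r c' Lv).si = 0) :
    ∃ g : P → Circle, l = (D.esd ν ρ m r c' Lv).L.act (g, 1) (D.l1 ρ m) ∧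
      y = (D.esd ν ρ m r c' Lv).D0.rep.act (g, 1) (rs0 _ x) := by
  obtain ⟨-, x2, -⟩ := (h.lv x).1 hx
  obtain ⟨s1, s2, s3, -⟩ := h.sol hz
  have t1 : MFil (-r) (-r) 0 (D.ph ρ m l) := fun b a k => by
    have k' : r b < r a := by
      rw [Pi.neg_apply, Pi.neg_apply] at k
      omega
    rw [ph, Matrix.add_apply, esi3_tri h0 k', zero_add]
    rcases b with _ | b <;> rcases a with _ | a
    · exact absurd k' (lt_irrefl _)
    all_goals rfl
  have t2 : D.ph ρ m l = diagonal fun o => D.ph ρ m l o o := by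
    ext b a
    by_cases e : b = a
    · rw [e, diagonal_apply_eq]
    · rw [diagonal_apply_ne _ e]
      exact s1.grd_of_mfil t1 b a fun k => e (h.hr (neg_injective k))
  have t3 : ∀ o, ‖D.ph ρ m l o o‖ = 1 := fun o => by
    have k := s1.uni
    rw [t2, diagonal_conjTranspose, diagonal_mul_diagonal] at k
    have k' := congrArg norm (congrFun (congrFun k o) o)
    rw [diagonal_apply_eq, one_apply_eq, norm_mul, Pi.star_apply, norm_star, norm_one] at k'
    exact (mul_self_eq_one_iff.1 k').resolve_right fun e => by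
      linarith [norm_nonneg (D.ph ρ m l o o)]
  obtain ⟨g, hg⟩ : ∃ g : P → Circle, ∀ b, (g b : ℂ) = D.ph ρ m l (some b) (some b) :=
    ⟨fun b => ⟨_, mem_sphere_zero_iff_norm.2 (t3 (some b))⟩, fun _ => rfl⟩
  have t4 : hat 1 (diagonal fun b => (g b : ℂ)) = D.ph ρ m l := by
    rw [t2]
    ext (_ | b) (_ | a) <;> simp [hat, diagonal_apply, hg, ph_none]
  refine ⟨g, funext fun q => ?_, ?_⟩
  · rcases q with z | z
    · change _ = (chr 0 1 • (hat 1 (diagonal fun b => (g b : ℂ)) *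
        D.lp.mat (exz _ (D.l1 ρ m ∘ Sum.inl)) z.1.1.1 * (hat 1 (1 : Matrix P P ℂ))ᴴ))
        z.1.1.2.2 z.1.1.2.1
      have k : l (Sum.inl z) = D.ph ρ m l z.1.1.2.2 z.1.1.2.1 := by
        rw [ph, Matrix.add_apply, esi3_fr, add_zero]
        exact (esi3_app (l ∘ Sum.inl) z).symm
      rw [esi3_chr, one_smul, t4, hat_oneH, conjTranspose_one, Matrix.mul_one, k, t2,
        diagonal_mul, mat_app, exz_pos]
      change _ = _ * (1 : Mt P) z.1.1.2.2 z.1.1.2.1
      by_cases e : z.1.1.2.2 = z.1.1.2.1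
      · rw [e, diagonal_apply_eq, one_apply_eq, mul_one]
      · rw [diagonal_apply_ne _ e, one_apply_ne e, mul_zero]
    · change _ = (chr D.h 1 • (hat 1 (diagonal fun b => (g b : ℂ)) *
        D.lp.mat (exz (D.lp.pD ρ m 2) 0) z.1.1.1 * (hat 1 (1 : Matrix P P ℂ))ᴴ))
        z.1.1.2.2 z.1.1.2.1
      rw [exz_zero, mat_zeroH, Matrix.mul_zero, Matrix.zero_mul, smul_zero]
      exact congrFun s3 z
  · have k : exz (D.dbl.pD ρ m 1) ((D.dbl.tdc ν _).rep.act (g, 1) (rs0 _ x)) = exz _ y := by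
      rw [exz_act, exz_rs0 x2, aN_act, s2, ← t4]
      funext p
      exact (congrArg (· * _) (esi3_chr _)).trans (one_mul _)
    rw [← rs0_exz y, ← k, rs0_exz]
    rfl

section
variable {X : Type} [NormedAddCommGroup X] [NormedSpace ℝ X] {f f' g g' : X → Mt P} {x : X}

/-- entrywise derivatives -/
def esi3_HD (f f' : X → Mt P) (x : X) : Prop :=
  ∀ a b, ∃ A : X →L[ℝ] ℂ, HasFDerivAt (fun z => f z a b) A x ∧ ∀ δ, A δ = f' δ a b

theorem esi3_HD.congr (h : esi3_HD f f' x) (e : ∀ δ, g' δ = f' δ) : esi3_HD f g' x :=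
  funext e ▸ h

theorem esi3_HD.add (h : esi3_HD f f' x) (k : esi3_HD g g' x) :
    esi3_HD (fun z => f z + g z) (fun δ => f' δ + g' δ) x := fun a b =>
  let ⟨A, h1, h2⟩ := h a b
  let ⟨B, k1, k2⟩ := k a b
  ⟨A + B, h1.fun_add k1, fun δ => congrArg₂ (· + ·) (h2 δ) (k2 δ)⟩

theorem esi3_HD.sub (h : esi3_HD f f' x) (k : esi3_HD g g' x) :
    esi3_HD (fun z => f z - g z) (fun δ => f' δ - g' δ) x := fun a b =>
  let ⟨A, h1, h2⟩ := h a b
  let ⟨B, k1, k2⟩ := k a b
  ⟨A - B, h1.fun_sub k1, fun δ => congrArg₂ (· - ·) (h2 δ) (k2 δ)⟩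

theorem esi3_HD.sum {ι : Type} [Fintype ι] {f f' : ι → X → Mt P}
    (h : ∀ i, esi3_HD (f i) (f' i) x) : esi3_HD (fun z => ∑ i, f i z) (fun δ => ∑ i, f' i δ) x := by
  intro a b
  choose A h1 h2 using fun i => h i a b
  refine ⟨∑ i, A i, ?_, fun δ => ?_⟩
  · simp only [Matrix.sum_apply]
    exact HasFDerivAt.fun_sum fun i _ => h1 i
  · simp only [Matrix.sum_apply, ContinuousLinearMap.sum_apply, h2]

theorem esi3_HD.mul (h : esi3_HD f f' x) (k : esi3_HD g g' x) :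
    esi3_HD (fun z => f z * g z) (fun δ => f' δ * g x + f x * g' δ) x := by
  intro a b
  choose A h1 h2 using h a
  choose B k1 k2 using fun j => k j b
  refine ⟨_, HasFDerivAt.fun_sum (u := Finset.univ) fun j _ => (h1 j).fun_mul (k1 j), fun δ => ?_⟩
  simp only [Matrix.add_apply, Matrix.mul_apply, ContinuousLinearMap.sum_apply,
    ContinuousLinearMap.add_apply, ContinuousLinearMap.smul_apply, h2, k2, smul_eq_mul,
    ← Finset.sum_add_distrib]
  exact Finset.sum_congr rfl fun j _ => by ring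

theorem esi3_HD.adj (h : esi3_HD f f' x) : esi3_HD (fun z => (f z)ᴴ) (fun δ => (f' δ)ᴴ) x :=
  fun a b =>
  let ⟨_, h1, h2⟩ := h b a
  ⟨_, h1.star, fun δ => congrArg star (h2 δ)⟩

theorem esi3_const (c : Mt P) (x : X) : esi3_HD (fun _ => c) (fun _ => 0) x := fun a b =>
  ⟨0, hasFDerivAt_const _ _, fun _ => rfl⟩

theorem esi3_lin [FiniteDimensional ℝ X] (h1 : ∀ u v, f (u + v) = f u + f v)
    (h2 : ∀ (c : ℝ) u, f (c • u) = (c : ℂ) • f u) (x : X) : esi3_HD f f x := fun a b =>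
  let A : X →L[ℝ] ℂ := LinearMap.toContinuousLinearMap
    { toFun := fun z => f z a b
      map_add' := fun u v => congrFun (congrFun (h1 u v) a) b
      map_smul' := fun c u => congrFun (congrFun (h2 c u) a) b }
  ⟨A, A.hasFDerivAt, fun _ => rfl⟩

theorem esi3_cx {A A' : X → E ⊕ E → Mt P} (hA : ∀ e, esi3_HD (fun z => A z e) (fun z => A' z e) x)
    (hf : esi3_HD f f' x) (hg : esi3_HD g g' x) (h1 : f x = 1) (h2 : g x = 0) (B : E ⊕ E → Mt P)
    (e : E ⊕ E) : esi3_HD (fun z => cx0 (A z) 1 B (f z) e + cxs (A z) 1 B (g z) e)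
      (fun δ => A' δ e + (cx0 (A x) 1 B (f' δ) e + cxs (A x) 1 B (g' δ) e)) x := by
  have k0 := ((hA e).mul hf).sub (((esi3_const 1 x).mul hf).mul (esi3_const (B e) x))
  rcases e with e | e
  · refine (k0.add ((((esi3_const 1ᴴ x).mul hg).mul (esi3_const (B (.inr e))ᴴ x)).sub
      ((hA (.inr e)).adj.mul hg))).congr fun z => ?_
    simp only [cx0, cxs, Sum.elim_inl, h1, h2, Matrix.mul_one, Matrix.mul_zero,
      Matrix.zero_mul, add_zero, zero_add]
    abel
  · refine (k0.add (((hA (.inl e)).adj.mul hg).sub (((esi3_const 1ᴴ x).mul hg).mul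
      (esi3_const (B (.inl e))ᴴ x)))).congr fun z => ?_
    simp only [cx0, cxs, Sum.elim_inr, h1, h2, Matrix.mul_one, Matrix.mul_zero,
      Matrix.zero_mul, add_zero, zero_add]
    abel

theorem esi3_pi {J : Type} [Fintype J] {F F' : X → J → ℂ}
    (h : ∀ j, ∃ A : X →L[ℝ] ℂ, HasFDerivAt (fun z => F z j) A x ∧ ∀ δ, A δ = F' δ j) :
    ∃ A : X →L[ℝ] J → ℂ, HasFDerivAt F A x ∧ ∀ δ, A δ = F' δ := by
  choose A h1 h2 using h
  exact ⟨.pi A, hasFDerivAt_pi.2 h1, fun δ => funext fun j => h2 j δ⟩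

theorem esi3_un {ψ ψ' : X → E → Mt P} (p : D.Wt → Prop)
    (h : ∀ e, esi3_HD (fun z => ψ z e) (fun z => ψ' z e) x) :
    ∃ A : X →L[ℝ] Cs p → ℂ, HasFDerivAt (fun z => rs0 p (D.unmat (ψ z))) A x ∧
      ∀ δ, A δ = rs0 p (D.unmat (ψ' δ)) :=
  esi3_pi fun j => h j.1.1.1 j.1.1.2.2 j.1.1.2.1

end

theorem deriv_rel {p q : D.lp.Wt → Prop} {pE : D.dbl.Wt → Prop} (y : Cs pE → ℂ) :
    ∃ r' : (Cs pE → ℂ) →L[ℝ] Cs p ⊕ Cs q → ℂ,
      HasFDerivAt (fun y => D.rel2 p q (exz pE y)) r' y ∧ ∀ ε, r' ε =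
        Sum.elim (rs0 p (D.unl (D.dmu (exz pE y) (exz pE ε))))
          (rs0 q (D.unl (D.dbl.dmuR (exz pE y) (exz pE ε)))) := by
  have hM : ∀ e, esi3_HD (fun z => D.dbl.mat (exz pE z) e) (fun z => D.dbl.mat (exz pE z) e) y :=
    fun e => esi3_lin (fun u v => by rw [exz_add, mat_addH])
      (fun c u => by rw [← mat_smulH, ← exz_smul]; rfl) y
  have h1 : esi3_HD (fun z => D.mu (exz pE z)) (fun ε => D.dmu (exz pE y) (exz pE ε)) y :=
    (esi3_HD.sum fun e => ((hM (.inl e)).mul (hM (.inr e))).sub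
      ((hM (.inr e)).mul (hM (.inl e)))).congr fun ε =>
        Finset.sum_congr rfl fun e _ => sub_sub _ _ _
  have h2 : esi3_HD (fun z => D.dbl.muR (exz pE z))
      (fun ε => D.dbl.dmuR (exz pE y) (exz pE ε)) y :=
    (esi3_HD.sum fun e => ((hM e).mul (hM e).adj).sub ((hM e).adj.mul (hM e))).congr fun ε =>
      Finset.sum_congr rfl fun e _ => sub_sub _ _ _
  refine esi3_pi fun j => ?_
  rcases j with z | z
  exacts [h1 _ _, h2 _ _]

theorem deriv_Phi (y : D.JE ρ m → ℂ) (x : D.dbl.Rep) :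
    ∃ Φ' : ((D.JL ρ m → ℂ) × (D.JE ρ m → ℂ)) →L[ℝ] D.JE ρ m → ℂ,
      HasFDerivAt (fun z => (D.esd ν ρ m r c' Lv).Φ (z.1, z.2, x)) Φ' (D.l1 ρ m, y) ∧ ∀ δ ε,
        Φ' (δ, ε) = rs0 _ (D.dbl.unmat fun e => D.dbl.mat (exz _ ε) e +
          D.cpx x (exz _ y) (D.lpm (exz _ (δ ∘ Sum.inl))) (D.et ρ m δ) e) := by
  have hM : ∀ e, esi3_HD (X := (D.JL ρ m → ℂ) × (D.JE ρ m → ℂ))
      (fun z => D.dbl.mat (exz _ z.2) e) (fun z => D.dbl.mat (exz _ z.2) e) (D.l1 ρ m, y) :=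
    fun e => esi3_lin (fun u v => by rw [Prod.snd_add, exz_add, mat_addH])
      (fun c u => by rw [← mat_smulH, ← exz_smul]; rfl) _
  have h1 : esi3_HD (X := (D.JL ρ m → ℂ) × (D.JE ρ m → ℂ)) (fun z => D.ph ρ m z.1)
      (fun z => D.lpm (exz _ (z.1 ∘ Sum.inl))) (D.l1 ρ m, y) :=
    ((esi3_lin (f := fun z : (D.JL ρ m → ℂ) × (D.JE ρ m → ℂ) => D.lpm (exz _ (z.1 ∘ Sum.inl)))
      (fun u v => by rw [← lpm_add, ← exz_add]; rfl)
      (fun c u => by rw [← lpm_smul, ← exz_smul]; rfl) _).add (esi3_const (D.fr 1) _)).congr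
      fun _ => (add_zero _).symm
  have h2 : esi3_HD (X := (D.JL ρ m → ℂ) × (D.JE ρ m → ℂ)) (fun z => D.et ρ m z.1)
      (fun z => D.et ρ m z.1) (D.l1 ρ m, y) :=
    esi3_lin (fun u v => by rw [et, et, et, ← lpm_add, ← exz_add]; rfl)
      (fun c u => by rw [et, et, ← lpm_smul, ← exz_smul]; rfl) _
  obtain ⟨A, a1, a2⟩ := esi3_un (D := D.dbl) (D.dbl.pD ρ m 1)
    (ψ := fun z : (D.JL ρ m → ℂ) × (D.JE ρ m → ℂ) =>
      D.cpx x (exz _ z.2) (D.ph ρ m z.1) (D.et ρ m z.1))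
    (ψ' := fun z e => D.dbl.mat (exz _ z.2) e +
      D.cpx x (exz _ y) (D.lpm (exz _ (z.1 ∘ Sum.inl))) (D.et ρ m z.1) e)
    (esi3_cx hM h1 h2 ph_l1 et_l1 (D.dbl.mat x))
  exact ⟨A, a1, fun δ ε => a2 (δ, ε)⟩

theorem Hy.tangent (h : D.Hy ν ρ m r c' a Lv) {x : D.dbl.Rep} (hx : x ∈ Lv) {δ : D.JL ρ m → ℂ}
    {ε : D.JE ρ m → ℂ} (h1 : rs0 (D.lp.pD ρ m 2) (D.unl (D.dmu x (exz _ ε))) = 0)
    (h2 : rs0 (D.pS ρ m r) (D.unl (D.dbl.dmuR x (exz _ ε))) = 0)
    (h3 : rs0 (D.dbl.pD ρ m 1) (D.dbl.unmat fun e => D.dbl.mat (exz _ ε) e +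
      D.cpx x x (D.lpm (exz _ (δ ∘ Sum.inl))) (D.et ρ m δ) e) = 0)
    (h4 : δ ∘ (D.esd ν ρ m r c' Lv).si = 0)
    (h5 : ∀ i, ∑ q : D.JE ρ m, D.dbl.wt q.1 i * (starRingEnd ℂ (x q.1) * ε q).re = 0) :
    ∃ ξ : P → ℝ,
      (∀ q, δ q = Complex.I * (∑ i, (D.esd ν ρ m r c' Lv).mL q i * ξ i : ℝ) * D.l1 ρ m q) ∧
        ∀ q, ε q = Complex.I * (∑ i, D.dbl.wt q.1 i * ξ i : ℝ) * x q.1 := by
  obtain ⟨x1, x2, x3⟩ := (h.lv x).1 hx
  obtain ⟨w, hw⟩ : ∃ w, w = exz (D.dbl.pD ρ m 1) ε := ⟨_, rfl⟩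
  obtain ⟨φ, hφ⟩ : ∃ φ, φ = D.lpm (exz (D.lp.pD ρ m 0) (δ ∘ Sum.inl)) := ⟨_, rfl⟩
  rw [← hw] at h1 h2 h3
  rw [← hφ] at h3
  have dx := dm_mat x2
  have dw : ∀ e, Dm ρ m 1 (D.dbl.mat w e) := dm_mat (hw ▸ exz_mem ε)
  have gφ : Grd D.cl φ := hφ ▸ grd_lpm _
  have a1 : D.dbl.dmuR x w = 0 := by
    refine dmuR_eq_zero (r := fun b => r (some b)) (fun b b' e => Option.some.inj (h.hr e))
      (fun b => ?_) fun b b' hc k => ?_
    · rw [dmuR_diag, hw, sum_exz (fun p z => ((if p.1.2.2 = some b then 1 else 0) -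
        if p.1.2.1 = some b then 1 else 0) * (2 * (star (x p) * z).re)) (fun _ => by simp),
        Complex.ofReal_eq_zero]
      refine Eq.trans ?_ (mul_eq_zero_of_right 2 (h5 b))
      rw [Finset.mul_sum]
      refine Finset.sum_congr rfl fun q _ => ?_
      rw [wt, Complex.star_def]
      push_cast
      ring
    · by_cases k' : D.lp.pD ρ m 0 (esi3_z hc)
      · exact congrFun h2 ⟨esi3_z hc, k', k⟩
      · exact Dm.sum (fun e => ((((dw e).mul (dx e).adj (add_neg_cancel 1)).add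
          ((dx e).mul (dw e).adj (add_neg_cancel 1))).sub
          ((dw e).adj.mul (dx e) (neg_add_cancel 1))).sub
          ((dx e).adj.mul (dw e) (neg_add_cancel 1))) _ _ k'
  have a2 : cx1 (D.dbl.mat x) 1 (D.dbl.mat x) (D.dbl.mat w) = D.dmu x w :=
    Finset.sum_congr rfl fun e _ => by
      rw [Matrix.one_mul, Matrix.one_mul]
      abel
  have a3 : ∀ b b', D.dmu x w (some b) (some b') = 0 := fun b b' => by
    by_cases hc : D.col b = D.col b'
    · by_cases k' : D.lp.pD ρ m 2 (esi3_z hc)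
      · exact congrFun h1 ⟨esi3_z hc, k'⟩
      · exact Dm.sum (fun e => ((((dw (.inl e)).mul (dx (.inr e)) one_add_one_eq_two).add
          ((dx (.inl e)).mul (dw (.inr e)) one_add_one_eq_two)).sub
          ((dw (.inr e)).mul (dx (.inl e)) one_add_one_eq_two)).sub
          ((dx (.inr e)).mul (dw (.inl e)) one_add_one_eq_two)) _ _ k'
    · rw [← a2]
      exact grd_cx1 (sup_mat x) (sup_mat x) (sup_mat w) Grd.one _ _
        fun e => hc (Option.some.inj e)
  have a4 := eq_zero_of_rs0 ((sup_mat w).add (sup_cpx x x gφ (grd_et δ)))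
    (fun e => (dw e).add (dm_cpx x2 x2 (hφ ▸ dm_lpm (exz_mem _)) (dm_et δ) e)) h3
  have m1 : cxm (D.dbl.mat x) (D.dbl.mat x) = 0 := mem_M0.1 x1.1
  obtain ⟨a5, a6⟩ := cx_split (A := D.dbl.mat x) (h := 1) (B := D.dbl.mat x) (η := D.et ρ m δ)
    (ψ := fun e => D.dbl.mat w e + cx0 (D.dbl.mat x) 1 (D.dbl.mat x) φ e) (by
      have k : cx1 (D.dbl.mat x) 1 (D.dbl.mat x)
          (fun e => D.dbl.mat w e + cx0 (D.dbl.mat x) 1 (D.dbl.mat x) φ e) =
          cx1 (D.dbl.mat x) 1 (D.dbl.mat x) (D.dbl.mat w) + cx1 (D.dbl.mat x) 1 (D.dbl.mat x)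
            (cx0 (D.dbl.mat x) 1 (D.dbl.mat x) φ) := by
        rw [cx1, cx1, cx1, ← Finset.sum_add_distrib]
        exact Finset.sum_congr rfl fun e _ => by noncomm_ring
      rw [k, cx1_cx0 fun e => by rw [Matrix.mul_one, Matrix.one_mul], m1, a2, Matrix.zero_mul,
        Matrix.mul_zero, sub_zero, add_zero, ← Matrix.mul_one (D.dmu x w)]
      exact trace_frame (grd_et δ) (et_none δ) a3 Grd.one)
    fun e => (add_assoc _ _ _).trans (a4 e)
  have a7 : D.et ρ m δ = 0 := conjTranspose_eq_zero.1 (Stable.hom_zero x1.2 x1.2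
    ⟨(grd_et δ).adj, fun e => by rw [cxs_eq_zero.1 a6 e, Matrix.mul_one]⟩
    (by rw [conjTranspose_apply, et_none, star_zero]))
  have a8 : w = D.dbl.ad φ x := mat_ext fun e => by
    have k := a5 e
    rw [cx0, Matrix.one_mul, add_eq_zero_iff_eq_neg, neg_sub] at k
    rw [mat_ad (D := D.dbl) gφ, k]
  have a9 : φ none none = 0 := hφ ▸ lpm_none_left _ _
  have b1 : φᴴ = -φ := lev_tangent x1.2 x3 gφ (by rw [a9, Complex.zero_re]) (a8 ▸ a1)
  have b2 : ∀ b a, φ b a = -star (φ a b) := fun b a => by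
    rw [← conjTranspose_apply, b1, Matrix.neg_apply, neg_neg]
  have b3 : φ = diagonal fun o => Complex.I * ((φ o o).im : ℝ) := by
    ext b a
    rcases lt_trichotomy (r b) (r a) with k | k | k
    · rw [diagonal_apply_ne _ fun e => k.ne (congrArg r e), hφ, esi3_tri h4 k]
    · rw [h.hr k, diagonal_apply_eq]
      have k' := congrArg Complex.re (b2 a a)
      rw [Complex.neg_re, Complex.star_def, Complex.conj_re] at k'
      refine Complex.ext ?_ (by simp)
      simp only [Complex.mul_re, Complex.I_re, Complex.I_im, Complex.ofReal_im]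
      linarith
    · rw [diagonal_apply_ne _ fun e => k.ne' (congrArg r e), b2, hφ, esi3_tri h4 k, star_zero,
        neg_zero]
  have b4 := fun o o' => esi3_em o o' (fun o => (φ o o).im) (by rw [a9, Complex.zero_im])
  refine ⟨fun b => (φ (some b) (some b)).im, fun q => ?_, fun q => ?_⟩
  · rcases q with z | z
    · change _ = Complex.I * (∑ i, em none z.1.1.2.2 i * (φ (some i) (some i)).im : ℝ) *
        (1 : Mt P) z.1.1.2.2 z.1.1.2.1
      have k : δ (Sum.inl z) = φ z.1.1.2.2 z.1.1.2.1 := hφ ▸ (esi3_app (δ ∘ Sum.inl) z).symm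
      rw [b4, a9, Complex.zero_im, sub_zero, k]
      by_cases e : z.1.1.2.2 = z.1.1.2.1
      · rw [e, one_apply_eq, mul_one]
        exact (congrFun (congrFun b3 _) _).trans (diagonal_apply_eq _ _)
      · rw [one_apply_ne e, mul_zero]
        exact (congrFun (congrFun b3 _) _).trans (diagonal_apply_ne _ e)
    · exact ((esi3_app (δ ∘ Sum.inr) z).symm.trans (congrFun (congrFun a7 _) _)).trans
        (mul_zero _).symm
  · change _ = Complex.I * (∑ i, em q.1.1.2.1 q.1.1.2.2 i * (φ (some i) (some i)).im : ℝ) * x q.1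
    obtain ⟨d, hd⟩ : ∃ d : Option P → ℝ, d = fun o => (φ o o).im := ⟨_, rfl⟩
    have k : (φ * D.dbl.mat x q.1.1.1 - D.dbl.mat x q.1.1.1 * φ) q.1.1.2.2 q.1.1.2.1 = ε q :=
      (congrFun a8 q.1).symm.trans (hw ▸ exz_pos ε q)
    rw [b4, ← k, congrArg₂ (fun u v => u * D.dbl.mat x q.1.1.1 - D.dbl.mat x q.1.1.1 * v) b3 b3,
      Matrix.sub_apply, diagonal_mul, mul_diagonal, mat_app]
    push_cast
    ring

end Qv

end Pool.Agent.Work.MP_849ab0_ag.G
end
end

-- merged part: Pool.Agent.Work.MP_849ab0_ag.G.H2.TorD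
section
/-!
A compactly supported lift of a nonzero scalar.

Hints.  `exists_tau`: for every `S : Finset J` that carries `r : J → ℕ`, `r ≠ 0`, supported in `S`, with
`∑ r q • m q = 0`, choose one, `r S`; `Γ y S = ∏ q, y q ^ r S q` is a section of
`Act.dg fun S g => chr 0 g.1 * chr (∑ q, r S q • t q) g.2`, `W = Γ ⁻¹' {0}`, `τ = eul`,
`s = ∏ S, lf (∑ q, r S q • t q)` (evaluate at `ρ` to see `s ≠ 0`).  If `Γ y = 0`, the relation
`o → o'` (an edge `q` with `y q ≠ 0`) has no cycle (induction on `Relation.TransGen` gives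
`r ≠ 0` supported on the support of `y` with `∑ r q • m q = em o o'`), so the number of predecessors
of `o` is a potential with values in `[0, card]`: `TD.nsq_le_of_pot`.
-/

noncomputable section

set_option linter.unusedSectionVars false
set_option linter.unusedVariables false

namespace Pool.Agent.Work.MP_849ab0_ag.G

open Set Topology Matrix

variable {A J κ : Type} [Fintype A] [DecidableEq A] [Fintype J] [Fintype κ] [DecidableEq κ]
  {m : J → A → ℤ} {t : J → κ → ℤ} {θ : A → ℤ}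

/-- `r` is a nonzero invariant exponent vector supported in `S` -/
def TordR (m : J → A → ℤ) (S : Finset J) (r : J → ℕ) : Prop :=
  r ≠ 0 ∧ (∀ q, q ∉ S → r q = 0) ∧ ∑ q, (r q : ℤ) • m q = 0

theorem tord_em (o o' o'' : Option A) : em o o' + em o' o'' = em o o'' := by
  funext a
  simp only [em, Pi.add_apply]
  ring

theorem tord_path (src tgt : J → Option A) (hm : ∀ q, m q = em (src q) (tgt q)) (y : J → ℂ)
    {o o' : Option A}
    (h : Relation.TransGen (fun a b => ∃ q, y q ≠ 0 ∧ src q = a ∧ tgt q = b) o o') :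
    ∃ r : J → ℕ, r ≠ 0 ∧ (∀ q, y q = 0 → r q = 0) ∧ ∑ q, (r q : ℤ) • m q = em o o' := by
  classical
  have e (q : J) : ∑ p, ((Pi.single q 1 : J → ℕ) p : ℤ) • m p = m q := by
    rw [Finset.sum_eq_single q (fun p _ k => by simp [k]) (by simp)]
    simp
  have e' (q : J) (hq : y q ≠ 0) (p : J) (hp : y p = 0) : (Pi.single q 1 : J → ℕ) p = 0 :=
    Pi.single_eq_of_ne (fun k : p = q => hq (k ▸ hp)) _
  induction h with
  | single h =>
    obtain ⟨q, hq, rfl, rfl⟩ := h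
    exact ⟨Pi.single q 1, fun k => by simpa using congrFun k q, e' q hq, (e q).trans (hm q)⟩
  | tail _ h ih =>
    obtain ⟨q, hq, rfl, rfl⟩ := h
    obtain ⟨r, h1, h2, h3⟩ := ih
    refine ⟨r + Pi.single q 1, fun k => by simpa using congrFun k q, fun p hp => by
      rw [Pi.add_apply, h2 p hp, e' q hq p hp], ?_⟩
    simp only [Pi.add_apply, Nat.cast_add, add_smul, Finset.sum_add_distrib]
    rw [h3, e, hm, tord_em]

theorem tord_bdd (src tgt : J → Option A) (hm : ∀ q, m q = em (src q) (tgt q)) {y : J → ℂ}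
    (hy : y ∈ (tdw m t θ).lev)
    (h : ∀ r : J → ℕ, r ≠ 0 → (∀ q, y q = 0 → r q = 0) → ∑ q, (r q : ℤ) • m q ≠ 0) :
    nsq y ≤ ∑ j, |(θ j : ℝ)| * Fintype.card (Option A) := by
  classical
  let R := Relation.TransGen fun a b => ∃ q, y q ≠ 0 ∧ src q = a ∧ tgt q = b
  let s : Option A → ℕ := fun o => (Finset.univ.filter fun a => R a o).card
  have h1 (o : Option A) : s o ≤ Fintype.card (Option A) := Finset.card_le_univ _
  refine (TD.nsq_le_of_pot src tgt (fun q j => congrFun (hm q) j) hy (fun o => s o)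
    fun q hq => Int.ofNat_lt.2 (Finset.card_lt_card ⟨fun a ha => ?_, fun k => ?_⟩)).trans
      (Finset.sum_le_sum fun j _ => mul_le_mul_of_nonneg_left ?_ (abs_nonneg _))
  · exact Finset.mem_filter.2 ⟨Finset.mem_univ _,
      (Finset.mem_filter.1 ha).2.tail ⟨q, hq, rfl, rfl⟩⟩
  · obtain ⟨r, k1, k2, k3⟩ := tord_path src tgt hm y (Finset.mem_filter.1 (k
      (Finset.mem_filter.2 ⟨Finset.mem_univ (src q), .single ⟨q, hq, rfl, rfl⟩⟩))).2
    exact h r k1 k2 (k3.trans (funext fun _ => sub_self _))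
  · have a1 : (s (some j) : ℝ) ≤ Fintype.card (Option A) := Nat.cast_le.2 (h1 _)
    have a2 : (s none : ℝ) ≤ Fintype.card (Option A) := Nat.cast_le.2 (h1 _)
    have a3 : (0 : ℝ) ≤ s (some j) := Nat.cast_nonneg _
    have a4 : (0 : ℝ) ≤ s none := Nat.cast_nonneg _
    rw [Int.cast_natCast, Int.cast_natCast, abs_le]
    constructor <;> linarith

theorem tord_ne (ρ : κ → ℤ) (hρ : ∀ q, 0 < ∑ j, ρ j * t q j) {r : J → ℕ} (hr : r ≠ 0) :
    lf ℂ (∑ q, (r q : ℤ) • t q) ≠ 0 := fun k => by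
  have h1 := congrArg (MvPolynomial.eval fun j => (ρ j : ℂ)) k
  obtain ⟨q, hq⟩ := Function.ne_iff.1 hr
  have h2 : 0 < ∑ q, (r q : ℤ) * ∑ j, ρ j * t q j :=
    Finset.sum_pos' (fun p _ => mul_nonneg (Int.natCast_nonneg _) (hρ p).le)
      ⟨q, Finset.mem_univ _, mul_pos (Int.natCast_pos.2 (Nat.pos_of_ne_zero hq)) (hρ q)⟩
  have h3 : ∑ q, (r q : ℤ) * ∑ j, ρ j * t q j = ∑ j, (∑ q, (r q : ℤ) • t q) j * ρ j := by
    simp only [Finset.mul_sum, Finset.sum_apply, Finset.sum_mul, Pi.smul_apply, smul_eq_mul]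
    rw [Finset.sum_comm]
    exact Finset.sum_congr rfl fun _ _ => Finset.sum_congr rfl fun _ _ => by ring
  rw [h3] at h2
  simp only [lf, map_sum, map_mul, map_intCast, MvPolynomial.eval_X, map_zero] at h1
  exact h2.ne' (by exact_mod_cast h1)

theorem exists_tau (src tgt : J → Option A) (hm : ∀ q, m q = em (src q) (tgt q)) (ρ : κ → ℤ)
    (hρ : ∀ q, 0 < ∑ j, ρ j * t q j) :
    ∃ (W : Set (J → ℂ)) (τ : EH (tdw m t θ).rep (tdw m t θ).lev W) (s : MvPolynomial κ ℂ), s ≠ 0 ∧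
      (tdw m t θ).rep.Pr (tdw m t θ).lev W ∧ (∃ B : ℝ, ∀ y ∈ (tdw m t θ).lev, y ∈ W → nsq y ≤ B) ∧
      gp (tdw m t θ).rep id id (tdw m t θ).lev univ τ =
        kpt (tdw m t θ).rep (tdw m t θ).lev (gpt Prod.snd (pol κ s)) := by
  classical
  have := tdw_rep (m := m) (t := t) (θ := θ)
  have P := tdw_pr (m := m) (t := t) (θ := θ)
  let r : {S : Finset J // ∃ r, TordR m S r} → J → ℕ := fun S => S.2.choose
  have hr (S) : TordR m S.1 (r S) := S.2.choose_spec
  let c (S : {S : Finset J // ∃ r, TordR m S r}) : κ → ℤ := ∑ q, (r S q : ℤ) • t q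
  let σ := Act.dg (G := TG A (Gp.tor κ)) fun S g => chr (0 : A → ℤ) g.1 * chr (c S) g.2
  have : σ.Rep := Act.rep_dg fun S => isChar_chr2 0 (c S)
  let Γ (y : J → ℂ) (S : {S : Finset J // ∃ r, TordR m S r}) : ℂ := ∏ q, y q ^ r S q
  have hc : Continuous Γ :=
    continuous_pi fun S => continuous_finsetProd _ fun q _ => (continuous_apply q).pow _
  have he (g) (y) : Γ ((tdw m t θ).rep.act g y) = σ.act g (Γ y) := by
    funext S
    change ∏ q, (chr (m q) g.1 * chr (t q) g.2 * y q) ^ r S q =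
      chr 0 g.1 * chr (∑ q, (r S q : ℤ) • t q) g.2 * ∏ q, y q ^ r S q
    rw [← (hr S).2.2, ← TD.tor_chr, ← TD.tor_chr, ← Finset.prod_mul_distrib,
      ← Finset.prod_mul_distrib]
    simp only [mul_pow, zpow_natCast]
  have P' : (tdw m t θ).rep.Pr (tdw m t θ).lev (Γ ⁻¹' {0}) :=
    (Act.Rep.pr σ).preimage' (φ := id) P hc.continuousOn (mapsTo_univ _ _) fun g y _ => he g y
  have h1 : EAdm (tdw m t θ).rep σ Γ (tdw m t θ).lev (Γ ⁻¹' {0}) :=
    ⟨P', Act.Rep.pr σ, hc.continuousOn, fun g y _ => he g y, mapsTo_univ _ _, fun _ _ k => k⟩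
  have h2 : EAdm (tdw m t θ).rep σ Γ (tdw m t θ).lev univ :=
    ⟨P, Act.Rep.pr σ, hc.continuousOn, fun g y _ => he g y, mapsTo_univ _ _, fun _ _ _ => trivial⟩
  refine ⟨Γ ⁻¹' {0}, eul _ σ Γ _ _, ∏ S, lf ℂ (c S),
    Finset.prod_ne_zero_iff.2 fun S _ => tord_ne ρ hρ (hr S).1, P',
    ⟨_, fun y hy hW => tord_bdd src tgt hm hy fun r' k1 k2 k3 => ?_⟩, ?_⟩
  · let S : {S : Finset J // ∃ r, TordR m S r} := ⟨Finset.univ.filter (y · ≠ 0), r', k1,
      fun q hq => k2 q (by simpa using hq), k3⟩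
    obtain ⟨q, -, hq⟩ := Finset.prod_eq_zero_iff.1 (congrFun hW S)
    rw [(hr S).2.1 q (by simpa [S] using eq_zero_of_pow_eq_zero hq), pow_zero] at hq
    exact one_ne_zero hq
  · rw [gp_eul h1 (gadm_id P' P subset_rfl (subset_univ _)) (σ := σ) (fun _ _ => rfl) (F' := Γ)
      (fun _ _ => rfl), eul_univ h2, sm_eone P, euc_dg2 (fun _ => 0) c, ← pol2_C,
      map_prod (MvPolynomial.C (σ := A))]
    simp only [show lf (MvPolynomial κ ℂ) (0 : A → ℤ) = 0 by simp [lf], zero_add]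

end Pool.Agent.Work.MP_849ab0_ag.G
end
end

-- merged part: Pool.Agent.Work.MP_849ab0_ag.G.H2.TorC
section
/-!
The toric integral over a compact toric manifold.

Hints.  `exists_TI`: `ψ f = pol⁻¹ (int (kpt (pol2 f)))` with `TD.int (Act.pt _) rep (fun _ => ()) id id univ
univ`, `V = lev`, `W = univ`, `fib_pt`; linear by `pol2_C`, `kpt_mul`, `int_sm`, `sm_pt`; `deg` by
`isDeg_int`, `IsDeg.eq_zero` (the product is `euc` of `Act.dg` on `Q`, `isDeg_eul`).  Nonvanishing: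
`gp_int` along `φ = fun _ => 1 : Gp.one → tor κ`, `D' = ⟨m, fun _ _ => 1, θ⟩`; the class is the image
of `eul σ (· ∘ inl) lev {y | y ∘ inl = 0}` (`int_gp_id`); `norm_pt` with `i = id`, `O = univ`,
`V₀ = lev`, `z₀ = Sum.elim 0 fun i => sqrt (r i)`.  The vectors `m (inr i)` are a basis of the lattice
(the integer matrices have a two sided inverse, `Matrix.mul_eq_one_comm`).
-/

noncomputable section

set_option linter.unusedSectionVars false
set_option linter.unusedVariables false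

namespace Pool.Agent.Work.MP_849ab0_ag.G

open Set Topology Matrix

variable {A J κ : Type} [Fintype A] [DecidableEq A] [Fintype J] [Fintype κ] [DecidableEq κ]
  {θ : A → ℤ}

theorem torc_adm {K : Type} [Fintype K] {m : K → A → ℤ} {t : K → κ → ℤ} (h : (tdw m t θ).Ok)
    (hb : ∃ B : ℝ, ∀ y ∈ (tdw m t θ).lev, nsq y ≤ B) {W : Set (K → ℂ)}
    (hW : (tdw m t θ).rep.Pr (tdw m t θ).lev W) :
    (tdw m t θ).Adm (Act.pt _) (tdw m t θ).rep (tdw m t θ).rep (fun _ => ()) id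
      (fun z => z ∘ id) univ univ (tdw m t θ).lev W := by
  have := h.rep
  obtain ⟨B, hB⟩ := hb
  exact ⟨h, fib_pt _, Act.pr_pt _, hW, continuousOn_id, fun _ _ _ => rfl, fun _ k _ => k,
    fun _ _ _ _ => trivial, fun _ => B, continuousOn_const, fun _ _ _ => rfl,
    fun z _ k _ => hB z k⟩

theorem torc_inv {M : A → A → ℤ} (hs : ∀ j, ∃ r : A → ℤ, ∑ i, r i • M i = Pi.single j 1) :
    ∃ R : A → A → ℤ, ∀ i, ∑ a, M i a • R a = Pi.single i 1 := by
  choose R hR using hs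
  have e : Matrix.of R * Matrix.of M = 1 := by
    ext j a
    have := congrFun (hR j) a
    simp only [Finset.sum_apply, Pi.smul_apply, smul_eq_mul] at this
    simp only [Matrix.mul_apply, Matrix.of_apply, this, Matrix.one_apply, Pi.single_apply, eq_comm]
  refine ⟨R, fun i => funext fun a => ?_⟩
  have := Matrix.ext_iff.2 (mul_eq_one_comm.1 e) i a
  simp only [Matrix.mul_apply, Matrix.of_apply, Matrix.one_apply] at this
  simp only [Finset.sum_apply, Pi.smul_apply, smul_eq_mul, this, Pi.single_apply, eq_comm]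

theorem torc_real {M R : A → A → ℤ} (h : ∀ i, ∑ a, M i a • R a = Pi.single i 1) (i j : A) :
    ∑ a, (M i a : ℝ) * R a j = if j = i then 1 else 0 := by
  have := congrFun (h i) j
  simp only [Finset.sum_apply, Pi.smul_apply, smul_eq_mul, Pi.single_apply] at this
  exact_mod_cast this

theorem torc_inj {M R : A → A → ℤ} (h : ∀ i, ∑ a, M i a • R a = Pi.single i 1) {x : A → ℝ}
    (hx : ∀ a, ∑ i, (M i a : ℝ) * x i = 0) (j : A) : x j = 0 := by
  have : ∑ a, (∑ i, (M i a : ℝ) * x i) * R a j = x j := by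
    simp only [Finset.sum_mul]
    rw [Finset.sum_comm]
    simp only [mul_right_comm _ (x _), ← Finset.sum_mul, torc_real h]
    simp
  simpa [hx] using this.symm

theorem torc_sur {M R : A → A → ℤ} (h : ∀ i, ∑ a, M i a • R a = Pi.single i 1) (x : A → ℝ) :
    ∃ ξ : A → ℝ, ∀ i, ∑ a, (M i a : ℝ) * ξ a = x i := by
  refine ⟨fun a => ∑ j, R a j * x j, fun i => ?_⟩
  simp only [Finset.mul_sum]
  rw [Finset.sum_comm]
  simp only [← mul_assoc, ← Finset.sum_mul, torc_real h]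
  simp

/-- the case without the second torus -/
theorem torc_norm {m : J ⊕ A → A → ℤ} {t : J ⊕ A → Empty → ℤ} (h : (tdw m t θ).Ok)
    (hb : ∃ B : ℝ, ∀ y ∈ (tdw m t θ).lev, nsq y ≤ B)
    (hs : ∀ j, ∃ r : A → ℤ, ∑ i, r i • m (.inr i) = Pi.single j 1)
    (hf : ∃ r : A → ℤ, (∀ i, 0 < r i) ∧ ∀ a, ∑ i, m (.inr i) a * r i + θ a = 0) :
    (tdw m t θ).int (Act.pt _) (tdw m t θ).rep (fun _ => ()) id (fun z => z ∘ id) univ univ
      (eul (tdw m t θ).rep (tdw (m ∘ Sum.inl) (t ∘ Sum.inl) θ).rep (· ∘ Sum.inl)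
        (tdw m t θ).lev univ) ≠ 0 := by
  have := h.rep
  have := tdw_rep (m := m ∘ Sum.inl) (t := t ∘ Sum.inl) (θ := θ)
  obtain ⟨R, hR⟩ := torc_inv (M := fun i => m (.inr i)) hs
  obtain ⟨r, r0, hr⟩ := hf
  have r1 : ∀ i, (0 : ℝ) < r i := fun i => by exact_mod_cast r0 i
  have r2 : ∀ a, ∑ i, (m (.inr i) a : ℝ) * r i + θ a = 0 := fun a => by exact_mod_cast hr a
  have r3 : ∀ i, (Real.sqrt (r i) : ℂ) ≠ 0 := fun i =>
    Complex.ofReal_ne_zero.2 (Real.sqrt_pos.2 (r1 i)).ne'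
  let L : (J ⊕ A → ℂ) →L[ℝ] J → ℂ :=
    ContinuousLinearMap.pi fun q => ContinuousLinearMap.proj (Sum.inl q)
  have hρ : ∀ g w q, (tdw m t θ).rep.act g w q = chr (m q) g.1 * w q := fun g w q => by
    change chr (m q) g.1 * chr (t q) g.2 * w q = _
    rw [show chr (t q) g.2 = 1 from Finset.prod_of_isEmpty _, mul_one]
  have pW : (tdw m t θ).rep.Pr (tdw m t θ).lev ((· ∘ Sum.inl) ⁻¹' {0}) :=
    (Act.Rep.pr (tdw (m ∘ Sum.inl) (t ∘ Sum.inl) θ).rep).preimage' (φ := id) tdw_pr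
      L.continuous.continuousOn (mapsTo_univ _ _) fun _ _ _ => rfl
  have ad : EAdm (tdw m t θ).rep (tdw (m ∘ Sum.inl) (t ∘ Sum.inl) θ).rep (· ∘ Sum.inl)
      (tdw m t θ).lev ((· ∘ Sum.inl) ⁻¹' {0}) :=
    ⟨pW, Act.Rep.pr _, L.continuous.continuousOn, fun _ _ _ => rfl, mapsTo_univ _ _,
      fun _ _ k => k⟩
  have k := gadm_id pW tdw_pr subset_rfl (subset_univ _)
  rw [← gp_eul ad k (fun _ _ => rfl) (F' := (· ∘ Sum.inl)) (fun _ _ => rfl),
    TD.int_gp_id (torc_adm h hb pW) (torc_adm h hb tdw_pr) k]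
  refine TD.norm_pt (z₀ := Sum.elim 0 fun i => (Real.sqrt (r i) : ℂ)) hρ id (fun _ => rfl)
    (torc_adm h hb pW) (fun a => ?_) (fun z hz hl => ?_) isOpen_univ trivial (fun _ _ _ => trivial)
    L.continuous.continuousOn (fun _ _ _ => rfl) rfl pW (fun _ k => ⟨trivial, k⟩)
    (fun _ _ k => k) (fun _ _ k => k) (gp_id pW _) L.hasFDerivAt (fun δ k k' => ?_)
    Fintype.card_sum.symm
  · rw [← r2 a]
    simp [TD.mu, Fintype.sum_sum_type, Real.sq_sqrt (r1 _).le]
  · have z0 : ∀ q, z (.inl q) = 0 := fun q => congrFun hz q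
    have z1 : ∀ i, ‖z (.inr i)‖ ^ 2 - r i = 0 := torc_inj hR fun a => by
      have := hl a
      simp only [TD.mu, Fintype.sum_sum_type, Function.comp, id, z0, norm_zero, ne_eq,
        OfNat.ofNat_ne_zero, not_false_eq_true, zero_pow, mul_zero, Finset.sum_const_zero,
        zero_add] at this
      simp only [mul_sub, Finset.sum_sub_distrib]
      linarith [r2 a]
    have z2 : ∀ i, ‖z (.inr i) / Real.sqrt (r i)‖ = 1 := fun i => by
      rw [norm_div, Complex.norm_real, Real.norm_of_nonneg (Real.sqrt_nonneg _),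
        div_eq_one_iff_eq (Real.sqrt_pos.2 (r1 i)).ne', ← sub_eq_zero.1 (z1 i),
        Real.sqrt_sq (norm_nonneg _)]
    let u : A → Circle := fun i => ⟨_, mem_sphere_zero_iff_norm.2 (z2 i)⟩
    refine ⟨(fun a => (isChar_chr (R a)).circ u, 1), funext fun q => ?_⟩
    rw [hρ]
    cases q with
    | inl q => simp [z0]
    | inr i =>
      have := TD.tor_chr R (m (.inr i)) u Finset.univ
      rw [hR, chr_single] at this
      exact (div_mul_cancel₀ _ (r3 i)).symm.trans (congrArg (· * _) this.symm)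
  · have z0 : ∀ q, δ (.inl q) = 0 := fun q => congrFun k q
    have z1 : ∀ i, Real.sqrt (r i) * (δ (.inr i)).re = 0 := torc_inj hR fun a => by
      simpa [Fintype.sum_sum_type] using k' a
    obtain ⟨ξ, hξ⟩ := torc_sur hR fun i => (δ (.inr i)).im / Real.sqrt (r i)
    refine ⟨ξ, fun q => ?_⟩
    cases q with
    | inl q => simp [z0]
    | inr i =>
      rw [hξ, Sum.elim_inr, Complex.ofReal_div, mul_assoc, div_mul_cancel₀ _ (r3 i)]
      exact Complex.ext (by simpa using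
        (mul_eq_zero.1 (z1 i)).resolve_left (Real.sqrt_pos.2 (r1 i)).ne') (by simp)

theorem exists_TI {m : J ⊕ A → A → ℤ} {t : J ⊕ A → κ → ℤ} (h : (tdw m t θ).Ok)
    (hb : ∃ B : ℝ, ∀ y ∈ (tdw m t θ).lev, nsq y ≤ B)
    (hs : ∀ j, ∃ r : A → ℤ, ∑ i, r i • m (.inr i) = Pi.single j 1)
    (hf : ∃ r : A → ℤ, (∀ i, 0 < r i) ∧ ∀ a, ∑ i, m (.inr i) a * r i + θ a = 0) :
    ∃ ψ, TI m t θ ψ ∧ ψ (∏ q, wf (m (.inl q)) (t (.inl q))) ≠ 0 ∧ ∀ f ∈ kerT m t θ, ψ f = 0 := by
  have := h.rep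
  have ad := torc_adm h hb tdw_pr
  let e := AlgEquiv.ofBijective (pol κ) pol_bij
  let T : EH (tdw m t θ).rep (tdw m t θ).lev univ →ₗ[ℂ] HPt (Gp.tor κ) :=
    (tdw m t θ).int (Act.pt _) (tdw m t θ).rep (fun _ => ()) id (fun z => z ∘ id) univ univ
  let ψ : MvPolynomial A (MvPolynomial κ ℂ) →ₗ[MvPolynomial κ ℂ] MvPolynomial κ ℂ :=
    { toFun := fun f => e.symm (T (kpt _ _ (pol2 A κ f)))
      map_add' := fun f g => by rw [map_add, map_add, map_add, map_add]
      map_smul' := fun s f => by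
        rw [MvPolynomial.smul_eq_C_mul, map_mul, pol2_C, kpt_mul tdw_pr, TD.int_sm ad, sm_pt,
          map_mul]
        exact congrArg (· * _) (e.symm_apply_apply s) }
  have z : ∀ f, ψ f = 0 ↔ T (kpt _ _ (pol2 A κ f)) = 0 := fun f => map_eq_zero_iff _ e.symm.injective
  have k : ∀ f ∈ kerT m t θ, ψ f = 0 := fun f hf => (z f).2 (by rw [mem_kerT.1 hf, map_zero])
  refine ⟨ψ, ⟨fun v Q h1 h2 g => k _ (Ideal.mul_mem_left _ g (cut_kerT v Q h1 h2)),
    fun Q hQ => (z _).2 ?_⟩, fun n => ?_, k⟩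
  · have := tdw_rep (m := fun q : Q => m q) (t := fun q : Q => t q) (θ := θ)
    have d := isDeg_eul (b := Act.pt _) (ρ := (tdw (fun q : Q => m q) (fun q : Q => t q) θ).rep)
      (F := fun _ => 0) (V := univ) (W := univ)
    rw [← Finset.prod_coe_sort]
    refine IsDeg.eq_zero (p := 2 * Q.card + 2 * Fintype.card A - 2 * Fintype.card (J ⊕ A))
      (TD.isDeg_int ad (IsDeg.gp ?_ _ _)) (by omega)
    convert d using 1
    · rw [Fintype.card_coe]
      ring
    · exact (euc_dg2 _ _).symm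
  · have := tdw_rep (m := m ∘ Sum.inl) (t := t ∘ Sum.inl) (θ := θ)
    have h' : (tdw m (fun _ => (0 : Empty → ℤ)) θ).Ok := ⟨fun _ => isChar_chr 0, h.free⟩
    have := h'.rep
    have c1 : ∀ (s : κ → ℤ) (s' : Empty → ℤ) g, chr s' g = chr s 1 := fun s s' g => by simp [chr]
    have k' : GAdm (tdw m (fun _ => (0 : Empty → ℤ)) θ).rep (tdw m t θ).rep (mapT A fun _ => 1) id
        (tdw m (fun _ => (0 : Empty → ℤ)) θ).lev univ (tdw m t θ).lev univ :=
      ⟨tdw_pr, tdw_pr, continuousOn_id, fun g w _ => funext fun q =>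
        congrArg (fun s => chr (m q) g.1 * s * w q) (c1 (t q) 0 g.2), fun _ k => k, fun _ _ k => k⟩
    have a1 : EAdm (tdw m t θ).rep (tdw (m ∘ Sum.inl) (t ∘ Sum.inl) θ).rep (· ∘ Sum.inl)
        (tdw m t θ).lev univ :=
      ⟨tdw_pr, Act.Rep.pr _, (continuous_pi fun q => continuous_apply _).continuousOn,
        fun _ _ _ => rfl, mapsTo_univ _ _, fun _ _ _ => trivial⟩
    have e1 : kpt (tdw m t θ).rep (tdw m t θ).lev (pol2 A κ (∏ q, wf (m (.inl q)) (t (.inl q)))) =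
        eul _ (tdw (m ∘ Sum.inl) (t ∘ Sum.inl) θ).rep (· ∘ Sum.inl) _ univ := by
      rw [eul_univ a1, sm_eone tdw_pr]
      exact congrArg _ (euc_dg2 _ _).symm
    have e2 := TD.gp_int ad (φ := fun _ => 1) (torc_adm h' hb tdw_pr) rfl rfl (fun q g => c1 (t q) 0 g)
      (gadm_pt (Act.pr_pt _) _) k' (fun g w => funext fun q =>
        congrArg (fun s => chr (m q) g.1 * s * w q) (c1 (t q) 0 g.2)) (fun _ _ => rfl) (fun _ _ => rfl)
      (fun _ _ => rfl) (kpt _ _ (pol2 A κ (∏ q, wf (m (.inl q)) (t (.inl q)))))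
    refine torc_norm h' hb hs hf ?_
    rw [← gp_eul a1 k' (fun g w => funext fun q =>
      congrArg (fun s => chr (m (.inl q)) g.1 * s * w q) (c1 (t (.inl q)) 0 g.2)) (F' := (· ∘ Sum.inl))
      (fun _ _ => rfl), ← e1, ← e2]
    exact (congrArg _ ((z _).1 n)).trans (map_zero _)

end Pool.Agent.Work.MP_849ab0_ag.G
end
end

-- merged part: Pool.Agent.Work.MP_849ab0_ag.G.H2.DirA
section
/-!
A class that dies on the stable locus is killed by all residues.

Hints.  `mem_relA`: `mem_of_rel` with `r = -s`; the matrices of `jA y` are strictly increasing for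
`s` (an entry `(b, a)` vanishes unless `s a < s b`), hence so is `D.mu`; the diagonal of `muR` by
`muR_exz` and `Fintype.sum_sum_type` (the extra coordinates vanish).  `relA_act`: `rel2_act`,
`exz_act` (the restriction of `rep.act g y` to `inl` is `(D.dbl.tdc ν _).rep.act g (y ∘ inl)` by
`rfl`).  `euc_sigA`: `euc_dg2`, `Fintype.prod_sum_type`.
-/

noncomputable section

set_option linter.unusedSectionVars false
set_option linter.unusedVariables false

namespace Pool.Agent.Work.MP_849ab0_ag.G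

open Set Topology Matrix

namespace Qv

section

variable {I P E κ : Type} [Fintype I] [DecidableEq I] [Fintype P] [DecidableEq P] [Fintype E]
  [Fintype κ] [DecidableEq κ] (D : Qv I P E κ) (ν : I → ℤ) (s : Option P → ℤ)
  (hs ht : P → Option P)

/-- the toric data of an order -/
abbrev tdA : TD P (Cs (D.dbl.ups s) ⊕ P) (Gp.tor κ) := tdw (D.mA s hs ht) (D.tA s) (ν ∘ D.col)

/-- the triangular representation -/
def jA (y : Cs (D.dbl.ups s) ⊕ P → ℂ) : D.dbl.Rep := exz _ (y ∘ Sum.inl)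

/-- the relations and the extra coordinates -/
def relA (y : Cs (D.dbl.ups s) ⊕ P → ℂ) : (Cs (D.lp.ups s) ⊕ Cs (D.lp.ups s)) ⊕ P → ℂ :=
  Sum.elim (D.rel2 _ _ (D.jA s y)) (y ∘ Sum.inr)

/-- their weights -/
def sigA : Act (TG P (Gp.tor κ)) ((Cs (D.lp.ups s) ⊕ Cs (D.lp.ups s)) ⊕ P → ℂ) :=
  Act.dg fun z g => chr (Sum.elim (D.rm _ _) (D.mA s hs ht ∘ Sum.inr) z) g.1 *
    chr (Sum.elim (D.rc _ _) (D.tA s ∘ Sum.inr) z) g.2

variable {D ν s hs ht}

theorem rep_sigA : (D.sigA s hs ht).Rep := tdw_rep (θ := 0)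

theorem euc_sigA : euc (D.sigA s hs ht) = pol2 P κ (D.eR (D.lp.ups s) (D.lp.ups s) *
    ∏ i, wf (D.mA s hs ht (.inr i)) (D.tA s (.inr i))) := by
  refine (euc_dg2 _ _).trans ?_
  rw [Fintype.prod_sum_type]
  rfl

theorem cont_jA : Continuous (D.jA s) :=
  continuous_exz.comp (continuous_pi fun _ => continuous_apply _)

theorem cont_relA : Continuous (D.relA s) := continuous_pi fun z => by
  cases z with
  | inl z => exact (continuous_apply z).comp (cont_rel2.comp cont_jA)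
  | inr i => exact continuous_apply (Sum.inr i)

theorem jA_act (g : (TG P (Gp.tor κ)).H) (y : Cs (D.dbl.ups s) ⊕ P → ℂ) :
    D.jA s ((D.tdA ν s hs ht).rep.act g y) = D.dbl.aN.act (inc D.col _ g) (D.jA s y) :=
  exz_act (D := D.dbl) (ν := ν) g (y ∘ Sum.inl)

theorem relA_act (g : (TG P (Gp.tor κ)).H) (y : Cs (D.dbl.ups s) ⊕ P → ℂ) :
    D.relA s ((D.tdA ν s hs ht).rep.act g y) = (D.sigA s hs ht).act g (D.relA s y) := funext fun z => by
  cases z with
  | inl z =>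
    change D.rel2 _ _ (D.jA s _) z = _
    rw [jA_act, rel2_act]
    rfl
  | inr i => rfl

theorem dira_mat (y : Cs (D.dbl.ups s) ⊕ P → ℂ) (e : E ⊕ E) {b a : Option P} (h : ¬s a < s b) :
    D.dbl.mat (D.jA s y) e b a = 0 := by
  simp only [mat, Matrix.of_apply]
  split_ifs with k
  · exact exz_neg _ h
  · rfl

theorem dira_mul (y : Cs (D.dbl.ups s) ⊕ P → ℂ) (e e' : E ⊕ E) {b a : Option P}
    (h : ¬s a < s b) : (D.dbl.mat (D.jA s y) e * D.dbl.mat (D.jA s y) e') b a = 0 := by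
  rw [Matrix.mul_apply]
  refine Finset.sum_eq_zero fun c _ => ?_
  by_cases k : s c < s b
  · exact mul_eq_zero_of_right _ (dira_mat y e' fun k' => h (k'.trans k))
  · exact mul_eq_zero_of_left (dira_mat y e k) _

theorem dira_mu (y : Cs (D.dbl.ups s) ⊕ P → ℂ) {b a : Option P} (h : ¬s a < s b) :
    D.mu (D.jA s y) b a = 0 := by
  rw [mu, Matrix.sum_apply]
  refine Finset.sum_eq_zero fun e _ => ?_
  rw [Matrix.sub_apply, dira_mul y _ _ h, dira_mul y _ _ h, sub_zero]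

theorem mem_relA (hν : D.Gen ν) (h : Function.Injective s) {y : Cs (D.dbl.ups s) ⊕ P → ℂ}
    (hy : y ∈ (D.tdA ν s hs ht).lev) (h0 : D.relA s y = 0) : D.jA s y ∈ D.Xs ν := by
  refine (mem_of_rel (p := D.lp.ups s) (q := D.lp.ups s) hν (r := fun o => -s o)
    (fun a b k => Option.some_injective _ (h (neg_injective k))) (fun a => ?_)
    (fun z hz => dira_mu y hz) (fun z hz k => absurd (neg_lt_neg_iff.1 k) hz)
    (funext fun z => congrFun h0 (Sum.inl z))).1
  have h1 := hy a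
  have h2 : ∀ i, y (Sum.inr i) = 0 := fun i => congrFun h0 (Sum.inr i)
  rw [TD.mu, Fintype.sum_sum_type] at h1
  simp only [h2, norm_zero, ne_eq, OfNat.ofNat_ne_zero, not_false_eq_true, zero_pow, mul_zero,
    Finset.sum_const_zero, add_zero] at h1
  rw [jA, muR_exz]
  have h3 : (∑ x : Cs (D.dbl.ups s), D.dbl.wt x.1 a * ‖(y ∘ Sum.inl) x‖ ^ 2 : ℝ) =
      -(ν (D.col a) : ℝ) := eq_neg_of_add_eq_zero_left h1
  rw [h3]
  push_cast
  rfl

theorem mA_em (q : Cs (D.dbl.ups s) ⊕ P) : D.mA s hs ht q =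
    em (Sum.elim (fun q => q.1.1.2.1) hs q) (Sum.elim (fun q => q.1.1.2.2) ht q) := by
  cases q <;> rfl

theorem bdd_tdA (h : ∀ i, s (hs i) < s (ht i)) : ∃ B : ℝ, ∀ y ∈ (D.tdA ν s hs ht).lev, nsq y ≤ B :=
  ⟨_, fun y hy => TD.nsq_le_of_pot _ _ (fun q j => congrFun (mA_em q) j) hy s fun q _ => by
    cases q with
    | inl q => exact q.2
    | inr i => exact h i⟩

theorem mem_kerA (hν : D.Gen ν) (h : Function.Injective s) {c : D.HP} (hc : D.kx (D.Xs ν) c = 0) :
    D.lam c * (D.eR (D.lp.ups s) (D.lp.ups s) * ∏ i, wf (D.mA s hs ht (.inr i)) (D.tA s (.inr i))) ∈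
      kerT (D.mA s hs ht) (D.tA s) (ν ∘ D.col) := by
  have := rep_sigA (D := D) (s := s) (hs := hs) (ht := ht)
  have := tdw_rep (m := D.mA s hs ht) (t := D.tA s) (θ := ν ∘ D.col)
  have p0 := tdw_pr (m := D.mA s hs ht) (t := D.tA s) (θ := ν ∘ D.col)
  have p1 := (Act.Rep.pr (D.sigA s hs ht)).preimage' (φ := id) p0 cont_relA.continuousOn
    (mapsTo_univ _ _) fun g y _ => relA_act g y
  have k : GAdm (D.tdA ν s hs ht).rep D.dbl.aN (inc D.col _) (D.jA s)
      ((D.tdA ν s hs ht).lev ∩ D.relA s ⁻¹' {0}) univ (D.Xs ν) univ :=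
    ⟨p0.inter_top p1, pr_Xs' ν, cont_jA.continuousOn, fun g y _ => jA_act g y,
      fun y hy => mem_relA hν h hy.1 hy.2, fun _ _ _ => trivial⟩
  rw [mem_kerT, map_mul, pol2_lam, ← euc_sigA]
  refine germ_kill (F := D.relA s) ⟨p1, Act.Rep.pr _, cont_relA.continuousOn,
    fun g y _ => relA_act g y, mapsTo_univ _ _, fun _ _ k => k⟩ ?_
  rw [← gp_kpt k]
  exact (congrArg _ hc).trans (map_zero _)

end

variable {k n : ℕ} {E κ : Type} [Fintype E] [DecidableEq E] [Fintype κ] [DecidableEq κ]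
  (D : Qv (Fin k) (Fin n) E κ) {ν : Fin k → ℤ}

theorem dirA (hν : D.Gen ν) {c : D.HP} (hc : D.kx (D.Xs ν) c = 0) : D.lam c ∈ D.toQD.IT ν :=
  D.IT_of_TI hν (D.lam_mem c) fun s hs ht h hv => by
    obtain ⟨ψ, h1, h2, h3⟩ := exists_TI (t := D.tA s) (tdw_ok _ _ mA_em hν) (bdd_tdA hv.lt)
      hv.span hv.feas
    exact ⟨ψ, h1, h2, fun g => h3 _ (Ideal.mul_mem_left _ _ (mem_kerA hν h hc))⟩

end Qv

end Pool.Agent.Work.MP_849ab0_ag.G
end
end
end

-- merged part: Pool.Agent.Work.MP_849ab0_ag.G.H2.EsJ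
section
-- merged part: Pool.Agent.Work.MP_849ab0_ag.G.F.St
section
/-!
Task F-St. Schur's lemma for `N`: an endomorphism that commutes with `G` is given by a matrix on the arrows up to scalars.
Plan. Write E (e, a, b) for Pi.single, its component e is the elementary matrix single b a 1.
Weights: for g = diagonal z (z = 2 at one point, 1 elsewhere) gact g y p = z b / z a * y p with z none = 1; for a ≠ b the exponents determine (a, b). Hence an invariant vector is diagonal,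
and f (E (e', a, b)) is supported on the coordinates (e, a, b), i.e. f = cm (co f) on the chosen vector of e'.
Transvections g = 1 + s • single c d 1 (c ≠ d of the same colour, inverse 1 - s • single c d 1): g * diagonal δ * g⁻¹ = diagonal δ + s (δ d - δ c) single c d gives `scal_of_inv`.
The kernel K of f - cm (co f) is G-invariant (cm_gact) and contains the chosen E (e', a, b), a ≠ b. Conjugating single b a: d = b, c ≠ a adds single c a; c = a, d ≠ b subtracts single b d;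
c = a, d = b gives single b a + s (single a a - single b b) - s ^ 2 single a b, take s = 1 and s = -1. So K contains all E (e', a', b'), a' ≠ b', and all E (e', a, a) - E (e', b, b);
these span the kernel of sp (if e' has no off-diagonal coordinate it has at most one coordinate, which vanishes when the trace does).
-/

noncomputable section

set_option linter.unusedSectionVars false
set_option linter.unusedVariables false

namespace Pool.Agent.Work.MP_849ab0_ag.G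

open Set Topology Matrix

namespace Qv

variable {I P E κ : Type} [Fintype I] [DecidableEq I] [Fintype P] [DecidableEq P] [Fintype E]
  [DecidableEq E] [Fintype κ] [DecidableEq κ] {D : Qv I P E κ} {c c' : Matrix E E ℂ}
  {f f' : Module.End ℂ D.Rep} {x y z : D.Rep} {g : Matrix P P ℂ} {ν : I → ℤ}

/-- two at one point, one elsewhere -/
def St_z (x : P) (o : Option P) : ℂ := if o = some x then 2 else 1

theorem St_z_ne (x : P) (o : Option P) : St_z x o ≠ 0 := by
  unfold St_z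
  split_ifs <;> norm_num

/-- the weights determine an off-diagonal coordinate -/
theorem St_wt {a b a' b' : Option P} (hab : a ≠ b)
    (h : ∀ x : P, St_z x b' * St_z x a = St_z x b * St_z x a') : a' = a ∧ b' = b := by
  have k : ∀ x : P, (b' = some x ∨ a = some x → b = some x ∨ a' = some x) ∧
      (b = some x ∨ a' = some x → b' = some x ∨ a = some x) := fun x => by
    have := h x
    unfold St_z at this
    split_ifs at this with h1 h2 h3 h4 h5 h6 h7 h8 h9 <;> first | tauto | (norm_num at this)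
  have k' : ∀ x : P, (b' = some x ∧ a = some x → b = some x) ∧
      (b = some x ∧ a' = some x → a = some x) := fun x => by
    have := h x
    unfold St_z at this
    split_ifs at this with h1 h2 h3 h4 h5 h6 h7 h8 h9 <;> first | tauto | (norm_num at this)
  have ka : ∀ x, a = some x → a' = a := fun x hx =>
    (((k x).1 (Or.inr hx)).resolve_left fun t => hab (hx.trans t.symm)).trans hx.symm
  have kb : ∀ x, b = some x → b' = b := fun x hx =>
    (((k x).2 (Or.inl hx)).resolve_right fun t => hab (t.trans hx.symm)).trans hx.symm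
  rcases a with _ | a <;> rcases b with _ | b
  · exact absurd rfl hab
  · refine ⟨?_, kb b rfl⟩
    rcases a' with _ | a'
    · rfl
    · have h1 := ((k a').2 (Or.inr rfl)).resolve_right (by simp)
      exact ((k' a').2 ⟨(kb b rfl).symm.trans h1, rfl⟩).symm
  · refine ⟨ka a rfl, ?_⟩
    rcases b' with _ | b'
    · rfl
    · have h1 := ((k b').1 (Or.inl rfl)).resolve_left (by simp)
      exact ((k' b').1 ⟨rfl, (ka a rfl).symm.trans h1⟩).symm
  · exact ⟨ka a rfl, kb b rfl⟩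

/-- the diagonal elements of the group -/
theorem St_dg (x : P) : ∃ g, D.Blk g ∧ IsUnit g ∧
    ∀ (y : D.Rep) (p : D.Wt), D.gact g y p * St_z x p.1.2.1 = St_z x p.1.2.2 * y p := by
  have h1 : hat 1 (diagonal fun a => St_z x (some a)) = diagonal (St_z x) := by
    ext (_ | a) (_ | b) <;> simp [hat, diagonal_apply, St_z]
  have h2 : (diagonal (St_z x))⁻¹ = diagonal fun o => (St_z x o)⁻¹ :=
    Matrix.inv_eq_left_inv (by
      rw [diagonal_mul_diagonal, ← diagonal_one]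
      congr 1
      funext o
      exact inv_mul_cancel₀ (St_z_ne x o))
  refine ⟨diagonal fun a => St_z x (some a), fun a b hab => diagonal_apply_ne _ fun e => hab
    (congrArg _ e), ?_, fun y p => ?_⟩
  · rw [isUnit_diagonal, Pi.isUnit_iff]
    exact fun a => (St_z_ne x _).isUnit
  · simp only [gact, h1, h2, mul_diagonal, diagonal_mul, mat_apply]
    rw [inv_mul_cancel_right₀ (St_z_ne x _)]

/-- the transvections -/
theorem St_tv {a b : Option P} (hab : a ≠ b) (hc : a.map D.col = b.map D.col) (s : ℂ) :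
    ∃ g, D.Blk g ∧ IsUnit g ∧ hat 1 g = 1 + s • single a b 1 ∧
      (hat 1 g)⁻¹ = 1 - s • single a b 1 := by
  have h0 : ∀ {J : Type} [Fintype J] [DecidableEq J] {a b : J}, a ≠ b →
      (1 - s • single a b (1 : ℂ)) * (1 + s • single a b 1) = 1 := fun hab => by
    rw [Matrix.sub_mul, Matrix.mul_add, Matrix.mul_add, Matrix.smul_mul, Matrix.smul_mul,
      Matrix.mul_smul, Matrix.mul_smul, single_mul_single_of_ne _ _ _ _ hab.symm]
    simp
  rcases a with _ | a <;> rcases b with _ | b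
  · exact absurd rfl hab
  · simp at hc
  · simp at hc
  have h1 : a ≠ b := fun e => hab (congrArg some e)
  have h2 : D.col a = D.col b := by simpa using hc
  have h3 : hat 1 (1 + s • single a b 1) = 1 + s • single (some a) (some b) 1 := by
    ext (_ | i) (_ | j) <;> simp [hat, one_apply, single_apply]
  refine ⟨1 + s • single a b 1, fun i j hij => ?_, IsUnit.of_mul_eq_one_right _ (h0 h1), h3, ?_⟩
  · have e1 : i ≠ j := fun e => hij (congrArg _ e)
    have e2 : ¬ (a = i ∧ b = j) := fun e => hij (by rw [← e.1, ← e.2, h2])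
    simp [one_apply_ne e1, single_apply_of_ne _ _ _ _ _ e2]
  · rw [h3]
    exact Matrix.inv_eq_left_inv (h0 hab)

theorem St_col {e : E} {a b : Option P} (h : D.mat y e b a ≠ 0) :
    a.map D.col = D.src e ∧ b.map D.col = D.tgt e := by
  by_contra k
  exact h (dif_neg k)

theorem scal_of_inv (h : ∀ g, D.Blk g → IsUnit g → D.gact g y = y) : D.Scal y := by
  intro e
  have h1 : ∀ a b, a ≠ b → D.mat y e b a = 0 := fun a b hab => by
    by_contra k
    have k1 := D.mat_apply y ⟨(e, a, b), St_col k⟩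
    refine hab (St_wt (a := a) (b := b) (a' := b) (b' := b) hab fun x => ?_).1.symm
    obtain ⟨g, g1, g2, g3⟩ := St_dg (D := D) x
    have k2 := g3 y ⟨(e, a, b), St_col k⟩
    rw [h g g1 g2, ← k1, mul_comm] at k2
    rw [mul_right_cancel₀ k k2]
  have h2 : ∀ a b : Option P, a.map D.col = b.map D.col → D.mat y e a a = D.mat y e b b :=
    fun a b hab => by
      by_cases k : a = b
      · rw [k]
      obtain ⟨g, g1, g2, g3, g4⟩ := St_tv k hab 1
      have k1 := D.mat_gact g1 g2 y e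
      rw [h g g1 g2] at k1
      have k2 : D.mat y e * hat 1 g = hat 1 g * D.mat y e := by
        conv_lhs => rw [k1]
        exact Matrix.nonsing_inv_mul_cancel_right _ _
          ((Matrix.isUnit_iff_isUnit_det _).1 (isUnit_hat g2))
      have k3 := congrFun (congrFun k2 a) b
      simpa [g3, Matrix.mul_add, Matrix.add_mul] using k3
  by_cases k : ∃ a : Option P, a.map D.col = D.src e
  · obtain ⟨a0, k⟩ := k
    refine ⟨D.mat y e a0 a0, Matrix.ext fun b a => ?_⟩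
    by_cases hab : a = b
    · subst hab
      by_cases k1 : a.map D.col = D.src e
      · simp [vtx, k1, h2 a a0 (k1.trans k.symm)]
      · have : D.mat y e a a = 0 := by_contra fun t => k1 (St_col t).1
        simp [vtx, k1, this]
    · simp [vtx, h1 a b hab, diagonal_apply_ne _ (Ne.symm hab)]
  · refine ⟨0, Matrix.ext fun b a => ?_⟩
    rw [zero_smul]
    exact by_contra fun t => k ⟨a, (St_col t).1⟩

theorem ty_co (f : Module.End ℂ D.Rep) : D.Ty (D.co f) := by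
  intro e e' h
  simp only [co, of_apply] at h
  split_ifs at h with h1 h2
  · have k1 := St_col h
    have k2 := h1.choose.2
    rw [h1.choose_spec.1] at k2
    exact ⟨k1.1.symm.trans k2.1, k1.2.symm.trans k2.2⟩
  · rw [h2]
    exact ⟨rfl, rfl⟩
  · exact absurd rfl h

variable (D) in
/-- a matrix placed on one arrow -/
def St_i (e : E) : Matrix (Option P) (Option P) ℂ →ₗ[ℂ] D.Rep where
  toFun A p := if p.1.1 = e then A p.1.2.2 p.1.2.1 else 0
  map_add' A B := funext fun p => by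
    simp only [Pi.add_apply, Matrix.add_apply]
    split_ifs <;> simp
  map_smul' a A := funext fun p => by
    simp only [Pi.smul_apply, Matrix.smul_apply, RingHom.id_apply]
    split_ifs <;> simp

theorem St_i_apply (e : E) (A : Matrix (Option P) (Option P) ℂ) (p : D.Wt) :
    St_i D e A p = if p.1.1 = e then A p.1.2.2 p.1.2.1 else 0 := rfl

theorem St_single [DecidableEq D.Wt] (p : D.Wt) :
    Pi.single p 1 = St_i D p.1.1 (single p.1.2.2 p.1.2.1 1) := by
  funext q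
  rw [St_i_apply]
  by_cases h : q = p
  · subst h
    simp
  · rw [Pi.single_eq_of_ne h]
    split_ifs with k
    · refine (single_apply_of_ne _ _ _ _ _ fun t => h (Subtype.ext ?_)).symm
      exact Prod.ext k (Prod.ext t.2.symm t.1.symm)
    · rfl

theorem St_sum (y : D.Rep) : y = ∑ e, St_i D e (D.mat y e) := by
  funext p
  simp only [Finset.sum_apply, St_i_apply, Finset.sum_ite_eq, Finset.mem_univ, if_true, mat_apply]

theorem St_mat {e : E} {a b : Option P} (ha : a.map D.col = D.src e) (hb : b.map D.col = D.tgt e)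
    (e' : E) : D.mat (St_i D e (single b a 1)) e' = if e' = e then single b a 1 else 0 := by
  have := D.cmat_of (M := fun e' => if e' = e then single b a (1 : ℂ) else 0) (fun e' b' a' k => by
    split_ifs at k with k1
    · have k2 : b = b' ∧ a = a' := by_contra fun t => k (single_apply_of_ne _ _ _ _ _ t)
      rw [k1, ← k2.1, ← k2.2]
      exact ⟨ha, hb⟩
    · exact absurd rfl k) e'
  rw [← this]
  congr 1
  funext p
  rw [St_i_apply]
  split_ifs <;> rfl

theorem St_gact {e : E} {a b : Option P} (ha : a.map D.col = D.src e) (hb : b.map D.col = D.tgt e)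
    (g : Matrix P P ℂ) : D.gact g (St_i D e (single b a 1)) =
      St_i D e (hat 1 g * single b a 1 * (hat 1 g)⁻¹) := by
  funext p
  rw [St_i_apply, gact, St_mat ha hb]
  split_ifs <;> simp

theorem St_cm (h : D.Ty c) {e : E} {a b : Option P} (ha : a.map D.col = D.src e)
    (hb : b.map D.col = D.tgt e) (e' : E) :
    D.mat (D.cm c (St_i D e (single b a 1))) e' = c e' e • single b a 1 := by
  simp only [mat_cm h, St_mat ha hb, smul_ite, smul_zero, Finset.sum_ite_eq', Finset.mem_univ,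
    if_true]

theorem St_sp {e : E} {a b : Option P} (ha : a.map D.col = D.src e) (hb : b.map D.col = D.tgt e)
    (hab : a ≠ b) : D.sp (St_i D e (single b a 1)) = 0 :=
  D.mat_inj fun e' => by
    rw [mat_sp, St_mat ha hb, mat_zero]
    split_ifs
    · rw [trace_single_eq_of_ne _ _ _ hab.symm, zero_div, zero_smul]
    · rw [trace_zero, zero_div, zero_smul]

/-- the kernel of an equivariant map is stable under the elementary moves -/
theorem St_ad (h : ∀ g, D.Blk g → IsUnit g → ∀ y, f (D.gact g y) = D.gact g (f y)) {e : E}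
    {a b i j : Option P} (ha : a.map D.col = D.src e) (hb : b.map D.col = D.tgt e)
    (h0 : f (St_i D e (single b a 1)) = 0) (hij : i ≠ j) (hc : i.map D.col = j.map D.col) :
    f (St_i D e (single i j 1 * single b a 1 - single b a 1 * single i j 1)) = 0 ∧
      f (St_i D e (single i j 1 * single b a 1 * single i j 1)) = 0 := by
  have k : ∀ s : ℂ, s • f (St_i D e (single i j 1 * single b a 1 - single b a 1 * single i j 1)) -
      (s * s) • f (St_i D e (single i j 1 * single b a 1 * single i j 1)) = 0 := fun s => by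
    obtain ⟨g, g1, g2, g3, g4⟩ := St_tv hij hc s
    have k1 := h g g1 g2 (St_i D e (single b a 1))
    have k2 : D.gact g 0 = 0 := by
      have := gact_smul' (D := D) g 0 0
      rwa [zero_smul, zero_smul] at this
    rw [h0, k2, St_gact ha hb, g4, g3] at k1
    have k3 : (1 + s • single i j 1) * single b a 1 * (1 - s • single i j 1) =
        single b a (1 : ℂ) + (s • (single i j 1 * single b a 1 - single b a 1 * single i j 1) -
          (s * s) • (single i j 1 * single b a 1 * single i j 1)) := by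
      simp only [Matrix.add_mul, Matrix.mul_sub, Matrix.smul_mul, Matrix.mul_smul, Matrix.one_mul,
        Matrix.mul_one, smul_add, smul_sub, smul_smul]
      abel
    rw [k3, map_add, map_add, h0, zero_add, map_sub, map_sub, map_smul, map_smul, map_smul,
      map_smul] at k1
    exact k1
  have k1 := k 1
  have k2 := k (-1)
  simp only [one_smul, mul_one, neg_smul, mul_neg, neg_neg] at k1 k2
  have k3 := sub_eq_zero.1 k1
  rw [k3, ← neg_add', neg_eq_zero, ← two_smul ℂ, smul_eq_zero] at k2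
  have k4 := k2.resolve_left two_ne_zero
  exact ⟨k3.trans k4, k4⟩

theorem St_all (h : ∀ g, D.Blk g → IsUnit g → ∀ y, f (D.gact g y) = D.gact g (f y)) {e : E}
    {a b a' b' : Option P} (ha : a.map D.col = D.src e) (hb : b.map D.col = D.tgt e)
    (h0 : f (St_i D e (single b a 1)) = 0) (ha' : a'.map D.col = D.src e)
    (hb' : b'.map D.col = D.tgt e) (hab : a' ≠ b') : f (St_i D e (single b' a' 1)) = 0 := by
  have L : ∀ a b i : Option P, a.map D.col = D.src e → b.map D.col = D.tgt e →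
      f (St_i D e (single b a 1)) = 0 → i.map D.col = D.tgt e → i ≠ a →
      f (St_i D e (single i a 1)) = 0 := fun a b i ha hb h0 hi hia => by
    by_cases k : i = b
    · rwa [k]
    have := (St_ad h ha hb h0 k (hi.trans hb.symm)).1
    rwa [single_mul_single_same, single_mul_single_of_ne _ _ _ _ hia.symm, sub_zero, one_mul]
      at this
  have R : ∀ a b j : Option P, a.map D.col = D.src e → b.map D.col = D.tgt e →
      f (St_i D e (single b a 1)) = 0 → j.map D.col = D.src e → j ≠ b →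
      f (St_i D e (single b j 1)) = 0 := fun a b j ha hb h0 hj hjb => by
    by_cases k : a = j
    · rwa [← k]
    have := (St_ad h ha hb h0 k (ha.trans hj.symm)).1
    rwa [single_mul_single_same, single_mul_single_of_ne _ _ _ _ hjb, zero_sub, one_mul, map_neg,
      map_neg, neg_eq_zero] at this
  by_cases k1 : b' = a
  · by_cases k2 : a' = b
    · subst k1 k2
      have := (St_ad h ha hb h0 hab.symm (ha.trans ha'.symm)).2
      rwa [single_mul_single_same, single_mul_single_same, one_mul, one_mul] at this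
    · exact L _ _ _ ha' hb (R _ _ _ ha hb h0 ha' k2) hb' hab.symm
  · exact R _ _ _ ha hb' (L _ _ _ ha hb h0 hb' k1) ha' hab

/-- an equivariant map that kills the off-diagonal coordinates kills the traceless part -/
theorem St_ker (h : ∀ g, D.Blk g → IsUnit g → ∀ y, f (D.gact g y) = D.gact g (f y))
    (h0 : ∀ e a b, a.map D.col = D.src e → b.map D.col = D.tgt e → a ≠ b →
      f (St_i D e (single b a 1)) = 0) (hy : D.sp y = 0) : f y = 0 := by
  rw [St_sum y, map_sum]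
  refine Finset.sum_eq_zero fun e _ => ?_
  have key : ∀ a0 : Option P, (∀ a, D.mat y e a a ≠ 0 →
      f (St_i D e (single a a 1)) = f (St_i D e (single a0 a0 1))) →
      f (St_i D e (D.mat y e)) = trace (D.mat y e) • f (St_i D e (single a0 a0 1)) := by
    intro a0 k
    conv_lhs => rw [matrix_eq_sum_single (D.mat y e)]
    simp only [map_sum, trace, Finset.sum_smul, diag_apply]
    refine Finset.sum_congr rfl fun b _ => ?_
    have k1 : ∀ a, single b a (D.mat y e b a) = D.mat y e b a • single b a (1 : ℂ) := fun a => by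
      rw [smul_single, smul_eq_mul, mul_one]
    rw [Finset.sum_eq_single b (fun a _ hab => ?_) (fun t => absurd (Finset.mem_univ _) t)]
    · rw [k1, map_smul, map_smul]
      by_cases k2 : D.mat y e b b = 0
      · rw [k2, zero_smul, zero_smul]
      · rw [k b k2]
    · rw [k1, map_smul, map_smul]
      by_cases k2 : D.mat y e b a = 0
      · rw [k2, zero_smul]
      · rw [h0 e a b (St_col k2).1 (St_col k2).2 hab, smul_zero]
  by_cases k : ∃ a0, D.mat y e a0 a0 ≠ 0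
  · obtain ⟨a0, k⟩ := k
    obtain ⟨c1, c2⟩ := St_col k
    have ht : trace (D.mat y e) = 0 := by
      have k1 := mat_sp y e
      rw [hy, mat_zero] at k1
      have k2 := congrFun (congrFun k1 a0) a0
      have k3 : trace (D.vtx (D.src e)) ≠ 0 := by
        simp only [vtx, trace_diagonal, Finset.sum_boole, Nat.cast_ne_zero]
        exact Finset.card_ne_zero.2 ⟨a0, by simp [c1]⟩
      have k4 : D.vtx (D.src e) a0 a0 = 1 := by simp [vtx, c1]
      rw [Matrix.smul_apply, k4, smul_eq_mul, mul_one] at k2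
      exact (div_eq_zero_iff.1 k2.symm).resolve_right k3
    rw [key a0 fun a ha => ?_, ht, zero_smul]
    by_cases k1 : a = a0
    · rw [k1]
    obtain ⟨c3, c4⟩ := St_col ha
    have := (St_ad h c3 c2 (h0 e a a0 c3 c2 k1) k1 (c3.trans c1.symm)).1
    rwa [single_mul_single_same, single_mul_single_same, one_mul, map_sub, map_sub,
      sub_eq_zero] at this
  · have ht : trace (D.mat y e) = 0 :=
      Finset.sum_eq_zero fun a _ => by_contra fun t => k ⟨a, t⟩
    rw [key none fun a ha => absurd ⟨a, ha⟩ k, ht, zero_smul]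

/-- the image of an off-diagonal coordinate vector -/
theorem St_supp (h : ∀ g, D.Blk g → IsUnit g → ∀ y, f (D.gact g y) = D.gact g (f y)) {e : E}
    {a b : Option P} (ha : a.map D.col = D.src e) (hb : b.map D.col = D.tgt e) (hab : a ≠ b)
    (e' : E) : D.mat (f (St_i D e (single b a 1))) e' =
      D.mat (f (St_i D e (single b a 1))) e' b a • single b a 1 := by
  ext b' a'
  by_cases k : b = b' ∧ a = a'
  · rw [← k.1, ← k.2]
    simp
  rw [Matrix.smul_apply, single_apply_of_ne _ _ _ _ _ k, smul_zero]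
  by_contra k0
  have k1 := D.mat_apply (f (St_i D e (single b a 1))) ⟨(e', a', b'), St_col k0⟩
  have k2 := St_wt (a' := a') (b' := b') hab fun x => by
    obtain ⟨g, g1, g2, g3⟩ := St_dg (D := D) x
    have k3 : St_z x a • D.gact g (St_i D e (single b a 1)) =
        St_z x b • St_i D e (single b a 1) := by
      funext p
      refine mul_right_cancel₀ (St_z_ne x p.1.2.1) ?_
      rw [Pi.smul_apply, Pi.smul_apply, smul_eq_mul, smul_eq_mul, mul_assoc, g3, St_i_apply]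
      split_ifs
      · by_cases t : b = p.1.2.2 ∧ a = p.1.2.1
        · rw [← t.1, ← t.2]
          ring
        · rw [single_apply_of_ne _ _ _ _ _ t]
          ring
      · ring
    have k4 := congrFun (congrArg f k3) ⟨(e', a', b'), St_col k0⟩
    rw [map_smul, map_smul, h g g1 g2, Pi.smul_apply, Pi.smul_apply, smul_eq_mul, smul_eq_mul]
      at k4
    have k5 := g3 (f (St_i D e (single b a 1))) ⟨(e', a', b'), St_col k0⟩
    rw [← k1] at k4 k5
    refine mul_right_cancel₀ k0 ?_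
    linear_combination St_z x a' * k4 - St_z x a * k5
  exact k ⟨k2.2.symm, k2.1.symm⟩

/-- the chosen coordinate of an arrow -/
theorem St_co (e : E) : (∃ a b : Option P, a.map D.col = D.src e ∧ b.map D.col = D.tgt e ∧ a ≠ b ∧
    ∀ (f : Module.End ℂ D.Rep) e', D.co f e' e = D.mat (f (St_i D e (single b a 1))) e' b a) ∨
    ((∀ a b : Option P, a.map D.col = D.src e → b.map D.col = D.tgt e → a = b) ∧
      ∀ (f : Module.End ℂ D.Rep) e', D.co f e' e = if e' = e then 1 else 0) := by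
  by_cases h : ∃ p : D.Wt, p.1.1 = e ∧ p.1.2.1 ≠ p.1.2.2
  · have k := h.choose.2
    rw [h.choose_spec.1] at k
    refine Or.inl ⟨_, _, k.1, k.2, h.choose_spec.2, fun f e' => ?_⟩
    simp only [co, of_apply, dif_pos h]
    rw [@St_single _ _ _ _ _ _ _ _ _ _ _ _ _ (_) _, h.choose_spec.1]
  · refine Or.inr ⟨fun a b ha hb => by_contra fun t => h ⟨⟨(e, a, b), ha, hb⟩, rfl, t⟩,
      fun f e' => ?_⟩
    simp only [co, of_apply, dif_neg h]

theorem tm_co (h : ∀ g, D.Blk g → IsUnit g → ∀ y, f (D.gact g y) = D.gact g (f y)) :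
    D.Tm f (D.co f) := by
  refine ⟨ty_co f, fun y hy => scal_of_inv fun g g1 g2 => ?_, fun y hy => ?_⟩
  · rw [← h g g1 g2, hy.gact g1 g2]
  have h' : ∀ g, D.Blk g → IsUnit g → ∀ y, (f - D.cm (D.co f)) (D.gact g y) =
      D.gact g ((f - D.cm (D.co f)) y) := fun g g1 g2 y => by
    rw [LinearMap.sub_apply, LinearMap.sub_apply, gact_sub', h g g1 g2, cm_gact (ty_co f) g1 g2]
  refine sub_eq_zero.1 (St_ker (f := f - D.cm (D.co f)) h' (fun e a' b' ha' hb' hab' => ?_) hy)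
  rcases St_co (D := D) e with ⟨a, b, ha, hb, hab, k⟩ | ⟨k, -⟩
  · refine St_all h' ha hb ?_ ha' hb' hab'
    rw [LinearMap.sub_apply, sub_eq_zero]
    refine D.mat_inj fun e' => ?_
    rw [St_cm (ty_co f) ha hb, k]
    exact St_supp h ha hb hab e'
  · exact absurd (k a' b' ha' hb') hab'

theorem co_one : D.co 1 = 1 := by
  ext e' e
  rcases St_co (D := D) e with ⟨a, b, ha, hb, hab, k⟩ | ⟨-, k⟩
  · rw [k, Module.End.one_apply, St_mat ha hb, one_apply]
    split_ifs <;> simp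
  · rw [k, one_apply]

theorem co_mul (h : D.Tm f (D.co f)) (h' : D.Tm f' (D.co f')) :
    D.co (f * f') = D.co f * D.co f' := by
  ext e' e
  rcases St_co (D := D) e with ⟨a, b, ha, hb, hab, k⟩ | ⟨-, k⟩
  · rw [k, (h.mul h').eq _ (St_sp ha hb hab), St_cm (h.ty.mul h'.ty) ha hb]
    simp
  · simp only [mul_apply, k, mul_ite, mul_one, mul_zero, Finset.sum_ite_eq', Finset.mem_univ,
      if_true]

theorem continuous_co {X : Type} [TopologicalSpace X] {M : X → Matrix D.Wt D.Wt ℂ}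
    (h : Continuous M) : Continuous fun τ => D.co (M τ).mulVecLin := by
  refine continuous_matrix fun e' e => ?_
  rcases St_co (D := D) e with ⟨a, b, ha, hb, hab, k⟩ | ⟨-, k⟩
  · simp only [k, mulVecLin_apply]
    exact ((D.continuous_mat e').comp (h.matrix_mulVec continuous_const)).matrix_elem b a
  · simp only [k]
    exact continuous_const

end Qv

end Pool.Agent.Work.MP_849ab0_ag.G
end
end

-- merged part: Pool.Agent.Work.MP_849ab0_ag.G.H1.StCoh
section
/-!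
The cohomology of a stratum is the cohomology of the compact set `Flev` (owner helper71).
-/

noncomputable section

set_option linter.unusedSectionVars false
set_option linter.unusedVariables false

namespace Pool.Agent.Work.MP_849ab0_ag.G

open Set Topology Matrix

namespace Qv

variable {I P E κ : Type} [Fintype I] [DecidableEq I] [Fintype P] [DecidableEq P] [Fintype E]
  [Fintype κ] [DecidableEq κ] {D : Qv I P E κ}
  {ν : I → ℤ} {ρ : Option P → ℤ} {U : Set D.dbl.Rep}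

variable (D) in
/-- graded points of the level set -/
def Flev (ν : I → ℤ) (ρ : Option P → ℤ) : Set D.dbl.Rep := D.Fr ν ρ ∩ D.dbl.Lev ν

theorem pr_Flev : (D.aR ρ).Pr (D.Flev ν ρ) univ :=
  ⟨pr_Fr.lc.inter isClosed_lev.isLocallyClosed,
    fun u _ hy => ⟨act_mem_Fr u hy.1, lev_act (D := D.dbl) (D.iK ρ u) hy.2⟩,
    fun _ _ _ _ => trivial, subset_univ _⟩

theorem sc_deg {y : D.Rep} (hy : y ∈ D.Eg ρ) (p : D.Wt) (h : y p ≠ 0) :
    ρ p.1.2.2 = ρ p.1.2.1 + 1 := StEx_deg (y := y) (by rwa [gr, prd_of_mem hy])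

theorem isCompact_Flev (hν : D.Gen ν) : IsCompact (D.Flev ν ρ) := by
  have e : D.Flev ν ρ = D.M0 ∩ (D.dbl.Eg ρ ∩ D.dbl.Lev ν) := Subset.antisymm
    (fun y hy => ⟨hy.1.1.1, hy.1.2, hy.2⟩)
    fun y hy => ⟨⟨⟨hy.1, lev_stable (D := D.dbl) hν hy.2.2⟩, hy.2.1⟩, hy.2.2⟩
  refine Metric.isCompact_of_isClosed_isBounded
    (e ▸ isClosed_M0.inter (isClosed_Ed.inter isClosed_lev))
    ((Metric.isBounded_closedBall (x := 0)
      (r := √(-∑ o, (ρ o : ℝ) * D.dbl.th ν o))).subset fun y hy => ?_)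
  have h := nsq_le_of_acyclic (D := D.dbl) (ν := ν) (y := y) (η := fun o => (ρ o : ℝ))
    (fun p hp => by rw [sc_deg hy.1.2 p hp]; push_cast; rfl)
    fun o => by rw [show D.dbl.muR y = _ from hy.2, Matrix.neg_apply, dg, diagonal_apply_eq]
  rw [mem_closedBall_zero_iff, pi_norm_le_iff_of_nonneg (Real.sqrt_nonneg _)]
  exact fun p => Real.le_sqrt_of_sq_le ((Finset.single_le_sum (f := fun p => ‖y p‖ ^ 2)
    (fun _ _ => by positivity) (Finset.mem_univ p)).trans h)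

theorem knr_mem_Fr {y : D.dbl.Rep} (hy : y ∈ D.Fr ν ρ) {s : ℝ} (hs : s ∈ Icc (0 : ℝ) 1) :
    D.dbl.knr ν s y ∈ D.Fr ν ρ :=
  ⟨xs_knr (D := D) hy.1 hs, cj_mem_Ed (D := D.dbl) (knr_gu hy.1.2 hs)
    ((Grd.one.smul _).add ((kn_grd hy.1.2 (sc_deg hy.2)).smul _)) hy.2⟩

/-- induction from `K_ρ` to `K` -/
theorem Step.sr_s0_bij (h : D.Step ν ρ U) : Function.Bijective
    (gp (D.aR ρ) (D.iK ρ) id (D.S0 ν ρ) univ : EH D.dbl.aN (D.Sr ν ρ) univ → _) := by
  refine stackIso ⟨pr_S0, h.pr_Sr, continuousOn_id, fun _ _ _ => rfl, S0_sub_Sr,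
    fun _ _ _ => trivial⟩ (fun _ _ _ => trivial) ?_ (fun x hx x' hx' g e => ?_) fun K hK c => ?_
  · rintro _ ⟨k, hk, y, hy, rfl⟩
    obtain ⟨u, hu⟩ := exists_act (D := D.dbl) hk
    exact ⟨(u, 1), y, hy, hu y⟩
  · have k1 : KU D.cl (hat 1 g.1.1.1) := desc_ku g.1
    have k2 : D.dbl.cnj (hat 1 g.1.1.1) (D.dbl.sc (fun e => chr (D.dbl.t e) g.2) x) = x' :=
      (cj_sc _ _ _).trans e
    obtain ⟨v, hv⟩ := mem_range_iK (ρ := ρ) g (k1.grd_of_mfil
      (mfil_of_S0 (sc_mem_S0 (si_ne (D := D) g.2) (si_chr g.2) hx) k1.gu (k2 ▸ hx'.2.1)))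
    exact ⟨v, ⟨hv, by subst hv; exact e⟩, fun w hw => D.iK_inj ρ (hw.1.trans hv.symm)⟩
  · have e : D.S0 ν ρ ∩ id ⁻¹' K = K ∩ D.dbl.El ρ := Subset.antisymm
      (fun y hy => ⟨hy.2, hy.1.2.1⟩) fun y hy => ⟨S0_eq.ge ⟨hK hy.1, hy.2⟩, hy.1⟩
    exact e ▸ c.inter_right isClosed_Ed

theorem s0_fr_bij : Function.Bijective
    (gp (D.aR ρ) id id (D.Fr ν ρ) univ : EH (D.aR ρ) (D.S0 ν ρ) univ → _) := by
  have hc : Continuous fun z : ℝ × D.dbl.Rep => D.dbl.scl ρ (1 - z.1) z.2 :=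
    continuous_scl.comp ((continuous_const.sub continuous_fst).prodMk continuous_snd)
  refine gp_bij_retract pr_S0 pr_Fr Fr_sub_S0 (F := fun s => D.dbl.scl ρ (1 - s)) hc.continuousOn
    (fun s _ => ⟨pr_S0, pr_S0, (hc.comp (Continuous.prodMk_right s)).continuousOn,
      fun g x _ => ?_, fun x hx => scl_mem_S0 hx _, fun _ _ _ => trivial⟩)
    (fun s _ x hx => (scl_of_Eg hx.2 _).symm ▸ hx) (fun x _ => by rw [sub_zero, scl_one])
    fun x hx => ?_
  · rw [id, aR_act, aR_act, ← scl_cj (D := D.dbl) (ku_iK g.1).1.gu (ku_iK g.1).2]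
    funext p
    exact mul_left_comm _ _ _
  · rw [sub_self, scl_zero hx.2.1]
    exact gr_mem_Fr hx

theorem fr_flev_bij : Function.Bijective
    (gp (D.aR ρ) id id (D.Flev ν ρ) univ : EH (D.aR ρ) (D.Fr ν ρ) univ → _) := by
  have hc : ContinuousOn (fun z : ℝ × D.dbl.Rep => D.dbl.knr ν z.1 z.2) (Icc 0 1 ×ˢ D.Fr ν ρ) :=
    continuousOn_knr.mono (Set.prod_mono subset_rfl fun _ h => h.1.2)
  refine gp_bij_retract pr_Fr pr_Flev inter_subset_left (F := D.dbl.knr ν) hc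
    (fun s hs => ⟨pr_Fr, pr_Fr, hc.comp (f := fun x => (s, x))
      (Continuous.prodMk_right s).continuousOn fun x hx => ⟨hs, hx⟩,
      fun g x hx => knr_act (D := D.dbl) hx.1.2 (D.iK ρ g) hs, fun x hx => knr_mem_Fr hx hs,
      fun _ _ _ => trivial⟩) (fun s hs x hx => (knr_lev hx.1.1.2 hx.2 s).symm ▸ hx)
    (fun x _ => knr_zero x) fun x hx => ⟨knr_mem_Fr hx (by simp), knr_one hx.1.2⟩

theorem s0_flev_bij : Function.Bijective
    (gp (D.aR ρ) id id (D.Flev ν ρ) univ : EH (D.aR ρ) (D.S0 ν ρ) univ → _) := by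
  have h := (fr_flev_bij (D := D) (ν := ν) (ρ := ρ)).comp s0_fr_bij
  rwa [show (gp (D.aR ρ) id id (D.Flev ν ρ) univ : EH (D.aR ρ) (D.Fr ν ρ) univ → _) ∘
      (gp (D.aR ρ) id id (D.Fr ν ρ) univ : EH (D.aR ρ) (D.S0 ν ρ) univ → _) = _ from
    funext (gp_comp (gadm_id pr_S0 pr_Fr Fr_sub_S0 inter_subset_right)
      (gadm_id pr_Fr pr_Flev inter_subset_left inter_subset_right) (χ := id) (fun _ => rfl)
      (k := id) fun _ _ => rfl)] at h

end Qv

end Pool.Agent.Work.MP_849ab0_ag.G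
end
end

-- merged part: Pool.Agent.Work.MP_849ab0_ag.G.H2.EsJ
section
/-!
The diagonal theorem for quiver varieties.
-/

noncomputable section

set_option linter.unusedSectionVars false
set_option linter.unusedVariables false

namespace Pool.Agent.Work.MP_849ab0_ag.G

open Set Topology Matrix

namespace Qv

variable {I P E κ C : Type} [Fintype I] [DecidableEq I] [Fintype P] [DecidableEq P] [Fintype E]
  [Fintype κ] [DecidableEq κ] {D : Qv I P E κ} {ν : I → ℤ} {ρ : Option P → ℤ} {m : ℤ}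
  {r : Option P → ℤ} {c' : P → C} {a : Act (KT c' κ) D.dbl.Rep} [a.Ok] {Lv : Set D.dbl.Rep}

theorem Hy.ok (h : D.Hy ν ρ m r c' a Lv) : (D.esd ν ρ m r c' Lv).Ok a where
  ok0 := tdc_ok (D := D.dbl) h.gen _
  repσ := rep_sigR
  repL := h.repL
  repE := h.repE
  pr := h.pr
  contj := continuous_exz
  eqvj := h.eqvj
  contr := cont_rel2.comp continuous_exz
  eqvr := h.eqvr
  memj := h.memj
  contΦ := contPhi
  eqvΦ := h.eqvPhi
  aff := h.aff
  zero := h.zero
  contk := h.contk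
  eqvk := h.eqvk
  bdd := h.bdd
  wL := wL
  norm x hx := by
    have e : exz (D.dbl.pD ρ m 1) (rs0 _ x) = x := exz_rs0 ((h.lv x).1 hx).2.1
    obtain ⟨r', h1, h2⟩ := deriv_rel (p := D.lp.pD ρ m 2) (q := D.pS ρ m r) (rs0 (D.dbl.pD ρ m 1) x)
    obtain ⟨Φ', h3, h4⟩ := deriv_Phi (ν := ν) (r := r) (c' := c') (Lv := Lv) (rs0 _ x) x
    refine ⟨_, _, h.mem_diag hx, l1_si, h.orbit hx, r', Φ', h1, h3, fun δ ε k1 k2 k3 k4 => ?_⟩
    rw [h2, e] at k1
    rw [h4, e] at k2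
    exact h.tangent hx (funext fun z => congrFun k1 (.inl z)) (funext fun z => congrFun k1 (.inr z))
      k2 k3 k4
  dim := by
    have := card_pS (D := D) (ρ := ρ) (m := m) h.hr
    simp only [Fintype.card_sum]
    omega

theorem es_surj' (hν : D.Gen ν) (ρ : Option P → ℤ) :
    Function.Surjective (kpt (D.aR ρ) (D.Flev ν ρ)) := by
  obtain ⟨r, hr, -⟩ := exists_refine ρ
  have e : sd 0 1 = {1} := Set.ext fun k => by simp [sd, sub_eq_zero]
  have h : D.Hy ν ρ 0 r (D.cr ρ) (D.aR ρ) (D.Flev ν ρ) :=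
    ⟨hν, hr, fun a b => by simp [cr, sub_eq_zero], fun _ _ => rfl,
      fun y => by rw [e]; exact and_assoc, pr_Flev⟩
  exact h.ok.surj ⟨_, fun y hy _ => TD.nsq_le_of_pot (fun x => x.1.1.2.1) (fun x => x.1.1.2.2)
    (fun _ _ => rfl) hy ρ fun q _ => by
      have := q.2
      simp only [pD, e, dgr, mem_singleton_iff] at this
      omega⟩

end Qv

end Pool.Agent.Work.MP_849ab0_ag.G
end
end
end
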